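import Pool.Agent.P.MP_5be460_lc.Outer

namespace Pool.Agent.P.MP_5be460_lc

open Finset Module Polynomial

universe u

set_option linter.unusedSectionVars false

attribute [local instance 100] LieRing.ofAssociativeRing

variable {F : Type} [Field F] {Y : Type u}

lemma free_induction {P : FreeLieAlgebra F Y → Prop} (h0 : P 0)
    (hof : ∀ y, P (FreeLieAlgebra.of F y)) (hadd : ∀ x y, P x → P y → P (x + y))
    (hsmul : ∀ (c : F) x, P x → P (c • x)) (hlie : ∀ x y, P x → P y → P ⁅x, y⁆)
    (u : FreeLieAlgebra F Y) : P u := by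
  let S : LieSubalgebra F (FreeLieAlgebra F Y) :=
    { carrier := {u | P u}
      add_mem' := fun {x y} => hadd x y
      zero_mem' := h0
      smul_mem' := hsmul
      lie_mem' := fun {x y} => hlie x y }
  let f : FreeLieAlgebra F Y →ₗ⁅F⁆ S := FreeLieAlgebra.lift F fun y => ⟨_, hof y⟩
  have h : S.incl.comp f = LieHom.id := FreeLieAlgebra.hom_ext fun y => by simp [f]
  have h1 : (f u : FreeLieAlgebra F Y) = u := LieHom.congr_fun h u
  exact h1 ▸ (f u).2

/-- the canonical map from the free Lie algebra to the free associative algebra. -/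
noncomputable def toAssoc (F : Type) [Field F] (Y : Type u) :
    FreeLieAlgebra F Y →ₗ[F] FreeAlgebra F Y :=
  (FreeLieAlgebra.lift F (FreeAlgebra.ι F) : FreeLieAlgebra F Y →ₗ⁅F⁆ FreeAlgebra F Y).toLinearMap

lemma toAssoc_of (y : Y) : toAssoc F Y (FreeLieAlgebra.of F y) = FreeAlgebra.ι F y :=
  FreeLieAlgebra.lift_of_apply _ _

lemma toAssoc_lie (x y : FreeLieAlgebra F Y) :
    toAssoc F Y ⁅x, y⁆ = cm (toAssoc F Y x) (toAssoc F Y y) :=
  LieHom.map_lie _ x y

lemma toAssoc_mem (u : FreeLieAlgebra F Y) : toAssoc F Y u ∈ lieElt F Y := by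
  induction u using free_induction with
  | h0 => simp
  | hof y => rw [toAssoc_of]; exact ι_mem_lie y
  | hadd x y hx hy => rw [map_add]; exact add_mem hx hy
  | hsmul c x hx => rw [map_smul]; exact Submodule.smul_mem _ c hx
  | hlie x y hx hy => rw [toAssoc_lie]; exact cm_mem_lie hx hy

/-- the adjoint action of the free associative algebra. -/
noncomputable def adA (F : Type) [Field F] (Y : Type u) :
    FreeAlgebra F Y →ₐ[F] Module.End F (FreeLieAlgebra F Y) :=
  FreeAlgebra.lift F fun y => LieAlgebra.ad F _ (FreeLieAlgebra.of F y)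

lemma adA_toAssoc (u v : FreeLieAlgebra F Y) : adA F Y (toAssoc F Y u) v = ⁅u, v⁆ := by
  induction u using free_induction generalizing v with
  | h0 => simp
  | hof y => simp [toAssoc_of, adA]
  | hadd x y hx hy => simp [hx, hy]
  | hsmul c x hx => simp [hx]
  | hlie x y hx hy => simp [toAssoc_lie, cm, hx, hy]

/-- right-normed brackets. -/
noncomputable def dynW (F : Type) [Field F] : List Y → FreeLieAlgebra F Y
  | [] => 0
  | [x] => FreeLieAlgebra.of F x
  | x :: y :: l => ⁅FreeLieAlgebra.of F x, dynW F (y :: l)⁆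

/-- the Dynkin map. -/
noncomputable def dyn (F : Type) [Field F] (Y : Type u) :
    FreeAlgebra F Y →ₗ[F] FreeLieAlgebra F Y := onWords (dynW F)

lemma dyn_mul_ι (f : FreeAlgebra F Y) (x : Y) :
    dyn F Y (f * FreeAlgebra.ι F x) = adA F Y f (FreeLieAlgebra.of F x) := by
  induction f using word_induction with
  | h0 => simp
  | hw l =>
    rw [← word_single, ← word_append, dyn, onWords_word]
    induction l with
    | nil => simp [dynW]
    | cons y l ih =>
      rw [word_cons, map_mul, Module.End.mul_apply, ← ih]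
      cases l <;> simp [dynW, adA]
  | hadd f g h h' => simp [add_mul, h, h']
  | hsmul c f h => simp [h]

lemma dyn_mul (f : FreeAlgebra F Y) (u : FreeLieAlgebra F Y) :
    dyn F Y (f * toAssoc F Y u) = adA F Y f (dyn F Y (toAssoc F Y u)) := by
  induction u using free_induction generalizing f with
  | h0 => simp
  | hof y =>
    have h := dyn_mul_ι (1 : FreeAlgebra F Y) y
    rw [one_mul] at h
    rw [toAssoc_of, dyn_mul_ι, h, map_one, Module.End.one_apply]
  | hadd x y hx hy => simp [mul_add, hx, hy]
  | hsmul c x hx => simp [hx]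
  | hlie x y hx hy =>
    rw [toAssoc_lie, cm, mul_sub, map_sub, map_sub, ← mul_assoc, ← mul_assoc, hx, hy, hx, hy]
    simp

theorem toAssoc_injective [CharZero F] : Function.Injective (toAssoc F Y) := by
  let E : Module.End F (FreeLieAlgebra F Y) := (dyn F Y).comp (toAssoc F Y)
  have hE : ∀ x y, E ⁅x, y⁆ = ⁅E x, y⁆ + ⁅x, E y⁆ := by
    intro x y
    simp only [E, LinearMap.comp_apply]
    rw [toAssoc_lie, cm, map_sub, dyn_mul, dyn_mul, adA_toAssoc, adA_toAssoc, ← lie_skew _ y]
    abel
  have hof : ∀ y, E (FreeLieAlgebra.of F y) = FreeLieAlgebra.of F y := by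
    intro y
    simp only [E, LinearMap.comp_apply]
    rw [toAssoc_of, ← word_single, dyn, onWords_word, dynW]
  let S := Submodule.span F {u | ∃ n : ℕ, E u = ((n + 1 : ℕ) : F) • u}
  have hS : ∀ u, u ∈ S := by
    intro u
    induction u using free_induction with
    | h0 => exact zero_mem _
    | hof y => exact Submodule.subset_span ⟨0, by simp [hof]⟩
    | hadd x y hx hy => exact add_mem hx hy
    | hsmul c x hx => exact Submodule.smul_mem _ c hx
    | hlie x y hx hy =>
      induction hx using Submodule.span_induction with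
      | mem x hx =>
        induction hy using Submodule.span_induction with
        | mem y hy =>
          obtain ⟨m, hm⟩ := hx
          obtain ⟨n, hn⟩ := hy
          refine Submodule.subset_span ⟨m + n + 1, ?_⟩
          rw [hE, hm, hn, smul_lie, lie_smul, ← add_smul]
          congr 1
          push_cast
          ring
        | zero => rw [lie_zero]; exact zero_mem _
        | add _ _ _ _ h h' => rw [lie_add]; exact add_mem h h'
        | smul c _ _ h => rw [lie_smul]; exact Submodule.smul_mem _ c h
      | zero => rw [zero_lie]; exact zero_mem _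
      | add _ _ _ _ h h' => rw [add_lie]; exact add_mem h h'
      | smul c _ _ h => rw [smul_lie]; exact Submodule.smul_mem _ c h
  have hle : S ≤ ⨆ μ ≠ (0 : F), E.eigenspace μ := by
    refine Submodule.span_le.2 ?_
    rintro u ⟨n, hn⟩
    refine Submodule.mem_iSup_of_mem ((n + 1 : ℕ) : F) (Submodule.mem_iSup_of_mem
      (Nat.cast_ne_zero.2 n.succ_ne_zero) ?_)
    exact Module.End.mem_eigenspace_iff.2 hn
  rw [injective_iff_map_eq_zero]
  intro u hu
  refine (Submodule.disjoint_def.1 (E.eigenspaces_iSupIndep 0)) u ?_ (hle (hS u))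
  rw [Module.End.mem_eigenspace_iff]
  simp [E, hu]

lemma exists_lie_ne [Nontrivial Y] : ∃ a y : FreeLieAlgebra F Y, ⁅a, y⁆ ≠ 0 := by
  classical
  obtain ⟨x, y, hxy⟩ := exists_pair_ne Y
  refine ⟨FreeLieAlgebra.of F x, FreeLieAlgebra.of F y, fun h => ?_⟩
  have h1 := congrArg (fun u => onWords (F := F) (fun l => if l = [x, y] then (1 : F) else 0)
    (toAssoc F Y u)) h
  simp only [toAssoc_lie, toAssoc_of, cm, map_sub, map_zero, ← word_single, ← word_append,
    onWords_word] at h1
  simp [hxy.symm] at h1

end Pool.Agent.P.MP_5be460_lc
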