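import Pool.Agent.P.MP_5be460_lc.Defs

/-! Unique readability of the Polish strings. -/

namespace Pool.Agent.P.MP_5be460_lc.Code

theorem rterm (s : RTerm) : ∀ (t : RTerm) (l m : List ℕ),
    s.string ++ l = t.string ++ m → s = t ∧ l = m := by
  induction s with
  | var n =>
    intro t l m h
    cases t <;> simp [RTerm.string] at h ⊢ <;> first | omega | exact ⟨by omega, h.2⟩
  | zero => intro t l m h; cases t <;> simp [RTerm.string] at h ⊢ <;> first | omega | exact h
  | one => intro t l m h; cases t <;> simp [RTerm.string] at h ⊢ <;> first | omega | exact h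
  | add a b iha ihb =>
    intro t l m h
    cases t with
    | add c d =>
      have h1 : a.string ++ (b.string ++ l) = c.string ++ (d.string ++ m) := by
        simpa [RTerm.string] using h
      obtain ⟨rfl, h2⟩ := iha _ _ _ h1
      obtain ⟨rfl, h3⟩ := ihb _ _ _ h2
      exact ⟨rfl, h3⟩
    | _ => simp [RTerm.string] at h <;> omega
  | mul a b iha ihb =>
    intro t l m h
    cases t with
    | mul c d =>
      have h1 : a.string ++ (b.string ++ l) = c.string ++ (d.string ++ m) := by
        simpa [RTerm.string] using h
      obtain ⟨rfl, h2⟩ := iha _ _ _ h1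
      obtain ⟨rfl, h3⟩ := ihb _ _ _ h2
      exact ⟨rfl, h3⟩
    | _ => simp [RTerm.string] at h <;> omega

theorem lterm (s : LTerm) : ∀ (t : LTerm) (l m : List ℕ),
    s.string ++ l = t.string ++ m → s = t ∧ l = m := by
  induction s with
  | var n =>
    intro t l m h
    cases t <;> simp [LTerm.string] at h ⊢ <;> first | omega | exact ⟨by omega, h.2⟩
  | zero => intro t l m h; cases t <;> simp [LTerm.string] at h ⊢ <;> first | omega | exact h
  | add a b iha ihb =>
    intro t l m h
    cases t with
    | add c d =>
      have h1 : a.string ++ (b.string ++ l) = c.string ++ (d.string ++ m) := by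
        simpa [LTerm.string] using h
      obtain ⟨rfl, h2⟩ := iha _ _ _ h1
      obtain ⟨rfl, h3⟩ := ihb _ _ _ h2
      exact ⟨rfl, h3⟩
    | _ => simp [LTerm.string] at h <;> omega
  | lie a b iha ihb =>
    intro t l m h
    cases t with
    | lie c d =>
      have h1 : a.string ++ (b.string ++ l) = c.string ++ (d.string ++ m) := by
        simpa [LTerm.string] using h
      obtain ⟨rfl, h2⟩ := iha _ _ _ h1
      obtain ⟨rfl, h3⟩ := ihb _ _ _ h2
      exact ⟨rfl, h3⟩
    | _ => simp [LTerm.string] at h <;> omega
  | smul a b ihb =>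
    intro t l m h
    cases t with
    | smul c d =>
      have h1 : a.string ++ (b.string ++ l) = c.string ++ (d.string ++ m) := by
        simpa [LTerm.string] using h
      obtain ⟨rfl, h2⟩ := rterm _ _ _ _ h1
      obtain ⟨rfl, h3⟩ := ihb _ _ _ h2
      exact ⟨rfl, h3⟩
    | _ => simp [LTerm.string] at h <;> omega

theorem rform (s : RForm) : ∀ (t : RForm) (l m : List ℕ),
    s.string ++ l = t.string ++ m → s = t ∧ l = m := by
  induction s with
  | eq a b =>
    intro t l m h
    cases t with
    | eq c d =>
      have h1 : a.string ++ (b.string ++ l) = c.string ++ (d.string ++ m) := by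
        simpa [RForm.string] using h
      obtain ⟨rfl, h2⟩ := rterm _ _ _ _ h1
      obtain ⟨rfl, h3⟩ := rterm _ _ _ _ h2
      exact ⟨rfl, h3⟩
    | _ => simp [RForm.string] at h
  | not a iha =>
    intro t l m h
    cases t with
    | not c =>
      have h1 : a.string ++ l = c.string ++ m := by simpa [RForm.string] using h
      obtain ⟨rfl, h2⟩ := iha _ _ _ h1
      exact ⟨rfl, h2⟩
    | _ => simp [RForm.string] at h
  | and a b iha ihb =>
    intro t l m h
    cases t with
    | and c d =>
      have h1 : a.string ++ (b.string ++ l) = c.string ++ (d.string ++ m) := by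
        simpa [RForm.string] using h
      obtain ⟨rfl, h2⟩ := iha _ _ _ h1
      obtain ⟨rfl, h3⟩ := ihb _ _ _ h2
      exact ⟨rfl, h3⟩
    | _ => simp [RForm.string] at h

theorem lform (s : LForm) : ∀ (t : LForm) (l m : List ℕ),
    s.string ++ l = t.string ++ m → s = t ∧ l = m := by
  induction s with
  | eqR a b =>
    intro t l m h
    cases t with
    | eqR c d =>
      have h1 : a.string ++ (b.string ++ l) = c.string ++ (d.string ++ m) := by
        simpa [LForm.string] using h
      obtain ⟨rfl, h2⟩ := rterm _ _ _ _ h1
      obtain ⟨rfl, h3⟩ := rterm _ _ _ _ h2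
      exact ⟨rfl, h3⟩
    | _ => simp [LForm.string] at h
  | eqL a b =>
    intro t l m h
    cases t with
    | eqL c d =>
      have h1 : a.string ++ (b.string ++ l) = c.string ++ (d.string ++ m) := by
        simpa [LForm.string] using h
      obtain ⟨rfl, h2⟩ := lterm _ _ _ _ h1
      obtain ⟨rfl, h3⟩ := lterm _ _ _ _ h2
      exact ⟨rfl, h3⟩
    | _ => simp [LForm.string] at h
  | not a iha =>
    intro t l m h
    cases t with
    | not c =>
      have h1 : a.string ++ l = c.string ++ m := by simpa [LForm.string] using h
      obtain ⟨rfl, h2⟩ := iha _ _ _ h1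
      exact ⟨rfl, h2⟩
    | _ => simp [LForm.string] at h
  | and a b iha ihb =>
    intro t l m h
    cases t with
    | and c d =>
      have h1 : a.string ++ (b.string ++ l) = c.string ++ (d.string ++ m) := by
        simpa [LForm.string] using h
      obtain ⟨rfl, h2⟩ := iha _ _ _ h1
      obtain ⟨rfl, h3⟩ := ihb _ _ _ h2
      exact ⟨rfl, h3⟩
    | _ => simp [LForm.string] at h

end Pool.Agent.P.MP_5be460_lc.Code
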