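import Pool.Agent.P.MP_5be460_lc.Pit

namespace Pool.Agent.P.MP_5be460_lc

open Finset Pool.Agent.Lib.PrimrecProp

/-- a bound for the number of variables. -/
def nvars (l : List ℕ) : ℕ := 2 * (l.foldr (· + ·) 0 + l.length) + 2

lemma le_foldr {l : List ℕ} {c : ℕ} (h : c ∈ l) : c ≤ l.foldr (· + ·) 0 := by
  induction l with
  | nil => simp at h
  | cons a l ih =>
    rcases List.mem_cons.1 h with rfl | h
    · exact Nat.le_add_right _ _
    · exact (ih h).trans (Nat.le_add_left _ _)

lemma outs_range {α : Type} (o : Ops α) (g : ℕ → α) (l : List ℕ) :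
    outs o ((List.range (nvars l)).map g) l =
      (stk o (fun c => g (2 * c)) (fun k => g (2 * k + 1)) l).getD 0 o.zero ::
        cns o (fun c => g (2 * c)) (fun k => g (2 * k + 1)) l := by
  have h1 : ∀ i < nvars l, ((List.range (nvars l)).map g).getD i o.zero = g i := fun i hi => by
    simp [List.getD_eq_getElem?_getD, hi]
  obtain ⟨h2, h3⟩ := run_congr o (l := l)
    (ρ := fun c => ((List.range (nvars l)).map g).getD (2 * c) o.zero)
    (τ := fun k => ((List.range (nvars l)).map g).getD (2 * k + 1) o.zero)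
    (ρ' := fun c => g (2 * c)) (τ' := fun k => g (2 * k + 1))
    (fun c hc => h1 _ (by have := le_foldr hc; unfold nvars; omega))
    (fun k hk => h1 _ (by unfold nvars; omega))
  rw [outs, h2, h3]

/-- solvability of the system attached to a string. -/
def Sol (F : Type) [Field F] (l : List ℕ) : Prop :=
  ∃ pt : List F, ∀ x ∈ outs (ringOps F) pt l, x = 0

lemma forall_getD {R : Type} [Zero R] {L : List R} {n : ℕ} (hn : L.length ≤ n) :
    (∀ x ∈ L, x = 0) ↔ ∀ j < n, L.getD j 0 = 0 := by
  constructor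
  · intro h j _
    rcases lt_or_ge j L.length with h1 | h1
    · rw [List.getD_eq_getElem _ _ h1]; exact h _ (List.getElem_mem h1)
    · exact List.getD_eq_default _ _ h1
  · intro h x hx
    obtain ⟨i, hi, rfl⟩ := List.getElem_of_mem hx
    rw [← List.getD_eq_getElem _ 0 hi]
    exact h i (hi.trans_le hn)

/-- check of a Nullstellensatz certificate. -/
def checkA (l : List ℕ) (hs : List (List ℕ)) : Bool :=
  pit (nvars l) (exprA degOps (fun _ => 0) (ones (nvars l)) l hs) fun pt =>
    exprA triOps cstT pt l hs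

/-- check of a certificate for an algebraic solution. -/
def checkB (l : List ℕ) (c : List ℕ × List (List ℕ) × List (List ℕ) × ℕ) : Bool :=
  ((List.range (l.length + 1)).all fun j =>
    pit 1 (exprB degOps (fun _ => 0) (ones 1) l c.1 c.2.1 c.2.2.1 j) fun pt =>
      exprB triOps cstT pt l c.1 c.2.1 c.2.2.1 j) &&
  !(eqb (triOps.sub (val triOps cstT [(c.2.2.2, 0, 0)] c.1) (val triOps cstT [(0, 0, 0)] c.1)).1
    (triOps.sub (val triOps cstT [(c.2.2.2, 0, 0)] c.1) (val triOps cstT [(0, 0, 0)] c.1)).2.1)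

lemma checkA_primrec : Primrec fun p : List ℕ × List (List ℕ) => checkA p.1 p.2 := by
  have h1 : Primrec fun p : List ℕ × List (List ℕ) => nvars p.1 := by unfold nvars; fun_prop
  have h2 : Primrec fun p : List ℕ × List (List ℕ) => ones (nvars p.1) := by unfold ones; fun_prop
  exact pit_primrec h1 (exprA_primrec degOps_pr (Primrec.const 0) h2 (by fun_prop) (by fun_prop))
    (exprA_primrec triOps_pr cstT_primrec (by fun_prop) (by fun_prop) (by fun_prop))

lemma checkB_primrec : Primrec fun p : List ℕ × List ℕ × List (List ℕ) × List (List ℕ) × ℕ =>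
    checkB p.1 p.2 := by
  have h1 : Primrec fun p : List ℕ × List ℕ × List (List ℕ) × List (List ℕ) × ℕ =>
      triOps.sub (val triOps cstT [(p.2.2.2.2, 0, 0)] p.2.1) (val triOps cstT [(0, 0, 0)] p.2.1) :=
    triOps_pr.psub (val_primrec triOps_pr cstT_primrec (by fun_prop) (by fun_prop))
      (val_primrec triOps_pr cstT_primrec (by fun_prop) (by fun_prop))
  refine p_and (p_all (g := fun (p : List ℕ × List ℕ × List (List ℕ) × List (List ℕ) × ℕ) j =>
    pit 1 (exprB degOps (fun _ => 0) (ones 1) p.1 p.2.1 p.2.2.1 p.2.2.2.1 j) fun pt =>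
      exprB triOps cstT pt p.1 p.2.1 p.2.2.1 p.2.2.2.1 j) (by fun_prop) ?_)
    (p_not (p_eqb (p_fst h1) (p_fst (p_snd h1))))
  exact pit_primrec (Primrec.const 1)
    (exprB_primrec degOps_pr (Primrec.const 0) (Primrec.const _) (by fun_prop) (by fun_prop)
      (by fun_prop) (by fun_prop) (by fun_prop))
    (exprB_primrec triOps_pr cstT_primrec (by fun_prop) (by fun_prop) (by fun_prop)
      (by fun_prop) (by fun_prop) (by fun_prop))

lemma natural_exprA (l : List ℕ) (hs : List (List ℕ)) :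
    Natural fun o cst pt => exprA o cst pt l hs := fun h cst pt => exprA_map h cst pt l hs

lemma natural_exprB (l f : List ℕ) (as cs : List (List ℕ)) (j : ℕ) :
    Natural fun o cst pt => exprB o cst pt l f as cs j :=
  fun h cst pt => exprB_map h cst pt l f as cs j

lemma exprA_ring {R : Type} [CommRing R] (cst : ℕ → R) (pt : List R) (l : List ℕ)
    (hs : List (List ℕ)) : exprA (ringOps R) cst pt l hs = 1 - ∑ j ∈ range (l.length + 1),
      val (ringOps R) cst pt (hs.getD j []) * (outs (ringOps R) pt l).getD j 0 := by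
  have h : ∀ (a : ℕ → R) (L : List ℕ), L.foldr (fun j acc => a j + acc) 0 = (L.map a).sum := by
    intro a L
    induction L with
    | nil => rfl
    | cons j L ih => rw [List.foldr_cons, ih, List.map_cons, List.sum_cons]
  exact congrArg (1 - ·) (h _ _)

lemma exprB_ring {R : Type} [CommRing R] (cst : ℕ → R) (pt : List R) (l f : List ℕ)
    (as cs : List (List ℕ)) (j : ℕ) : exprB (ringOps R) cst pt l f as cs j =
      (outs (ringOps R) (as.map (val (ringOps R) cst pt)) l).getD j 0 -
        val (ringOps R) cst pt f * val (ringOps R) cst pt (cs.getD j []) := rfl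

variable (F : Type) [Field F] [CharZero F]

lemma checkA_sound {l : List ℕ} {hs : List (List ℕ)} (h : checkA l hs = true) : ¬Sol F l := by
  rintro ⟨pt, hpt⟩
  have h1 := pit_sound (natural_exprA l hs) h F ((List.range (nvars l)).map fun i => pt.getD i 0)
    (by simp)
  rw [exprA_ring, outs_range, sum_eq_zero, sub_zero] at h1
  · exact one_ne_zero h1
  · intro j hj
    exact mul_eq_zero_of_right _ ((forall_getD (outs_length _ pt l)).1 hpt j (mem_range.1 hj))

lemma val_poly (R : Type) [CommRing R] [Algebra ℚ R] (x : R) (f : List ℕ) :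
    Polynomial.aeval x (val (ringOps (Polynomial ℚ)) (cstR _) [Polynomial.X] f) =
      val (ringOps R) (cstR R) [x] f := by
  rw [val_map (ring_hom (Polynomial.aeval x : Polynomial ℚ →ₐ[ℚ] R)), alg_cstR]
  simp

lemma toQ_diff (k : ℕ) (f : List ℕ) :
    toQ (triOps.sub (val triOps cstT [(k, 0, 0)] f) (val triOps cstT [(0, 0, 0)] f)) =
      (val (ringOps (Polynomial ℚ)) (cstR _) [Polynomial.X] f).eval (k : ℚ) -
        (val (ringOps (Polynomial ℚ)) (cstR _) [Polynomial.X] f).eval 0 := by
  rw [toQ_hom.sub, val_map toQ_hom, val_map toQ_hom, toQ_cstT, ← Polynomial.coe_aeval_eq_eval,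
    ← Polynomial.coe_aeval_eq_eval, val_poly, val_poly]
  simp [toQ, ringOps]

lemma checkB_sound [IsAlgClosed F] {l : List ℕ} {c : List ℕ × List (List ℕ) × List (List ℕ) × ℕ}
    (h : checkB l c = true) : Sol F l := by
  obtain ⟨f, as, cs, k⟩ := c
  simp only [checkB, Bool.and_eq_true, List.all_eq_true, List.mem_range, Bool.not_eq_true',
    ← Bool.not_eq_true, eqb_iff, ← toQ_eq_zero, toQ_diff] at h
  obtain ⟨h1, h2⟩ := h
  obtain ⟨θ, hθ⟩ := IsAlgClosed.exists_aeval_eq_zero F
    (val (ringOps (Polynomial ℚ)) (cstR _) [Polynomial.X] f) fun h3 => by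
      rw [Polynomial.eq_C_of_degree_eq_zero h3] at h2
      simp at h2
  rw [val_poly] at hθ
  refine ⟨as.map (val (ringOps F) (cstR F) [θ]), (forall_getD (outs_length _ _ l)).2 fun j hj => ?_⟩
  have h3 := pit_sound (natural_exprB l f as cs j) (h1 j hj) F [θ] rfl
  rwa [exprB_ring, hθ, zero_mul, sub_zero] at h3

open MvPolynomial in
lemma check_complete (l : List ℕ) : (∃ hs, checkA l hs = true) ∨ ∃ c, checkB l c = true := by
  let A := MvPolynomial (Fin (nvars l)) ℚ
  let g : Fin (l.length + 1) → A := fun j => (outs (ringOps A) (List.ofFn X) l).getD j 0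
  by_cases h : Ideal.span (Set.range g) = ⊤
  · left
    obtain ⟨c, hc⟩ := Ideal.mem_span_range_iff_exists_fun.1 ((Ideal.eq_top_iff_one _).1 h)
    have h1 : ∀ r : A, ∃ s, val (ringOps A) (cstR A) (List.ofFn X) s = r := fun r =>
      (ex_all _ (by
        have h2 : {x : A | x ∈ List.ofFn X} = Set.range X := by
          ext x; simp [List.mem_ofFn']
        rw [h2, adjoin_range_X]; trivial)).exists_val
    choose s hs using h1
    refine ⟨List.ofFn fun j => s (c j), pit_complete (natural_exprA l _) (fun pt hpt => ?_) _⟩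
    have h2 : exprA (ringOps A) (cstR A) (List.ofFn X) l (List.ofFn fun j => s (c j)) = 0 := by
      rw [exprA_ring, sum_range, ← hc, sub_eq_zero]
      refine sum_congr rfl fun j _ => ?_
      rw [List.getD_eq_getElem _ _ (by simpa only [List.length_ofFn] using j.2), List.getElem_ofFn,
        hs]
    have h3 := exprA_map (ring_hom (aeval (fun i : Fin (nvars l) => pt.get (i.cast hpt.symm)) :
      A →ₐ[ℚ] ℚ)) (cstR A) (List.ofFn X) l (List.ofFn fun j => s (c j))
    rw [h2, map_zero, alg_cstR, List.map_ofFn] at h3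
    rw [h3]
    congr 1
    refine List.ext_get (by simp [hpt]) fun i h4 h5 => ?_
    simp
  · right
    obtain ⟨M, hM, hle⟩ := Ideal.exists_le_maximal _ h
    let K := A ⧸ M
    let : Field K := Ideal.Quotient.field M
    have : Module.Finite ℚ K := finite_of_finite_type_of_isJacobsonRing ℚ K
    let pb := Field.powerBasisOfFiniteOfSeparable ℚ K
    have h1 : ∀ r : Polynomial ℚ, ∃ s, val (ringOps _) (cstR _) [Polynomial.X] s = r := fun r =>
      (ex_all _ (by
        have h2 : {x : Polynomial ℚ | x ∈ [Polynomial.X]} = {Polynomial.X} := by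
          ext x; simp
        rw [h2, Polynomial.adjoin_X]; trivial)).exists_val
    choose s hs using h1
    choose a ha using fun i : Fin (nvars l) => pb.exists_eq_aeval' (Ideal.Quotient.mkₐ ℚ M (X i))
    have h2 : ∀ j : Fin (l.length + 1), minpoly ℚ pb.gen ∣
        (outs (ringOps _) (List.ofFn a) l).getD j 0 := by
      intro j
      apply minpoly.dvd
      have h3 := (ring_hom (Polynomial.aeval pb.gen : Polynomial ℚ →ₐ[ℚ] K)).getD
        (outs (ringOps _) (List.ofFn a) l) j
      have h4 := (ring_hom (Ideal.Quotient.mkₐ ℚ M)).getD (outs (ringOps A) (List.ofFn X) l) j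
      rw [outs_map (ring_hom _), List.map_ofFn] at h3 h4
      have h5 : (Polynomial.aeval pb.gen : Polynomial ℚ →ₐ[ℚ] K) ∘ a =
          (Ideal.Quotient.mkₐ ℚ M) ∘ X := funext fun i => (ha i).symm
      rw [h5] at h3
      refine h3.trans (h4.symm.trans ?_)
      exact Ideal.Quotient.eq_zero_iff_mem.2 (hle (Ideal.subset_span ⟨j, rfl⟩))
    choose c hc using h2
    obtain ⟨k, hk⟩ : ∃ k : ℕ, (minpoly ℚ pb.gen).eval (k : ℚ) - (minpoly ℚ pb.gen).eval 0 ≠ 0 := by
      by_contra h3
      push Not at h3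
      have h4 : minpoly ℚ pb.gen - Polynomial.C ((minpoly ℚ pb.gen).eval 0) = 0 :=
        Polynomial.eq_zero_of_infinite_isRoot _
          ((Set.infinite_range_of_injective Nat.cast_injective).mono (by
            rintro _ ⟨k, rfl⟩
            simpa using h3 k))
      have h5 := minpoly.natDegree_pos pb.isIntegral_gen
      rw [sub_eq_zero.1 h4, Polynomial.natDegree_C] at h5
      exact lt_irrefl _ h5
    refine ⟨(s (minpoly ℚ pb.gen), List.ofFn fun i => s (a i), List.ofFn fun j => s (c j), k), ?_⟩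
    simp only [checkB, Bool.and_eq_true, List.all_eq_true, List.mem_range, Bool.not_eq_true',
      ← Bool.not_eq_true, eqb_iff, ← toQ_eq_zero, toQ_diff, hs]
    refine ⟨fun j hj => pit_complete (natural_exprB l _ _ _ j) (fun pt hpt => ?_) _, hk⟩
    obtain ⟨x, rfl⟩ := List.length_eq_one_iff.1 hpt
    have h2 : exprB (ringOps (Polynomial ℚ)) (cstR _) [Polynomial.X] l (s (minpoly ℚ pb.gen))
        (List.ofFn fun i => s (a i)) (List.ofFn fun j => s (c j)) j = 0 := by
      have h3 : (List.ofFn fun j => s (c j)).getD j [] = s (c ⟨j, hj⟩) := by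
        rw [List.getD_eq_getElem _ _ (by simpa using hj), List.getElem_ofFn]
      rw [exprB_ring, List.map_ofFn, h3, hs, hs, sub_eq_zero, ← hc ⟨j, hj⟩]
      congr 3
      exact funext fun i => hs _
    have h3 := exprB_map (ring_hom (Polynomial.aeval x : Polynomial ℚ →ₐ[ℚ] ℚ)) (cstR _)
      [Polynomial.X] l (s (minpoly ℚ pb.gen)) (List.ofFn fun i => s (a i))
      (List.ofFn fun j => s (c j)) j
    rw [h2, map_zero, alg_cstR] at h3
    simpa using h3.symm

lemma re_exists {α C : Type} [Primcodable α] [Primcodable C] {p : α → C → Bool}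
    (hp : Primrec fun x : α × C => p x.1 x.2) : REPred fun a => ∃ c, p a c = true := by
  have h1 : Primrec₂ fun (a : α) (n : ℕ) => ((Encodable.decode (α := C) n).map (p a)).getD false :=
    Primrec.option_getD.comp (Primrec.option_map (Primrec.decode.comp Primrec.snd)
      (hp.comp ((Primrec.fst.comp Primrec.fst).pair Primrec.snd)).to₂) (Primrec.const false)
  refine (Partrec.rfind (p := fun a n => Part.some (((Encodable.decode (α := C) n).map
    (p a)).getD false)) h1.to_comp.partrec₂).dom_re.of_eq fun a => ?_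
  rw [Nat.rfind_dom]
  constructor
  · rintro ⟨n, hn, -⟩
    rcases h : Encodable.decode (α := C) n with _ | c
    · simp [h] at hn
    · exact ⟨c, by simpa [h] using hn⟩
  · rintro ⟨c, hc⟩
    exact ⟨Encodable.encode c, by simp [hc], fun _ => trivial⟩

theorem sol_computable [IsAlgClosed F] : ComputablePred (Sol F) := by
  refine ComputablePred.computable_iff_re_compl_re'.2
    ⟨(re_exists checkB_primrec).of_eq fun l => ⟨fun ⟨_, h⟩ => checkB_sound F h, fun h => ?_⟩,
      (re_exists checkA_primrec).of_eq fun l => ⟨fun ⟨_, h⟩ => checkA_sound F h, fun h => ?_⟩⟩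
  · exact (check_complete l).resolve_left fun ⟨_, h'⟩ => checkA_sound F h' h
  · exact (check_complete l).resolve_right fun ⟨_, h'⟩ => h (checkB_sound F h')

omit [CharZero F]

variable {F}

lemma run_term (ρ τ : ℕ → F) (t : RTerm) (rest : List ℕ) :
    stk (ringOps F) ρ τ (t.string ++ rest) =
        t.value (fun n => ρ (2 * n + 12)) :: stk (ringOps F) ρ τ rest ∧
      cns (ringOps F) ρ τ (t.string ++ rest) = cns (ringOps F) ρ τ rest := by
  induction t generalizing rest with
  | var n =>
    change stk _ ρ τ ((2 * n + 12) :: rest) = _ ∧ cns _ ρ τ ((2 * n + 12) :: rest) = _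
    rw [stk_cons, cns_cons, stepS_sym _ _ _ (by omega)]
    have h : eqb (2 * n + 12) 8 = false := by simp [eqb]
    exact ⟨rfl, by simp [stepC, h]⟩
  | zero => exact ⟨stk_cons _ _ _ 0 rest, cns_cons _ _ _ 0 rest⟩
  | one => exact ⟨stk_cons _ _ _ 1 rest, cns_cons _ _ _ 1 rest⟩
  | add s t hs ht =>
    change stk _ ρ τ (2 :: (s.string ++ t.string ++ rest)) = _ ∧
      cns _ ρ τ (2 :: (s.string ++ t.string ++ rest)) = _
    rw [stk_cons, cns_cons, List.append_assoc, (hs _).1, (hs _).2, (ht _).1, (ht _).2]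
    exact ⟨rfl, rfl⟩
  | mul s t hs ht =>
    change stk _ ρ τ (3 :: (s.string ++ t.string ++ rest)) = _ ∧
      cns _ ρ τ (3 :: (s.string ++ t.string ++ rest)) = _
    rw [stk_cons, cns_cons, List.append_assoc, (hs _).1, (hs _).2, (ht _).1, (ht _).2]
    exact ⟨rfl, rfl⟩

lemma run_form (ρ τ : ℕ → F) (φ : RForm) (rest : List ℕ) :
    ∃ (e : F) (cs : List F),
      stk (ringOps F) ρ τ (φ.string ++ rest) = e :: stk (ringOps F) ρ τ rest ∧
      cns (ringOps F) ρ τ (φ.string ++ rest) = cs ++ cns (ringOps F) ρ τ rest ∧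
      ((∀ c ∈ cs, c = 0) → (e = 1 ∧ φ.Holds fun n => ρ (2 * n + 12)) ∨
        (e = 0 ∧ ¬φ.Holds fun n => ρ (2 * n + 12))) := by
  induction φ generalizing rest with
  | eq s t =>
    change ∃ (e : F) (cs : List F), stk _ ρ τ (8 :: (s.string ++ t.string ++ rest)) = _ ∧
      cns _ ρ τ (8 :: (s.string ++ t.string ++ rest)) = _ ∧
      (_ → (_ ∧ s.value _ = t.value _) ∨ (_ ∧ ¬s.value _ = t.value _))
    rw [stk_cons, cns_cons, List.append_assoc, (run_term ρ τ s _).1, (run_term ρ τ s _).2,
      (run_term ρ τ t _).1, (run_term ρ τ t _).2]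
    generalize s.value (fun n => ρ (2 * n + 12)) = x
    generalize t.value (fun n => ρ (2 * n + 12)) = y
    generalize τ _ = z
    refine ⟨1 - (x - y) * z, [(1 - (x - y) * z) * (x - y)], rfl, rfl, fun h => ?_⟩
    by_cases hxy : x = y
    · exact Or.inl ⟨by simp [hxy], hxy⟩
    · exact Or.inr ⟨(mul_eq_zero.1 (h _ (List.mem_singleton_self _))).resolve_right
        (sub_ne_zero.2 hxy), hxy⟩
  | not φ ih =>
    obtain ⟨e, cs, h1, h2, h3⟩ := ih rest
    change ∃ (e : F) (cs : List F), stk _ ρ τ (10 :: (φ.string ++ rest)) = _ ∧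
      cns _ ρ τ (10 :: (φ.string ++ rest)) = _ ∧ (_ → (_ ∧ ¬φ.Holds _) ∨ (_ ∧ ¬¬φ.Holds _))
    rw [stk_cons, cns_cons, h1, h2]
    refine ⟨1 - e, cs, rfl, rfl, fun h => ?_⟩
    rcases h3 h with ⟨rfl, h4⟩ | ⟨rfl, h4⟩
    · exact Or.inr ⟨sub_self _, not_not.2 h4⟩
    · exact Or.inl ⟨sub_zero _, h4⟩
  | and φ ψ ih ih' =>
    obtain ⟨e', cs', h1', h2', h3'⟩ := ih' rest
    obtain ⟨e, cs, h1, h2, h3⟩ := ih (ψ.string ++ rest)
    change ∃ (e : F) (cs : List F), stk _ ρ τ (11 :: (φ.string ++ ψ.string ++ rest)) = _ ∧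
      cns _ ρ τ (11 :: (φ.string ++ ψ.string ++ rest)) = _ ∧
      (_ → (_ ∧ φ.Holds _ ∧ ψ.Holds _) ∨ (_ ∧ ¬(φ.Holds _ ∧ ψ.Holds _)))
    rw [stk_cons, cns_cons, List.append_assoc, h1, h2, h1', h2']
    refine ⟨e * e', cs ++ cs', rfl, (List.append_assoc _ _ _).symm, fun h => ?_⟩
    rcases h3 fun c hc => h c (List.mem_append_left _ hc) with ⟨rfl, h4⟩ | ⟨rfl, h4⟩ <;>
    rcases h3' fun c hc => h c (List.mem_append_right _ hc) with ⟨rfl, h5⟩ | ⟨rfl, h5⟩ <;>
    simp [h4, h5]

lemma exists_wit (ρ : ℕ → F) (φ : RForm) (rest : List ℕ) (τ : ℕ → F)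
    (h : ∀ c ∈ cns (ringOps F) ρ τ rest, c = 0) :
    ∃ τ', ∀ c ∈ cns (ringOps F) ρ τ' (φ.string ++ rest), c = 0 := by
  induction φ generalizing rest τ with
  | eq s t =>
    refine ⟨Function.update τ (s.string ++ (t.string ++ rest)).length
      (s.value (fun n => ρ (2 * n + 12)) - t.value fun n => ρ (2 * n + 12))⁻¹, ?_⟩
    change ∀ c ∈ cns _ ρ _ (8 :: (s.string ++ t.string ++ rest)), c = 0
    rw [cns_cons, List.append_assoc, (run_term ρ _ s _).1, (run_term ρ _ s _).2,
      (run_term ρ _ t _).1, (run_term ρ _ t _).2, Function.update_self,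
      (run_congr _ (ρ' := ρ) (τ' := τ) (fun _ _ => rfl) fun k hk =>
        Function.update_of_ne (by simp only [List.length_append]; omega) _ _).2]
    generalize s.value (fun n => ρ (2 * n + 12)) = x
    generalize t.value (fun n => ρ (2 * n + 12)) = y
    change ∀ c ∈ (1 - (x - y) * (x - y)⁻¹) * (x - y) :: _, c = 0
    refine List.forall_mem_cons.2 ⟨?_, h⟩
    by_cases hxy : x - y = 0
    · rw [hxy, mul_zero]
    · rw [mul_inv_cancel₀ hxy, sub_self, zero_mul]
  | not φ ih =>
    obtain ⟨τ', h1⟩ := ih rest τ h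
    exact ⟨τ', fun c hc => h1 c (by
      have h2 : c ∈ cns _ ρ τ' (10 :: (φ.string ++ rest)) := hc
      rwa [cns_cons] at h2)⟩
  | and φ ψ ih ih' =>
    obtain ⟨τ', h1⟩ := ih' rest τ h
    obtain ⟨τ'', h2⟩ := ih (ψ.string ++ rest) τ' h1
    exact ⟨τ'', fun c hc => h2 c (by
      have h3 : c ∈ cns _ ρ τ'' (11 :: (φ.string ++ ψ.string ++ rest)) := hc
      rwa [cns_cons, List.append_assoc] at h3)⟩

lemma sol_iff (φ : RForm) : Sol F φ.string ↔ ∃ ρ : ℕ → F, ¬φ.Holds ρ := by
  constructor
  · rintro ⟨pt, h⟩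
    obtain ⟨e, cs, h1, h2, h3⟩ := run_form (fun c => pt.getD (2 * c) 0)
      (fun k => pt.getD (2 * k + 1) 0) φ []
    rw [List.append_nil] at h1 h2
    have h4 : outs (ringOps F) pt φ.string = e :: (cs ++ []) := by
      rw [outs]
      exact congrArg₂ _ (congrArg (fun L => List.getD L 0 0) h1) h2
    rw [h4, List.append_nil, List.forall_mem_cons] at h
    rcases h3 h.2 with ⟨h5, -⟩ | ⟨-, h5⟩
    · exact absurd (h5.symm.trans h.1) one_ne_zero
    · exact ⟨_, h5⟩
  · rintro ⟨ρ, h⟩
    obtain ⟨τ, hτ⟩ := exists_wit (fun c => ρ (c / 2 - 6)) φ [] (fun _ => 0) (by simp [cns, run])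
    obtain ⟨e, cs, h1, h2, h3⟩ := run_form (fun c => ρ (c / 2 - 6)) τ φ []
    rw [List.append_nil] at h1 h2 hτ
    have h4 : (fun n => ρ ((2 * n + 12) / 2 - 6)) = ρ := funext fun n => congrArg ρ (by omega)
    refine ⟨(List.range (nvars φ.string)).map fun i =>
      if i % 2 = 0 then ρ (i / 2 / 2 - 6) else τ (i / 2), ?_⟩
    have h5 : (fun c => if 2 * c % 2 = 0 then ρ (2 * c / 2 / 2 - 6) else τ (2 * c / 2)) =
        fun c => ρ (c / 2 - 6) := funext fun c => by
      rw [if_pos (by omega)]; exact congrArg ρ (by omega)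
    have h6 : (fun k => if (2 * k + 1) % 2 = 0 then ρ ((2 * k + 1) / 2 / 2 - 6) else
        τ ((2 * k + 1) / 2)) = τ := funext fun c => by
      rw [if_neg (by omega)]; exact congrArg τ (by omega)
    rw [outs_range, h5, h6, h1, List.forall_mem_cons]
    refine ⟨?_, hτ⟩
    rw [h4] at h3
    rcases h3 fun c hc => hτ c (h2 ▸ List.mem_append_left _ hc) with ⟨-, h7⟩ | ⟨h7, -⟩
    exacts [absurd h7 h, h7]

theorem field_decidable (F : Type) [Field F] [CharZero F] [IsAlgClosed F] :
    FieldUnivDecidable F := by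
  obtain ⟨f, hf, h⟩ := ComputablePred.computable_iff.1 (sol_computable F).not
  refine ⟨f, hf, fun φ => ?_⟩
  rw [← congrFun h φ.string, sol_iff]
  simp

end Pool.Agent.P.MP_5be460_lc
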