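import Mathlib

namespace Pool.Agent.P.MP_5be460_lc

/-- Terms of the field sort, in the ring language `+, ·, 0, 1`, with variables `x₀, x₁, …`. -/
inductive RTerm : Type
  | var (n : ℕ) : RTerm
  | zero : RTerm
  | one : RTerm
  | add (s t : RTerm) : RTerm
  | mul (s t : RTerm) : RTerm

/-- Terms of the algebra sort: variables `u₀, u₁, …`, zero, sum, bracket, scalar multiple. -/
inductive LTerm : Type
  | var (n : ℕ) : LTerm
  | zero : LTerm
  | add (s t : LTerm) : LTerm
  | lie (s t : LTerm) : LTerm
  | smul (c : RTerm) (t : LTerm) : LTerm

/-- Quantifier-free formulas of the ring language. -/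
inductive RForm : Type
  | eq (s t : RTerm) : RForm
  | not (φ : RForm) : RForm
  | and (φ ψ : RForm) : RForm

/-- Quantifier-free formulas of the two-sorted language of Lie algebras over a field. -/
inductive LForm : Type
  | eqR (s t : RTerm) : LForm
  | eqL (s t : LTerm) : LForm
  | not (φ : LForm) : LForm
  | and (φ ψ : LForm) : LForm

/-- Value of a term of the field sort under an assignment `ρ` of the field variables. -/
noncomputable def RTerm.value {F : Type} [Field F] (ρ : ℕ → F) (t : RTerm) : F :=
  RTerm.rec (fun n => ρ n) 0 1 (fun _ _ x y => x + y) (fun _ _ x y => x * y) t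

/-- Value of a term of the algebra sort under assignments `ρ`, `η` of the variables. -/
noncomputable def LTerm.value {F L : Type} [Field F] [LieRing L] [LieAlgebra F L] (ρ : ℕ → F) (η : ℕ → L)
    (t : LTerm) : L :=
  LTerm.rec (fun n => η n) 0 (fun _ _ x y => x + y) (fun _ _ x y => ⁅x, y⁆)
    (fun c _ x => c.value ρ • x) t

/-- Truth of a quantifier-free ring formula under an assignment. -/
def RForm.Holds {F : Type} [Field F] (ρ : ℕ → F) (φ : RForm) : Prop :=
  RForm.rec (fun s t => s.value ρ = t.value ρ) (fun _ p => ¬p) (fun _ _ p q => p ∧ q) φ

/-- Truth of a quantifier-free two-sorted formula under assignments of both sorts. -/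
def LForm.Holds {F L : Type} [Field F] [LieRing L] [LieAlgebra F L] (ρ : ℕ → F) (η : ℕ → L)
    (φ : LForm) : Prop :=
  LForm.rec (fun s t => s.value ρ = t.value ρ) (fun s t => s.value ρ η = t.value ρ η)
    (fun _ p => ¬p) (fun _ _ p q => p ∧ q) φ

/-- A term of the field sort written as a string of symbols, operations first. -/
noncomputable def RTerm.string (t : RTerm) : List ℕ :=
  RTerm.rec (fun n => [2 * n + 12]) [0] [1] (fun _ _ x y => 2 :: (x ++ y))
    (fun _ _ x y => 3 :: (x ++ y)) t

/-- A term of the algebra sort written as a string of symbols, operations first. -/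
noncomputable def LTerm.string (t : LTerm) : List ℕ :=
  LTerm.rec (fun n => [2 * n + 13]) [4] (fun _ _ x y => 5 :: (x ++ y))
    (fun _ _ x y => 6 :: (x ++ y)) (fun c _ x => 7 :: (c.string ++ x)) t

/-- A ring formula written as a string of symbols, operations first. -/
noncomputable def RForm.string (φ : RForm) : List ℕ :=
  RForm.rec (fun s t => 8 :: (s.string ++ t.string)) (fun _ x => 10 :: x)
    (fun _ _ x y => 11 :: (x ++ y)) φ

/-- A two-sorted formula written as a string of symbols, operations first. -/
noncomputable def LForm.string (φ : LForm) : List ℕ :=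
  LForm.rec (fun s t => 8 :: (s.string ++ t.string)) (fun s t => 9 :: (s.string ++ t.string))
    (fun _ x => 10 :: x) (fun _ _ x y => 11 :: (x ++ y)) φ

/-- The universal theory of the field `F` is decidable: a computable function, given the string of
a quantifier-free formula, decides whether the universal closure of the formula is true in `F`. -/
def FieldUnivDecidable (F : Type) [Field F] : Prop :=
  ∃ f : List ℕ → Bool, Computable f ∧
    ∀ φ : RForm, f φ.string = true ↔ ∀ ρ : ℕ → F, φ.Holds ρ

/-- The universal theory of the two-sorted structure `(L, F)` is decidable: a computable function,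
given the string of a quantifier-free formula, decides whether the universal closure of the
formula is true in `(L, F)`. -/
def LieUnivDecidable (F L : Type) [Field F] [LieRing L] [LieAlgebra F L] : Prop :=
  ∃ f : List ℕ → Bool, Computable f ∧
    ∀ φ : LForm, f φ.string = true ↔ ∀ (ρ : ℕ → F) (η : ℕ → L), φ.Holds ρ η

end Pool.Agent.P.MP_5be460_lc
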