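import Mathlib

namespace Pool.Agent.P.MP_5be460_lc.E

/-- Terms built from variables `x₀, x₁, …` by sum and bracket. -/
inductive Tm : Type
  | var (n : ℕ) : Tm
  | add (s t : Tm) : Tm
  | lie (s t : Tm) : Tm

/-- Value of a term in a Lie ring under an assignment `η` of the variables. -/
def Tm.val {L : Type} [LieRing L] (η : ℕ → L) : Tm → L
  | .var n => η n
  | .add s t => s.val η + t.val η
  | .lie s t => ⁅s.val η, t.val η⁆

/-- A term written as a string of symbols, operations first. -/
def Tm.code : Tm → List ℕ
  | .var n => [n + 2]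
  | .add s t => 0 :: (s.code ++ t.code)
  | .lie s t => 1 :: (s.code ++ t.code)

/-- The equation `s = t` has a solution with `x₀ = a` and `x₁ = b`. -/
def Solvable {L : Type} [LieRing L] (s t : Tm) (a b : L) : Prop :=
  ∃ η : ℕ → L, η 0 = a ∧ η 1 = b ∧ s.val η = t.val η

end Pool.Agent.P.MP_5be460_lc.E
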