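import Pool.Agent.P.MP_5be460_lc.GBase

namespace Pool.Agent.P.MP_5be460_lc.G.E

open Finset Module Polynomial

universe u

set_option linter.unusedSectionVars false

section inner

variable {F : Type} [Field F] {Z : Type u}

lemma lead_unique {Y : Type u} {wt : Y → ℕ} {m n : ℕ} {f g g' : FreeAlgebra F Y}
    (h : Lead wt m f g) (h' : Lead wt n f g') (h0 : g ≠ 0) (h0' : g' ≠ 0) : m = n ∧ g = g' := by
  obtain rfl : m = n := by
    by_contra h4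
    rcases Nat.lt_or_gt_of_ne h4 with h5 | h5
    · exact h0' (h'.2.symm.trans (h.1 _ h5))
    · exact h0 (h.2.symm.trans (h'.1 _ h5))
  exact ⟨rfl, h.2.symm.trans h'.2⟩

lemma lead_neg {Y : Type u} {wt : Y → ℕ} {n : ℕ} {f g : FreeAlgebra F Y} (h : Lead wt n f g) :
    Lead wt n (-f) (-g) := by simpa using h.smul (-1 : F)

lemma lead_zero {Y : Type u} {wt : Y → ℕ} {n : ℕ} {f g : FreeAlgebra F Y} (h : Lead wt n f g)
    (h0 : f = 0) : g = 0 := by rw [← h.2, h0, map_zero]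

lemma hom_shD_word (l : List (Z × ℕ)) :
    Hom Prod.snd (wtw Prod.snd l + 1) (shD F Z (word F l)) := by
  induction l with
  | nil => rw [word_nil, shD_one]; exact hom_zero _
  | cons p l ih =>
    obtain ⟨z, k⟩ := p
    rw [word_cons, shD_mul, shD_ι, wtw_cons]
    refine Hom.add ?_ ?_
    · have h := (hom_ι (F := F) (wt := Prod.snd) (z, k + 1)).mul (hom_word l)
      rwa [show ((z, k + 1) : Z × ℕ).2 + wtw Prod.snd l = (z, k).2 + wtw Prod.snd l + 1 from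
        Nat.add_right_comm _ _ _] at h
    · have h := (hom_ι (F := F) (wt := Prod.snd) (z, k)).mul ih
      rwa [← add_assoc] at h

lemma pr_shD_snd (n : ℕ) (f : FreeAlgebra F (Z × ℕ)) :
    pr Prod.snd (n + 1) (shD F Z f) = shD F Z (pr Prod.snd n f) := by
  have : (pr Prod.snd (n + 1)).comp (shD F Z) = (shD F Z).comp (pr Prod.snd n) := by
    refine word_ext fun l => ?_
    simp only [LinearMap.comp_apply, pr_word]
    split_ifs with h
    · rw [← h]; exact hom_shD_word l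
    · rw [map_zero]; exact (hom_shD_word l).pr_ne (by omega)
  exact LinearMap.congr_fun this f

lemma lead_shD {n : ℕ} {f g : FreeAlgebra F (Z × ℕ)} (h : Lead Prod.snd n f g) :
    Lead Prod.snd (n + 1) (shD F Z f) (shD F Z g) := by
  refine ⟨fun i hi => ?_, by rw [pr_shD_snd, h.2]⟩
  obtain ⟨i, rfl⟩ : ∃ j, i = j + 1 := ⟨i - 1, by omega⟩
  rw [pr_shD_snd, h.1 i (by omega), map_zero]

variable [Infinite F]

lemma sq_lead {x : FreeAlgebra F (Z × ℕ)} (hx : x ∈ lieElt F _) (h0 : x ≠ 0) :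
    ∃ n g, Lead Prod.snd (n + (n + 1)) (cm x (shD F Z x)) g ∧ g ∈ lieElt F _ ∧ g ≠ 0 := by
  obtain ⟨n, g, h1, h2⟩ := exists_lead Prod.snd h0
  have h3 : g ∈ lieElt F _ := h1.2 ▸ pr_mem_lie n hx
  refine ⟨n, _, h1.cm (lead_shD h1), cm_mem_lie h3 (shD_mem_lie h3), fun h => ?_⟩
  exact inner_not_range (z := 0) h3 h2 (by rw [h, cm_zero_right, map_zero])

lemma inner_pair {x y : FreeAlgebra F (Z × ℕ)} (hx : x ∈ lieElt F _) (hy : y ∈ lieElt F _)
    (h : shD F Z (cm x (shD F Z x) + shD F Z (cm y (shD F Z y))) = 0) : x = 0 ∧ y = 0 := by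
  have h1 := shD_inj (pr0_lie (add_mem (cm_mem_lie hx (shD_mem_lie hx))
    (shD_mem_lie (cm_mem_lie hy (shD_mem_lie hy))))) h
  have h2 : y ≠ 0 → ∃ n g, Lead Prod.snd (n + (n + 1) + 1) (shD F Z (cm y (shD F Z y))) g ∧
      g ≠ 0 := fun h0 => by
    obtain ⟨n, g, h3, h4, h5⟩ := sq_lead hy h0
    exact ⟨n, _, lead_shD h3, fun h6 => h5 (shD_inj (pr0_lie h4) h6)⟩
  by_cases h3 : x = 0
  · refine ⟨h3, by_contra fun h4 => ?_⟩
    obtain ⟨n, g, h5, h6⟩ := h2 h4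
    rw [h3, cm_zero_left, zero_add] at h1
    exact h6 (lead_zero h5 h1)
  exfalso
  obtain ⟨n, g, h4, -, h5⟩ := sq_lead hx h3
  by_cases h6 : y = 0
  · rw [h6, cm_zero_left, map_zero, add_zero] at h1
    exact h5 (lead_zero h4 h1)
  obtain ⟨m, g', h7, h8⟩ := h2 h6
  have h9 := lead_neg h7
  rw [← eq_neg_of_add_eq_zero_left h1] at h9
  have := (lead_unique h4 h9 h5 (neg_ne_zero.2 h8)).1
  omega

end inner

variable {F : Type} [Field F] {Y : Type u}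

section outer

variable [IsAlgClosed F] {wt : Y → ℕ}

lemma hom_pair {d m n : ℕ} {a x y : FreeAlgebra F Y} (h : Elim wt d a) (hm : d < m) (hn : d < n)
    (hx : x ∈ lieElt F Y) (hxm : Hom wt m x) (hy : y ∈ lieElt F Y) (hyn : Hom wt n y)
    (h0 : cm a (cm x (cm a x)) + cm a (cm a (cm y (cm a y))) = 0) : x = 0 ∧ y = 0 := by
  obtain ⟨Z, j, h1, h2, h3⟩ := h
  obtain ⟨α, e, he, rfl, h4⟩ := h3 m hm.le x hx hxm
  obtain ⟨β, e', he', rfl, h5⟩ := h3 n hn.le y hy hyn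
  rw [h4 hm.ne', h5 hn.ne', zero_smul, zero_add, zero_add] at h0 ⊢
  rw [← h2, ← h2, ← map_cm, ← map_cm, ← h2, ← h2, ← h2, ← map_add, ← map_add,
    map_eq_zero_iff j h1] at h0
  obtain ⟨rfl, rfl⟩ := inner_pair he he' h0
  exact ⟨map_zero j, map_zero j⟩

lemma exists_lead_cm {d : ℕ} {a a' z : FreeAlgebra F Y} (h : Gd wt d a') (ha : a ∈ lieElt F Y)
    (haa : Lead wt d a a') (hz : z ∈ lieElt F Y) (h0 : cm a z ≠ 0) :
    ∃ n g, d < n ∧ Lead wt n (cm a z) g ∧ g ∈ lieElt F Y ∧ g ≠ 0 := by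
  obtain ⟨n, g, h1, h2⟩ := exists_lead wt h0
  obtain ⟨-, -, -, -, h3⟩ := h.lead_cm ha haa hz h1
  exact ⟨n, g, h3 h2, h1, lead_lie h1 (cm_mem_lie ha hz), h2⟩

lemma alg_pair {a u v : FreeAlgebra F Y} (ha : a ∈ lieElt F Y) (ha0 : a ≠ 0)
    (hu : u ∈ lieElt F Y) (hv : v ∈ lieElt F Y)
    (h : cm a (cm (cm a u) (cm a (cm a u))) + cm a (cm a (cm (cm a v) (cm a (cm a v)))) = 0) :
    cm a u = 0 ∧ cm a v = 0 := by
  obtain ⟨wt, d, a', h1, h2⟩ := exists_good ha ha0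
  have z0 : (0 : FreeAlgebra F Y) ∈ lieElt F Y := zero_mem _
  by_cases h3 : cm a u = 0
  · refine ⟨h3, by_contra fun h4 => ?_⟩
    obtain ⟨n, g, h5, h6, h7, h8⟩ := exists_lead_cm h1 ha h2 hv h4
    rw [h3, cm_zero_left, cm_zero_right, zero_add] at h
    refine h8 (hom_pair h1.elim h5 h5 z0 (hom_zero _) h7 h6.hom ?_).2
    rw [lead_zero (h2.cm (h2.cm (h6.cm (h2.cm h6)))) h]
    simp
  exfalso
  obtain ⟨m, f, h5, h6, h7, h8⟩ := exists_lead_cm h1 ha h2 hu h3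
  have h9 : cm a' (cm f (cm a' f)) ≠ 0 := fun h9 =>
    h8 (hom_pair h1.elim h5 h5 h7 h6.hom z0 (hom_zero _) (by rw [h9]; simp)).1
  have h10 := h2.cm (h6.cm (h2.cm h6))
  by_cases h4 : cm a v = 0
  · rw [h4, cm_zero_left, cm_zero_right, cm_zero_right, add_zero] at h
    exact h9 (lead_zero h10 h)
  obtain ⟨n, g, h11, h12, h13, h14⟩ := exists_lead_cm h1 ha h2 hv h4
  have h15 : cm a' (cm a' (cm g (cm a' g))) ≠ 0 := fun h15 =>
    h14 (hom_pair h1.elim h11 h11 z0 (hom_zero _) h13 h12.hom (by rw [h15]; simp)).2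
  have h16 := lead_neg (h2.cm (h2.cm (h12.cm (h2.cm h12))))
  rw [← eq_neg_of_add_eq_zero_left h] at h16
  exact h8 (hom_pair h1.elim h5 h11 h7 h6.hom h13 h12.hom (by
    rw [(lead_unique h10 h16 h9 (neg_ne_zero.2 h15)).2, neg_add_cancel])).1

lemma alg_comm {a u : FreeAlgebra F Y} (ha : a ∈ lieElt F Y) (ha0 : a ≠ 0) (hu : u ∈ lieElt F Y)
    (h : cm a u = 0) : ∃ α : F, u = α • a := by
  obtain ⟨wt, d, a', h1, h2⟩ := exists_good ha ha0
  have key : ∀ u ∈ lieElt F Y, cm a u = 0 → u ≠ 0 →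
      ∃ α : F, pr wt d u = α • a' ∧ pr wt d u ≠ 0 := by
    intro u hu h h0
    obtain ⟨k, g, h3, h4⟩ := exists_lead wt h0
    obtain ⟨α, h5, h6⟩ := h1.comm (lead_lie h3 hu) h3.hom (lead_zero (h2.cm h3) h)
    obtain rfl : k = d := by
      by_contra h7
      rw [h6 h7, zero_smul] at h5
      exact h4 h5
    exact ⟨α, h3.2.trans h5, h3.2 ▸ h4⟩
  by_cases h0 : u = 0
  · exact ⟨0, by rw [h0, zero_smul]⟩
  obtain ⟨α, h3, -⟩ := key u hu h h0
  refine ⟨α, by_contra fun h4 => ?_⟩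
  obtain ⟨β, -, h5⟩ := key (u - α • a) (sub_mem hu (Submodule.smul_mem _ _ ha))
    (by rw [cm_sub_right, h, cm_smul_right, cm_self, smul_zero, sub_zero]) (sub_ne_zero.2 h4)
  exact h5 (by rw [map_sub, map_smul, h3, h2.2, sub_self])

variable {L : Type*} [LieRing L] [LieAlgebra F L] (ι : L →ₗ[F] FreeAlgebra F Y)
  (hι : ∀ x y, ι ⁅x, y⁆ = cm (ι x) (ι y)) (hl : ∀ x, ι x ∈ lieElt F Y)
  (hi : Function.Injective ι)

include hι hl hi

lemma lie_not_range {a y z : L} (hq : ⁅a, y⁆ ≠ 0) : bb a y ≠ ⁅a, z⁆ := by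
  intro h
  obtain ⟨wt, d, m, a', q', h1, h2, h3, h4, h5, h6, h7⟩ := exists_setup ι hι hl hi hq
  rw [h, hι] at h7
  obtain ⟨w, h11, h12, h13, -⟩ := h1.lead_cm (hl a) h2 (hl z) h7
  exact hom_not_range h1.elim h3 h4 h5 h6 (by omega) h11 h12 h13

lemma lie_pair {a y u v : L} (hq : ⁅a, y⁆ ≠ 0)
    (h : ⁅a, ⁅⁅a, u⁆, ⁅a, ⁅a, u⁆⁆⁆ + ⁅a, ⁅⁅a, v⁆, ⁅a, ⁅a, v⁆⁆⁆⁆⁆ = 0) :
    ⁅a, u⁆ = 0 ∧ ⁅a, v⁆ = 0 := by
  have ha : ι a ≠ 0 := by
    rw [map_ne_zero_iff ι hi]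
    rintro rfl
    exact hq (zero_lie y)
  have h1 := congrArg ι h
  simp only [lie_add, map_add, hι, map_zero] at h1
  have h2 := alg_pair (hl a) ha (hl u) (hl v) h1
  rwa [← hι, ← hι, map_eq_zero_iff ι hi, map_eq_zero_iff ι hi] at h2

lemma lie_test {a y u : L} (hq : ⁅a, y⁆ ≠ 0) (h : ⁅a, u⁆ = 0) (h' : ⁅a, ⁅y, u⁆⁆ = 0) : u = 0 := by
  have ha : ι a ≠ 0 := by
    rw [map_ne_zero_iff ι hi]
    rintro rfl
    exact hq (zero_lie y)
  obtain ⟨α, h1⟩ := alg_comm (hl a) ha (hl u) (by rw [← hι, h, map_zero])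
  rw [← map_smul] at h1
  obtain rfl := hi h1
  by_cases h2 : α = 0
  · rw [h2, zero_smul]
  rw [lie_smul, lie_smul, smul_eq_zero_iff_right h2, ← lie_skew y, lie_neg, neg_eq_zero] at h'
  exact absurd (by rw [bb, h', zero_lie, lie_zero]) (lie_not_range ι hι hl hi (z := 0) hq)

end outer

attribute [local instance 100] LieRing.ofAssociativeRing

lemma β_zero (K : Type) [Field K] [Algebra F K] : β K (0 : FreeLieAlgebra F Y) = 0 :=
  Subtype.ext (by simp [β])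

lemma β_eq_zero (K : Type) [Field K] [Algebra F K] {u : FreeLieAlgebra F Y} (h : β K u = 0) :
    u = 0 := by
  refine toAssoc_inj (bc_injective K ?_)
  rw [map_zero, map_zero]
  exact congrArg Subtype.val h

variable {a y : FreeLieAlgebra F Y} (hq : ⁅a, y⁆ ≠ 0)

include hq

theorem free_not_range (z : FreeLieAlgebra F Y) : bb a y ≠ ⁅a, z⁆ := by
  intro h
  have h1 := congrArg (β (AlgebraicClosure F)) h
  rw [β_lie, β_bb] at h1
  exact lie_not_range (LE (AlgebraicClosure F) Y).incl.toLinearMap (fun _ _ => rfl)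
    (fun x => x.2) Subtype.val_injective (β_ne _ hq) h1

theorem free_pair {u v : FreeLieAlgebra F Y}
    (h : ⁅a, ⁅⁅a, u⁆, ⁅a, ⁅a, u⁆⁆⁆ + ⁅a, ⁅⁅a, v⁆, ⁅a, ⁅a, v⁆⁆⁆⁆⁆ = 0) :
    ⁅a, u⁆ = 0 ∧ ⁅a, v⁆ = 0 := by
  have h1 := congrArg (β (AlgebraicClosure F)) h
  simp only [β_lie, β_add, β_zero] at h1
  have h2 := lie_pair (LE (AlgebraicClosure F) Y).incl.toLinearMap (fun _ _ => rfl)
    (fun x => x.2) Subtype.val_injective (β_ne _ hq) h1
  rw [← β_lie, ← β_lie] at h2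
  exact ⟨β_eq_zero _ h2.1, β_eq_zero _ h2.2⟩

theorem free_test {u : FreeLieAlgebra F Y} (h : ⁅a, u⁆ = 0) (h' : ⁅a, ⁅y, u⁆⁆ = 0) : u = 0 := by
  have h1 := congrArg (β (AlgebraicClosure F)) h
  have h2 := congrArg (β (AlgebraicClosure F)) h'
  simp only [β_lie, β_zero] at h1 h2
  exact β_eq_zero _ (lie_test (LE (AlgebraicClosure F) Y).incl.toLinearMap (fun _ _ => rfl)
    (fun x => x.2) Subtype.val_injective (β_ne _ hq) h1 h2)

theorem free_even₀ {u v z z' : FreeLieAlgebra F Y} (hu : u = ⁅a, v⁆) (h : ⁅u, bb a y⁆ = ⁅a, z⁆)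
    (h' : ⁅⁅a, ⁅a, u⁆⁆, bb a y⁆ = ⁅a, z'⁆) :
    ∃ χ : F[X], u = aeval (LieAlgebra.ad F _ a ^ 2) (X * χ) (bb a y) := by
  obtain ⟨χ, hχ⟩ := free_even (α := 0) hq (by rw [zero_smul, zero_add]; exact hu) h h'
  refine ⟨χ.divX, ?_⟩
  rw [← X_mul_divX_add χ, map_add, LinearMap.add_apply, aeval_C,
    Module.algebraMap_end_apply] at hχ
  by_cases h1 : χ.coeff 0 = 0
  · rwa [h1, zero_smul, add_zero] at hχ
  exfalso
  rw [← sq_aeval, hu, LieAlgebra.ad_apply, LieAlgebra.ad_apply, ← sub_eq_iff_eq_add',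
    ← lie_sub] at hχ
  have h2 := congrArg ((χ.coeff 0)⁻¹ • ·) hχ
  beta_reduce at h2
  rw [smul_smul, inv_mul_cancel₀ h1, one_smul, ← lie_smul] at h2
  exact free_not_range hq _ h2.symm

end Pool.Agent.P.MP_5be460_lc.G.E
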