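import Pool.Agent.P.MP_5be460_lc.GDenef

namespace Pool.Agent.P.MP_5be460_lc.G.E

open Polynomial

section dc

variable {R : Type} [CommRing R]

/-- differences of two term functions. -/
def DC (f : (ℕ → R) → R) : Prop := ∃ s t : RTerm, ∀ v, f v = valC v s - valC v t

variable {f g : (ℕ → R) → R}

lemma DC.var (n : ℕ) : DC fun v : ℕ → R => v n := ⟨.var n, .zero, fun _ => (sub_zero _).symm⟩

lemma DC.one : DC fun _ : ℕ → R => 1 := ⟨.one, .zero, fun _ => (sub_zero _).symm⟩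

lemma DC.add (hf : DC f) (hg : DC g) : DC fun v => f v + g v := by
  obtain ⟨s, t, h⟩ := hf
  obtain ⟨s', t', h'⟩ := hg
  exact ⟨.add s s', .add t t', fun v => by simp only [valC, h, h']; ring⟩

lemma DC.sub (hf : DC f) (hg : DC g) : DC fun v => f v - g v := by
  obtain ⟨s, t, h⟩ := hf
  obtain ⟨s', t', h'⟩ := hg
  exact ⟨.add s t', .add t s', fun v => by simp only [valC, h, h']; ring⟩

lemma DC.mul (hf : DC f) (hg : DC g) : DC fun v => f v * g v := by
  obtain ⟨s, t, h⟩ := hf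
  obtain ⟨s', t', h'⟩ := hg
  exact ⟨.add (.mul s s') (.mul t t'), .add (.mul s t') (.mul t s'), fun v => by
    simp only [valC, h, h']; ring⟩

lemma DC.ren (hf : DC f) (r : ℕ → ℕ) : DC fun v => f fun i => v (r i) := by
  obtain ⟨s, t, h⟩ := hf
  exact ⟨subT (fun i => .var (r i)) s, subT (fun i => .var (r i)) t, fun v => by
    simp only [valC_subT, valC, h]⟩

end dc

variable {k : Type} [Field k]

/-- relations given by one polynomial equation with extra unknowns. -/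
def PE (P : (ℕ → k[X]) → Prop) : Prop :=
  ∃ f, DC f ∧ ∀ v, v 0 = X → (P v ↔ ∃ w, f (mrg v w) = 0)

lemma sq_add_sq {f g : k[X]} (h : f * f + X * (g * g) = 0) : f = 0 ∧ g = 0 := by
  by_cases hg : g = 0
  · rw [hg, mul_zero, mul_zero, add_zero, mul_self_eq_zero] at h
    exact ⟨h, hg⟩
  exfalso
  have h1 : f * f = -(X * (g * g)) := eq_neg_of_add_eq_zero_left h
  have hf : f ≠ 0 := by
    rintro rfl
    rw [mul_zero, zero_add] at h
    exact mul_ne_zero X_ne_zero (mul_ne_zero hg hg) h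
  have h2 := congrArg natDegree h1
  rw [natDegree_neg, natDegree_mul hf hf, natDegree_X_mul (mul_ne_zero hg hg),
    natDegree_mul hg hg] at h2
  omega

lemma ne_iff (f : k[X]) : f ≠ 0 ↔ ∃ a b c, f * a - (X * b + 1) * ((X - 1) * c + 1) = 0 := by
  constructor
  · intro h
    obtain ⟨g, h1, h2⟩ := exists_eq_pow_rootMultiplicity_mul_and_not_dvd f h 0
    rw [map_zero, sub_zero] at h1 h2
    generalize rootMultiplicity 0 f = n at h1
    obtain ⟨b, b', hb⟩ := (irreducible_X.coprime_iff_not_dvd).2 h2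
    obtain ⟨c, c', hc⟩ : IsCoprime (X - 1 : k[X]) (X ^ n) :=
      IsCoprime.pow_right ⟨-1, 1, by ring⟩
    refine ⟨b' * c', -b, -c, ?_⟩
    rw [h1]
    linear_combination (c' * X ^ n) * hb + (1 - b * X) * hc
  · rintro ⟨a, b, c, h⟩ rfl
    rw [zero_mul, zero_sub, neg_eq_zero, mul_eq_zero] at h
    rcases h with h | h
    · simpa using congrArg (eval 0) h
    · simpa using congrArg (eval 1) h

/-- the renaming that keeps the parameters and takes every second unknown. -/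
def rn (j i : ℕ) : ℕ := if i % 2 = 0 then i else 2 * (2 * (i / 2) + j) + 1

lemma mrg_rn {A : Type} (v w : ℕ → A) (j : ℕ) :
    (fun i => mrg v w (rn j i)) = mrg v fun i => w (2 * i + j) := by
  funext i
  unfold rn
  split_ifs with h
  · simp [mrg, h]
  · rw [mrg_od, mrg, if_neg h]

variable {P Q : (ℕ → k[X]) → Prop}

lemma PE.and (h : PE P) (h' : PE Q) : PE fun v => P v ∧ Q v := by
  obtain ⟨f, h1, h2⟩ := h
  obtain ⟨g, h3, h4⟩ := h'
  refine ⟨_, ((h1.ren (rn 0)).mul (h1.ren (rn 0))).add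
    ((DC.var 0).mul ((h3.ren (rn 1)).mul (h3.ren (rn 1)))), fun v hv => ?_⟩
  have h5 : ∀ w, mrg v w 0 = X := fun w => (mrg_ev v w 0).trans hv
  simp only [h2 v hv, h4 v hv, mrg_rn, h5, add_zero]
  refine ⟨fun ⟨⟨w, a⟩, ⟨w', b⟩⟩ => ⟨mrg w w', ?_⟩, fun ⟨w, a⟩ =>
    ⟨⟨_, (sq_add_sq a).1⟩, ⟨_, (sq_add_sq a).2⟩⟩⟩
  simp only [mrg_ev, mrg_od, a, b, mul_zero, add_zero]

lemma PE.or (h : PE P) (h' : PE Q) : PE fun v => P v ∨ Q v := by
  obtain ⟨f, h1, h2⟩ := h
  obtain ⟨g, h3, h4⟩ := h'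
  refine ⟨_, h1.mul h3, fun v hv => ?_⟩
  simp only [h2 v hv, h4 v hv, mul_eq_zero, exists_or]

lemma pe_form (θ : RForm) :
    PE (fun v : ℕ → k[X] => HoldsC v θ) ∧ PE fun v : ℕ → k[X] => ¬HoldsC v θ := by
  induction θ with
  | eq s t =>
    have h : DC fun v : ℕ → k[X] => valC v s - valC v t := ⟨s, t, fun _ => rfl⟩
    refine ⟨⟨_, h.ren (2 * ·), fun v _ => ?_⟩, _, ((h.ren (2 * ·)).mul (DC.var (2 * 0 + 1))).sub
      ((((DC.var (2 * 0)).mul (DC.var (2 * 1 + 1))).add DC.one).mul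
        ((((DC.var (2 * 0)).sub DC.one).mul (DC.var (2 * 2 + 1))).add DC.one)), fun v hv => ?_⟩
    · simp only [mrg_ev, HoldsC, sub_eq_zero, exists_const]
    · simp only [mrg_ev, mrg_od, HoldsC, hv]
      rw [← sub_eq_zero, ← Ne, ne_iff]
      exact ⟨fun ⟨a, b, c, h⟩ => ⟨cns a (cns b fun _ => c), h⟩, fun ⟨w, h⟩ => ⟨_, _, _, h⟩⟩
  | not φ h => exact ⟨h.2, by simpa only [HoldsC, not_not] using h.1⟩
  | and φ ψ h h' => exact ⟨h.1.and h'.1, by simpa only [HoldsC, not_and_or] using h.2.or h'.2⟩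

/-- every recursively enumerable set is defined in `k[X]` by one equation. -/
theorem denef_one (k : Type) [Field k] {P : ℕ → Prop} (hP : REPred P) :
    ∃ s t : RTerm, ∀ n, P n ↔ ∃ v : ℕ → k[X], v 0 = X ∧ v 2 = X ^ n ∧ valC v s = valC v t := by
  obtain ⟨θ, hθ⟩ := denef k hP
  obtain ⟨f, ⟨s, t, h1⟩, h2⟩ := (pe_form (k := k) θ).1
  refine ⟨s, t, fun n => (hθ n).trans ⟨?_, ?_⟩⟩
  · rintro ⟨v, h3, h4, h5⟩
    obtain ⟨w, hw⟩ := (h2 v h3).1 h5
    exact ⟨mrg v w, (mrg_ev v w 0).trans h3, (mrg_ev v w 1).trans h4, by rwa [h1, sub_eq_zero] at hw⟩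
  · rintro ⟨u, h3, h4, h5⟩
    refine ⟨fun i => u (2 * i), h3, h4, (h2 (fun i => u (2 * i)) h3).2 ⟨fun i => u (2 * i + 1), ?_⟩⟩
    rw [mrg_self, h1, h5, sub_self]

end Pool.Agent.P.MP_5be460_lc.G.E
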