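import Pool.Agent.P.MP_5be460_lc.GTrans
import Pool.Agent.P.MP_5be460_lc.ELie
import Pool.Agent.P.MP_5be460_lc.ERing
import Pool.Agent.P.MP_5be460_lc.EDefs

namespace Pool.Agent.P.MP_5be460_lc.G.E

open Polynomial Pool.Agent.P.MP_5be460_lc.E

set_option linter.unusedSectionVars false

section td

variable {L : Type} [LieRing L]

/-- differences of two term functions. -/
def TD (f : (ℕ → L) → L) : Prop := ∃ s t : Tm, ∀ η, f η = s.val η - t.val η

variable {f g : (ℕ → L) → L}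

lemma TD.var (n : ℕ) : TD fun η : ℕ → L => η n :=
  ⟨.add (.var n) (.var n), .var n, fun _ => by simp [Tm.val]⟩

lemma TD.zero : TD fun _ : ℕ → L => 0 := ⟨.var 0, .var 0, fun _ => by simp⟩

lemma TD.add (hf : TD f) (hg : TD g) : TD fun η => f η + g η := by
  obtain ⟨s, t, h⟩ := hf
  obtain ⟨s', t', h'⟩ := hg
  exact ⟨.add s s', .add t t', fun v => by simp only [Tm.val, h, h']; abel⟩

lemma TD.sub (hf : TD f) (hg : TD g) : TD fun η => f η - g η := by
  obtain ⟨s, t, h⟩ := hf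
  obtain ⟨s', t', h'⟩ := hg
  exact ⟨.add s t', .add t s', fun v => by simp only [Tm.val, h, h']; abel⟩

lemma TD.lie (hf : TD f) (hg : TD g) : TD fun η => ⁅f η, g η⁆ := by
  obtain ⟨s, t, h⟩ := hf
  obtain ⟨s', t', h'⟩ := hg
  exact ⟨.add (.lie s s') (.lie t t'), .add (.lie s t') (.lie t s'), fun v => by
    simp only [Tm.val, h, h', lie_sub, sub_lie]; abel⟩

/-- the relation `P` is given by one equation when the first two variables do not commute. -/
def SE (P : (ℕ → L) → Prop) : Prop :=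
  ∃ g, TD g ∧ ∀ η, (P η → ⁅η 0, g η⁆ = 0) ∧ (⁅η 0, η 1⁆ ≠ 0 → ⁅η 0, g η⁆ = 0 → P η)

/-- the shifted form of the definition of the even part. -/
def EB (a b u v z z' : L) : Prop := u = ⁅a, v⁆ ∧ ⁅u, b⁆ = ⁅a, z⁆ ∧ ⁅⁅a, ⁅a, u⁆⁆, b⁆ = ⁅a, z'⁆

/-- the constraints saying that `u t` represents the value of the term `t`. -/
def Cn (a b : L) (u : RTerm → L) (w : ℕ → RTerm → L) : RTerm → Prop
  | .var n => EB a b (u (.var n)) (w 0 (.var n)) (w 1 (.var n)) (w 2 (.var n))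
  | .zero => u .zero = 0
  | .one => u .one = ⁅a, ⁅a, b⁆⁆
  | .add s t => Cn a b u w s ∧ Cn a b u w t ∧ u (.add s t) = u s + u t
  | .mul s t => Cn a b u w s ∧ Cn a b u w t ∧
      EB a b (u (.mul s t)) (w 0 (.mul s t)) (w 1 (.mul s t)) (w 2 (.mul s t)) ∧
        ⁅u s, ⁅a, u t⁆⁆ = ⁅⁅a, ⁅a, u (.mul s t)⁆⁆, ⁅a, b⁆⁆ + ⁅a, w 3 (.mul s t)⁆

/-- substitution of `r` for the variable `m`. -/
def sub (m : ℕ) (r : Tm) : Tm → Tm
  | .var n => if n = m then r else .var n
  | .add s t => .add (sub m r s) (sub m r t)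
  | .lie s t => .lie (sub m r s) (sub m r t)

lemma val_sub (m : ℕ) (r t : Tm) (η : ℕ → L) :
    (sub m r t).val η = t.val (Function.update η m (r.val η)) := by
  induction t with
  | var n =>
    rw [sub, Tm.val]
    split_ifs with h
    · rw [h, Function.update_self]
    · rw [Function.update_of_ne h, Tm.val]
  | add s t h h' => rw [sub, Tm.val, Tm.val, h, h']
  | lie s t h h' => rw [sub, Tm.val, Tm.val, h, h']

lemma primrec_sub (m : ℕ) {r : ℕ → Tm} (hr : Primrec fun n => (r n).code) (t : Tm) :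
    Primrec fun n => (sub m (r n) t).code := by
  induction t with
  | var i =>
    by_cases h : i = m
    · simpa only [sub, if_pos h] using hr
    · simpa only [sub, if_neg h] using Primrec.const _
  | add s t h h' => exact Primrec.list_cons.comp (Primrec.const 0) (Primrec.list_append.comp h h')
  | lie s t h h' => exact Primrec.list_cons.comp (Primrec.const 1) (Primrec.list_append.comp h h')

/-- the term for the base point. -/
def bT : Tm :=
  .lie (.lie (.var 0) (.lie (.var 0) (.var 1)))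
    (.lie (.lie (.var 0) (.var 1)) (.lie (.var 0) (.lie (.var 0) (.var 1))))

/-- the numeral. -/
def num : ℕ → Tm
  | 0 => bT
  | n + 1 => .lie (.var 0) (.lie (.var 0) (num n))

lemma num_val (η : ℕ → L) (n : ℕ) :
    (num n).val η = (fun z => ⁅η 0, ⁅η 0, z⁆⁆)^[n] (bb (η 0) (η 1)) := by
  induction n with
  | zero => rfl
  | succ n ih => rw [Function.iterate_succ_apply', ← ih]; rfl

open Pool.Agent.Lib.PrimrecProp in
lemma primrec_num : Primrec fun n => (num (n + 1)).code := by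
  have h1 : ∀ l : List ℕ, (num l.length).code =
      l.foldr (fun _ l => 1 :: 2 :: 1 :: 2 :: l) bT.code := by
    intro l
    induction l with
    | nil => rfl
    | cons a l ih => rw [List.foldr_cons, ← ih]; rfl
  have h2 : Primrec fun n : ℕ =>
      (List.range (n + 1)).foldr (fun _ l => 1 :: 2 :: 1 :: 2 :: l) bT.code := by fun_prop
  exact h2.of_eq fun n => by rw [← h1, List.length_range]

end td

section complete

variable {F L : Type} [Field F] [LieRing L] [LieAlgebra F L]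

/-- the element that represents a polynomial. -/
noncomputable def rp (a b : L) (φ : F[X]) : L := aeval (LieAlgebra.ad F L a ^ 2) (X * φ) b

lemma rp_X (a b : L) (φ : F[X]) : ⁅a, ⁅a, rp a b φ⁆⁆ = rp a b (X * φ) :=
  sq_aeval (LieAlgebra.ad F L a) _ b

lemma rp_one (a b : L) : rp a b (1 : F[X]) = ⁅a, ⁅a, b⁆⁆ := by
  rw [rp, mul_one, aeval_X]
  rfl

lemma rp_mul (a b : L) (φ ψ : F[X]) :
    ∃ z, ⁅rp a b φ, ⁅a, rp a b ψ⁆⁆ = ⁅rp a b (X * (φ * ψ)), ⁅a, b⁆⁆ + ⁅a, z⁆ := by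
  obtain ⟨z, hz⟩ := lie_mul_aeval a b (X * φ) (X * ψ)
  exact ⟨z, by rw [rp, rp, rp, hz, show X * φ * (X * ψ) = X * (X * (φ * ψ)) by ring]⟩

lemma eb_rp (a b : L) (φ : F[X]) : ∃ v z z', EB a b (rp a b φ) v z z' := by
  obtain ⟨t, ht⟩ := lie_self_aeval a b (X * φ)
  obtain ⟨t', ht'⟩ := lie_self_aeval a b (X * (X * φ))
  exact ⟨_, t, t', (sq_aeval (LieAlgebra.ad F L a) φ b).symm, ht, by rw [rp_X]; exact ht'⟩

lemma exists_cn (a b : L) (v : ℕ → F[X]) :
    ∃ w : ℕ → RTerm → L, ∀ t, Cn a b (fun t => rp a b (valC v t)) w t := by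
  choose w₀ w₁ w₂ h using fun t => eb_rp a b (valC v t)
  have h1 : ∀ t : RTerm, ∃ z : L, ∀ s s', t = .mul s s' →
      ⁅rp a b (valC v s), ⁅a, rp a b (valC v s')⁆⁆ =
        ⁅rp a b (X * (valC v s * valC v s')), ⁅a, b⁆⁆ + ⁅a, z⁆ := by
    intro t
    cases t with
    | mul s s' =>
      obtain ⟨z, hz⟩ := rp_mul a b (valC v s) (valC v s')
      exact ⟨z, fun _ _ h => by cases h; exact hz⟩
    | _ => exact ⟨0, fun _ _ h => by cases h⟩
  choose w₃ h₃ using h1
  refine ⟨cns w₀ (cns w₁ (cns w₂ fun _ => w₃)), fun t => ?_⟩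
  induction t with
  | var n => exact h _
  | zero => simp [Cn, valC, rp]
  | one => exact rp_one a b
  | add s t hs ht => exact ⟨hs, ht, by simp [valC, rp, mul_add]⟩
  | mul s t hs ht => exact ⟨hs, ht, h _, by rw [rp_X]; exact h₃ _ s t rfl⟩

end complete

variable {F : Type} [Field F] {Y : Type}

section se

variable {f g : (ℕ → FreeLieAlgebra F Y) → FreeLieAlgebra F Y}
  {P Q : (ℕ → FreeLieAlgebra F Y) → Prop}

lemma se_pair (hf : TD f) (hg : TD g) : SE fun η => ⁅η 0, f η⁆ = 0 ∧ ⁅η 0, g η⁆ = 0 := by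
  have ha : TD fun η : ℕ → FreeLieAlgebra F Y => η 0 := TD.var 0
  exact ⟨_, ((ha.lie hf).lie (ha.lie (ha.lie hf))).add
    (ha.lie ((ha.lie hg).lie (ha.lie (ha.lie hg)))), fun η =>
      ⟨fun h => by simp only [h.1, h.2, lie_zero, add_zero], fun hq h => free_pair hq h⟩⟩

lemma SE.and (h : SE P) (h' : SE Q) : SE fun η => P η ∧ Q η := by
  obtain ⟨f, h1, h2⟩ := h
  obtain ⟨g, h3, h4⟩ := h'
  obtain ⟨p, h5, h6⟩ := se_pair h1 h3
  exact ⟨p, h5, fun η => ⟨fun h => (h6 η).1 ⟨(h2 η).1 h.1, (h4 η).1 h.2⟩, fun hq h =>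
    ⟨(h2 η).2 hq ((h6 η).2 hq h).1, (h4 η).2 hq ((h6 η).2 hq h).2⟩⟩⟩

lemma SE.eq (hf : TD f) (hg : TD g) : SE fun η => f η = g η := by
  obtain ⟨p, h5, h6⟩ := se_pair (hf.sub hg) ((TD.var 1).lie (hf.sub hg))
  exact ⟨p, h5, fun η => ⟨fun h => (h6 η).1 (by simp only [h, sub_self, lie_zero, and_self]),
    fun hq h => sub_eq_zero.1 (free_test hq ((h6 η).2 hq h).1 ((h6 η).2 hq h).2)⟩⟩

variable {a b : (ℕ → FreeLieAlgebra F Y) → FreeLieAlgebra F Y}
  {u : (ℕ → FreeLieAlgebra F Y) → RTerm → FreeLieAlgebra F Y}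
  {w : (ℕ → FreeLieAlgebra F Y) → ℕ → RTerm → FreeLieAlgebra F Y} (ha : TD a) (hb : TD b)
  (hu : ∀ t, TD fun η => u η t) (hw : ∀ i t, TD fun η => w η i t)

include ha hb hu hw

lemma se_eb (t : RTerm) : SE fun η => EB (a η) (b η) (u η t) (w η 0 t) (w η 1 t) (w η 2 t) :=
  (SE.eq (hu t) (ha.lie (hw 0 t))).and ((SE.eq ((hu t).lie hb) (ha.lie (hw 1 t))).and
    (SE.eq ((ha.lie (ha.lie (hu t))).lie hb) (ha.lie (hw 2 t))))

lemma se_cn (t : RTerm) : SE fun η => Cn (a η) (b η) (u η) (w η) t := by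
  induction t with
  | var n => exact se_eb ha hb hu hw _
  | zero => exact SE.eq (hu _) TD.zero
  | one => exact SE.eq (hu _) (ha.lie (ha.lie hb))
  | add s t h h' => exact h.and (h'.and (SE.eq (hu _) ((hu _).add (hu _))))
  | mul s t h h' =>
    exact h.and (h'.and ((se_eb ha hb hu hw _).and (SE.eq ((hu _).lie (ha.lie (hu _)))
      (((ha.lie (ha.lie (hu _))).lie (ha.lie hb)).add (ha.lie (hw _ _))))))

end se

section sound

variable {a y : FreeLieAlgebra F Y} (hq : ⁅a, y⁆ ≠ 0)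

include hq

lemma rp_inj {φ ψ : F[X]} (h : rp a (bb a y) φ = rp a (bb a y) ψ) : φ = ψ :=
  mul_left_cancel₀ X_ne_zero (rep_inj hq h)

lemma cn_sound {u : RTerm → FreeLieAlgebra F Y} {w : ℕ → RTerm → FreeLieAlgebra F Y}
    {v : ℕ → F[X]} (hv : ∀ n, (∃ χ : F[X], u (.var n) = rp a (bb a y) χ) →
      u (.var n) = rp a (bb a y) (v n)) {t : RTerm} (h : Cn a (bb a y) u w t) :
    u t = rp a (bb a y) (valC v t) := by
  induction t with
  | var n => exact hv n (free_even₀ hq h.1 h.2.1 h.2.2)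
  | zero => rw [h, valC, rp, mul_zero, map_zero, LinearMap.zero_apply]
  | one => rw [h, valC, rp_one]
  | add s t hs ht =>
    rw [h.2.2, hs h.1, ht h.2.1, valC, rp, rp, rp, mul_add, map_add, LinearMap.add_apply]
  | mul s t hs ht =>
    obtain ⟨h1, h2, h3, h4⟩ := h
    obtain ⟨χ, hχ⟩ : ∃ χ : F[X], u (.mul s t) = rp a (bb a y) χ :=
      free_even₀ hq h3.1 h3.2.1 h3.2.2
    obtain ⟨z, hz⟩ := rp_mul a (bb a y) (valC v s) (valC v t)
    rw [hs h1, ht h2, hz, hχ, rp_X, rp, rp] at h4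
    have h5 : X * (X * (valC v s * valC v t)) - X * (X * χ) = 0 :=
      free_pairing (z := w 3 (.mul s t) - z) hq (by
        rw [map_sub, LinearMap.sub_apply, sub_lie, lie_sub, sub_eq_sub_iff_add_eq_add, h4,
          add_comm])
    rw [hχ, valC, mul_left_cancel₀ X_ne_zero (mul_left_cancel₀ X_ne_zero (sub_eq_zero.1 h5))]

end sound

lemma iterate_rp {L : Type} [LieRing L] [LieAlgebra F L] (a b : L) (n : ℕ) :
    (fun z => ⁅a, ⁅a, z⁆⁆)^[n + 1] b = rp a b (X ^ n : F[X]) := by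
  rw [iterate_ad (F := F), rp, pow_succ' X]

theorem exists_equation (F : Type) [Field F] (Y : Type) {p : ℕ → Prop} (hp : REPred p) :
    ∃ (s t : Tm) (m : ℕ), ∀ n : ℕ,
      (p n → ∀ a y : FreeLieAlgebra F Y,
        Solvable (sub (m + 2) (num (n + 1)) s) (sub (m + 2) (num (n + 1)) t) a y) ∧
      ∀ a y : FreeLieAlgebra F Y, ⁅a, y⁆ ≠ 0 →
        Solvable (sub (m + 2) (num (n + 1)) s) (sub (m + 2) (num (n + 1)) t) a y → p n := by
  obtain ⟨s₀, t₀, hθ⟩ := denef_one F hp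
  have ha : TD fun η : ℕ → FreeLieAlgebra F Y => η 0 := TD.var _
  have hy : TD fun η : ℕ → FreeLieAlgebra F Y => η 1 := TD.var _
  have hb : TD fun η : ℕ → FreeLieAlgebra F Y => bb (η 0) (η 1) :=
    (ha.lie (ha.lie hy)).lie ((ha.lie hy).lie (ha.lie (ha.lie hy)))
  have hu : ∀ t, TD fun η : ℕ → FreeLieAlgebra F Y => η (ix 0 (cd t) 0 + 2) := fun _ => TD.var _
  have hc := se_cn (u := fun η t => η (ix 0 (cd t) 0 + 2))
    (w := fun η i t => η (ix (i + 1) (cd t) 0 + 2)) ha hb hu fun _ _ => TD.var _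
  obtain ⟨g, hg, h⟩ := (SE.eq (hu (.var 0)) (ha.lie (ha.lie (ha.lie (ha.lie hb))))).and
    ((hc s₀).and ((hc t₀).and (SE.eq (hu s₀) (hu t₀))))
  obtain ⟨s, t, hst⟩ := ha.lie hg
  refine ⟨s, t, ix 0 (cd (.var 2)) 0, fun n => ⟨fun h1 a y => ?_, ?_⟩⟩
  · obtain ⟨v, h1, h2, h3⟩ := (hθ n).1 h1
    obtain ⟨w, hw⟩ := exists_cn a (bb a y) v
    have : Nonempty RTerm := ⟨.zero⟩
    have hi := Function.leftInverse_invFun cd_inj
    let V : ℕ → ℕ → ℕ → FreeLieAlgebra F Y := fun k i _ => match k with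
      | 0 => rp a (bb a y) (valC v (Function.invFun cd i))
      | k + 1 => w k (Function.invFun cd i)
    have h4 : (num (n + 1)).val (cns a (cns y (unix V))) =
        cns a (cns y (unix V)) (ix 0 (cd (.var 2)) 0 + 2) := by
      rw [num_val, iterate_rp (F := F)]
      simp only [cns, unix_ix, V, hi _, valC, h2]
    refine ⟨cns a (cns y (unix V)), rfl, rfl, ?_⟩
    rw [val_sub, val_sub, h4, Function.update_eq_self, ← sub_eq_zero, ← hst]
    refine (h _).1 ?_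
    simp only [cns, unix_ix, V, hi _]
    refine ⟨?_, hw s₀, hw t₀, by rw [h3]⟩
    rw [valC, h1, ← rp_one (F := F) a (bb a y), rp_X, mul_one]
  · rintro _ _ hq ⟨η₀, rfl, rfl, h1⟩
    rw [val_sub, val_sub, ← sub_eq_zero, ← hst, num_val, iterate_rp (F := F)] at h1
    obtain ⟨η, hη⟩ : ∃ η, η = Function.update η₀ (ix 0 (cd (.var 2)) 0 + 2)
      (rp (η₀ 0) (bb (η₀ 0) (η₀ 1)) (X ^ n : F[X])) := ⟨_, rfl⟩
    have e0 : η₀ 0 = η 0 := by rw [hη, Function.update_of_ne (by omega)]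
    have e1 : η₀ 1 = η 1 := by rw [hη, Function.update_of_ne (by omega)]
    have e2 : η (ix 0 (cd (.var 2)) 0 + 2) = rp (η 0) (bb (η 0) (η 1)) (X ^ n : F[X]) := by
      rw [← e0, ← e1, hη, Function.update_self]
    rw [← hη] at h1
    rw [e0, e1] at hq
    obtain ⟨h3, h4, h5, h6⟩ := (h η).2 hq h1
    rw [← rp_one (F := F) (η 0) (bb (η 0) (η 1)), rp_X, mul_one] at h3
    have h7 : ∀ n, ∃ χ : F[X], (∃ χ' : F[X], η (ix 0 (cd (.var n)) 0 + 2) =
        rp (η 0) (bb (η 0) (η 1)) χ') → η (ix 0 (cd (.var n)) 0 + 2) =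
        rp (η 0) (bb (η 0) (η 1)) χ :=
      fun n => (Classical.em _).elim (fun ⟨χ, h⟩ => ⟨χ, fun _ => h⟩)
        fun h => ⟨0, fun h' => absurd h' h⟩
    choose v hv using h7
    have h8 := cn_sound (u := fun t => η (ix 0 (cd t) 0 + 2)) hq hv h4
    have h9 := cn_sound (u := fun t => η (ix 0 (cd t) 0 + 2)) hq hv h5
    exact (hθ n).2 ⟨v, rp_inj hq ((hv 0 ⟨_, h3⟩).symm.trans h3),
      rp_inj hq ((hv 2 ⟨_, e2⟩).symm.trans e2), rp_inj hq (h8.symm.trans (h6.trans h9))⟩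

theorem inseparable (F : Type) [Field F] (Y : Type) (f : List ℕ → Bool) (hf : Computable f)
    (h : ∀ s t : Tm, (∀ a b : FreeLieAlgebra F Y, Solvable s t a b) → f (s.code ++ t.code) = true) :
    ∃ s t : Tm, f (s.code ++ t.code) = true ∧
      ∀ a b : FreeLieAlgebra F Y, Solvable s t a b → ⁅a, b⁆ = 0 := by
  by_contra h0
  have h1 : REPred fun n : ℕ => ((Denumerable.ofNat Nat.Partrec.Code n).eval 0).Dom :=
    (Nat.Partrec.Code.eval_part.comp (Computable.ofNat _) (Computable.const 0)).dom_re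
  obtain ⟨s, t, m, hst⟩ := exists_equation F Y h1
  have h2 := Primrec.list_append.comp (primrec_sub (m + 2) primrec_num s)
    (primrec_sub (m + 2) primrec_num t)
  refine ComputablePred.halting_problem 0 (ComputablePred.computable_iff.2
    ⟨_, hf.comp (h2.to_comp.comp Computable.encode), ?_⟩)
  funext c
  obtain ⟨h3, h4⟩ := hst (Encodable.encode c)
  rw [Denumerable.ofNat_encode] at h3 h4
  refine propext ⟨fun h5 => h _ _ (h3 h5), fun h5 => by_contra fun h6 => ?_⟩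
  exact h0 ⟨_, _, h5, fun a b h7 => by_contra fun h8 => h6 (h4 a b h8 h7)⟩

end Pool.Agent.P.MP_5be460_lc.G.E
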