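import Pool.Agent.P.MP_5be460_lc.Words

namespace Pool.Agent.P.MP_5be460_lc

open Finset Module

universe u

variable {F : Type} [Field F] {Y : Type u}

/-- values of the derivation on words. -/
noncomputable def derW (g : Y → FreeAlgebra F Y) : List Y → FreeAlgebra F Y
  | [] => 0
  | y :: l => g y * word F l + FreeAlgebra.ι F y * derW g l

/-- the derivation with prescribed values on the generators. -/
noncomputable def der (g : Y → FreeAlgebra F Y) : Module.End F (FreeAlgebra F Y) :=
  onWords (derW g)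

lemma der_word (g : Y → FreeAlgebra F Y) (l : List Y) : der g (word F l) = derW g l :=
  onWords_word _ _

lemma der_one (g : Y → FreeAlgebra F Y) : der g 1 = 0 := der_word g []

lemma der_ι (g : Y → FreeAlgebra F Y) (y : Y) : der g (FreeAlgebra.ι F y) = g y := by
  rw [← word_single, der_word]; simp [derW]

lemma der_ι_mul (g : Y → FreeAlgebra F Y) (y : Y) (f : FreeAlgebra F Y) :
    der g (FreeAlgebra.ι F y * f) = g y * f + FreeAlgebra.ι F y * der g f := by
  induction f using word_induction with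
  | h0 => simp
  | hw l => rw [← word_cons, der_word, der_word, derW]
  | hadd f f' h h' => rw [mul_add, map_add, h, h', map_add]; noncomm_ring
  | hsmul c f h => rw [mul_smul_comm, map_smul, h, map_smul]; simp

lemma der_mul (g : Y → FreeAlgebra F Y) (e f : FreeAlgebra F Y) :
    der g (e * f) = der g e * f + e * der g f := by
  induction e using word_induction with
  | h0 => simp
  | hw l =>
    induction l with
    | nil => simp [der_one]
    | cons y l ih => rw [word_cons, mul_assoc, der_ι_mul, ih, der_ι_mul]; noncomm_ring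
  | hadd e e' h h' => rw [add_mul, map_add, h, h', map_add]; noncomm_ring
  | hsmul c e h => rw [smul_mul_assoc, map_smul, h, map_smul]; simp

lemma der_cm (g : Y → FreeAlgebra F Y) (e f : FreeAlgebra F Y) :
    der g (cm e f) = cm (der g e) f + cm e (der g f) := by
  unfold cm; rw [map_sub, der_mul, der_mul]; noncomm_ring

lemma der_mem_lie {g : Y → FreeAlgebra F Y} (hg : ∀ y, g y ∈ lieElt F Y) {f : FreeAlgebra F Y}
    (hf : f ∈ lieElt F Y) : der g f ∈ lieElt F Y := by
  refine lie_induction (P := fun f => der g f ∈ lieElt F Y) (by simp) (fun f hf => ?_)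
    (fun _ _ h1 h2 => by rw [map_add]; exact add_mem h1 h2)
    (fun c _ h => by rw [map_smul]; exact Submodule.smul_mem _ c h) hf
  induction hf with
  | gen y => rw [der_ι]; exact hg y
  | br h1 h2 h3 h4 => rw [der_cm]; exact add_mem (cm_mem_lie h3 h2.mem) (cm_mem_lie h1.mem h4)

/-- the shift derivation on the free algebra over `Z × ℕ`. -/
noncomputable def shD (F : Type) [Field F] (Z : Type u) :
    Module.End F (FreeAlgebra F (Z × ℕ)) :=
  der fun p => FreeAlgebra.ι F (p.1, p.2 + 1)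

lemma shD_ι {Z : Type u} (z : Z) (k : ℕ) :
    shD F Z (FreeAlgebra.ι F (z, k)) = FreeAlgebra.ι F (z, k + 1) := der_ι _ _

lemma shD_mul {Z : Type u} (e f : FreeAlgebra F (Z × ℕ)) :
    shD F Z (e * f) = shD F Z e * f + e * shD F Z f := der_mul _ _ _

lemma shD_one {Z : Type u} : shD F Z 1 = 0 := der_one _

lemma shD_mem_lie {Z : Type u} {f : FreeAlgebra F (Z × ℕ)} (hf : f ∈ lieElt F (Z × ℕ)) :
    shD F Z f ∈ lieElt F (Z × ℕ) := der_mem_lie (fun _ => ι_mem_lie _) hf

/-- the elimination map. -/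
noncomputable def elimJ (F : Type) [Field F] (x : Y) :
    FreeAlgebra F ({y // y ≠ x} × ℕ) →ₐ[F] FreeAlgebra F Y :=
  FreeAlgebra.lift F fun p => (cm (FreeAlgebra.ι F x))^[p.2] (FreeAlgebra.ι F p.1.1)

lemma elimJ_zero (x : Y) (y : {y // y ≠ x}) :
    elimJ F x (FreeAlgebra.ι F (y, 0)) = FreeAlgebra.ι F y.1 := by simp [elimJ]

lemma elimJ_succ (x : Y) (y : {y // y ≠ x}) (k : ℕ) :
    elimJ F x (FreeAlgebra.ι F (y, k + 1)) =
      cm (FreeAlgebra.ι F x) (elimJ F x (FreeAlgebra.ι F (y, k))) := by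
  simp only [elimJ, FreeAlgebra.lift_ι_apply, Function.iterate_succ_apply']

lemma elimJ_shD (x : Y) (e : FreeAlgebra F ({y // y ≠ x} × ℕ)) :
    elimJ F x (shD F _ e) = cm (FreeAlgebra.ι F x) (elimJ F x e) := by
  induction e using word_induction with
  | h0 => simp
  | hw l =>
    induction l with
    | nil => simp [shD_one, cm]
    | cons p l ih =>
      obtain ⟨y, k⟩ := p
      rw [word_cons, shD_mul, map_add, map_mul, map_mul, map_mul, ih, shD_ι, elimJ_succ]
      unfold cm; noncomm_ring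
  | hadd e e' h h' => rw [map_add, map_add, h, h', map_add, cm_add_right]
  | hsmul c e h => rw [map_smul, map_smul, h, map_smul, cm_smul_right]

lemma elimJ_injective (x : Y) : Function.Injective (elimJ F x) := by
  classical
  let φ : FreeAlgebra F Y →ₐ[F] Module.End F (FreeAlgebra F ({y // y ≠ x} × ℕ)) :=
    FreeAlgebra.lift F fun y => if h : y = x then shD F _ else
      Algebra.lmul F _ (FreeAlgebra.ι F ((⟨y, h⟩ : {y // y ≠ x}), 0))
  have h1 : φ.comp (elimJ F x) = Algebra.lmul F _ := by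
    apply FreeAlgebra.hom_ext
    funext p
    obtain ⟨y, k⟩ := p
    simp only [Function.comp_apply, AlgHom.comp_apply]
    induction k with
    | zero => rw [elimJ_zero]; simp [φ, y.2]
    | succ k ih =>
      rw [elimJ_succ, map_cm, ih]
      have h2 : φ (FreeAlgebra.ι F x) = shD F _ := by simp [φ]
      rw [h2]
      refine LinearMap.ext fun f => ?_
      simp [cm, shD_mul, shD_ι]
  intro e e' h
  have h2 := congrArg φ h
  rw [← AlgHom.comp_apply, ← AlgHom.comp_apply, h1] at h2
  simpa using LinearMap.congr_fun h2 1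

lemma elimJ_hom (wt : Y → ℕ) (x : Y) (p : {y // y ≠ x} × ℕ) :
    Hom wt (wt p.1.1 + p.2 * wt x) (elimJ F x (FreeAlgebra.ι F p)) := by
  obtain ⟨y, k⟩ := p
  induction k with
  | zero => rw [elimJ_zero]; simpa using hom_ι y.1
  | succ k ih =>
    rw [elimJ_succ]
    have h := (hom_ι (F := F) (wt := wt) x).cm ih
    have h2 : wt x + (wt y.1 + k * wt x) = wt y.1 + (k + 1) * wt x := by ring
    exact h2 ▸ h

lemma elimJ_lie (x : Y) {f : FreeAlgebra F Y} (hf : f ∈ lieElt F Y) :
    ∃ (α : F) (e : FreeAlgebra F ({y // y ≠ x} × ℕ)), e ∈ lieElt F _ ∧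
      f = α • FreeAlgebra.ι F x + elimJ F x e := by
  refine lie_induction (P := fun f => ∃ (α : F) (e : FreeAlgebra F ({y // y ≠ x} × ℕ)),
    e ∈ lieElt F _ ∧ f = α • FreeAlgebra.ι F x + elimJ F x e) ⟨0, 0, zero_mem _, by simp⟩
    (fun f hf => ?_) ?_ ?_ hf
  · induction hf with
    | gen y =>
      by_cases h : y = x
      · exact ⟨1, 0, zero_mem _, by simp [h]⟩
      · exact ⟨0, FreeAlgebra.ι F (⟨y, h⟩, 0), ι_mem_lie _, by simp [elimJ_zero]⟩
    | br _ _ h1 h2 =>
      obtain ⟨α, e, he, rfl⟩ := h1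
      obtain ⟨β, e', he', rfl⟩ := h2
      refine ⟨0, α • shD F _ e' - β • shD F _ e + cm e e',
        add_mem (sub_mem (Submodule.smul_mem _ _ (shD_mem_lie he'))
          (Submodule.smul_mem _ _ (shD_mem_lie he))) (cm_mem_lie he he'), ?_⟩
      simp only [map_add, map_sub, map_smul, elimJ_shD, map_cm, cm_add_left, cm_add_right,
        cm_smul_left, cm_smul_right, cm_self, smul_zero, zero_smul, zero_add]
      rw [cm_swap (elimJ F x e) (FreeAlgebra.ι F x)]
      simp only [smul_neg]
      abel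
  · rintro _ _ ⟨α, e, he, rfl⟩ ⟨β, e', he', rfl⟩
    exact ⟨α + β, e + e', add_mem he he', by rw [map_add, add_smul]; abel⟩
  · rintro c _ ⟨α, e, he, rfl⟩
    exact ⟨c * α, c • e, Submodule.smul_mem _ _ he, by rw [map_smul, smul_add, mul_smul]⟩

lemma elimJ_lie_hom (wt : Y → ℕ) (x : Y) {n : ℕ} {f : FreeAlgebra F Y} (hf : f ∈ lieElt F Y)
    (hn : Hom wt n f) (hx : n ≠ wt x) :
    ∃ e : FreeAlgebra F ({y // y ≠ x} × ℕ), e ∈ lieElt F _ ∧
      Hom (fun p => wt p.1.1 + p.2 * wt x) n e ∧ f = elimJ F x e := by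
  obtain ⟨α, e, he, h⟩ := elimJ_lie x hf
  refine ⟨pr _ n e, pr_mem_lie n he, hom_pr n e, ?_⟩
  rw [← pr_map (wt' := wt) (elimJ F x) (elimJ_hom wt x), ← hn]
  conv_lhs => rw [h]
  rw [map_add, map_smul, (hom_ι x).pr_ne hx, smul_zero, zero_add]

/-- the conclusion of the elimination theorem. -/
def Elim (wt : Y → ℕ) (d : ℕ) (a : FreeAlgebra F Y) : Prop :=
  ∃ (Z : Type u) (j : FreeAlgebra F (Z × ℕ) →ₐ[F] FreeAlgebra F Y), Function.Injective j ∧
    (∀ e, j (shD F Z e) = cm a (j e)) ∧
    ∀ n, d ≤ n → ∀ f ∈ lieElt F Y, Hom wt n f →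
      ∃ (α : F) (e : FreeAlgebra F (Z × ℕ)), e ∈ lieElt F _ ∧ f = α • a + j e ∧ (n ≠ d → α = 0)

lemma elim_gen (wt : Y → ℕ) (x : Y) : Elim wt (wt x) (FreeAlgebra.ι F x) := by
  refine ⟨_, elimJ F x, elimJ_injective x, elimJ_shD x, fun n _ f hf hn => ?_⟩
  by_cases h : n = wt x
  · obtain ⟨α, e, he, h1⟩ := elimJ_lie x hf
    exact ⟨α, e, he, h1, fun h' => absurd h h'⟩
  · obtain ⟨e, he, -, h1⟩ := elimJ_lie_hom wt x hf hn h
    exact ⟨0, e, he, by simp [h1], fun _ => rfl⟩

lemma Elim.transport {Y' : Type u} {wt : Y → ℕ} {wt' : Y' → ℕ} {d : ℕ}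
    {a' : FreeAlgebra F Y'} (J : FreeAlgebra F Y' →ₐ[F] FreeAlgebra F Y)
    (hJ : Function.Injective J)
    (hs : ∀ n, d ≤ n → ∀ f ∈ lieElt F Y, Hom wt n f →
      ∃ f' ∈ lieElt F Y', Hom wt' n f' ∧ f = J f') (h : Elim wt' d a') : Elim wt d (J a') := by
  obtain ⟨Z, j, h1, h2, h3⟩ := h
  refine ⟨Z, J.comp j, hJ.comp h1, fun e => ?_, fun n hn f hf hfn => ?_⟩
  · simp [h2, map_cm]
  · obtain ⟨f', hf', hfn', rfl⟩ := hs n hn f hf hfn
    obtain ⟨α, e, he, rfl, h4⟩ := h3 n hn f' hf' hfn'
    exact ⟨α, e, he, by simp, h4⟩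

lemma elim_base {wt : Y → ℕ} {d : ℕ} (hd : 1 ≤ d) (hwt : ∀ y, d ≤ wt y) {a : FreeAlgebra F Y}
    (ha : a ∈ lieElt F Y) (had : Hom wt d a) (ha0 : a ≠ 0) : Elim wt d a := by
  classical
  have h1 : a ∈ Submodule.span F (FreeAlgebra.ι F '' {y | wt y = d}) := by
    rw [← had]
    refine lie_induction
      (P := fun a => pr wt d a ∈ Submodule.span F (FreeAlgebra.ι F '' {y | wt y = d}))
      (by simp) (fun f hf => ?_) (fun _ _ h1 h2 => by rw [map_add]; exact add_mem h1 h2)
      (fun c _ h => by rw [map_smul]; exact Submodule.smul_mem _ c h) ha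
    cases hf with
    | gen y =>
      by_cases h : d = wt y
      · rw [h, hom_ι y]; exact Submodule.subset_span ⟨y, rfl, rfl⟩
      · rw [(hom_ι y).pr_ne h]; exact zero_mem _
    | br h1 h2 =>
      obtain ⟨m, hm, h1⟩ := h1.exists_hom hwt
      obtain ⟨n, hn, h2⟩ := h2.exists_hom hwt
      rw [(h1.cm h2).pr_ne (by omega)]; exact zero_mem _
  obtain ⟨c, hc, hca⟩ := (Finsupp.mem_span_image_iff_linearCombination F).1 h1
  have hc0 : c ≠ 0 := by rintro rfl; exact ha0 (by simpa using hca.symm)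
  obtain ⟨x, hx⟩ := Finsupp.support_nonempty_iff.2 hc0
  have hxd : wt x = d := hc hx
  have hcx : c x ≠ 0 := Finsupp.mem_support_iff.1 hx
  obtain ⟨r, hr⟩ : ∃ r, r = Finsupp.linearCombination F (FreeAlgebra.ι F) (c.erase x) := ⟨_, rfl⟩
  have har : a = c x • FreeAlgebra.ι F x + r := by
    rw [← hca, hr, ← Finsupp.linearCombination_single F (v := FreeAlgebra.ι F) (c x) x, ← map_add,
      Finsupp.single_add_erase]
  have hr1 : r ∈ Submodule.span F (FreeAlgebra.ι F '' {y | wt y = d ∧ y ≠ x}) := by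
    refine (Finsupp.mem_span_image_iff_linearCombination F).2 ⟨_, ?_, hr.symm⟩
    intro y hy
    rw [Finsupp.support_erase, Finset.mem_coe, Finset.mem_erase] at hy
    exact ⟨hc hy.2, hy.1⟩
  have hr2 : ∀ g : FreeAlgebra F Y,
      FreeAlgebra.lift F (Function.update (FreeAlgebra.ι F) x g) r = r := by
    intro g
    clear hr har
    induction hr1 using Submodule.span_induction with
    | mem _ h => obtain ⟨y, hy, rfl⟩ := h; simp [hy.2]
    | zero => simp
    | add _ _ _ _ h h' => rw [map_add, h, h']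
    | smul _ _ _ h => rw [map_smul, h]
  have hr3 : r ∈ lieElt F Y ∧ Hom wt d r := by
    clear hr har hr2
    induction hr1 using Submodule.span_induction with
    | mem _ h => obtain ⟨y, hy, rfl⟩ := h; exact ⟨ι_mem_lie y, hy.1 ▸ hom_ι y⟩
    | zero => exact ⟨zero_mem _, hom_zero _⟩
    | add _ _ _ _ h h' => exact ⟨add_mem h.1 h'.1, h.2.add h'.2⟩
    | smul c _ _ h => exact ⟨Submodule.smul_mem _ c h.1, h.2.smul c⟩
  let θ := FreeAlgebra.lift F (Function.update (FreeAlgebra.ι F) x a)
  let θ' := FreeAlgebra.lift F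
    (Function.update (FreeAlgebra.ι F) x ((c x)⁻¹ • (FreeAlgebra.ι F x - r)))
  have hθx : θ (FreeAlgebra.ι F x) = a := by simp [θ]
  have hθ'x : θ' (FreeAlgebra.ι F x) = (c x)⁻¹ • (FreeAlgebra.ι F x - r) := by simp [θ']
  have e1 : θ'.comp θ = AlgHom.id F _ := by
    apply FreeAlgebra.hom_ext
    funext y
    simp only [Function.comp_apply, AlgHom.comp_apply, AlgHom.id_apply]
    by_cases h : y = x
    · rw [h, hθx]
      conv_lhs => rw [har]
      rw [map_add, map_smul, hθ'x, hr2, smul_smul, mul_inv_cancel₀ hcx, one_smul, sub_add_cancel]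
    · simp [θ, θ', h]
  have e2 : θ.comp θ' = AlgHom.id F _ := by
    apply FreeAlgebra.hom_ext
    funext y
    simp only [Function.comp_apply, AlgHom.comp_apply, AlgHom.id_apply]
    by_cases h : y = x
    · rw [h, hθ'x, map_smul, map_sub, hθx, hr2]
      conv_lhs => rw [har]
      rw [add_sub_cancel_right, smul_smul, inv_mul_cancel₀ hcx, one_smul]
    · simp [θ, θ', h]
  rw [← hθx]
  refine Elim.transport (wt' := wt) θ (fun e e' h => ?_) (fun n _ f hf hfn => ?_)
    (hxd ▸ elim_gen wt x)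
  · have h2 := congrArg θ' h
    rwa [← AlgHom.comp_apply, ← AlgHom.comp_apply, e1] at h2
  · refine ⟨θ' f, map_mem_lie θ' (fun y => ?_) hf, ?_, ?_⟩
    · by_cases h : y = x
      · rw [h, hθ'x]; exact Submodule.smul_mem _ _ (sub_mem (ι_mem_lie x) hr3.1)
      · simpa [θ', h] using ι_mem_lie y
    · unfold Hom
      rw [pr_map (wt := wt) θ' (fun y => ?_), hfn]
      by_cases h : y = x
      · rw [h, hθ'x]; exact ((hom_ι x).sub (hxd ▸ hr3.2)).smul _
      · simpa [θ', h] using hom_ι y
    · rw [← AlgHom.comp_apply, e2]; rfl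

lemma elim_aux (d k : ℕ) : ∀ m, m + k = d → 1 ≤ m → ∀ (c : ℕ) (Y : Type u) (wt : Y → ℕ),
    (∀ y, m ≤ wt y) → {y | wt y < d}.Finite → {y | wt y = m}.ncard < c →
    ∀ a ∈ lieElt F Y, Hom wt d a → a ≠ 0 → Elim wt d a := by
  induction k with
  | zero =>
    rintro m rfl hm _ Y wt hwt - - a ha had ha0
    exact elim_base hm hwt ha had ha0
  | succ k ih =>
    intro m hmk hm c
    induction c with
    | zero => intro Y wt _ _ h; omega
    | succ c ihc =>
      intro Y wt hwt hfin hc a ha had ha0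
      by_cases hx : ∃ x, wt x = m
      · obtain ⟨x, hx⟩ := hx
        obtain ⟨a', ha', had', rfl⟩ := elimJ_lie_hom wt x ha had (by omega)
        refine Elim.transport (wt' := fun p => wt p.1.1 + p.2 * wt x) (elimJ F x)
          (elimJ_injective x) ?_ ?_
        · intro n hn f hf hfn
          have hnx : n ≠ wt x := by omega
          exact elimJ_lie_hom wt x hf hfn hnx
        refine ihc _ _ (fun p => (hwt _).trans (Nat.le_add_right _ _)) ?_ ?_ a' ha' had'
            (fun h => ha0 (by rw [h, map_zero]))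
        · refine ((hfin.preimage Subtype.val_injective.injOn).prod (Set.finite_lt_nat d)).subset ?_
          rintro ⟨y, i⟩ h
          simp only [Set.mem_ofPred_eq] at h
          refine ⟨?_, ?_⟩
          · simp only [Set.mem_preimage, Set.mem_ofPred_eq]; omega
          · simp only [Set.mem_ofPred_eq]; nlinarith
        · have hfm : {y | wt y = m}.Finite := hfin.subset fun y (hy : wt y = m) => by
            simp only [Set.mem_ofPred_eq]; omega
          have h1 : ({y | wt y = m} \ {x}).ncard < {y | wt y = m}.ncard :=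
            Set.ncard_sdiff_singleton_lt_of_mem hx hfm
          have h0 : ∀ p : {y // y ≠ x} × ℕ, wt p.1.1 + p.2 * wt x = m → wt p.1.1 = m ∧ p.2 = 0 := by
            intro p h
            have h3 := hwt p.1.1
            have h4 : p.2 * wt x = 0 := by omega
            refine ⟨by omega, ?_⟩
            rcases Nat.mul_eq_zero.1 h4 with h5 | h5
            · exact h5
            · omega
          have h2 : {p : {y // y ≠ x} × ℕ | wt p.1.1 + p.2 * wt x = m}.ncard ≤
              ({y | wt y = m} \ {x}).ncard := by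
            refine Set.ncard_le_ncard_of_injOn (fun p : {y // y ≠ x} × ℕ => p.1.1) ?_ ?_
              (hfm.subset Set.sdiff_subset)
            · intro p hp
              exact ⟨(h0 p hp).1, p.1.2⟩
            · intro p hp p' hp' h
              exact Prod.ext (Subtype.ext h) (by rw [(h0 p hp).2, (h0 p' hp').2])
          omega
      · refine ih (m + 1) (by omega) (by omega) _ Y wt (fun y => ?_) hfin (Nat.lt_succ_self _)
          a ha had ha0
        have h1 := hwt y
        have h2 : wt y ≠ m := fun h => hx ⟨y, h⟩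
        omega

theorem elim {wt : Y → ℕ} {d : ℕ} (hwt : ∀ y, 1 ≤ wt y) (hfin : {y | wt y < d}.Finite)
    {a : FreeAlgebra F Y} (ha : a ∈ lieElt F Y) (had : Hom wt d a) (ha0 : a ≠ 0) :
    Elim wt d a := by
  have hd : 1 ≤ d := by
    rcases Nat.eq_zero_or_pos d with rfl | h
    · exact absurd (had.symm.trans (pr_zero_of_lie hwt ha)) ha0
    · exact h
  exact elim_aux d (d - 1) 1 (by omega) le_rfl _ Y wt hwt hfin (Nat.lt_succ_self _) a ha had ha0

end Pool.Agent.P.MP_5be460_lc
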