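import Pool.Agent.P.MP_5be460_lc.Elim

namespace Pool.Agent.P.MP_5be460_lc

open Finset Module Polynomial

universe u

set_option linter.unusedSectionVars false

variable {F : Type} [Field F] {Z : Type u} {R R' : Type} [CommRing R] [Algebra F R]
  [CommRing R'] [Algebra F R']

open Classical in
/-- evaluation of a word at a point. -/
noncomputable def evW : List (Z × R) → List (Z × ℕ) → R
  | [], [] => 1
  | [], _ :: _ => 0
  | _ :: _, [] => 0
  | p :: ℓ, w :: l => (if p.1 = w.1 then p.2 ^ w.2 else 0) * evW ℓ l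

/-- evaluation at a point. -/
noncomputable def ev (F : Type) [Field F] [Algebra F R] (ℓ : List (Z × R)) :
    FreeAlgebra F (Z × ℕ) →ₗ[F] R := onWords (evW ℓ)

/-- sum of the coordinates. -/
def sg (ℓ : List (Z × R)) : R := (ℓ.map Prod.snd).sum

@[simp] lemma sg_nil : sg ([] : List (Z × R)) = 0 := rfl
@[simp] lemma sg_cons (p : Z × R) (ℓ : List (Z × R)) : sg (p :: ℓ) = p.2 + sg ℓ := by simp [sg]
@[simp] lemma sg_append (ℓ ℓ' : List (Z × R)) : sg (ℓ ++ ℓ') = sg ℓ + sg ℓ' := by simp [sg]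

lemma ev_word (ℓ : List (Z × R)) (l : List (Z × ℕ)) : ev F ℓ (word F l) = evW ℓ l :=
  onWords_word _ _

lemma evW_len : ∀ (ℓ : List (Z × R)) (l : List (Z × ℕ)), ℓ.length ≠ l.length → evW ℓ l = 0
  | [], [], h => absurd rfl h
  | [], _ :: _, _ => rfl
  | _ :: _, [], _ => rfl
  | p :: ℓ, w :: l, h => by rw [evW, evW_len ℓ l (by simpa using h), mul_zero]

/-- the length weight. -/
abbrev one1 : Z × ℕ → ℕ := fun _ => 1

lemma ev_pr (ℓ : List (Z × R)) (n : ℕ) (f : FreeAlgebra F (Z × ℕ)) :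
    ev F ℓ (pr one1 n f) = if ℓ.length = n then ev F ℓ f else 0 := by
  induction f using word_induction with
  | h0 => simp
  | hw l =>
    rw [pr_word, wtw_one]
    by_cases h1 : l.length = n <;> by_cases h2 : ℓ.length = n
    · simp [h1, h2]
    · rw [if_pos h1, if_neg h2, ev_word, evW_len _ _ (by omega)]
    · rw [if_neg h1, if_pos h2, ev_word, evW_len _ _ (by omega), map_zero]
    · simp [h1, h2]
  | hadd f g h h' => rw [map_add, map_add, h, h', map_add]; split_ifs <;> simp
  | hsmul c f h => rw [map_smul, map_smul, h, map_smul]; split_ifs <;> simp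

open Classical in
lemma ev_cons (p : Z × R) (ℓ : List (Z × R)) (w : Z × ℕ) (f : FreeAlgebra F (Z × ℕ)) :
    ev F (p :: ℓ) (FreeAlgebra.ι F w * f) = (if p.1 = w.1 then p.2 ^ w.2 else 0) * ev F ℓ f := by
  induction f using word_induction with
  | h0 => simp
  | hw l => rw [← word_cons, ev_word, ev_word, evW]
  | hadd f g h h' => rw [mul_add, map_add, h, h', map_add, mul_add]
  | hsmul c f h => rw [mul_smul_comm, map_smul, h, map_smul, mul_smul_comm]

lemma ev_nil (w : Z × ℕ) (f : FreeAlgebra F (Z × ℕ)) :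
    ev F ([] : List (Z × R)) (FreeAlgebra.ι F w * f) = 0 := by
  induction f using word_induction with
  | h0 => simp
  | hw l => rw [← word_cons, ev_word, evW]
  | hadd f g h h' => rw [mul_add, map_add, h, h', add_zero]
  | hsmul c f h => rw [mul_smul_comm, map_smul, h, smul_zero]

lemma ev_mul {n : ℕ} {f : FreeAlgebra F (Z × ℕ)} (hf : Hom one1 n f) (g : FreeAlgebra F (Z × ℕ))
    {ℓ : List (Z × R)} (hℓ : ℓ.length = n) (ℓ' : List (Z × R)) :
    ev F (ℓ ++ ℓ') (f * g) = ev F ℓ f * ev F ℓ' g := by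
  refine hf.induction (P := fun f => ev F (ℓ ++ ℓ') (f * g) = ev F ℓ f * ev F ℓ' g) (by simp)
    (fun l hl => ?_) (fun _ _ h1 h2 => by rw [add_mul, map_add, h1, h2, map_add, add_mul])
    (fun c _ h => by rw [smul_mul_assoc, map_smul, h, map_smul, smul_mul_assoc])
  rw [wtw_one, ← hℓ] at hl
  clear hℓ hf
  induction l generalizing ℓ with
  | nil =>
    obtain rfl : ℓ = [] := List.length_eq_zero_iff.1 hl.symm
    have h1 : ev F ([] : List (Z × R)) 1 = 1 := ev_word [] []
    simp [h1]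
  | cons w l ih =>
    obtain _ | ⟨p, ℓ⟩ := ℓ
    · simp at hl
    · rw [word_cons, mul_assoc, List.cons_append, ev_cons, ev_cons, ih (by simpa using hl),
        mul_assoc]

lemma ev_shD (ℓ : List (Z × R)) (f : FreeAlgebra F (Z × ℕ)) :
    ev F ℓ (shD F Z f) = sg ℓ * ev F ℓ f := by
  induction f using word_induction with
  | h0 => simp
  | hw l =>
    induction l generalizing ℓ with
    | nil =>
      rw [word_nil, shD_one, map_zero]
      obtain _ | ⟨p, ℓ⟩ := ℓ
      · simp
      · have h1 : ev F (p :: ℓ) 1 = 0 := ev_word (p :: ℓ) []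
        rw [h1, mul_zero]
    | cons w l ih =>
      obtain ⟨z, k⟩ := w
      rw [word_cons, shD_mul, shD_ι, map_add]
      obtain _ | ⟨p, ℓ⟩ := ℓ
      · simp [ev_nil]
      · rw [ev_cons, ev_cons, ev_cons, ih, sg_cons]
        split_ifs <;> ring
  | hadd f g h h' => rw [map_add, map_add, h, h', map_add, mul_add]
  | hsmul c f h => rw [map_smul, map_smul, h, map_smul, mul_smul_comm]

lemma ev_aeval (ℓ : List (Z × R)) (φ : F[X]) (f : FreeAlgebra F (Z × ℕ)) :
    ev F ℓ (aeval (shD F Z) φ f) = aeval (sg ℓ) φ * ev F ℓ f := by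
  induction φ using Polynomial.induction_on with
  | C c => rw [aeval_C, aeval_C, Module.algebraMap_end_apply, map_smul, Algebra.smul_def]
  | add φ ψ h h' => simp [h, h', add_mul]
  | monomial n c h =>
    rw [pow_succ', mul_left_comm, map_mul, map_mul (aeval (sg ℓ)), aeval_X, aeval_X,
      Module.End.mul_apply, ev_shD, h, mul_assoc]

/-- image of a point under a map of the coefficient rings. -/
def pm (φ : R → R') (ℓ : List (Z × R)) : List (Z × R') := ℓ.map (Prod.map id φ)

@[simp] lemma pm_nil (φ : R → R') : pm φ ([] : List (Z × R)) = [] := rfl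
@[simp] lemma pm_cons (φ : R → R') (p : Z × R) (ℓ : List (Z × R)) :
    pm φ (p :: ℓ) = (p.1, φ p.2) :: pm φ ℓ := rfl
@[simp] lemma pm_append (φ : R → R') (ℓ ℓ' : List (Z × R)) :
    pm φ (ℓ ++ ℓ') = pm φ ℓ ++ pm φ ℓ' := List.map_append
@[simp] lemma pm_length (φ : R → R') (ℓ : List (Z × R)) : (pm φ ℓ).length = ℓ.length :=
  List.length_map _

lemma sg_pm (φ : R →ₐ[F] R') (ℓ : List (Z × R)) : sg (pm φ ℓ) = φ (sg ℓ) := by
  induction ℓ with
  | nil => simp
  | cons p ℓ ih => simp [ih]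

lemma ev_pm (φ : R →ₐ[F] R') (ℓ : List (Z × R)) (f : FreeAlgebra F (Z × ℕ)) :
    ev F (pm φ ℓ) f = φ (ev F ℓ f) := by
  induction f using word_induction with
  | h0 => simp
  | hw l =>
    rw [ev_word, ev_word]
    induction l generalizing ℓ with
    | nil => obtain _ | ⟨p, ℓ⟩ := ℓ <;> simp [evW]
    | cons w l ih =>
      obtain _ | ⟨p, ℓ⟩ := ℓ
      · simp [evW]
      · rw [pm_cons, evW, evW, ih, map_mul]
        split_ifs <;> simp
  | hadd f g h h' => rw [map_add, map_add, h, h', map_add]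
  | hsmul c f h => rw [map_smul, map_smul, h, map_smul]

lemma pm_aeval_C (x : F) (ℓ : List (Z × F)) : pm (aeval x : F[X] →ₐ[F] F) (pm C ℓ) = ℓ := by
  induction ℓ with
  | nil => rfl
  | cons p ℓ ih => rw [pm_cons, pm_cons, ih]; simp

lemma pm_C (ℓ : List (Z × F)) : pm (C : F → F[X]) ℓ = pm (Algebra.ofId F F[X]) ℓ := rfl

open Classical in
/-- removal of a prescribed first letter. -/
noncomputable def strip (F : Type) [Field F] (w : Z × ℕ) :
    FreeAlgebra F (Z × ℕ) →ₗ[F] FreeAlgebra F (Z × ℕ) :=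
  onWords fun l => match l with
    | [] => 0
    | w' :: l => if w' = w then word F l else 0

theorem ev_inj [Infinite F] {f : FreeAlgebra F (Z × ℕ)}
    (h : ∀ ℓ : List (Z × F), ev F ℓ f = 0) : f = 0 := by
  classical
  have hc : ∀ l l' : List (Z × ℕ), (wb F (Z × ℕ)).coord l (word F l') = if l' = l then 1 else 0 := by
    intro l l'
    rw [← wb_apply, Basis.coord_apply, Basis.repr_self, Finsupp.single_apply]
  rw [← (wb F (Z × ℕ)).forall_coord_eq_zero_iff]
  intro l
  induction l generalizing f with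
  | nil =>
    have h1 : (wb F (Z × ℕ)).coord [] = ev F ([] : List (Z × F)) := by
      refine word_ext fun l => ?_
      rw [hc, ev_word]
      cases l <;> simp [evW]
    rw [h1, h]
  | cons w l ih =>
    have h1 : (wb F (Z × ℕ)).coord (w :: l) = ((wb F (Z × ℕ)).coord l).comp (strip F w) := by
      refine word_ext fun l' => ?_
      rw [hc, LinearMap.comp_apply, strip, onWords_word]
      obtain _ | ⟨w', l'⟩ := l'
      · simp
      · by_cases h2 : w' = w <;> simp [h2, hc]
    rw [h1, LinearMap.comp_apply]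
    refine ih fun ℓ => ?_
    have h2 : (ev F ℓ).comp (strip F w) =
        (lcoeff F w.2).comp (ev F ((w.1, (X : F[X])) :: pm C ℓ)) := by
      refine word_ext fun l' => ?_
      rw [LinearMap.comp_apply, LinearMap.comp_apply, strip, onWords_word, ev_word]
      obtain _ | ⟨w', l'⟩ := l'
      · simp [evW]
      · rw [evW, ← ev_word (F := F), pm_C, ev_pm]
        obtain ⟨z, k⟩ := w
        obtain ⟨z', k'⟩ := w'
        by_cases h3 : z = z'
        · subst h3
          by_cases h4 : k' = k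
          · subst h4
            simp [Algebra.ofId_apply]
          · simp [Algebra.ofId_apply, h4, coeff_X_pow, Ne.symm h4]
        · simp [h3, Ne.symm h3]
    have h3 : ev F ((w.1, (X : F[X])) :: pm C ℓ) f = 0 := by
      apply Polynomial.funext
      intro x
      have h4 := ev_pm (aeval x : F[X] →ₐ[F] F) ((w.1, (X : F[X])) :: pm C ℓ) f
      rw [h] at h4
      rw [eval_zero, ← coe_aeval_eq_eval]
      exact h4.symm
    rw [← LinearMap.comp_apply, h2, LinearMap.comp_apply, h3, map_zero]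

lemma exists_ev_ne [Infinite F] {n : ℕ} {f : FreeAlgebra F (Z × ℕ)} (hf : Hom one1 n f)
    (h0 : f ≠ 0) : ∃ ℓ : List (Z × F), ℓ.length = n ∧ ev F ℓ f ≠ 0 := by
  by_contra h
  push Not at h
  refine h0 (ev_inj fun ℓ => ?_)
  rw [← hf, ev_pr]
  split_ifs with h1
  exacts [h ℓ h1, rfl]

lemma pr_shD [Infinite F] (n : ℕ) (f : FreeAlgebra F (Z × ℕ)) :
    pr one1 n (shD F Z f) = shD F Z (pr one1 n f) := by
  rw [← sub_eq_zero]
  refine ev_inj fun ℓ => ?_
  rw [map_sub, ev_pr, ev_shD, ev_shD, ev_pr]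
  split_ifs <;> simp

lemma pr_aeval [Infinite F] (n : ℕ) (φ : F[X]) (f : FreeAlgebra F (Z × ℕ)) :
    pr one1 n (aeval (shD F Z) φ f) = aeval (shD F Z) φ (pr one1 n f) := by
  rw [← sub_eq_zero]
  refine ev_inj fun ℓ => ?_
  rw [map_sub, ev_pr, ev_aeval, ev_aeval, ev_pr]
  split_ifs <;> simp

lemma Lead.shD [Infinite F] {n : ℕ} {f g : FreeAlgebra F (Z × ℕ)} (h : Lead one1 n f g) :
    Lead one1 n (shD F Z f) (shD F Z g) :=
  ⟨fun i hi => by rw [pr_shD, h.1 i hi, map_zero], by rw [pr_shD, h.2]⟩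

lemma Lead.aeval [Infinite F] {n : ℕ} {f g : FreeAlgebra F (Z × ℕ)} (h : Lead one1 n f g)
    (φ : F[X]) : Lead one1 n (aeval (Pool.Agent.P.MP_5be460_lc.shD F Z) φ f)
      (aeval (Pool.Agent.P.MP_5be460_lc.shD F Z) φ g) :=
  ⟨fun i hi => by rw [pr_aeval, h.1 i hi, map_zero], by rw [pr_aeval, h.2]⟩

lemma Hom.shD [Infinite F] {n : ℕ} {f : FreeAlgebra F (Z × ℕ)} (h : Hom one1 n f) :
    Hom one1 n (shD F Z f) := h.lead.shD.hom

/-- shift of the first coordinate of a point by a polynomial. -/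
noncomputable def sh (p : F[X]) : List (Z × F) → List (Z × F[X])
  | [] => []
  | w :: A => (w.1, C w.2 + p) :: pm C A

@[simp] lemma sh_length (p : F[X]) (A : List (Z × F)) : (sh p A).length = A.length := by
  cases A <;> simp [sh]

lemma sg_sh (p : F[X]) {A : List (Z × F)} (hA : 1 ≤ A.length) : sg (sh p A) = C (sg A) + p := by
  obtain _ | ⟨w, A⟩ := A
  · simp at hA
  · rw [sh, sg_cons, pm_C, sg_pm, sg_cons, map_add]
    simp only [Algebra.ofId_apply, algebraMap_eq]
    ring

lemma pm_sh {p : F[X]} {x : F} (h : p.eval x = 0) (A : List (Z × F)) :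
    pm (aeval x : F[X] →ₐ[F] F) (sh p A) = A := by
  obtain _ | ⟨w, A⟩ := A
  · rfl
  · rw [sh, pm_cons, pm_aeval_C]
    simp [h]

lemma ev_ne_of_pm (φ : R →ₐ[F] R') {ℓ : List (Z × R)} {f : FreeAlgebra F (Z × ℕ)}
    (h : ev F (pm φ ℓ) f ≠ 0) : ev F ℓ f ≠ 0 := by
  intro h0
  rw [ev_pm, h0, map_zero] at h
  exact h rfl

theorem shD_inj [Infinite F] {e : FreeAlgebra F (Z × ℕ)} (h0 : pr one1 0 e = 0)
    (h : shD F Z e = 0) : e = 0 := by
  refine ev_inj fun ℓ => ?_
  rcases Nat.eq_zero_or_pos ℓ.length with h1 | h1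
  · have h2 := ev_pr ℓ 0 e
    rw [h0, map_zero, if_pos h1] at h2
    exact h2.symm
  · by_contra h2
    have h3 : ev F (sh X ℓ) e ≠ 0 :=
      ev_ne_of_pm (aeval (0 : F)) (by rw [pm_sh (by simp)]; exact h2)
    have h4 := ev_shD (sh X ℓ) e
    rw [h, map_zero, sg_sh _ h1] at h4
    refine mul_ne_zero ?_ h3 h4.symm
    intro h5
    simpa using congrArg (fun P => coeff P 1) h5

end Pool.Agent.P.MP_5be460_lc
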