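import Pool.Agent.P.MP_5be460_lc.Bridge

namespace Pool.Agent.P.MP_5be460_lc.G

open Module

attribute [local instance 100] LieRing.ofAssociativeRing

variable {I : Type*} [LinearOrder I]

/-- least element of a nonempty multiset. -/
noncomputable def lo (a : Multiset I) (h : ∃ μ, μ ∈ a) : I :=
  a.toFinset.min' (by obtain ⟨μ, hμ⟩ := h; exact ⟨μ, by simpa⟩)

lemma lo_mem (a : Multiset I) (h : ∃ μ, μ ∈ a) : lo a h ∈ a :=
  Multiset.mem_toFinset.1 (Finset.min'_mem _ _)

lemma lo_le (a : Multiset I) (h : ∃ μ, μ ∈ a) {i : I} (hi : i ∈ a) : lo a h ≤ i :=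
  Finset.min'_le _ _ (by simpa)

lemma card_erase_lo (a : Multiset I) (h : ∃ μ, μ ∈ a) :
    (a.erase (lo a h)).card + 1 = a.card := Multiset.card_erase_add_one (lo_mem a h)

variable {F : Type*} [Field F] {L : Type*} [LieRing L] [LieAlgebra F L]

open Classical in
/-- the recursive action on monomials. -/
noncomputable def act (x : Basis I F L) (l : I) (a : Multiset I) : Multiset I →₀ F :=
  if h : ∃ μ, μ < l ∧ μ ∈ a then
    Finsupp.single (l ::ₘ a) 1 +
      (act x l (a.erase (lo a (h.imp fun _ => And.right))) -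
        Finsupp.single (l ::ₘ a.erase (lo a (h.imp fun _ => And.right))) 1).sum
        (fun a' c => if _h' : a'.card < a.card then
          c • act x (lo a (h.imp fun _ => And.right)) a' else 0) +
      (x.repr ⁅x l, x (lo a (h.imp fun _ => And.right))⁆).sum fun ν c =>
        c • act x ν (a.erase (lo a (h.imp fun _ => And.right)))
  else Finsupp.single (l ::ₘ a) 1
termination_by a.card
decreasing_by
  · have := card_erase_lo a (h.imp fun _ => And.right); omega
  · assumption
  · have := card_erase_lo a (h.imp fun _ => And.right); omega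

/-- degree filtration on the polynomial space. -/
def SF (F : Type*) [Field F] (I : Type*) (d : ℕ) : Submodule F (Multiset I →₀ F) :=
  Finsupp.supported F F {a | a.card ≤ d}

omit [LinearOrder I] in
lemma SF_mono {d d' : ℕ} (h : d ≤ d') : SF F I d ≤ SF F I d' :=
  Finsupp.supported_mono fun _ ha => le_trans ha h

omit [LinearOrder I] in
lemma single_mem_SF {d : ℕ} {a : Multiset I} (h : a.card ≤ d) (c : F) :
    Finsupp.single a c ∈ SF F I d := Finsupp.single_mem_supported _ _ h

lemma act_sub_mem (x : Basis I F L) (l : I) (a : Multiset I) :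
    act x l a - Finsupp.single (l ::ₘ a) 1 ∈ SF F I a.card := by
  induction hd : a.card using Nat.strong_induction_on generalizing a l with
  | _ d ih =>
    have key : ∀ (l : I) (a' : Multiset I), a'.card < d → act x l a' ∈ SF F I d := by
      intro l a' ha'
      have h1 := SF_mono (F := F) (I := I) ha'.le (ih _ ha' l a' rfl)
      have h2 : Finsupp.single (l ::ₘ a') (1 : F) ∈ SF F I d :=
        single_mem_SF (by rw [Multiset.card_cons]; omega) _
      simpa using add_mem h1 h2
    rw [act]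
    split_ifs with h
    · rw [add_assoc, add_sub_cancel_left]
      refine add_mem (Submodule.sum_mem _ fun a' _ => ?_) (Submodule.sum_mem _ fun ν _ => ?_)
      · dsimp only
        split_ifs with h'
        · exact Submodule.smul_mem _ _ (key _ _ (hd ▸ h'))
        · exact zero_mem _
      · refine Submodule.smul_mem _ _ (key _ _ ?_)
        have := card_erase_lo a (h.imp fun _ => And.right); omega
    · simp

/-- the action as a bilinear map. -/
noncomputable def Gm (x : Basis I F L) : L →ₗ[F] Module.End F (Multiset I →₀ F) :=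
  x.constr F fun l => Finsupp.linearCombination F (act x l)

lemma Gm_basis (x : Basis I F L) (l : I) (a : Multiset I) :
    Gm x (x l) (Finsupp.single a 1) = act x l a := by
  simp [Gm]

lemma Gm_apply_single (x : Basis I F L) (y : L) (a : Multiset I) :
    Gm x y (Finsupp.single a 1) = (x.repr y).sum fun ν c => c • act x ν a := by
  conv_lhs => rw [← x.linearCombination_repr y]
  rw [Finsupp.linearCombination_apply, Finsupp.sum, map_sum, LinearMap.sum_apply]
  simp only [map_smul, LinearMap.smul_apply, Gm_basis, Finsupp.sum]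

omit [LinearOrder I] in
lemma SF_induction {d : ℕ} {P : (Multiset I →₀ F) → Prop} (h0 : P 0)
    (hadd : ∀ u v, P u → P v → P (u + v)) (hsmul : ∀ (c : F) u, P u → P (c • u))
    (hs : ∀ a, a.card ≤ d → P (Finsupp.single a 1)) {u} (hu : u ∈ SF F I d) : P u := by
  rw [SF, Finsupp.supported_eq_span_single] at hu
  induction hu using Submodule.span_induction with
  | mem v hv => obtain ⟨a, ha, rfl⟩ := hv; exact hs a ha
  | zero => exact h0
  | add u v _ _ hu hv => exact hadd u v hu hv
  | smul c u _ hu => exact hsmul c u hu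

lemma act_of_le (x : Basis I F L) (l : I) (a : Multiset I) (h : ∀ i ∈ a, l ≤ i) :
    act x l a = Finsupp.single (l ::ₘ a) 1 := by
  rw [act, dif_neg]
  rintro ⟨μ, h1, h2⟩
  exact absurd (h μ h2) (not_le.2 h1)

lemma act_rec (x : Basis I F L) (l μ : I) (T : Multiset I) (hT : ∀ i ∈ T, μ ≤ i)
    (hμ : μ < l) : act x l (μ ::ₘ T) =
      Gm x (x μ) (Gm x (x l) (Finsupp.single T 1)) + Gm x ⁅x l, x μ⁆ (Finsupp.single T 1) := by
  have h : ∃ ν, ν < l ∧ ν ∈ μ ::ₘ T := ⟨μ, hμ, by simp⟩
  have hlo : lo (μ ::ₘ T) (h.imp fun _ => And.right) = μ := by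
    apply le_antisymm (lo_le _ _ (by simp))
    rcases Multiset.mem_cons.1 (lo_mem (μ ::ₘ T) (h.imp fun _ => And.right)) with h1 | h1
    exacts [h1.ge, hT _ h1]
  rw [act, dif_pos h]
  simp only [hlo, Multiset.erase_cons_head]
  rw [Gm_apply_single x ⁅x l, x μ⁆, Gm_basis]
  congr 1
  have e1 : Gm x (x μ) (Finsupp.single (l ::ₘ T) 1) = Finsupp.single (l ::ₘ μ ::ₘ T) 1 := by
    rw [Gm_basis, act_of_le, Multiset.cons_swap]
    intro i hi
    rcases Multiset.mem_cons.1 hi with h1 | h1
    exacts [h1 ▸ hμ.le, hT _ h1]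
  have hw := act_sub_mem x l T
  set w := act x l T - Finsupp.single (l ::ₘ T) 1 with hwdef
  have e2 : act x l T = Finsupp.single (l ::ₘ T) 1 + w := by simp [hwdef]
  rw [e2, map_add, e1]
  congr 1
  simp only [Gm, Basis.constr_basis, Finsupp.linearCombination_apply]
  refine Finsupp.sum_congr fun a' ha' => ?_
  have : a'.card ≤ T.card := hw ha'
  rw [dif_pos]
  rw [Multiset.card_cons]; omega

lemma Gm_comm_aux (x : Basis I F L) (w : Multiset I →₀ F)
    (h : ∀ l μ, Gm x (x l) (Gm x (x μ) w) - Gm x (x μ) (Gm x (x l) w) = Gm x ⁅x l, x μ⁆ w)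
    (y y' : L) : Gm x y (Gm x y' w) - Gm x y' (Gm x y w) = Gm x ⁅y, y'⁆ w := by
  let B1 : L →ₗ[F] L →ₗ[F] (Multiset I →₀ F) := LinearMap.mk₂ F
    (fun y y' => Gm x y (Gm x y' w) - Gm x y' (Gm x y w))
    (by intros; simp; abel) (by intros; simp [smul_sub]) (by intros; simp; abel)
    (by intros; simp [smul_sub])
  let B2 : L →ₗ[F] L →ₗ[F] (Multiset I →₀ F) := LinearMap.mk₂ F
    (fun y y' => Gm x ⁅y, y'⁆ w)
    (by intros; simp) (by intros; simp) (by intros; simp) (by intros; simp)
  have : B1 = B2 := LinearMap.ext_basis x x h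
  exact LinearMap.congr_fun₂ this y y'

lemma Gm_comm (x : Basis I F L) (d : ℕ) : ∀ w ∈ SF F I d, ∀ y y' : L,
    Gm x y (Gm x y' w) - Gm x y' (Gm x y w) = Gm x ⁅y, y'⁆ w := by
  induction d using Nat.strong_induction_on with
  | _ d ih =>
    intro w hw
    refine Gm_comm_aux x w ?_
    intro l μ
    refine SF_induction (P := fun w => Gm x (x l) (Gm x (x μ) w) - Gm x (x μ) (Gm x (x l) w) =
      Gm x ⁅x l, x μ⁆ w) (by simp) ?_ ?_ ?_ hw
    · intro u v hu hv
      simp only [map_add, ← hu, ← hv]; abel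
    · intro c u hu
      simp only [map_smul, ← hu, smul_sub]
    intro T hT
    have first : ∀ (l μ : I) (T : Multiset I), (∀ i ∈ T, μ ≤ i) → μ < l →
        Gm x (x l) (Gm x (x μ) (Finsupp.single T 1)) -
          Gm x (x μ) (Gm x (x l) (Finsupp.single T 1)) =
          Gm x ⁅x l, x μ⁆ (Finsupp.single T 1) := by
      intro l μ T hT hμ
      rw [Gm_basis x μ, act_of_le x μ T hT, Gm_basis, act_rec x l μ T hT hμ]
      abel
    wlog hlt : μ < l generalizing l μ
    · rcases (not_lt.mp hlt).eq_or_lt with h | h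
      · subst h; simp
      · have := this μ l h
        rw [← lie_skew, map_neg, LinearMap.neg_apply, ← this]; abel
    by_cases hc : ∀ i ∈ T, μ ≤ i
    · exact first l μ T hc hlt
    push Not at hc
    obtain ⟨i, hTi, hi⟩ := hc
    have hex : ∃ μ, μ ∈ T := ⟨i, hTi⟩
    set ν := lo T hex
    have hνμ : ν < μ := lt_of_le_of_lt (lo_le T hex hTi) hi
    have hνl : ν < l := hνμ.trans hlt
    set Ψ := T.erase ν with hΨ
    have hΨ0 : ∀ i ∈ Ψ, ν ≤ i := fun i hi => lo_le T hex (Multiset.mem_of_mem_erase hi)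
    have hTΨ : Finsupp.single T (1 : F) = Gm x (x ν) (Finsupp.single Ψ 1) := by
      rw [Gm_basis, act_of_le x ν Ψ hΨ0, hΨ, Multiset.cons_erase (lo_mem T hex)]
    have hd : Ψ.card < d := by
      have : Ψ.card + 1 = T.card := card_erase_lo T hex
      omega
    have ih' := ih _ hd
    have hz : Finsupp.single Ψ (1 : F) ∈ SF F I Ψ.card := single_mem_SF le_rfl _
    have three : ∀ l μ : I, ν < l → ν < μ →
        Gm x (x l) (Gm x (x ν) (Gm x (x μ) (Finsupp.single Ψ 1))) =
          Gm x (x ν) (Gm x (x l) (Gm x (x μ) (Finsupp.single Ψ 1))) +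
            Gm x ⁅x l, x ν⁆ (Gm x (x μ) (Finsupp.single Ψ 1)) := by
      intro l μ hl hμ
      have hw := act_sub_mem x μ Ψ
      set w := act x μ Ψ - Finsupp.single (μ ::ₘ Ψ) 1 with hwdef
      have e2 : act x μ Ψ = Finsupp.single (μ ::ₘ Ψ) 1 + w := by simp [hwdef]
      have a1 := first l ν (μ ::ₘ Ψ) (fun i hi => by
        rcases Multiset.mem_cons.1 hi with h1 | h1
        exacts [h1 ▸ hμ.le, hΨ0 _ h1]) hl
      have a2 := ih' w hw (x l) (x ν)
      rw [Gm_basis x μ, e2]
      simp only [map_add]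
      rw [← a1, ← a2]; abel
    rw [hTΨ]
    set z := Finsupp.single Ψ (1 : F)
    have b1 : Gm x (x μ) (Gm x (x ν) z) = Gm x (x ν) (Gm x (x μ) z) + Gm x ⁅x μ, x ν⁆ z := by
      rw [← ih' z hz]; abel
    have b2 : Gm x (x l) (Gm x (x ν) z) = Gm x (x ν) (Gm x (x l) z) + Gm x ⁅x l, x ν⁆ z := by
      rw [← ih' z hz]; abel
    have b3 := ih' z hz (x l) (x μ)
    have b4 := ih' z hz ⁅x l, x ν⁆ (x μ)
    have b5 := ih' z hz (x l) ⁅x μ, x ν⁆
    have b6 := ih' z hz ⁅x l, x μ⁆ (x ν)
    have jac : ⁅⁅x l, x μ⁆, x ν⁆ = ⁅⁅x l, x ν⁆, x μ⁆ + ⁅x l, ⁅x μ, x ν⁆⁆ := by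
      rw [lie_lie, ← lie_skew ⁅x l, x ν⁆ (x μ)]
      abel
    rw [b1, b2, map_add, map_add, three l μ hνl hνμ, three μ l hνμ hνl]
    rw [jac, map_add, LinearMap.add_apply, ← b4, ← b5] at b6
    have b7 : Gm x (x ν) (Gm x (x l) (Gm x (x μ) z)) - Gm x (x ν) (Gm x (x μ) (Gm x (x l) z)) =
      Gm x (x ν) (Gm x ⁅x l, x μ⁆ z) := by rw [← b3, map_sub]
    linear_combination (norm := abel) b7 - b6

lemma Gm_lie (x : Basis I F L) (y y' : L) : Gm x ⁅y, y'⁆ = cm (Gm x y) (Gm x y') :=
  LinearMap.ext fun w => (Gm_comm x (w.support.sup Multiset.card) w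
    (fun _ ha => Finset.le_sup (f := Multiset.card) ha) y y').symm

lemma Gm_injective (x : Basis I F L) {y : L} (h : Gm x y = 0) : y = 0 := by
  have h1 := Gm_apply_single x y 0
  rw [h, LinearMap.zero_apply] at h1
  refine x.forall_coord_eq_zero_iff.1 fun i => ?_
  have h2 := congrArg (fun f : Multiset I →₀ F => f {i}) h1
  simp only [act_of_le x _ 0 (by simp), Finsupp.sum, Finsupp.coe_finsetSum, Finset.sum_apply,
    Finsupp.smul_single, smul_eq_mul, mul_one, Finsupp.single_apply, Multiset.cons_zero,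
    Multiset.singleton_inj, Finsupp.coe_zero, Pi.zero_apply, Finset.sum_ite_eq'] at h2
  by_contra h3
  have h4 : i ∈ (x.repr y).support := Finsupp.mem_support_iff.2 h3
  rw [if_pos h4] at h2
  exact h3 h2.symm

/-- Witt: the free Lie algebra embeds in the free associative algebra over every field. -/
theorem toAssoc_inj {F : Type} [Field F] {Y : Type*} : Function.Injective (toAssoc F Y) := by
  classical
  let : LinearOrder (Basis.ofVectorSpaceIndex F (FreeLieAlgebra F Y)) := linearOrderOfSTO WellOrderingRel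
  let x := Basis.ofVectorSpace F (FreeLieAlgebra F Y)
  let Φ := FreeAlgebra.lift F fun y : Y => Gm x (FreeLieAlgebra.of F y)
  have h : ∀ u, Φ (toAssoc F Y u) = Gm x u := by
    intro u
    induction u using free_induction with
    | h0 => simp
    | hof y => simp [toAssoc_of, Φ]
    | hadd u v hu hv => simp [hu, hv]
    | hsmul c u hu => simp [hu]
    | hlie u v hu hv => rw [toAssoc_lie, Gm_lie, ← hu, ← hv]; simp only [cm, map_sub, map_mul]
  rw [injective_iff_map_eq_zero]
  intro u hu
  exact Gm_injective x (by rw [← h, hu, map_zero])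

end Pool.Agent.P.MP_5be460_lc.G
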