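import Pool.Agent.P.MP_5be460_lc.GOuter
import Pool.Agent.P.MP_5be460_lc.GPbw

namespace Pool.Agent.P.MP_5be460_lc.G

open Finset Module Polynomial

universe u

set_option linter.unusedSectionVars false

attribute [local instance 100] LieRing.ofAssociativeRing

variable {F : Type} [Field F] {Y : Type u} (K : Type) [Field K] [Algebra F K]

/-- extension of scalars on the free associative algebra. -/
noncomputable def bc : FreeAlgebra F Y →ₐ[F] FreeAlgebra K Y := FreeAlgebra.lift F (FreeAlgebra.ι K)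

lemma bc_ι (y : Y) : bc K (FreeAlgebra.ι F y) = FreeAlgebra.ι K y := by simp [bc]

lemma bc_word (l : List Y) : bc K (word F l) = word K l := by
  induction l with
  | nil => simp
  | cons y l ih => rw [word_cons, word_cons, map_mul, bc_ι, ih]

lemma bc_smul (c : F) (f : FreeAlgebra F Y) : bc K (c • f) = algebraMap F K c • bc K f := by
  rw [map_smul, algebraMap_smul]

lemma bc_mem {f : FreeAlgebra F Y} (hf : f ∈ lieElt F Y) : bc K f ∈ lieElt K Y := by
  refine lie_induction (P := fun f => bc K f ∈ lieElt K Y) (by simp) (fun f hf => ?_)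
    (fun _ _ h1 h2 => by rw [map_add]; exact add_mem h1 h2)
    (fun c _ h => by rw [bc_smul]; exact Submodule.smul_mem _ _ h) hf
  induction hf with
  | gen y => rw [bc_ι]; exact ι_mem_lie y
  | br _ _ h1 h2 => rw [map_cm]; exact cm_mem_lie h1 h2

lemma exists_retr : ∃ (r : K → F) (R : FreeAlgebra K Y →+ FreeAlgebra F Y), r 1 = 1 ∧
    ∀ (c : K) f, R (c • bc K f) = r c • f := by
  obtain ⟨r, hr⟩ := LinearMap.exists_leftInverse_of_injective (Algebra.linearMap F K)
    (LinearMap.ker_eq_bot.2 (algebraMap F K).injective)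
  refine ⟨r, (Finsupp.liftAddHom fun l => ((LinearMap.toSpanSingleton F _
    (word F l)).comp r).toAddMonoidHom).comp (wb K Y).repr.toLinearMap.toAddMonoidHom, ?_, ?_⟩
  · simpa using LinearMap.congr_fun hr 1
  · intro c f
    induction f using word_induction generalizing c with
    | h0 => simp
    | hw l => simp [bc_word, ← wb_apply (F := K)]
    | hadd f g h h' => rw [map_add, smul_add, map_add, h, h', smul_add]
    | hsmul a f h =>
      rw [bc_smul, smul_smul, h, smul_smul, mul_comm c, ← Algebra.smul_def, map_smul, smul_eq_mul,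
        mul_comm a]

lemma bc_injective : Function.Injective (bc K : FreeAlgebra F Y → FreeAlgebra K Y) := by
  obtain ⟨r, R, h1, h2⟩ := exists_retr (F := F) (Y := Y) K
  intro f g h
  have h3 := h2 1 f
  rw [h, h2, h1, one_smul, one_smul] at h3
  exact h3.symm

/-- the Lie elements as a Lie algebra. -/
def LE (K : Type) [Field K] (Y : Type u) : LieSubalgebra K (FreeAlgebra K Y) :=
  { lieElt K Y with lie_mem' := fun hx hy => cm_mem_lie hx hy }

/-- extension of scalars on the free Lie algebra. -/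
noncomputable def β (u : FreeLieAlgebra F Y) : LE K Y :=
  ⟨bc K (toAssoc F Y u), bc_mem K (toAssoc_mem u)⟩

lemma β_add (u v : FreeLieAlgebra F Y) : β K (u + v) = β K u + β K v :=
  Subtype.ext (by simp [β])

lemma β_smul (c : F) (u : FreeLieAlgebra F Y) : β K (c • u) = algebraMap F K c • β K u :=
  Subtype.ext (by simp [β])

lemma β_lie (u v : FreeLieAlgebra F Y) : β K ⁅u, v⁆ = ⁅β K u, β K v⁆ :=
  Subtype.ext (by simp only [β, toAssoc_lie, map_cm]; rfl)

lemma β_bb (a y : FreeLieAlgebra F Y) : β K (bb a y) = bb (β K a) (β K y) := by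
  simp only [bb, β_lie]

lemma β_ne {a y : FreeLieAlgebra F Y} (h : ⁅a, y⁆ ≠ 0) : ⁅β K a, β K y⁆ ≠ 0 := by
  rw [← β_lie]
  intro h1
  refine h (toAssoc_inj (bc_injective K ?_))
  rw [map_zero, map_zero]
  exact congrArg Subtype.val h1

lemma β_pow (a b : FreeLieAlgebra F Y) (n : ℕ) :
    β K (((LieAlgebra.ad F _ a ^ 2) ^ n) b) = ((LieAlgebra.ad K _ (β K a) ^ 2) ^ n) (β K b) := by
  induction n with
  | zero => rfl
  | succ n ih =>
    rw [pow_succ' _ n, pow_succ' _ n, Module.End.mul_apply, Module.End.mul_apply, ← ih]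
    simp only [sq, Module.End.mul_apply, LieAlgebra.ad_apply, β_lie]

lemma β_aeval (a b : FreeLieAlgebra F Y) (χ : F[X]) :
    β K (aeval (LieAlgebra.ad F _ a ^ 2) χ b) =
      aeval (LieAlgebra.ad K _ (β K a) ^ 2) (χ.map (algebraMap F K)) (β K b) := by
  induction χ using Polynomial.induction_on' with
  | add p q hp hq =>
    rw [map_add, LinearMap.add_apply, β_add, hp, hq, Polynomial.map_add, map_add,
      LinearMap.add_apply]
  | monomial n c =>
    rw [map_monomial, aeval_monomial, aeval_monomial, Module.End.mul_apply, Module.End.mul_apply,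
      Module.algebraMap_end_apply, Module.algebraMap_end_apply, β_smul, β_pow]

theorem free_pairing {a y z : FreeLieAlgebra F Y} (hq : ⁅a, y⁆ ≠ 0) {χ : F[X]}
    (h : ⁅aeval (LieAlgebra.ad F _ a ^ 2) χ (bb a y), ⁅a, bb a y⁆⁆ = ⁅a, z⁆) : χ = 0 := by
  have h1 := congrArg (β (AlgebraicClosure F)) h
  rw [β_lie, β_lie, β_lie, β_aeval, β_bb] at h1
  have h2 := lie_pairing (LE (AlgebraicClosure F) Y).incl.toLinearMap (fun _ _ => rfl)
    (fun x => x.2) Subtype.val_injective (β_ne _ hq) h1
  exact (Polynomial.map_eq_zero_iff (algebraMap F _).injective).1 h2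

theorem free_even {a y u v z z' : FreeLieAlgebra F Y} {α : F} (hq : ⁅a, y⁆ ≠ 0)
    (hu : u = α • bb a y + ⁅a, v⁆) (h : ⁅u, bb a y⁆ = ⁅a, z⁆)
    (h' : ⁅⁅a, ⁅a, u⁆⁆, bb a y⁆ = ⁅a, z'⁆) :
    ∃ χ : F[X], u = aeval (LieAlgebra.ad F _ a ^ 2) χ (bb a y) := by
  have e1 := congrArg (β (AlgebraicClosure F)) hu
  have e2 := congrArg (β (AlgebraicClosure F)) h
  have e3 := congrArg (β (AlgebraicClosure F)) h'
  simp only [β_lie, β_add, β_smul, β_bb] at e1 e2 e3
  obtain ⟨χ, hχ⟩ := lie_even (LE (AlgebraicClosure F) Y).incl.toLinearMap (fun _ _ => rfl)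
    (fun x => x.2) Subtype.val_injective (β_ne _ hq) e1 e2 e3
  rw [← β_bb] at hχ
  generalize bb a y = b at hχ
  obtain ⟨r, R, h1, h2⟩ := exists_retr (F := F) (Y := Y) (AlgebraicClosure F)
  have key : ∀ χ : (AlgebraicClosure F)[X], ∃ χ' : F[X],
      R (aeval (LieAlgebra.ad (AlgebraicClosure F) _ (β (AlgebraicClosure F) a) ^ 2) χ
        (β (AlgebraicClosure F) b)).1 = toAssoc F Y (aeval (LieAlgebra.ad F _ a ^ 2) χ' b) := by
    intro χ
    induction χ using Polynomial.induction_on' with
    | add p q hp hq =>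
      obtain ⟨p', hp⟩ := hp
      obtain ⟨q', hq⟩ := hq
      refine ⟨p' + q', ?_⟩
      rw [map_add, map_add, LinearMap.add_apply, LinearMap.add_apply, map_add, ← hp, ← hq,
        ← map_add]
      rfl
    | monomial n c =>
      refine ⟨monomial n (r c), ?_⟩
      rw [aeval_monomial, aeval_monomial, Module.End.mul_apply, Module.End.mul_apply,
        Module.algebraMap_end_apply, Module.algebraMap_end_apply, ← β_pow, map_smul, ← h2]
      rfl
  obtain ⟨χ', h3⟩ := key χ
  refine ⟨χ', toAssoc_inj ?_⟩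
  have h4 := h2 1 (toAssoc F Y u)
  rw [h1, one_smul, one_smul] at h4
  rw [← h3, ← hχ, ← h4]
  rfl

end Pool.Agent.P.MP_5be460_lc.G
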