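import Pool.Agent.P.MP_5be460_lc.Defs
import Pool.Agent.Lib.MRDP.Basic

namespace Pool.Agent.P.MP_5be460_lc.G

variable {R : Type} [CommRing R]

/-- value of a ring term in a commutative ring. -/
def valC (v : ℕ → R) : RTerm → R
  | .var n => v n
  | .zero => 0
  | .one => 1
  | .add s t => valC v s + valC v t
  | .mul s t => valC v s * valC v t

/-- truth of a ring formula in a commutative ring. -/
def HoldsC (v : ℕ → R) : RForm → Prop
  | .eq s t => valC v s = valC v t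
  | .not φ => ¬HoldsC v φ
  | .and φ ψ => HoldsC v φ ∧ HoldsC v ψ

/-- substitution in terms. -/
def subT (σ : ℕ → RTerm) : RTerm → RTerm
  | .var n => σ n
  | .zero => .zero
  | .one => .one
  | .add s t => .add (subT σ s) (subT σ t)
  | .mul s t => .mul (subT σ s) (subT σ t)

/-- substitution in formulas. -/
def subF (σ : ℕ → RTerm) : RForm → RForm
  | .eq s t => .eq (subT σ s) (subT σ t)
  | .not φ => .not (subF σ φ)
  | .and φ ψ => .and (subF σ φ) (subF σ ψ)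

lemma valC_subT (v : ℕ → R) (σ : ℕ → RTerm) (t : RTerm) :
    valC v (subT σ t) = valC (fun i => valC v (σ i)) t := by
  induction t <;> simp [subT, valC, *]

lemma holdsC_subF (v : ℕ → R) (σ : ℕ → RTerm) (φ : RForm) :
    HoldsC v (subF σ φ) ↔ HoldsC (fun i => valC v (σ i)) φ := by
  induction φ <;> simp [subF, HoldsC, valC_subT, *]

/-- a sequence with a new first term. -/
def cns {A : Type} (x : A) (v : ℕ → A) : ℕ → A
  | 0 => x
  | i + 1 => v i

/-- two sequences interleaved. -/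
def mrg {A : Type} (v w : ℕ → A) (i : ℕ) : A := if i % 2 = 0 then v (i / 2) else w (i / 2)

lemma mrg_ev {A : Type} (v w : ℕ → A) (i : ℕ) : mrg v w (2 * i) = v i := by simp [mrg]

lemma mrg_od {A : Type} (v w : ℕ → A) (i : ℕ) : mrg v w (2 * i + 1) = w i := by
  have h : (2 * i + 1) / 2 = i := by omega
  simp [mrg, h]

lemma mrg_self {A : Type} (u : ℕ → A) : mrg (fun i => u (2 * i)) (fun i => u (2 * i + 1)) = u := by
  funext i
  unfold mrg
  split_ifs with h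
  · exact congrArg u (by omega)
  · exact congrArg u (by omega)

variable (x : R)

/-- functions given by terms with the constant `x`. -/
def TC (f : (ℕ → R) → R) : Prop := ∃ t : RTerm, ∀ v, valC (cns x v) t = f v

/-- relations given by quantifier-free formulas with the constant `x`. -/
def QC (P : (ℕ → R) → Prop) : Prop := ∃ θ : RForm, ∀ v, HoldsC (cns x v) θ ↔ P v

/-- relations given by existential formulas with the constant `x`. -/
def ER (P : (ℕ → R) → Prop) : Prop := ∃ Q, QC x Q ∧ ∀ v, P v ↔ ∃ w, Q (mrg v w)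

variable {x}

lemma TC.var (n : ℕ) : TC x fun v => v n := ⟨.var (n + 1), fun _ => rfl⟩
lemma TC.cst : TC x fun _ => x := ⟨.var 0, fun _ => rfl⟩
lemma TC.zero : TC x fun _ => 0 := ⟨.zero, fun _ => rfl⟩
lemma TC.one : TC x fun _ => 1 := ⟨.one, fun _ => rfl⟩
lemma TC.add {f g : (ℕ → R) → R} (hf : TC x f) (hg : TC x g) : TC x fun v => f v + g v :=
  let ⟨s, hs⟩ := hf; let ⟨t, ht⟩ := hg; ⟨.add s t, fun v => by rw [valC, hs, ht]⟩
lemma TC.mul {f g : (ℕ → R) → R} (hf : TC x f) (hg : TC x g) : TC x fun v => f v * g v :=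
  let ⟨s, hs⟩ := hf; let ⟨t, ht⟩ := hg; ⟨.mul s t, fun v => by rw [valC, hs, ht]⟩

lemma exists_sub {g : ℕ → (ℕ → R) → R} (hg : ∀ i, TC x (g i)) :
    ∃ σ : ℕ → RTerm, ∀ v, (fun i => valC (cns x v) (σ i)) = cns x fun i => g i v := by
  choose t ht using hg
  refine ⟨cns (.var 0) t, fun v => funext fun i => ?_⟩
  cases i with
  | zero => rfl
  | succ i => exact ht i v

lemma TC.comp {f : (ℕ → R) → R} (hf : TC x f) {g : ℕ → (ℕ → R) → R} (hg : ∀ i, TC x (g i)) :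
    TC x fun v => f fun i => g i v := by
  obtain ⟨t, ht⟩ := hf
  obtain ⟨σ, hσ⟩ := exists_sub hg
  exact ⟨subT σ t, fun v => by rw [valC_subT, hσ, ht]⟩

lemma QC.comp {P : (ℕ → R) → Prop} (hP : QC x P) {g : ℕ → (ℕ → R) → R} (hg : ∀ i, TC x (g i)) :
    QC x fun v => P fun i => g i v := by
  obtain ⟨t, ht⟩ := hP
  obtain ⟨σ, hσ⟩ := exists_sub hg
  exact ⟨subF σ t, fun v => by rw [holdsC_subF, hσ, ht]⟩

lemma QC.eq {f g : (ℕ → R) → R} (hf : TC x f) (hg : TC x g) : QC x fun v => f v = g v :=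
  let ⟨s, hs⟩ := hf; let ⟨t, ht⟩ := hg; ⟨.eq s t, fun v => by rw [HoldsC, hs, ht]⟩
lemma QC.not {P : (ℕ → R) → Prop} (h : QC x P) : QC x fun v => ¬P v :=
  let ⟨s, hs⟩ := h; ⟨.not s, fun v => by rw [HoldsC, hs]⟩
lemma QC.and {P Q : (ℕ → R) → Prop} (h : QC x P) (h' : QC x Q) : QC x fun v => P v ∧ Q v :=
  let ⟨s, hs⟩ := h; let ⟨t, ht⟩ := h'; ⟨.and s t, fun v => by rw [HoldsC, hs, ht]⟩

lemma tc_mrg {f g : ℕ → (ℕ → R) → R} (hf : ∀ i, TC x (f i)) (hg : ∀ i, TC x (g i)) (j : ℕ) :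
    TC x fun v => mrg (fun i => f i v) (fun i => g i v) j := by
  unfold mrg
  split_ifs
  exacts [hf _, hg _]

lemma tc_cns {f : (ℕ → R) → R} {g : ℕ → (ℕ → R) → R} (hf : TC x f) (hg : ∀ i, TC x (g i))
    (j : ℕ) : TC x fun v => cns (f v) (fun i => g i v) j := by
  cases j with
  | zero => exact hf
  | succ j => exact hg j

lemma ER.congr {P Q : (ℕ → R) → Prop} (h : ER x P) (H : ∀ v, P v ↔ Q v) : ER x Q :=
  let ⟨S, h1, h2⟩ := h; ⟨S, h1, fun v => (H v).symm.trans (h2 v)⟩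

lemma QC.er {P : (ℕ → R) → Prop} (h : QC x P) : ER x P :=
  ⟨_, h.comp (g := fun i v => v (2 * i)) fun _ => TC.var _, fun v => by simp [mrg_ev]⟩

lemma ER.eq {f g : (ℕ → R) → R} (hf : TC x f) (hg : TC x g) : ER x fun v => f v = g v :=
  (QC.eq hf hg).er

lemma ER.ne {f g : (ℕ → R) → R} (hf : TC x f) (hg : TC x g) : ER x fun v => f v ≠ g v :=
  (QC.eq hf hg).not.er

lemma ER.comp {P : (ℕ → R) → Prop} (hP : ER x P) {g : ℕ → (ℕ → R) → R} (hg : ∀ i, TC x (g i)) :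
    ER x fun v => P fun i => g i v := by
  obtain ⟨Q, h1, h2⟩ := hP
  refine ⟨_, h1.comp (tc_mrg (f := fun i u => g i fun j => u (2 * j))
    (g := fun i u => u (2 * i + 1)) (fun i => (hg i).comp fun _ => TC.var _) fun _ => TC.var _),
    fun v => ?_⟩
  simp only [h2, mrg_ev, mrg_od]

lemma ER.and {P Q : (ℕ → R) → Prop} (h : ER x P) (h' : ER x Q) : ER x fun v => P v ∧ Q v := by
  obtain ⟨S, h1, h2⟩ := h
  obtain ⟨T, h3, h4⟩ := h'
  refine ⟨_, (h1.comp (tc_mrg (f := fun i u => u (2 * i)) (g := fun i u => u (2 * (2 * i) + 1))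
    (fun _ => TC.var _) fun _ => TC.var _)).and (h3.comp (tc_mrg (f := fun i u => u (2 * i))
      (g := fun i u => u (2 * (2 * i + 1) + 1)) (fun _ => TC.var _) fun _ => TC.var _)),
    fun v => ?_⟩
  simp only [h2, h4, mrg_ev, mrg_od]
  refine ⟨fun ⟨⟨w, a⟩, ⟨w', b⟩⟩ => ⟨mrg w w', ?_⟩, fun ⟨w, a, b⟩ => ⟨⟨_, a⟩, ⟨_, b⟩⟩⟩
  simp only [mrg_ev, mrg_od]
  exact ⟨a, b⟩

lemma ER.or {P Q : (ℕ → R) → Prop} (h : ER x P) (h' : ER x Q) : ER x fun v => P v ∨ Q v := by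
  obtain ⟨S, h1, h2⟩ := h
  obtain ⟨T, h3, h4⟩ := h'
  refine ⟨_, (h1.not.and h3.not).not, fun v => ?_⟩
  simp only [h2, h4, ← exists_or, not_and_or, not_not]

lemma ER.ex {P : R → (ℕ → R) → Prop} (h : ER x fun v => P (v 0) fun i => v (i + 1)) :
    ER x fun v => ∃ y, P y v := by
  obtain ⟨S, h1, h2⟩ := h
  refine ⟨_, h1.comp (tc_mrg (f := fun i u => cns (u 1) (fun j => u (2 * j)) i)
    (g := fun i u => u (2 * (i + 1) + 1)) (tc_cns (TC.var _) fun _ => TC.var _)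
    fun _ => TC.var _), fun v => ?_⟩
  have h3 : ∀ w : ℕ → R, mrg v w 1 = w 0 := fun w => mrg_od v w 0
  simp only [mrg_ev, mrg_od, h3]
  constructor
  · rintro ⟨y, hy⟩
    obtain ⟨w, hw⟩ := (h2 (cns y v)).1 hy
    exact ⟨cns y w, hw⟩
  · rintro ⟨w, hw⟩
    exact ⟨w 0, (h2 (cns (w 0) v)).2 ⟨_, hw⟩⟩

lemma ER.forall_lt {P : ℕ → (ℕ → R) → Prop} (h : ∀ i, ER x (P i)) (N : ℕ) :
    ER x fun v => ∀ i < N, P i v := by
  induction N with
  | zero => exact (ER.eq TC.zero TC.zero).congr (by simp)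
  | succ N ih => exact (ih.and (h N)).congr fun v => Nat.forall_lt_succ_right.symm

lemma ER.app {Q : R → R → R → Prop} (h : ER x fun v => Q (v 0) (v 1) (v 2))
    {f g k : (ℕ → R) → R} (hf : TC x f) (hg : TC x g) (hk : TC x k) :
    ER x fun v => Q (f v) (g v) (k v) :=
  h.comp (tc_cns hf (tc_cns hg fun _ => hk))

lemma ER.app₂ {Q : R → R → Prop} (h : ER x fun v => Q (v 0) (v 1))
    {f g : (ℕ → R) → R} (hf : TC x f) (hg : TC x g) : ER x fun v => Q (f v) (g v) :=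
  h.comp (tc_cns hf fun _ => hg)

lemma ER.app₁ {Q : R → Prop} (h : ER x fun v => Q (v 0))
    {f : (ℕ → R) → R} (hf : TC x f) : ER x fun v => Q (f v) :=
  h.comp fun _ => hf

/-- an existential interpretation of the natural numbers. -/
structure Interp (x : R) (e : ℕ → R) : Prop where
  inj : Function.Injective e
  rng : ER x fun v => ∃ n, v 0 = e n
  add : ∃ A : R → R → R → Prop, (ER x fun v => A (v 0) (v 1) (v 2)) ∧
    ∀ n m k, A (e n) (e m) (e k) ↔ k = n + m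
  mul : ∃ A : R → R → R → Prop, (ER x fun v => A (v 0) (v 1) (v 2)) ∧
    ∀ n m k, A (e n) (e m) (e k) ↔ k = n * m
  link : ∃ A : R → R → Prop, (ER x fun v => A (v 0) (v 1)) ∧ ∀ n k, A (x ^ n) (e k) ↔ k = n

/-- functions on the natural numbers whose graph is interpreted. -/
def FN (x : R) (e : ℕ → R) (g : (ℕ → ℕ) → ℕ) : Prop :=
  ∃ P : R → (ℕ → R) → Prop, (ER x fun v => P (v 0) fun i => v (i + 1)) ∧
    ∀ (k : ℕ) (a : ℕ → ℕ), P (e k) (fun i => e (a i)) ↔ k = g a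

variable {e : ℕ → R}

lemma FN.var (h : Interp x e) (i : ℕ) : FN x e fun a => a i :=
  ⟨fun y v => y = v i, ER.eq (TC.var _) (TC.var _), fun _ _ => h.inj.eq_iff⟩

lemma FN.op (h : Interp x e) {A : R → R → R → Prop} (hA : ER x fun v => A (v 0) (v 1) (v 2))
    {o : ℕ → ℕ → ℕ} (ho : ∀ n m k, A (e n) (e m) (e k) ↔ k = o n m) {f g : (ℕ → ℕ) → ℕ}
    (hf : FN x e f) (hg : FN x e g) : FN x e fun a => o (f a) (g a) := by
  obtain ⟨P, h1, h2⟩ := hf
  obtain ⟨Q, h3, h4⟩ := hg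
  refine ⟨fun y v => ∃ s t, (∃ n, s = e n) ∧ (∃ n, t = e n) ∧ P s v ∧ Q t v ∧ A s t y,
    ER.ex (ER.ex ((h.rng.app₁ (Q := fun s => ∃ n, s = e n) (TC.var 1)).and
      ((h.rng.app₁ (Q := fun s => ∃ n, s = e n) (TC.var 0)).and
      ((h1.comp (tc_cns (TC.var 1) fun i => TC.var (i + 1 + 1 + 1))).and
      ((h3.comp (tc_cns (TC.var 0) fun i => TC.var (i + 1 + 1 + 1))).and
      (hA.app (TC.var 1) (TC.var 0) (TC.var 2))))))), fun k a => ⟨?_, ?_⟩⟩
  · rintro ⟨_, _, ⟨n, rfl⟩, ⟨m, rfl⟩, h5, h6, h7⟩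
    rw [h2] at h5
    rw [h4] at h6
    rw [ho, h5, h6] at h7
    exact h7
  · rintro rfl
    exact ⟨_, _, ⟨_, rfl⟩, ⟨_, rfl⟩, (h2 _ _).2 rfl, (h4 _ _).2 rfl, (ho _ _ _).2 rfl⟩

lemma FN.add (h : Interp x e) {f g : (ℕ → ℕ) → ℕ} (hf : FN x e f) (hg : FN x e g) :
    FN x e fun a => f a + g a :=
  let ⟨_, h1, h2⟩ := h.add; FN.op h h1 h2 hf hg

lemma FN.mul (h : Interp x e) {f g : (ℕ → ℕ) → ℕ} (hf : FN x e f) (hg : FN x e g) :
    FN x e fun a => f a * g a :=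
  let ⟨_, h1, h2⟩ := h.mul; FN.op h h1 h2 hf hg

lemma FN.nat (h : Interp x e) (n : ℕ) : FN x e fun _ => n := by
  obtain ⟨A, h1, h2⟩ := h.link
  have h3 : TC x fun _ => x ^ n := by
    induction n with
    | zero => simpa using TC.one
    | succ n ih => simpa [pow_succ] using ih.mul TC.cst
  exact ⟨fun y _ => A (x ^ n) y, h1.app₂ h3 (TC.var 0), fun k _ => h2 n k⟩

lemma isPoly_fn (h : Interp x e) {f : (ℕ → ℕ) → ℤ} (hf : IsPoly f) :
    ∃ s t : (ℕ → ℕ) → ℕ, FN x e s ∧ FN x e t ∧ ∀ a, f a = (s a : ℤ) - t a := by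
  induction hf with
  | proj i => exact ⟨_, _, FN.var h i, FN.nat h 0, fun a => by simp⟩
  | const n => exact ⟨_, _, FN.nat h n.toNat, FN.nat h (-n).toNat, fun _ => by simp⟩
  | sub _ _ h1 h2 =>
    obtain ⟨s, t, hs, ht, h1⟩ := h1
    obtain ⟨s', t', hs', ht', h2⟩ := h2
    exact ⟨_, _, hs.add h ht', ht.add h hs', fun a => by beta_reduce; rw [h1, h2]; push_cast; ring⟩
  | mul _ _ h1 h2 =>
    obtain ⟨s, t, hs, ht, h1⟩ := h1
    obtain ⟨s', t', hs', ht', h2⟩ := h2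
    exact ⟨_, _, (hs.mul h hs').add h (ht.mul h ht'), (hs.mul h ht').add h (ht.mul h hs'),
      fun a => by beta_reduce; rw [h1, h2]; push_cast; ring⟩

lemma isPoly_fin {f : (ℕ → ℕ) → ℤ} (hf : IsPoly f) :
    ∃ N, ∀ a b : ℕ → ℕ, (∀ i < N, a i = b i) → f a = f b := by
  induction hf with
  | proj i => exact ⟨i + 1, fun a b h => by beta_reduce; rw [h i i.lt_succ_self]⟩
  | const n => exact ⟨0, fun _ _ _ => rfl⟩
  | sub _ _ h1 h2 =>
    obtain ⟨N, h1⟩ := h1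
    obtain ⟨N', h2⟩ := h2
    exact ⟨max N N', fun a b h => by
      beta_reduce
      rw [h1 a b fun i hi => h i (lt_max_of_lt_left hi),
        h2 a b fun i hi => h i (lt_max_of_lt_right hi)]⟩
  | mul _ _ h1 h2 =>
    obtain ⟨N, h1⟩ := h1
    obtain ⟨N', h2⟩ := h2
    exact ⟨max N N', fun a b h => by
      beta_reduce
      rw [h1 a b fun i hi => h i (lt_max_of_lt_left hi),
        h2 a b fun i hi => h i (lt_max_of_lt_right hi)]⟩

theorem Interp.exists_form (h : Interp x e) {p : ℕ → Prop} (hp : REPred p) :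
    ∃ θ : RForm, ∀ n, p n ↔ ∃ v : ℕ → R, v 0 = x ∧ v 1 = x ^ n ∧ HoldsC v θ := by
  obtain ⟨P, hP⟩ := Pool.Agent.Lib.MRDP.re_poly hp
  obtain ⟨s, t, ⟨S, hS, hS'⟩, ⟨T, hT, hT'⟩, hst⟩ := isPoly_fn h P.isPoly
  obtain ⟨N, hN⟩ := isPoly_fin P.isPoly
  obtain ⟨A, hA, hA'⟩ := h.link
  have hg : ∀ i, TC x fun v => if i < N then v (i + 2) else v 2 := fun i => by
    split_ifs <;> exact TC.var _
  obtain ⟨Q, ⟨θ, hθ⟩, hQ⟩ := (hA.app₂ (TC.var 0) (TC.var 2)).and
    ((ER.forall_lt (fun i => h.rng.app₁ (Q := fun s => ∃ n, s = e n) (TC.var (i + 1))) (N + 2)).and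
      ((hS.comp (tc_cns (TC.var 1) hg)).and (hT.comp (tc_cns (TC.var 1) hg))))
  simp only [cns] at hQ
  refine ⟨θ, fun n => (hP n).trans ⟨?_, ?_⟩⟩
  · rintro ⟨a, rfl, ha⟩
    have h1 := hN a (fun i => if i < N then a i else a 0) fun i hi => by rw [if_pos hi]
    rw [ha, hst, eq_comm, sub_eq_zero, Nat.cast_inj] at h1
    have h2 : (fun i => if i < N then e (a i) else e (a 0)) =
        fun i => e (if i < N then a i else a 0) := funext fun i => by split_ifs <;> rfl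
    obtain ⟨w, hw⟩ := (hQ (cns (x ^ a 0) (cns (e (s fun i => if i < N then a i else a 0))
      fun i => e (a i)))).1 ⟨(hA' _ _).2 rfl, fun i _ => by cases i <;> exact ⟨_, rfl⟩,
        by simp only [cns, h2]; exact (hS' _ _).2 rfl, by simp only [cns, h2]; exact (hT' _ _).2 h1⟩
    exact ⟨_, rfl, mrg_ev _ w 0, (hθ _).2 hw⟩
  · rintro ⟨v, h0, h1, h2⟩
    have h3 : v = cns x (mrg (fun i => v (2 * i + 1)) fun i => v (2 * i + 1 + 1)) := by
      funext i
      cases i with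
      | zero => exact h0
      | succ i => exact (congrFun (mrg_self fun i => v (i + 1)) i).symm
    rw [h3, hθ] at h2
    obtain ⟨h4, h5, h6, h7⟩ := (hQ _).2 ⟨_, h2⟩
    choose! c hc using h5
    have h8 : (fun i => if i < N then v (2 * (i + 2) + 1) else v (2 * 2 + 1)) =
        fun i => e (if i < N then c (i + 1) else c 1) := funext fun i => by
      split_ifs with hi
      exacts [hc (i + 1) (by omega), hc 1 (by omega)]
    have h9 : v (2 * 1 + 1) = e (c 0) := hc 0 (by omega)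
    have h10 : v (2 * 2 + 1) = e (c 1) := hc 1 (by omega)
    beta_reduce at h4 h6 h7
    rw [h8, h9] at h6 h7
    rw [h10, mul_zero, zero_add, h1, hA'] at h4
    refine ⟨fun i => if i < N then c (i + 1) else c 1, by beta_reduce; split_ifs <;> exact h4, ?_⟩
    rw [hst, ← (hS' _ _).1 h6, ← (hT' _ _).1 h7, sub_self]

end Pool.Agent.P.MP_5be460_lc.G
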