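import Pool.Agent.P.MP_5be460_lc.Bridge

namespace Pool.Agent.P.MP_5be460_lc

open Finset Module Polynomial

universe u

set_option linter.unusedSectionVars false

variable {F : Type} [Field F] [CharZero F]

lemma pell_int (n : ℕ) : ∀ φ ψ : F[X], ψ.natDegree < n → φ ^ 2 - (X ^ 2 - 1) * ψ ^ 2 = 1 →
    ∃ k : ℤ, ψ.eval 1 = k := by
  induction n with
  | zero => intro _ _ h; omega
  | succ n ih =>
    intro φ ψ hn h
    by_cases h0 : ψ = 0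
    · exact ⟨0, by simp [h0]⟩
    have h1 : φ.eval 1 = 1 ∨ φ.eval 1 = -1 := by
      have h2 := congrArg (eval 1) h
      simp only [eval_sub, eval_pow, eval_mul, eval_X, eval_one, one_pow, sub_self, zero_mul,
        sub_zero] at h2
      exact sq_eq_one_iff.1 h2
    have key : ∀ φ : F[X], φ ^ 2 - (X ^ 2 - 1) * ψ ^ 2 = 1 → (φ.eval 1 = 1 ∨ φ.eval 1 = -1) →
        ψ.natDegree + 1 ≤ (X * ψ + φ).natDegree → ∃ k : ℤ, ψ.eval 1 = k := by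
      intro φ h h1 h2
      have h3 : (X * ψ - φ) * (X * ψ + φ) = ψ ^ 2 - 1 := by linear_combination -h
      have h4 : ∃ k : ℤ, (X * ψ - φ).eval 1 = (k : F) := by
        by_cases h5 : X * ψ - φ = 0
        · exact ⟨0, by simp [h5]⟩
        · have h6 : X * ψ + φ ≠ 0 := by
            intro h6
            rw [h6, natDegree_zero] at h2
            omega
          have h7 := congrArg natDegree h3
          rw [natDegree_mul h5 h6] at h7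
          have h8 : (ψ ^ 2 - 1).natDegree ≤ 2 * ψ.natDegree :=
            (natDegree_sub_le _ _).trans (max_le natDegree_pow_le (by simp))
          have h9 : (X * ψ - φ).natDegree < n := by omega
          refine ih (X * φ - (X ^ 2 - 1) * ψ) _ h9 ?_
          linear_combination h
      obtain ⟨k, hk⟩ := h4
      simp only [eval_sub, eval_mul, eval_X, one_mul] at hk
      rcases h1 with h1 | h1
      · exact ⟨k + 1, by push_cast; linear_combination hk + h1⟩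
      · exact ⟨k - 1, by push_cast; linear_combination hk + h1⟩
    have h2 : ((X * ψ + φ) + (X * ψ + -φ)).natDegree = ψ.natDegree + 1 := by
      have h3 : (X * ψ + φ) + (X * ψ + -φ) = C 2 * (X * ψ) := by rw [map_ofNat]; ring
      rw [h3, natDegree_C_mul two_ne_zero, natDegree_X_mul h0]
    have h3 := natDegree_add_le (X * ψ + φ) (X * ψ + -φ)
    rw [h2, le_max_iff] at h3
    rcases h3 with h3 | h3
    · exact key φ h h1 h3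
    · refine key (-φ) (by linear_combination h) ?_ h3
      rw [eval_neg]
      rcases h1 with h1 | h1 <;> simp [h1]

lemma pell_exists (k : ℤ) :
    ∃ φ ψ : F[X], φ ^ 2 - (X ^ 2 - 1) * ψ ^ 2 = 1 ∧ ψ.eval 1 = k := by
  have key : ∀ n : ℕ, ∃ φ ψ : F[X], φ ^ 2 - (X ^ 2 - 1) * ψ ^ 2 = 1 ∧ φ.eval 1 = 1 ∧
      ψ.eval 1 = n := by
    intro n
    induction n with
    | zero => exact ⟨1, 0, by simp, by simp, by simp⟩
    | succ n ih =>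
      obtain ⟨φ, ψ, h1, h2, h3⟩ := ih
      exact ⟨X * φ + (X ^ 2 - 1) * ψ, X * ψ + φ, by linear_combination h1, by simp [h2],
        by simp [h2, h3]⟩
  obtain ⟨n, rfl | rfl⟩ := Int.eq_nat_or_neg k
  · obtain ⟨φ, ψ, h1, -, h3⟩ := key n
    exact ⟨φ, ψ, h1, by simp [h3]⟩
  · obtain ⟨φ, ψ, h1, -, h3⟩ := key n
    exact ⟨φ, -ψ, by linear_combination h1, by simp [h3]⟩

variable {L : Type*} [LieRing L] [LieAlgebra F L]

/-- the quantifier-free matrix of the definition of the even part. -/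
def EvenBody (a b u : L) (α : F) (v z z' : L) : Prop :=
  u = α • b + ⁅a, v⁆ ∧ ⁅u, b⁆ = ⁅a, z⁆ ∧ ⁅⁅a, ⁅a, u⁆⁆, b⁆ = ⁅a, z'⁆

/-- the quantifier-free matrix of the definition of the integers. -/
def IntBody (a b : L) (c : F) (α : ℕ → F) (v : ℕ → L) : Prop :=
  EvenBody a b (v 0) (α 0) (v 3) (v 4) (v 5) ∧ EvenBody a b (v 1) (α 1) (v 6) (v 7) (v 8) ∧
    EvenBody a b (v 2) (α 2) (v 9) (v 10) (v 11) ∧
    ⁅v 0, ⁅a, v 0⁆⁆ + ⁅v 1, ⁅a, v 1⁆⁆ =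
      ⁅v 1, ⁅a, ⁅a, ⁅a, ⁅a, ⁅a, v 1⁆⁆⁆⁆⁆⁆ + ⁅b, ⁅a, b⁆⁆ + ⁅a, v 12⁆ ∧
    v 1 + v 2 = c • b + ⁅a, ⁅a, v 2⁆⁆

lemma evenBody_aeval (a b : L) (χ : F[X]) :
    ∃ (α : F) (v z z' : L), EvenBody a b (aeval (LieAlgebra.ad F L a ^ 2) χ b) α v z z' := by
  obtain ⟨t, ht⟩ := lie_self_aeval a b χ
  obtain ⟨t', ht'⟩ := lie_self_aeval a b (X * χ)
  rw [← sq_aeval] at ht'
  refine ⟨χ.coeff 0, ⁅a, aeval (LieAlgebra.ad F L a ^ 2) χ.divX b⁆, t, t', ?_, ht, ht'⟩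
  have h20 := sq_aeval (LieAlgebra.ad F L a) χ.divX b
  simp only [LieAlgebra.ad_apply] at h20
  conv_lhs => rw [← X_mul_divX_add χ, map_add, LinearMap.add_apply, ← h20, aeval_C,
    Module.algebraMap_end_apply, add_comm]

lemma lie_aeval_comm (a b : L) (χ : F[X]) :
    ⁅a, aeval (LieAlgebra.ad F L a ^ 2) χ b⁆ = aeval (LieAlgebra.ad F L a ^ 2) χ ⁅a, b⁆ :=
  map_aeval_end (LieAlgebra.ad F L a) (fun x => by simp [sq]) χ b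

lemma lie_mul_aeval (a b : L) (φ ψ : F[X]) :
    ∃ z, ⁅aeval (LieAlgebra.ad F L a ^ 2) φ b, ⁅a, aeval (LieAlgebra.ad F L a ^ 2) ψ b⁆⁆ =
      ⁅aeval (LieAlgebra.ad F L a ^ 2) (φ * ψ) b, ⁅a, b⁆⁆ + ⁅a, z⁆ := by
  obtain ⟨z, hz⟩ := lie_move_aeval a (aeval (LieAlgebra.ad F L a ^ 2) φ b) ⁅a, b⁆ ψ
  refine ⟨-z, ?_⟩
  rw [lie_aeval_comm, mul_comm φ, map_mul, Module.End.mul_apply, hz, lie_neg, add_neg_cancel_right]

lemma pell_lie (a b : L) (φ ψ : F[X]) : ∃ z,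
    ⁅aeval (LieAlgebra.ad F L a ^ 2) φ b, ⁅a, aeval (LieAlgebra.ad F L a ^ 2) φ b⁆⁆ +
      ⁅aeval (LieAlgebra.ad F L a ^ 2) ψ b, ⁅a, aeval (LieAlgebra.ad F L a ^ 2) ψ b⁆⁆ =
    ⁅aeval (LieAlgebra.ad F L a ^ 2) ψ b,
      ⁅a, ⁅a, ⁅a, ⁅a, ⁅a, aeval (LieAlgebra.ad F L a ^ 2) ψ b⁆⁆⁆⁆⁆⁆ + ⁅b, ⁅a, b⁆⁆ +
      (⁅aeval (LieAlgebra.ad F L a ^ 2) (φ ^ 2 - (X ^ 2 - 1) * ψ ^ 2 - 1) b, ⁅a, b⁆⁆ + ⁅a, z⁆) := by
  obtain ⟨z₁, h₁⟩ := lie_mul_aeval a b φ φ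
  obtain ⟨z₂, h₂⟩ := lie_mul_aeval a b ψ ψ
  obtain ⟨z₃, h₃⟩ := lie_mul_aeval a b ψ (X * (X * ψ))
  rw [← sq_aeval, ← sq_aeval] at h₃
  simp only [LieAlgebra.ad_apply] at h₃
  refine ⟨z₁ + z₂ - z₃, ?_⟩
  have h4 : φ ^ 2 - (X ^ 2 - 1) * ψ ^ 2 - 1 = φ * φ + ψ * ψ - ψ * (X * (X * ψ)) - 1 := by ring
  rw [h₁, h₂, h₃, h4]
  simp only [map_sub, map_add, map_one, LinearMap.sub_apply, LinearMap.add_apply,
    Module.End.one_apply, sub_lie, add_lie, lie_sub, lie_add]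
  abel

lemma intBody_exists (a b : L) (k : ℤ) : ∃ α v, IntBody a b (k : F) α v := by
  obtain ⟨φ, ψ, h1, h2⟩ := pell_exists (F := F) k
  obtain ⟨ψ', h3⟩ : X - C 1 ∣ ψ - C (ψ.eval 1) := X_sub_C_dvd_sub_C_eval
  obtain ⟨α₀, v₃, v₄, v₅, e₀⟩ := evenBody_aeval a b φ
  obtain ⟨α₁, v₆, v₇, v₈, e₁⟩ := evenBody_aeval a b ψ
  obtain ⟨α₂, v₉, v₁₀, v₁₁, e₂⟩ := evenBody_aeval a b ψ'
  obtain ⟨z, hz⟩ := pell_lie a b φ ψ
  rw [h1, sub_self, map_zero, LinearMap.zero_apply, zero_lie, zero_add] at hz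
  refine ⟨fun i => [α₀, α₁, α₂].getD i 0, fun i => [aeval (LieAlgebra.ad F L a ^ 2) φ b,
    aeval (LieAlgebra.ad F L a ^ 2) ψ b, aeval (LieAlgebra.ad F L a ^ 2) ψ' b,
    v₃, v₄, v₅, v₆, v₇, v₈, v₉, v₁₀, v₁₁, z].getD i 0, e₀, e₁, e₂, hz, ?_⟩
  have h4 := sq_aeval (LieAlgebra.ad F L a) ψ' b
  simp only [LieAlgebra.ad_apply] at h4
  change aeval (LieAlgebra.ad F L a ^ 2) ψ b + aeval (LieAlgebra.ad F L a ^ 2) ψ' b =
    (k : F) • b + ⁅a, ⁅a, aeval (LieAlgebra.ad F L a ^ 2) ψ' b⁆⁆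
  have h5 : ψ + ψ' = C (k : F) + X * ψ' := by
    rw [← h2]
    rw [C_1] at h3
    linear_combination h3
  rw [h4, ← LinearMap.add_apply, ← map_add, h5, map_add, LinearMap.add_apply, aeval_C,
    Module.algebraMap_end_apply]

theorem intBody_sound [IsAlgClosed F] {Y : Type u} {a y : FreeLieAlgebra F Y} (hq : ⁅a, y⁆ ≠ 0)
    {c : F} {α : ℕ → F} {v : ℕ → FreeLieAlgebra F Y}
    (h : IntBody a ⁅⁅a, y⁆, ⁅a, ⁅a, y⁆⁆⁆ c α v) : ∃ k : ℤ, c = k := by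
  obtain ⟨e₀, e₁, e₂, h1, h2⟩ := h
  have he : ∀ {u v z z' : FreeLieAlgebra F Y} {α : F},
      EvenBody a ⁅⁅a, y⁆, ⁅a, ⁅a, y⁆⁆⁆ u α v z z' →
      ∃ χ : F[X], u = aeval (LieAlgebra.ad F _ a ^ 2) χ ⁅⁅a, y⁆, ⁅a, ⁅a, y⁆⁆⁆ := fun h =>
    lie_even (toAssoc F Y) toAssoc_lie toAssoc_mem toAssoc_injective hq h.1 h.2.1 h.2.2
  have hp : ∀ {z : FreeLieAlgebra F Y} {χ : F[X]},
      ⁅aeval (LieAlgebra.ad F _ a ^ 2) χ ⁅⁅a, y⁆, ⁅a, ⁅a, y⁆⁆⁆, ⁅a, ⁅⁅a, y⁆, ⁅a, ⁅a, y⁆⁆⁆⁆⁆ =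
        ⁅a, z⁆ → χ = 0 := fun h =>
    lie_pairing (toAssoc F Y) toAssoc_lie toAssoc_mem toAssoc_injective hq h
  generalize ⁅⁅a, y⁆, ⁅a, ⁅a, y⁆⁆⁆ = b at *
  obtain ⟨φ, hφ⟩ := he e₀
  obtain ⟨ψ, hψ⟩ := he e₁
  obtain ⟨ψ', hψ'⟩ := he e₂
  rw [hφ, hψ] at h1
  obtain ⟨z, hz⟩ := pell_lie a b φ ψ
  rw [h1, add_right_inj, ← sub_eq_iff_eq_add, ← lie_sub] at hz
  obtain ⟨k, hk⟩ := pell_int _ φ ψ (Nat.lt_succ_self _) (sub_eq_zero.1 (hp hz.symm))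
  refine ⟨k, ?_⟩
  have h4 := sq_aeval (LieAlgebra.ad F _ a) ψ' b
  simp only [LieAlgebra.ad_apply] at h4
  rw [hψ, hψ', h4] at h2
  have h5 : ψ + ψ' - (C c + X * ψ') = 0 := by
    refine hp (z := 0) ?_
    rw [map_sub, map_add, map_add, LinearMap.sub_apply, LinearMap.add_apply, LinearMap.add_apply,
      h2, aeval_C, Module.algebraMap_end_apply, sub_self, zero_lie, lie_zero]
  have h6 := congrArg (eval 1) h5
  simp only [eval_sub, eval_add, eval_C, eval_mul, eval_X, eval_zero] at h6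
  linear_combination hk - h6

end Pool.Agent.P.MP_5be460_lc
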