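import Pool.Agent.P.MP_5be460_lc.GPell
import Pool.Agent.P.MP_5be460_lc.GRing
import Pool.Agent.P.MP_5be460_lc.Pell

namespace Pool.Agent.P.MP_5be460_lc.G

open Polynomial

section defs

variable {R : Type} [CommRing R]

/-- `u` is a power of `x`. -/
def IsPw (x u : R) : Prop := ∃ q c d, Frob x q ∧ q = u * c ∧ u + d = 1 + x * d

/-- `u - 1` divides `v - 1`. -/
def DvdE (u v : R) : Prop := ∃ c, v + c = 1 + u * c

/-- squaring of exponents that are powers of the characteristic. -/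
def SqP (x q r : R) : Prop := Frob x r ∧ (∃ e, r = q * x * e) ∧ Frob (q * x) (r * q)

/-- squaring of exponents. -/
def SqE (x u v : R) : Prop := ∃ q r t c d e, Frob x q ∧ SqP x q r ∧ SqP x r t ∧
  q = u * v * x * x * e ∧ r = u * c ∧ t = v * d ∧ DvdE c d

/-- multiplication of exponents. -/
def MulE (x u v w : R) : Prop := ∃ a b c, IsPw x a ∧ IsPw x b ∧ IsPw x c ∧ SqE x u a ∧ SqE x v b ∧
  SqE x (u * v) c ∧ c = a * w * w * b

/-- `c` is an integer. -/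
def IsZ (x c : R) : Prop := (c = 0 ∨ ∃ d, c * d = 1) ∧
  ∃ φ ψ ψ', φ * φ + ψ * ψ = 1 + x * x * ψ * ψ ∧ ψ + ψ' = c + x * ψ'

/-- `u` is a natural number. -/
def IsN (x u : R) : Prop := ∃ a b c d, IsZ x a ∧ IsZ x b ∧ IsZ x c ∧ IsZ x d ∧
  u = a * a + b * b + c * c + d * d

/-- `c` is the exponent of `u`. -/
def Lk (x u c : R) : Prop := ∃ w w', u + w = 1 + x * w ∧ w + w' = c + x * w'

variable {x : R} {f g h : (ℕ → R) → R}

lemma er_dk (hf : TC x f) (hg : TC x g) : ER x fun v => Dk (f v) (g v) := by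
  refine ER.app₂ (ER.ex (ER.ex (ER.and (ER.eq ?_ ?_) (ER.eq ?_ ?_)))) hf hg <;>
  repeat' first | exact TC.var _ | exact TC.one | exact TC.cst | apply TC.add | apply TC.mul

lemma er_frob (hf : TC x f) (hg : TC x g) : ER x fun v => Frob (f v) (g v) := by
  refine ER.app₂ (Q := Frob) (ER.and (er_dk ?_ ?_) (ER.and (er_dk ?_ ?_) (ER.ex (ER.eq ?_ ?_))))
    hf hg <;>
  repeat' first | exact TC.var _ | exact TC.one | exact TC.cst | apply TC.add | apply TC.mul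

lemma er_isPw (hf : TC x f) : ER x fun v => IsPw x (f v) := by
  refine ER.app₁ (ER.ex (ER.ex (ER.ex (ER.and (er_frob ?_ ?_) (ER.and (ER.eq ?_ ?_)
    (ER.eq ?_ ?_)))))) hf <;>
  repeat' first | exact TC.var _ | exact TC.one | exact TC.cst | apply TC.add | apply TC.mul

lemma er_dvdE (hf : TC x f) (hg : TC x g) : ER x fun v => DvdE (f v) (g v) := by
  refine ER.app₂ (ER.ex (ER.eq ?_ ?_)) hf hg <;>
  repeat' first | exact TC.var _ | exact TC.one | exact TC.cst | apply TC.add | apply TC.mul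

lemma er_sqP (hf : TC x f) (hg : TC x g) : ER x fun v => SqP x (f v) (g v) := by
  refine ER.app₂ (Q := SqP x) (ER.and (er_frob ?_ ?_) (ER.and (ER.ex (ER.eq ?_ ?_))
    (er_frob ?_ ?_))) hf hg <;>
  repeat' first | exact TC.var _ | exact TC.one | exact TC.cst | apply TC.add | apply TC.mul

lemma er_sqE (hf : TC x f) (hg : TC x g) : ER x fun v => SqE x (f v) (g v) := by
  refine ER.app₂ (ER.ex (ER.ex (ER.ex (ER.ex (ER.ex (ER.ex (ER.and (er_frob ?_ ?_)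
    (ER.and (er_sqP ?_ ?_) (ER.and (er_sqP ?_ ?_) (ER.and (ER.eq ?_ ?_) (ER.and (ER.eq ?_ ?_)
    (ER.and (ER.eq ?_ ?_) (er_dvdE ?_ ?_))))))))))))) hf hg <;>
  repeat' first | exact TC.var _ | exact TC.one | exact TC.cst | apply TC.add | apply TC.mul

lemma er_mulE : ER x fun v => MulE x (v 0) (v 1) (v 2) := by
  refine ER.ex (ER.ex (ER.ex (ER.and (er_isPw ?_) (ER.and (er_isPw ?_) (ER.and (er_isPw ?_)
    (ER.and (er_sqE ?_ ?_) (ER.and (er_sqE ?_ ?_) (ER.and (er_sqE ?_ ?_) (ER.eq ?_ ?_))))))))) <;>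
  repeat' first | exact TC.var _ | exact TC.one | exact TC.cst | apply TC.add | apply TC.mul

lemma er_isZ (hf : TC x f) : ER x fun v => IsZ x (f v) := by
  refine ER.app₁ (Q := IsZ x) (ER.and (ER.or (ER.eq ?_ TC.zero) (ER.ex (ER.eq ?_ ?_)))
    (ER.ex (ER.ex (ER.ex (ER.and (ER.eq ?_ ?_) (ER.eq ?_ ?_)))))) hf <;>
  repeat' first | exact TC.var _ | exact TC.one | exact TC.cst | apply TC.add | apply TC.mul

lemma er_isN : ER x fun v => IsN x (v 0) := by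
  refine ER.ex (ER.ex (ER.ex (ER.ex (ER.and (er_isZ ?_) (ER.and (er_isZ ?_) (ER.and (er_isZ ?_)
    (ER.and (er_isZ ?_) (ER.eq ?_ ?_)))))))) <;>
  repeat' first | exact TC.var _ | exact TC.one | exact TC.cst | apply TC.add | apply TC.mul

lemma er_lk : ER x fun v => Lk x (v 0) (v 1) := by
  refine ER.ex (ER.ex (ER.and (ER.eq ?_ ?_) (ER.eq ?_ ?_))) <;>
  repeat' first | exact TC.var _ | exact TC.one | exact TC.cst | apply TC.add | apply TC.mul

end defs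

variable {k : Type} [Field k]

lemma xpow_inj : Function.Injective fun n : ℕ => (X : k[X]) ^ n := fun n m h => by
  simpa using congrArg natDegree h

lemma xpow_dvd {n m : ℕ} : (X : k[X]) ^ n ∣ X ^ m ↔ n ≤ m :=
  pow_dvd_pow_iff X_ne_zero not_isUnit_X

lemma xpow_cancel {n m : ℕ} {c : k[X]} (h : X ^ m = X ^ n * c) : ∃ j, m = n + j ∧ c = X ^ j := by
  obtain ⟨j, rfl⟩ := Nat.exists_eq_add_of_le (xpow_dvd.1 ⟨c, h⟩)
  exact ⟨j, rfl, (mul_left_cancel₀ (pow_ne_zero n X_ne_zero) (by rw [← h, pow_add])).symm⟩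

lemma dvdE_iff {n m : ℕ} : DvdE ((X : k[X]) ^ n) (X ^ m) ↔ n ∣ m := by
  have h0 : DvdE ((X : k[X]) ^ n) (X ^ m) ↔ (X ^ n - 1 : k[X]) ∣ X ^ m - 1 :=
    exists_congr fun c => ⟨fun h => by linear_combination h, fun h => by linear_combination h⟩
  have h4 : ∀ n j : ℕ, (X ^ n - 1 : k[X]) ∣ X ^ (n * j) - 1 := fun n j => by
    rw [pow_mul]; exact sub_one_dvd_pow_sub_one _ j
  refine h0.trans ⟨fun h => ?_, by rintro ⟨j, rfl⟩; exact h4 n j⟩
  rcases Nat.eq_zero_or_pos n with rfl | hn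
  · rw [pow_zero, sub_self, zero_dvd_iff, sub_eq_zero, ← pow_zero X] at h
    rw [xpow_inj h]
  have h1 : (X ^ n - 1 : k[X]) ∣ X ^ (m % n) - 1 := by
    have h2 := (h4 n (m / n)).mul_left (X ^ (m % n))
    have h3 : (X ^ (m % n) - 1 : k[X]) = X ^ m - 1 - X ^ (m % n) * (X ^ (n * (m / n)) - 1) := by
      rw [mul_sub, ← pow_add, Nat.mod_add_div]; ring
    rw [h3]
    exact dvd_sub h h2
  have h2 := eq_zero_of_dvd_of_natDegree_lt h1 (by
    rw [← C_1, natDegree_X_pow_sub_C, natDegree_X_pow_sub_C]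
    exact Nat.mod_lt m hn)
  rw [sub_eq_zero, ← pow_zero X] at h2
  exact Nat.dvd_of_mod_eq_zero (xpow_inj h2)

lemma nat_sq {p i j s : ℕ} (hi : 1 ≤ i) (hij : i < j) (hp : 0 < p)
    (h : p ^ j + p ^ i = (p ^ i + 1) * p ^ s) : p ^ j = p ^ i * p ^ i := by
  obtain ⟨d, rfl⟩ := Nat.exists_eq_add_of_lt hij
  obtain ⟨i, rfl⟩ := Nat.exists_eq_add_of_le' hi
  have h0 : ∀ a b : ℕ, (p ^ a).Coprime (p ^ (b + 1) + 1) := fun a b =>
    Nat.Coprime.pow_left a (by rw [pow_succ]; simp)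
  have h1 : p ^ (i + 1) * (p ^ (d + 1) + 1) = p ^ s * (p ^ (i + 1) + 1) := by
    rw [mul_comm (p ^ s), ← h]; ring
  have h2 : p ^ (i + 1) = p ^ s := Nat.dvd_antisymm
    ((h0 _ i).dvd_of_dvd_mul_right ⟨_, h1.symm⟩) ((h0 _ d).dvd_of_dvd_mul_right ⟨_, h1⟩)
  rw [← h2] at h1
  have h3 := Nat.add_right_cancel (Nat.eq_of_mul_eq_mul_left (pow_pos hp _) h1)
  rw [add_assoc, pow_add, h3]

section charp

variable (p : ℕ) [hp : Fact p.Prime] [CharP k p]

include hp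

lemma frob_X {v : k[X]} : Frob X v ↔ ∃ s, v = X ^ p ^ s := frob_iff p (by simp)

lemma isPw_iff {u : k[X]} : IsPw X u ↔ ∃ n, u = X ^ n := by
  constructor
  · rintro ⟨q, c, d, h1, h2, h3⟩
    obtain ⟨s, rfl⟩ := (frob_X p).1 h1
    obtain ⟨n, -, w, h4⟩ := (dvd_prime_pow prime_X _).1 ⟨c, h2⟩
    obtain ⟨r, -, h5⟩ := isUnit_iff.1 w.isUnit
    have h6 := congrArg (eval 1) h3
    have h7 := congrArg (eval 1) h4
    rw [← h5] at h4 h7
    simp only [eval_add, eval_one, eval_mul, eval_X, one_mul, add_left_inj, eval_C, eval_pow,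
      one_pow] at h6 h7
    rw [h6, one_mul] at h7
    exact ⟨n, by rw [← h4, h7, C_1, mul_one]⟩
  · rintro ⟨n, rfl⟩
    obtain ⟨c, hc⟩ := (xpow_dvd (k := k)).2 (Nat.lt_pow_self (n := n) hp.out.one_lt).le
    obtain ⟨d, hd⟩ := sub_one_dvd_pow_sub_one (X : k[X]) n
    exact ⟨_, c, d, (frob_X p).2 ⟨n, rfl⟩, hc, by linear_combination hd⟩

lemma sqP_iff {i : ℕ} (hi : 1 ≤ i) {r : k[X]} :
    SqP X (X ^ p ^ i) r ↔ r = X ^ (p ^ i * p ^ i) := by
  have h0 : 0 < ((X : k[X]) ^ p ^ i * X).natDegree := by rw [← pow_succ, natDegree_X_pow]; omega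
  constructor
  · rintro ⟨h1, h2, h3⟩
    obtain ⟨j, rfl⟩ := (frob_X p).1 h1
    obtain ⟨s, h4⟩ := (frob_iff p h0).1 h3
    rw [← pow_succ] at h2
    rw [← pow_succ, ← pow_add, ← pow_mul] at h4
    rw [nat_sq hi ((Nat.pow_lt_pow_iff_right hp.out.one_lt).1 (xpow_dvd.1 h2)) hp.out.pos
      (xpow_inj h4)]
  · rintro rfl
    refine ⟨(frob_X p).2 ⟨i + i, by rw [pow_add]⟩, ?_, (frob_iff p h0).2 ⟨i, ?_⟩⟩
    · rw [← pow_succ]
      have := Nat.one_lt_pow (n := i) (by omega) hp.out.one_lt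
      exact xpow_dvd.2 (by nlinarith)
    · rw [← pow_succ, ← pow_add, ← pow_mul, add_mul, one_mul]

lemma sqE_iff {n m : ℕ} : SqE (X : k[X]) (X ^ n) (X ^ m) ↔ m = n * n := by
  constructor
  · rintro ⟨q, r, t, c, d, e, h1, h2, h3, h4, h5, h6, h7⟩
    obtain ⟨i, rfl⟩ := (frob_X p).1 h1
    rw [← pow_add, ← pow_succ, ← pow_succ] at h4
    have h8 := xpow_dvd.1 ⟨e, h4⟩
    have hi : 1 ≤ i := Nat.pos_of_ne_zero (by rintro rfl; simp at h8)
    rw [sqP_iff p hi] at h2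
    rw [h2, ← pow_add, sqP_iff p (by omega), pow_add p] at h3
    rw [h2] at h5
    rw [h3] at h6
    obtain ⟨a, h9, rfl⟩ := xpow_cancel h5
    obtain ⟨b, h10, rfl⟩ := xpow_cancel h6
    generalize p ^ i = Q at *
    obtain ⟨z, hz⟩ := dvdE_iff.1 h7
    have h11 : (a : ℤ) ∣ n * n - m := ⟨z - (a + 2 * n), by
      rw [h9, hz] at h10
      zify at h10
      linear_combination h10⟩
    have h12 := Int.eq_zero_of_abs_lt_dvd h11 (by
      zify at h8 h9
      rw [abs_lt]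
      constructor <;> nlinarith)
    exact_mod_cast (sub_eq_zero.1 h12).symm
  · rintro rfl
    obtain ⟨i, hi, h1⟩ : ∃ i, 1 ≤ i ∧ n + n * n + 1 + 1 ≤ p ^ i :=
      ⟨n + n * n + 1 + 1, by omega, (Nat.lt_pow_self hp.out.one_lt).le⟩
    obtain ⟨e, he⟩ := (xpow_dvd (k := k)).2 h1
    obtain ⟨a, ha⟩ := Nat.exists_eq_add_of_le (show n ≤ p ^ i * p ^ i by nlinarith)
    refine ⟨X ^ p ^ i, X ^ p ^ (i + i), X ^ (p ^ (i + i) * p ^ (i + i)), X ^ a,
      X ^ (a * (a + 2 * n)), e, (frob_X p).2 ⟨i, rfl⟩, (sqP_iff p hi).2 (by rw [pow_add]),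
      (sqP_iff p (by omega)).2 rfl, by rw [he]; ring, by rw [pow_add, ha, pow_add], ?_,
      dvdE_iff.2 (dvd_mul_right _ _)⟩
    rw [pow_add, ha]
    ring

lemma mulE_iff {n m l : ℕ} : MulE (X : k[X]) (X ^ n) (X ^ m) (X ^ l) ↔ l = n * m := by
  constructor
  · rintro ⟨a, b, c, h1, h2, h3, h4, h5, h6, h7⟩
    obtain ⟨a, rfl⟩ := (isPw_iff p).1 h1
    obtain ⟨b, rfl⟩ := (isPw_iff p).1 h2
    obtain ⟨c, rfl⟩ := (isPw_iff p).1 h3
    rw [← pow_add] at h6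
    rw [sqE_iff p] at h4 h5 h6
    rw [← pow_add, ← pow_add, ← pow_add] at h7
    have h8 := xpow_inj h7
    rw [h4, h5, h6] at h8
    nlinarith
  · rintro rfl
    refine ⟨_, _, X ^ ((n + m) * (n + m)), (isPw_iff p).2 ⟨_, rfl⟩, (isPw_iff p).2 ⟨_, rfl⟩,
      (isPw_iff p).2 ⟨_, rfl⟩, (sqE_iff p).2 rfl, (sqE_iff p).2 rfl, ?_, by ring⟩
    rw [← pow_add]
    exact (sqE_iff p).2 rfl

lemma interp_charp : Interp (X : k[X]) fun n => X ^ n where
  inj := xpow_inj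
  rng := (er_isPw (TC.var 0)).congr fun _ => isPw_iff p
  add := ⟨fun u v w => w = u * v, ER.eq (TC.var _) ((TC.var _).mul (TC.var _)), fun n m l => by
    beta_reduce; rw [← pow_add]; exact xpow_inj.eq_iff⟩
  mul := ⟨_, er_mulE, fun _ _ _ => mulE_iff p⟩
  link := ⟨fun u v => v = u, ER.eq (TC.var _) (TC.var _), fun _ _ => xpow_inj.eq_iff⟩

end charp

section charzero

variable [CharZero k]

lemma isZ_iff {c : k[X]} : IsZ X c ↔ ∃ z : ℤ, c = z := by
  constructor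
  · rintro ⟨h1, φ, ψ, ψ', h2, h3⟩
    obtain ⟨r, rfl⟩ : ∃ r, c = C r := by
      rcases h1 with rfl | ⟨d, hd⟩
      · exact ⟨0, by simp⟩
      · obtain ⟨r, -, h⟩ := isUnit_iff.1 (IsUnit.of_mul_eq_one d hd)
        exact ⟨r, h.symm⟩
    obtain ⟨z, hz⟩ := pell_int _ φ ψ (Nat.lt_succ_self _) (by linear_combination h2)
    have h4 := congrArg (eval 1) h3
    simp only [eval_add, eval_C, eval_mul, eval_X, one_mul, add_left_inj] at h4
    exact ⟨z, by rw [← h4, hz, map_intCast]⟩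
  · rintro ⟨z, rfl⟩
    obtain ⟨φ, ψ, h1, h2⟩ := pell_exists (F := k) z
    obtain ⟨ψ', h3⟩ : X - C 1 ∣ ψ - C (ψ.eval 1) := X_sub_C_dvd_sub_C_eval
    rw [h2, C_1, map_intCast] at h3
    refine ⟨?_, φ, ψ, ψ', by linear_combination h1, by linear_combination h3⟩
    by_cases h4 : (z : k) = 0
    · left; rw [← map_intCast (C : k →+* k[X]), h4, map_zero]
    · exact Or.inr ⟨C (z : k)⁻¹, by
        rw [← map_intCast (C : k →+* k[X]), ← map_mul, mul_inv_cancel₀ h4, C_1]⟩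

lemma isN_iff {u : k[X]} : IsN X u ↔ ∃ n : ℕ, u = n := by
  simp only [IsN, isZ_iff]
  constructor
  · rintro ⟨_, _, _, _, ⟨a, rfl⟩, ⟨b, rfl⟩, ⟨c, rfl⟩, ⟨d, rfl⟩, rfl⟩
    obtain ⟨m, hm⟩ := Int.eq_ofNat_of_zero_le (by positivity : 0 ≤ a ^ 2 + b ^ 2 + c ^ 2 + d ^ 2)
    refine ⟨m, ?_⟩
    rw [← Int.cast_natCast, ← hm]
    push_cast
    ring
  · rintro ⟨n, rfl⟩
    obtain ⟨a, b, c, d, h⟩ := Nat.sum_four_squares n
    refine ⟨a, b, c, d, ⟨a, by simp⟩, ⟨b, by simp⟩, ⟨c, by simp⟩, ⟨d, by simp⟩, ?_⟩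
    rw [← h]
    push_cast
    ring

lemma lk_iff {n l : ℕ} : Lk (X : k[X]) (X ^ n) l ↔ l = n := by
  have h1 := mul_geom_sum (X : k[X]) n
  have h2 : (∑ i ∈ Finset.range n, (X : k[X]) ^ i).eval 1 = n := by simp [eval_finsetSum]
  generalize ∑ i ∈ Finset.range n, (X : k[X]) ^ i = g at h1 h2
  constructor
  · rintro ⟨w, w', h3, h4⟩
    obtain rfl : w = g := mul_left_cancel₀ (X_sub_C_ne_zero (1 : k)) (by
      rw [C_1]; linear_combination -h3 - h1)
    have h5 := congrArg (eval 1) h4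
    simp only [eval_add, eval_natCast, eval_mul, eval_X, one_mul, add_left_inj, h2] at h5
    exact_mod_cast h5.symm
  · rintro rfl
    obtain ⟨w', h3⟩ : X - C 1 ∣ g - C (g.eval 1) := X_sub_C_dvd_sub_C_eval
    rw [h2, C_1, map_natCast] at h3
    exact ⟨g, w', by linear_combination -h1, by linear_combination h3⟩

lemma interp_zero : Interp (X : k[X]) fun n => (n : k[X]) where
  inj := Nat.cast_injective
  rng := er_isN.congr fun _ => isN_iff
  add := ⟨fun u v w => w = u + v, ER.eq (TC.var _) ((TC.var _).add (TC.var _)), fun n m l => by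
    beta_reduce; rw [← Nat.cast_add]; exact Nat.cast_inj⟩
  mul := ⟨fun u v w => w = u * v, ER.eq (TC.var _) ((TC.var _).mul (TC.var _)), fun n m l => by
    beta_reduce; rw [← Nat.cast_mul]; exact Nat.cast_inj⟩
  link := ⟨_, er_lk, fun _ _ => lk_iff⟩

end charzero

/-- Denef: every recursively enumerable set is existentially defined in `k[X]`. -/
theorem denef (k : Type) [Field k] {P : ℕ → Prop} (hP : REPred P) :
    ∃ θ : RForm, ∀ n, P n ↔ ∃ v : ℕ → k[X], v 0 = X ∧ v 1 = X ^ n ∧ HoldsC v θ := by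
  obtain ⟨p, _⟩ := CharP.exists k
  rcases CharP.char_is_prime_or_zero k p with hp | rfl
  · have := Fact.mk hp
    exact (interp_charp p).exists_form hP
  · have := CharP.charP_to_charZero k
    exact interp_zero.exists_form hP

end Pool.Agent.P.MP_5be460_lc.G
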