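import Pool.Agent.P.MP_5be460_lc.GTrans

namespace Pool.Agent.P.MP_5be460_lc.G

open Pool.Agent.Lib.PrimrecProp

variable {F : Type} [Field F]

/-- a ring formula as a two-sorted formula. -/
def emb : RForm → LForm
  | .eq s t => .eqR s t
  | .not φ => .not (emb φ)
  | .and φ ψ => .and (emb φ) (emb ψ)

lemma emb_string (φ : RForm) : (emb φ).string = φ.string := by
  induction φ with
  | eq s t => rfl
  | not φ h => exact congrArg (10 :: ·) h
  | and φ ψ h h' => exact congrArg₂ (fun x y => 11 :: (x ++ y)) h h'

lemma emb_holds {L : Type} [LieRing L] [LieAlgebra F L] (ρ : ℕ → F) (η : ℕ → L) (φ : RForm) :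
    (emb φ).Holds ρ η ↔ φ.Holds ρ := by
  induction φ with
  | eq s t => rfl
  | not φ h => exact not_congr h
  | and φ ψ h h' => exact and_congr h h'

theorem field_of_lie {L : Type} [LieRing L] [LieAlgebra F L] (h : LieUnivDecidable F L) :
    FieldUnivDecidable F := by
  obtain ⟨f, hf, h⟩ := h
  refine ⟨f, hf, fun φ => ?_⟩
  rw [← emb_string, h]
  simp only [emb_holds, forall_const]

/-- translation of the field terms in rank one. -/
def trR : RTerm → RTerm := subT fun n => .var (2 * n)

/-- translation of the algebra terms in rank one. -/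
def trL : LTerm → RTerm
  | .var n => .var (2 * n + 1)
  | .zero => .zero
  | .add s t => .add (trL s) (trL t)
  | .lie s t => .mul (.mul .zero (trL s)) (trL t)
  | .smul c t => .mul (trR c) (trL t)

/-- translation of the formulas in rank one. -/
def trF : LForm → RForm
  | .eqR s t => .eq (trR s) (trR t)
  | .eqL s t => .eq (trL s) (trL t)
  | .not φ => .not (trF φ)
  | .and φ ψ => .and (trF φ) (trF ψ)

/-- translation of the symbols in rank one. -/
def trS (c : ℕ) : List ℕ :=
  bif eqb c 4 then [0] else bif eqb c 5 then [2] else bif eqb c 6 then [3, 3, 0] else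
  bif eqb c 7 then [3] else bif eqb c 9 then [8] else bif leb c 11 then [c] else [2 * c - 12]

lemma trS_var {c : ℕ} (h : 12 ≤ c) : trS c = [2 * c - 12] := by
  have h1 : ∀ d < 12, eqb c d = false := fun d hd => by simp [eqb]; omega
  have h2 : leb c 11 = false := by simp [leb]; omega
  simp [trS, h1, h2]

lemma trR_string (t : RTerm) : (trR t).string = t.string.flatMap trS := by
  induction t with
  | var n =>
    change [2 * (2 * n) + 12] = [2 * n + 12].flatMap trS
    rw [List.flatMap_singleton, trS_var (by omega)]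
    exact congrArg (fun c => [c]) (by omega)
  | zero => rfl
  | one => rfl
  | add s t h h' =>
    change 2 :: ((trR s).string ++ (trR t).string) = (2 :: (s.string ++ t.string)).flatMap trS
    rw [List.flatMap_cons, List.flatMap_append, h, h']; rfl
  | mul s t h h' =>
    change 3 :: ((trR s).string ++ (trR t).string) = (3 :: (s.string ++ t.string)).flatMap trS
    rw [List.flatMap_cons, List.flatMap_append, h, h']; rfl

lemma trL_string (t : LTerm) : (trL t).string = t.string.flatMap trS := by
  induction t with
  | var n =>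
    change [2 * (2 * n + 1) + 12] = [2 * n + 13].flatMap trS
    rw [List.flatMap_singleton, trS_var (by omega)]
    exact congrArg (fun c => [c]) (by omega)
  | zero => rfl
  | add s t h h' =>
    change 2 :: ((trL s).string ++ (trL t).string) = (5 :: (s.string ++ t.string)).flatMap trS
    rw [List.flatMap_cons, List.flatMap_append, h, h']; rfl
  | lie s t h h' =>
    change 3 :: (3 :: ([0] ++ (trL s).string) ++ (trL t).string) =
      (6 :: (s.string ++ t.string)).flatMap trS
    rw [List.flatMap_cons, List.flatMap_append, h, h']; rfl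
  | smul c t h =>
    change 3 :: ((trR c).string ++ (trL t).string) = (7 :: (c.string ++ t.string)).flatMap trS
    rw [List.flatMap_cons, List.flatMap_append, h, trR_string]; rfl

lemma trF_string (φ : LForm) : (trF φ).string = φ.string.flatMap trS := by
  induction φ with
  | eqR s t =>
    change 8 :: ((trR s).string ++ (trR t).string) = (8 :: (s.string ++ t.string)).flatMap trS
    rw [List.flatMap_cons, List.flatMap_append, trR_string, trR_string]; rfl
  | eqL s t =>
    change 8 :: ((trL s).string ++ (trL t).string) = (9 :: (s.string ++ t.string)).flatMap trS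
    rw [List.flatMap_cons, List.flatMap_append, trL_string, trL_string]; rfl
  | not φ h =>
    change 10 :: (trF φ).string = (10 :: φ.string).flatMap trS
    rw [List.flatMap_cons, h]; rfl
  | and φ ψ h h' =>
    change 11 :: ((trF φ).string ++ (trF ψ).string) = (11 :: (φ.string ++ ψ.string)).flatMap trS
    rw [List.flatMap_cons, List.flatMap_append, h, h']; rfl

lemma trR_value (ρ : ℕ → F) (t : RTerm) : (trR t).value ρ = t.value fun n => ρ (2 * n) := by
  induction t with
  | var n => rfl
  | zero => rfl
  | one => rfl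
  | add s t h h' => exact congrArg₂ (· + ·) h h'
  | mul s t h h' => exact congrArg₂ (· * ·) h h'

section one

variable {L : Type} [LieRing L] [LieAlgebra F L] (x : L)

lemma trL_value (ρ : ℕ → F) (t : LTerm) :
    (trL t).value ρ • x = t.value (fun n => ρ (2 * n)) fun n => ρ (2 * n + 1) • x := by
  induction t with
  | var n => rfl
  | zero => exact zero_smul F x
  | add s t h h' => exact (add_smul _ _ x).trans (congrArg₂ (· + ·) h h')
  | lie s t h h' =>
    refine Eq.trans ?_ (congrArg₂ (fun u v : L => ⁅u, v⁆) h h')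
    change (0 * (trL s).value ρ * (trL t).value ρ) • x = _
    simp
  | smul c t h =>
    refine Eq.trans ?_ (congrArg₂ (fun (u : F) (v : L) => u • v) (trR_value ρ c) h)
    exact mul_smul _ _ x

lemma trF_holds (hx : x ≠ 0) (ρ : ℕ → F) (φ : LForm) :
    (trF φ).Holds ρ ↔ φ.Holds (fun n => ρ (2 * n)) fun n => ρ (2 * n + 1) • x := by
  induction φ with
  | eqR s t =>
    change (trR s).value ρ = (trR t).value ρ ↔ _
    rw [trR_value, trR_value]; rfl
  | eqL s t =>
    change (trL s).value ρ = (trL t).value ρ ↔ s.value _ _ = t.value _ _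
    rw [← trL_value, ← trL_value]
    exact (smul_left_injective F hx).eq_iff.symm
  | not φ h => exact not_congr h
  | and φ ψ h h' => exact and_congr h h'

theorem lie_of_field (hx : x ≠ 0) (hs : ∀ u : L, ∃ c : F, u = c • x) (h : FieldUnivDecidable F) :
    LieUnivDecidable F L := by
  obtain ⟨f, hf, h⟩ := h
  have h1 : Primrec fun l : List ℕ => l.flatMap trS := by unfold trS; fun_prop
  refine ⟨fun l => f (l.flatMap trS), hf.comp h1.to_comp, fun φ => ?_⟩
  simp only [← trF_string, h, trF_holds x hx]
  refine ⟨fun h2 ρ η => ?_, fun h2 ρ => h2 _ _⟩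
  choose c hc using hs
  have h3 := h2 (mrg ρ fun n => c (η n))
  simpa only [mrg_ev, mrg_od, ← hc] using h3

end one

theorem rank_one {Y : Type} [Nonempty Y] [Subsingleton Y] (h : FieldUnivDecidable F) :
    LieUnivDecidable F (FreeLieAlgebra F Y) := by
  obtain ⟨y⟩ := ‹Nonempty Y›
  refine lie_of_field (FreeLieAlgebra.of F y) (fun h0 => ?_) (fun u => ?_) h
  · have h1 := toAssoc_of (F := F) y
    rw [h0, map_zero] at h1
    exact FreeAlgebra.ι_ne_zero y h1.symm
  · induction u using free_induction with
    | h0 => exact ⟨0, by simp⟩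
    | hof z => exact ⟨1, by rw [one_smul, Subsingleton.elim z y]⟩
    | hadd u v hu hv =>
      obtain ⟨c, rfl⟩ := hu
      obtain ⟨d, rfl⟩ := hv
      exact ⟨c + d, (add_smul _ _ _).symm⟩
    | hsmul c u hu =>
      obtain ⟨d, rfl⟩ := hu
      exact ⟨c * d, (mul_smul _ _ _).symm⟩
    | hlie u v hu hv =>
      obtain ⟨c, rfl⟩ := hu
      obtain ⟨d, rfl⟩ := hv
      exact ⟨0, by simp⟩

open Classical in
/-- indicator of a proposition. -/
noncomputable def ind (F : Type) [Field F] (P : Prop) : F := if P then 1 else 0

/-- one step of the evaluation of a string. -/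
noncomputable def stp (r : F) (c : ℕ) (S : List F) : List F :=
  bif eqb c 0 then 0 :: S else bif eqb c 1 then 1 :: S else
  bif eqb c 2 then (S.getD 0 0 + S.getD 1 0) :: S.drop 2 else
  bif eqb c 8 then ind F (S.getD 0 0 = S.getD 1 0) :: S.drop 2 else
  bif eqb c 10 then ind F (S.getD 0 0 = 0) :: S.drop 1 else
  bif leb c 11 then (S.getD 0 0 * S.getD 1 0) :: S.drop 2 else r :: S

/-- evaluation of a string. -/
noncomputable def evl (σ : ℕ → F) (l : List ℕ) : List F := l.foldr (fun c S => stp (σ c) c S) []

lemma evl_cons (σ : ℕ → F) (c : ℕ) (l : List ℕ) : evl σ (c :: l) = stp (σ c) c (evl σ l) := rfl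

lemma evl_congr {σ τ : ℕ → F} {l : List ℕ} (h : ∀ c ∈ l, σ c = τ c) : evl σ l = evl τ l := by
  induction l with
  | nil => rfl
  | cons c l ih =>
    rw [evl_cons, evl_cons, ih fun c hc => h c (List.mem_cons_of_mem _ hc),
      h c List.mem_cons_self]

lemma evl_term (σ : ℕ → F) (t : RTerm) (l : List ℕ) :
    evl σ (t.string ++ l) = (t.value fun n => σ (2 * n + 12)) :: evl σ l := by
  induction t generalizing l with
  | var n =>
    have h1 : ∀ d < 12, eqb (2 * n + 12) d = false := fun d hd => by simp [eqb]; omega
    have h2 : leb (2 * n + 12) 11 = false := by simp [leb]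
    change stp (σ (2 * n + 12)) (2 * n + 12) (evl σ l) = σ (2 * n + 12) :: _
    simp [stp, h1, h2]
  | zero => rfl
  | one => rfl
  | add s t h h' =>
    change stp (σ 2) 2 (evl σ (s.string ++ t.string ++ l)) = _
    rw [List.append_assoc, h, h']; rfl
  | mul s t h h' =>
    change stp (σ 3) 3 (evl σ (s.string ++ t.string ++ l)) = _
    rw [List.append_assoc, h, h']; rfl

lemma evl_form (σ : ℕ → F) (φ : RForm) (l : List ℕ) :
    evl σ (φ.string ++ l) = ind F (φ.Holds fun n => σ (2 * n + 12)) :: evl σ l := by
  induction φ generalizing l with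
  | eq s t =>
    change stp (σ 8) 8 (evl σ (s.string ++ t.string ++ l)) = _
    rw [List.append_assoc, evl_term, evl_term]; rfl
  | not φ h =>
    change stp (σ 10) 10 (evl σ (φ.string ++ l)) = ind F (¬φ.Holds _) :: _
    rw [h]
    change ind F (ind F _ = 0) :: _ = _
    congr 2
    simp [ind]
  | and φ ψ h h' =>
    change stp (σ 11) 11 (evl σ (φ.string ++ ψ.string ++ l)) = ind F (φ.Holds _ ∧ ψ.Holds _) :: _
    rw [List.append_assoc, h, h']
    change (ind F _ * ind F _) :: _ = _
    congr 1
    simp only [ind]
    split_ifs <;> simp_all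

/-- all lists of a given length. -/
def alls {A : Type} (U : List A) (r : List ℕ) : List (List A) :=
  r.foldr (fun _ S => S.flatMap fun pt => U.map fun a => a :: pt) [[]]

lemma mem_alls {A : Type} {U : List A} (hU : ∀ a, a ∈ U) (r : List ℕ) (pt : List A)
    (h : pt.length = r.length) : pt ∈ alls U r := by
  induction r generalizing pt with
  | nil => simpa [alls] using h
  | cons c r ih =>
    obtain _ | ⟨a, pt⟩ := pt
    · simp at h
    · exact List.mem_flatMap.2 ⟨pt, ih pt (by simpa using h), List.mem_map.2 ⟨a, hU a, rfl⟩⟩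

theorem finite_decidable [Finite F] : FieldUnivDecidable F := by
  classical
  obtain ⟨q, ⟨e⟩⟩ := Finite.exists_equiv_fin F
  let : Primcodable F := Primcodable.ofEquiv (Fin q) e
  obtain ⟨U, -, hU⟩ := Finite.exists_univ_list F
  have h0 : ∀ g : F → F → F, Primrec fun S : List F => g (S.getD 0 0) (S.getD 1 0) := fun g =>
    (Primrec.dom_finite fun p : F × F => g p.1 p.2).comp
      (g := fun S : List F => (S.getD 0 0, S.getD 1 0)) (by fun_prop)
  have h1 : Primrec fun x : F × ℕ × List F => stp x.1 x.2.1 x.2.2 := by
    have h2 : Primrec fun x : F × ℕ × List F => x.2.2 := by fun_prop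
    exact p_cond (by fun_prop) (by fun_prop) <| p_cond (by fun_prop) (by fun_prop) <|
      p_cond (by fun_prop) (p_cons ((h0 (· + ·)).comp h2) (by fun_prop)) <|
      p_cond (by fun_prop) (p_cons ((h0 fun a b => ind F (a = b)).comp h2) (by fun_prop)) <|
      p_cond (by fun_prop) (p_cons ((h0 fun a _ => ind F (a = 0)).comp h2) (by fun_prop)) <|
      p_cond (by fun_prop) (p_cons ((h0 (· * ·)).comp h2) (by fun_prop)) (by fun_prop)
  have h2 : Primrec fun x : List ℕ × List F => evl (fun c => x.2.getD c 0) x.1 :=
    p_foldr (h := fun (x : List ℕ × List F) c S => stp (x.2.getD c 0) c S) (by fun_prop)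
      (Primrec.const _) (h1.comp (g := fun y : (List ℕ × List F) × ℕ × List F =>
        (y.1.2.getD y.2.1 0, y.2.1, y.2.2)) (by fun_prop))
  have h3 : Primrec fun l : List ℕ => alls U (List.range (l.foldr (fun c s => c + s) 0 + 1)) := by
    unfold alls; fun_prop
  have h4 : Primrec fun l : List ℕ => (alls U (List.range (l.foldr (fun c s => c + s) 0 + 1))).all
      fun pt => eqb (evl (fun c => pt.getD c 0) l) [1] :=
    p_all h3 (p_eqb h2 (Primrec.const _))
  refine ⟨_, h4.to_comp, fun φ => ?_⟩
  have h5 : ∀ σ : ℕ → F, evl σ φ.string = [1] ↔ φ.Holds fun n => σ (2 * n + 12) := by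
    intro σ
    have h6 := evl_form σ φ []
    rw [List.append_nil] at h6
    rw [h6]
    simp [ind, evl]
  simp only [List.all_eq_true, eqb_iff]
  refine ⟨fun h ρ => ?_, fun h pt _ => (h5 _).2 (h _)⟩
  have h6 := h ((List.range (φ.string.foldr (fun c s => c + s) 0 + 1)).map
    fun c => ρ ((c - 12) / 2)) (mem_alls hU _ _ (by simp))
  rw [evl_congr (τ := fun c => ρ ((c - 12) / 2)) fun c hc => ?_, h5] at h6
  · simpa using h6
  · have h7 : c ≤ φ.string.foldr (fun c s => c + s) 0 := List.le_sum_of_mem hc
    rw [List.getD_eq_getElem _ _ (by simp; omega)]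
    simp

theorem classification (F : Type) [Field F] (Y : Type) [Nonempty Y] :
    LieUnivDecidable F (FreeLieAlgebra F Y) ↔ Subsingleton Y ∧ FieldUnivDecidable F :=
  ⟨fun h => ⟨not_nontrivial_iff_subsingleton.1 fun _ => lie_undecidable F Y h, field_of_lie h⟩,
    fun ⟨_, h⟩ => rank_one h⟩

end Pool.Agent.P.MP_5be460_lc.G
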