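import Pool.Agent.P.MP_5be460_lc.Words

namespace Pool.Agent.P.MP_5be460_lc.G

open Module TensorProduct

universe u

variable {F : Type} [Field F] {Y : Type u}

lemma mem_of_eq {V : Type*} [AddCommGroup V] [Module F V] {S : Submodule F V} {a b : V}
    (h : a ∈ S) (e : a = b) : b ∈ S := e ▸ h

/-- the coproduct for which the generators are primitive. -/
noncomputable def cop (F : Type) [Field F] (Y : Type u) :
    FreeAlgebra F Y →ₐ[F] FreeAlgebra F Y ⊗[F] FreeAlgebra F Y :=
  FreeAlgebra.lift F fun y => FreeAlgebra.ι F y ⊗ₜ 1 + 1 ⊗ₜ FreeAlgebra.ι F y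

lemma cop_lie {f : FreeAlgebra F Y} (hf : f ∈ lieElt F Y) :
    cop F Y f = f ⊗ₜ 1 + 1 ⊗ₜ f := by
  refine lie_induction (P := fun f => cop F Y f = f ⊗ₜ 1 + 1 ⊗ₜ f) (by simp) (fun f hf => ?_)
    (fun f g h1 h2 => by rw [map_add, h1, h2, add_tmul, tmul_add]; abel)
    (fun c f h => by rw [map_smul, h, smul_add, smul_tmul', tmul_smul]) hf
  induction hf with
  | gen y => simp [cop]
  | br _ _ h1 h2 =>
    simp only [cm, map_sub, map_mul, h1, h2, add_mul, mul_add, Algebra.TensorProduct.tmul_mul_tmul,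
      mul_one, one_mul, sub_tmul, tmul_sub]
    abel

/-- the half coproduct: the first letter goes to the left. -/
noncomputable def hcop (F : Type) [Field F] (Y : Type u) :
    FreeAlgebra F Y →ₗ[F] FreeAlgebra F Y ⊗[F] FreeAlgebra F Y :=
  onWords fun l => match l with
    | [] => 0
    | y :: l => (FreeAlgebra.ι F y ⊗ₜ 1) * cop F Y (word F l)

lemma hcop_ι_mul (y : Y) (g : FreeAlgebra F Y) :
    hcop F Y (FreeAlgebra.ι F y * g) = (FreeAlgebra.ι F y ⊗ₜ 1) * cop F Y g := by
  induction g using word_induction with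
  | h0 => simp
  | hw l => rw [← word_cons, hcop, onWords_word]
  | hadd f g h h' => rw [mul_add, map_add, h, h', map_add, mul_add]
  | hsmul c f h => rw [mul_smul_comm, map_smul, h, map_smul, mul_smul_comm]

lemma hcop_mul {f : FreeAlgebra F Y} (hf : f ∈ lieElt F Y) (g : FreeAlgebra F Y) :
    hcop F Y (f * g) = hcop F Y f * cop F Y g := by
  refine lie_induction (P := fun f => ∀ g, hcop F Y (f * g) = hcop F Y f * cop F Y g) (by simp)
    (fun f hf => ?_) (fun f f' h1 h2 g => by rw [add_mul, map_add, h1, h2, map_add, add_mul])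
    (fun c f h g => by rw [smul_mul_assoc, map_smul, h, map_smul, smul_mul_assoc]) hf g
  induction hf with
  | gen y =>
    intro g
    have h := hcop_ι_mul (F := F) y 1
    rw [mul_one, map_one, mul_one] at h
    rw [hcop_ι_mul, h]
  | br _ _ h1 h2 =>
    intro g
    rw [cm, sub_mul, map_sub, map_sub, mul_assoc, mul_assoc, h1, h2, h1, h2, map_mul, map_mul,
      sub_mul, mul_assoc, mul_assoc]

/-- alternating tensors. -/
def altT (F : Type) [Field F] (Y : Type u) : Submodule F (FreeAlgebra F Y ⊗[F] FreeAlgebra F Y) :=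
  Submodule.span F {t | ∃ a b, t = a ⊗ₜ b - b ⊗ₜ a}

lemma alt_mul {t : FreeAlgebra F Y ⊗[F] FreeAlgebra F Y} (ht : t ∈ altT F Y)
    (g : FreeAlgebra F Y) : t * (g ⊗ₜ 1 + 1 ⊗ₜ g) ∈ altT F Y := by
  induction ht using Submodule.span_induction with
  | mem t ht =>
    obtain ⟨a, b, rfl⟩ := ht
    have h : (a ⊗ₜ[F] b - b ⊗ₜ a) * (g ⊗ₜ 1 + 1 ⊗ₜ g) =
        ((a * g) ⊗ₜ b - b ⊗ₜ (a * g)) + (a ⊗ₜ (b * g) - (b * g) ⊗ₜ a) := by
      simp only [sub_mul, mul_add, Algebra.TensorProduct.tmul_mul_tmul, mul_one]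
      abel
    rw [h]
    exact add_mem (Submodule.subset_span ⟨_, _, rfl⟩) (Submodule.subset_span ⟨_, _, rfl⟩)
  | zero => simp
  | add _ _ _ _ h h' => rw [add_mul]; exact add_mem h h'
  | smul c _ _ h => rw [smul_mul_assoc]; exact Submodule.smul_mem _ c h

lemma hcop_mul_lie {f g : FreeAlgebra F Y} (hf : f ∈ lieElt F Y) (hg : g ∈ lieElt F Y)
    (h : hcop F Y f - f ⊗ₜ 1 ∈ altT F Y) :
    hcop F Y (f * g) - (f * g) ⊗ₜ 1 - f ⊗ₜ g ∈ altT F Y := by
  have h1 := alt_mul h g
  rw [hcop_mul hf, cop_lie hg]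
  refine mem_of_eq h1 ?_
  simp only [sub_mul, mul_add, Algebra.TensorProduct.tmul_mul_tmul, mul_one, one_mul]
  abel

lemma hcop_lie {f : FreeAlgebra F Y} (hf : f ∈ lieElt F Y) :
    hcop F Y f - f ⊗ₜ 1 ∈ altT F Y := by
  refine lie_induction (P := fun f => hcop F Y f - f ⊗ₜ 1 ∈ altT F Y) (by simp) (fun f hf => ?_)
    (fun f g h1 h2 => ?_) (fun c f h => ?_) hf
  · induction hf with
    | gen y =>
      have h := hcop_ι_mul (F := F) y 1
      rw [mul_one, map_one, mul_one] at h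
      simp [h]
    | @br f g hf hg h1 h2 =>
      have h3 := add_mem (sub_mem (hcop_mul_lie hf.mem hg.mem h1) (hcop_mul_lie hg.mem hf.mem h2))
        (Submodule.subset_span ⟨f, g, rfl⟩ : f ⊗ₜ[F] g - g ⊗ₜ f ∈ altT F Y)
      refine mem_of_eq h3 ?_
      rw [cm, map_sub, sub_tmul]
      abel
  · refine mem_of_eq (add_mem h1 h2) ?_
    rw [map_add, add_tmul]
    abel
  · refine mem_of_eq (Submodule.smul_mem _ c h) ?_
    rw [map_smul, smul_sub, smul_tmul']

/-- the square of a nonzero Lie element is not a Lie element. -/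
theorem sq_lie {f : FreeAlgebra F Y} (hf : f ∈ lieElt F Y) (h : f * f ∈ lieElt F Y) : f = 0 := by
  classical
  have h1 : f ⊗ₜ[F] f ∈ altT F Y := by
    refine mem_of_eq (sub_mem (hcop_lie h) (hcop_mul_lie hf hf (hcop_lie hf))) ?_
    abel
  rw [← (wb F Y).forall_coord_eq_zero_iff]
  intro l
  have h2 : ∀ t ∈ altT F Y, LinearMap.mul' F F
      (TensorProduct.map ((wb F Y).coord l) ((wb F Y).coord l) t) = 0 := by
    intro t ht
    induction ht using Submodule.span_induction with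
    | mem t ht =>
      obtain ⟨a, b, rfl⟩ := ht
      simp only [map_sub, map_tmul, LinearMap.mul'_apply]
      ring
    | zero => simp
    | add _ _ _ _ h h' => rw [map_add, map_add, h, h', add_zero]
    | smul c _ _ h => rw [map_smul, map_smul, h, smul_zero]
  have h3 := h2 _ h1
  rw [map_tmul, LinearMap.mul'_apply] at h3
  exact mul_self_eq_zero.1 h3

end Pool.Agent.P.MP_5be460_lc.G
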