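import Pool.Agent.P.MP_5be460_lc.Inner
import Pool.Agent.P.MP_5be460_lc.GSq

namespace Pool.Agent.P.MP_5be460_lc.G

open Finset Module Polynomial

universe u

set_option linter.unusedSectionVars false

section abstract

variable {F : Type} [Field F] {V : Type*} [AddCommGroup V] [Module F V]

lemma aeval_mem {S : Submodule F V} {D : Module.End F V} (hS : ∀ x ∈ S, D x ∈ S) (χ : F[X])
    {x : V} (hx : x ∈ S) : aeval D χ x ∈ S := by
  induction χ using Polynomial.induction_on with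
  | C c => rw [aeval_C, Module.algebraMap_end_apply]; exact S.smul_mem c hx
  | add φ ψ h h' => rw [map_add, LinearMap.add_apply]; exact add_mem h h'
  | monomial n c h =>
    rw [pow_succ', mul_left_comm, map_mul, aeval_X, Module.End.mul_apply]
    exact hS _ h

lemma aeval_comm (D : Module.End F V) (χ : F[X]) (x : V) :
    D (aeval D χ x) = aeval D χ (D x) := map_aeval_end D (fun _ => rfl) χ x

lemma aeval_sq_comm (D : Module.End F V) (χ : F[X]) (x : V) :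
    D (aeval (D ^ 2) χ x) = aeval (D ^ 2) χ (D x) :=
  map_aeval_end D (fun x => by simp [sq]) χ x

variable (B : V →ₗ[F] V →ₗ[F] V) {D : Module.End F V}
  (hD : ∀ x y, D (B x y) = B (D x) y + B x (D y)) {S : Submodule F V}
  (hB : ∀ x ∈ S, ∀ y ∈ S, B x y ∈ S) (hS : ∀ x ∈ S, D x ∈ S)

include hD hB hS

lemma move_one (χ : F[X]) {x y : V} (hx : x ∈ S) (hy : y ∈ S) :
    ∃ z ∈ S, B (aeval D χ x) y = B x (aeval (-D) χ y) + D z := by
  induction χ using Polynomial.induction_on generalizing x with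
  | C c => exact ⟨0, zero_mem _, by simp [Module.algebraMap_end_apply]⟩
  | add φ ψ h h' =>
    obtain ⟨z, hz1, hz⟩ := h hx
    obtain ⟨z', hz1', hz'⟩ := h' hx
    refine ⟨z + z', add_mem hz1 hz1', ?_⟩
    simp only [map_add, LinearMap.add_apply, hz, hz']
    abel
  | monomial n c h' =>
    obtain ⟨z, hz1, hz⟩ := h' (hS x hx)
    refine ⟨z + B x (aeval (-D) (C c * X ^ n) y), add_mem hz1 (hB _ hx _
      (aeval_mem (fun x hx => neg_mem (hS x hx)) _ hy)), ?_⟩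
    have e1 : aeval D (C c * X ^ (n + 1)) x = aeval D (C c * X ^ n) (D x) := by
      rw [pow_succ X, ← mul_assoc, map_mul, aeval_X, Module.End.mul_apply]
    have e2 : aeval (-D) (C c * X ^ (n + 1)) y = -D (aeval (-D) (C c * X ^ n) y) := by
      rw [pow_succ' X, mul_left_comm, map_mul, aeval_X, Module.End.mul_apply, LinearMap.neg_apply]
    rw [e1, e2, hz, map_add, hD, map_neg]
    abel

lemma self_even (hA : ∀ x, B x x = 0) (χ : F[X]) {x : V} (hx : x ∈ S) :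
    ∃ z ∈ S, B (aeval (D ^ 2) χ x) x = D z := by
  induction χ using Polynomial.induction_on generalizing x with
  | C c => exact ⟨0, zero_mem _, by simp [Module.algebraMap_end_apply, hA]⟩
  | add φ ψ h h' =>
    obtain ⟨z, hz1, hz⟩ := h hx
    obtain ⟨z', hz1', hz'⟩ := h' hx
    exact ⟨z + z', add_mem hz1 hz1', by simp only [map_add, LinearMap.add_apply, hz, hz']⟩
  | monomial n c h' =>
    obtain ⟨z, hz1, hz⟩ := h' (hS x hx)
    refine ⟨B (aeval (D ^ 2) (C c * X ^ n) (D x)) x - z, sub_mem (hB _ (aeval_mem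
      (fun x hx => by rw [sq]; exact hS _ (hS x hx)) _ (hS x hx)) _ hx) hz1, ?_⟩
    rw [pow_succ' X, mul_left_comm, ← sq_aeval, aeval_sq_comm D _ x, map_sub, hD, hz,
      add_sub_cancel_right]

end abstract

variable {F : Type} [Field F] {Z : Type u}

lemma exists_parts (φ : F[X]) : ∃ χ₀ χ₁ : F[X], φ = expand F 2 χ₀ + expand F 2 χ₁ * X := by
  induction φ using Polynomial.induction_on' with
  | add p q hp hq =>
    obtain ⟨a, b, rfl⟩ := hp
    obtain ⟨c, d, rfl⟩ := hq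
    exact ⟨a + c, b + d, by simp only [map_add]; ring⟩
  | monomial n c =>
    rcases Nat.even_or_odd' n with ⟨k, rfl | rfl⟩
    · exact ⟨monomial k c, 0, by rw [expand_monomial, mul_comm k, map_zero, zero_mul, add_zero]⟩
    · exact ⟨0, monomial k c, by
        rw [expand_monomial, mul_comm k, map_zero, zero_add, monomial_mul_X]⟩

lemma exists_sqrt [IsAlgClosed F] (h2 : (2 : F) = 0) (χ : F[X]) :
    ∃ ψ : F[X], ψ * ψ = expand F 2 χ := by
  have h3 : (2 : F[X]) = 0 := by rw [← map_ofNat C 2, h2, map_zero]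
  induction χ using Polynomial.induction_on' with
  | add p q hp hq =>
    obtain ⟨a, ha⟩ := hp
    obtain ⟨b, hb⟩ := hq
    exact ⟨a + b, by rw [map_add]; linear_combination ha + hb + a * b * h3⟩
  | monomial n c =>
    obtain ⟨r, rfl⟩ := IsAlgClosed.exists_eq_mul_self c
    exact ⟨monomial n r, by rw [expand_monomial, monomial_mul_monomial, mul_two]⟩

lemma prim_bb [Infinite F] {m : ℕ} {q : FreeAlgebra F (Z × ℕ)} (hq : Hom one1 m q) (hm : 1 ≤ m)
    (hq0 : q ≠ 0) : Prim (m + (m + m)) (cm (shD F Z q) (cm q (shD F Z q))) := by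
  refine ⟨hq.shD.cm (hq.cm hq.shD), by omega, fun s => ?_⟩
  obtain ⟨ℓ, h1, h2⟩ := exists_ev_ne hq hq0
  obtain ⟨t, ht⟩ : ∃ t, t = s - 3 * sg ℓ := ⟨_, rfl⟩
  have h3 : ev F (sh X ℓ ++ (sh (C t - X) ℓ ++ sh 0 ℓ))
      (cm (shD F Z q) (cm q (shD F Z q))) ≠ 0 := by
    have e : cm (shD F Z q) (cm q (shD F Z q)) = shD F Z q * (q * shD F Z q) -
        shD F Z q * (shD F Z q * q) - q * (shD F Z q * shD F Z q) +
          shD F Z q * (q * shD F Z q) := by unfold cm; noncomm_ring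
    have l1 : (sh X ℓ).length = m := by simpa using h1
    have l2 : (sh (C t - X) ℓ).length = m := by simpa using h1
    rw [e, map_add, map_sub, map_sub, ev_mul hq.shD _ l1, ev_mul hq.shD _ l1, ev_mul hq _ l1,
      ev_mul hq _ l2, ev_mul hq.shD _ l2, ev_mul hq.shD _ l2]
    simp only [ev_shD]
    rw [sg_sh _ (by omega), sg_sh _ (by omega), sg_sh _ (by omega)]
    have h4 : ev F (sh X ℓ) q ≠ 0 :=
      ev_ne_of_pm (aeval (0 : F)) (by rw [pm_sh (by simp)]; exact h2)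
    have h5 : ev F (sh (C t - X) ℓ) q ≠ 0 :=
      ev_ne_of_pm (aeval t) (by rw [pm_sh (by simp)]; exact h2)
    have h7 : ev F (sh 0 ℓ) q ≠ 0 :=
      ev_ne_of_pm (aeval t) (by rw [pm_sh (by simp)]; exact h2)
    have h6 : (X ^ 2 + C (3 * sg ℓ - t) * X + C (-2 * sg ℓ * t) : F[X]) ≠ 0 := by
      intro h
      simpa [coeff_X, coeff_C, -map_sub, -map_mul, -map_neg] using congrArg (fun P => coeff P 2) h
    intro h
    refine mul_ne_zero h6 (mul_ne_zero h4 (mul_ne_zero h5 h7)) ?_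
    simp only [map_sub, map_mul, map_neg, map_ofNat]
    linear_combination h
  obtain ⟨x, hx⟩ : ∃ x, eval x (ev F (sh X ℓ ++ (sh (C t - X) ℓ ++ sh 0 ℓ))
      (cm (shD F Z q) (cm q (shD F Z q)))) ≠ 0 := by
    by_contra h
    push Not at h
    exact h3 (Polynomial.funext fun x => by rw [h, eval_zero])
  refine ⟨pm (aeval x : F[X] →ₐ[F] F) (sh X ℓ ++ (sh (C t - X) ℓ ++ sh 0 ℓ)), by simp [h1], ?_, ?_⟩
  · rw [sg_pm, sg_append, sg_append, sg_sh _ (by omega), sg_sh _ (by omega), sg_sh _ (by omega)]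
    simp [ht]
    ring
  · rw [ev_pm]
    simpa using hx

lemma prim_poly [IsAlgClosed F] {M : ℕ} {b u z : FreeAlgebra F (Z × ℕ)}
    (hb : Prim M b) (hu : Hom one1 M u) (h : cm u b = shD F Z z) :
    ∃ φ : F[X], u = aeval (shD F Z) φ b := by
  let J : Ideal F[X] :=
    { carrier := {r | ∃ φ : F[X], ∀ ℓ : List (Z × F), ℓ.length = M →
        r.eval (sg ℓ) * ev F ℓ u = φ.eval (sg ℓ) * ev F ℓ b}
      add_mem' := by
        rintro r r' ⟨φ, h⟩ ⟨φ', h'⟩
        exact ⟨φ + φ', fun ℓ hℓ => by rw [eval_add, eval_add, add_mul, h ℓ hℓ, h' ℓ hℓ, add_mul]⟩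
      zero_mem' := ⟨0, by simp⟩
      smul_mem' := by
        rintro c r ⟨φ, h⟩
        exact ⟨c * φ, fun ℓ hℓ => by
          rw [smul_eq_mul, eval_mul, eval_mul, mul_assoc, h ℓ hℓ, mul_assoc]⟩ }
  have hJ : ∀ s : F, ∃ r ∈ J, r.eval s ≠ 0 := by
    intro s
    obtain ⟨ℓ₀, h1, h2, h3⟩ := hb.2.2 (-s)
    refine ⟨ev F (sh (C s - X) ℓ₀) b, ⟨ev F (sh (C s - X) ℓ₀) u, fun ℓ hℓ => ?_⟩, ?_⟩
    · have h4 := ev_cm hu hb.1 h (ℓ₁ := ℓ)
        (ℓ₂ := pm (aeval (sg ℓ) : F[X] →ₐ[F] F) (sh (C s - X) ℓ₀)) rfl hℓ hℓ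
        (by rw [sg_pm, sg_sh _ (h1 ▸ hb.2.1), h2]; simp; ring)
      rw [ev_pm, ev_pm, coe_aeval_eq_eval] at h4
      linear_combination h4
    · have h4 := ev_pm (aeval s : F[X] →ₐ[F] F) (sh (C s - X) ℓ₀) b
      rw [pm_sh (by simp), coe_aeval_eq_eval] at h4
      exact h4 ▸ h3
  have hJ1 : (1 : F[X]) ∈ J := by
    obtain ⟨g, hg⟩ := (IsPrincipalIdealRing.principal J).principal
    have h1 : ∀ s, ¬g.IsRoot s := by
      intro s hs
      obtain ⟨r, hr, hr'⟩ := hJ s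
      rw [hg] at hr
      obtain ⟨c, rfl⟩ := Submodule.mem_span_singleton.1 hr
      exact hr' (by rw [smul_eq_mul, eval_mul, hs.eq_zero, mul_zero])
    have h2 : g.degree = 0 := by
      by_contra h2
      obtain ⟨s, hs⟩ := IsAlgClosed.exists_root g h2
      exact h1 s hs
    rw [← Ideal.eq_top_iff_one, hg]
    exact Ideal.span_singleton_eq_top.2 (isUnit_iff_degree_eq_zero.2 h2)
  obtain ⟨φ, hφ⟩ := hJ1
  refine ⟨φ, ?_⟩
  rw [← sub_eq_zero]
  refine ev_inj fun ℓ => ?_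
  rw [map_sub, ev_aeval, coe_aeval_eq_eval]
  by_cases hℓ : ℓ.length = M
  · rw [← hφ ℓ hℓ, eval_one, one_mul, sub_self]
  · rw [← hu, ← hb.1, ev_pr, ev_pr, if_neg hℓ, if_neg hℓ, mul_zero, sub_zero]

lemma hD_cm (x y : FreeAlgebra F (Z × ℕ)) :
    shD F Z (cmB F _ x y) = cmB F _ (shD F Z x) y + cmB F _ x (shD F Z y) := der_cm _ x y

lemma pr0_lie {e : FreeAlgebra F (Z × ℕ)} (he : e ∈ lieElt F (Z × ℕ)) :
    pr one1 0 e = 0 := pr_zero_of_lie (fun _ => le_rfl) he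

lemma prim_odd [IsAlgClosed F] {M : ℕ} {b z : FreeAlgebra F (Z × ℕ)} (hb : Prim M b)
    (hbl : b ∈ lieElt F _) (hz : z ∈ lieElt F _) {χ : F[X]}
    (h : cm (aeval (shD F Z ^ 2) χ (shD F Z b)) b = shD F Z z) : χ = 0 := by
  rw [← expand_aeval] at h
  by_cases h2 : (2 : F) = 0
  · obtain ⟨ψ, hψ⟩ := exists_sqrt h2 χ
    have hf := aeval_mem (fun _ => shD_mem_lie) ψ hbl
    obtain ⟨z₁, h3, h4⟩ := move_one (cmB F _) hD_cm (fun _ hx _ hy => cm_mem_lie hx hy)
      (fun _ => shD_mem_lie) ψ (shD_mem_lie hf) hbl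
    have h5 : -shD F Z = shD F Z := by
      rw [neg_eq_iff_add_eq_zero, ← two_smul F, h2, zero_smul]
    rw [h5, cmB_apply, cmB_apply, aeval_comm, ← Module.End.mul_apply, ← map_mul, hψ, h,
      ← aeval_comm] at h4
    have h6 : Hom one1 M (aeval (shD F Z) ψ b) := (hb.1.lead.aeval ψ).hom
    have h7 : aeval (shD F Z) ψ b = 0 := by
      generalize aeval (shD F Z) ψ b = f at *
      refine sq_lie hf (mem_of_eq (sub_mem hz h3) ?_)
      rw [← sub_eq_zero]
      refine shD_inj ?_ ?_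
      · rw [map_sub, pr0_lie (sub_mem hz h3), (h6.mul h6).pr_ne (by have := hb.2.1; omega),
          sub_zero]
      · have h8 : f * shD F Z f + f * shD F Z f = 0 := by rw [← two_smul F, h2, zero_smul]
        rw [map_sub, map_sub, h4, shD_mul, cm]
        linear_combination (norm := noncomm_ring) -h8
    have h8 : ψ = 0 := by
      refine Polynomial.funext fun s => ?_
      obtain ⟨ℓ, -, a2, a3⟩ := hb.2.2 s
      have h9 := ev_aeval ℓ ψ b
      rw [h7, map_zero, a2, coe_aeval_eq_eval] at h9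
      rw [eval_zero]
      exact (mul_eq_zero.1 h9.symm).resolve_right a3
    rw [h8, mul_zero] at hψ
    exact (expand_eq_zero two_pos).1 hψ.symm
  · have h1 : X * expand F 2 χ = 0 := by
      refine Polynomial.funext fun s => ?_
      obtain ⟨ℓ₁, a1, a2, a3⟩ := hb.2.2 s
      obtain ⟨ℓ₂, b1, b2, b3⟩ := hb.2.2 (-s)
      have h4 := ev_cm (hb.1.shD.lead.aeval _).hom hb.1 h (ℓ₁ := ℓ₁) (ℓ₂ := ℓ₂) rfl a1 a1
        (by rw [a2, b2, add_neg_cancel])
      rw [ev_aeval, ev_aeval, ev_shD, ev_shD, a2, b2, expand_aeval, expand_aeval, neg_sq] at h4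
      rw [eval_zero, eval_mul, eval_X, ← coe_aeval_eq_eval, expand_aeval]
      refine mul_right_cancel₀ (mul_ne_zero h2 (mul_ne_zero a3 b3)) ?_
      linear_combination h4
    exact (expand_eq_zero two_pos).1 ((mul_eq_zero.1 h1).resolve_left X_ne_zero)

lemma self_lie {b : FreeAlgebra F (Z × ℕ)} (hbl : b ∈ lieElt F _) (χ : F[X]) :
    ∃ z ∈ lieElt F _, cm (aeval (shD F Z ^ 2) χ b) b = shD F Z z :=
  self_even (cmB F _) hD_cm (fun _ hx _ hy => cm_mem_lie hx hy) (fun _ => shD_mem_lie)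
    (fun x => cm_self x) χ hbl

lemma prim_even [IsAlgClosed F] {M : ℕ} {b u z : FreeAlgebra F (Z × ℕ)} (hb : Prim M b)
    (hbl : b ∈ lieElt F _) (hz : z ∈ lieElt F _) (hu : Hom one1 M u) (h : cm u b = shD F Z z) :
    ∃ χ : F[X], u = aeval (shD F Z ^ 2) χ b := by
  obtain ⟨φ, rfl⟩ := prim_poly hb hu h
  obtain ⟨χ₀, χ₁, rfl⟩ := exists_parts φ
  obtain ⟨w, hw, hw'⟩ := self_lie hbl χ₀
  rw [map_add, map_mul, aeval_X, expand_aeval, expand_aeval, LinearMap.add_apply,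
    Module.End.mul_apply] at h ⊢
  rw [cm_add_left, hw', ← eq_sub_iff_add_eq', ← map_sub] at h
  exact ⟨χ₀, by rw [prim_odd hb hbl (sub_mem hz hw) h, map_zero, LinearMap.zero_apply, add_zero]⟩

lemma sq_mem_lie {b : FreeAlgebra F (Z × ℕ)} (hbl : b ∈ lieElt F _) (χ : F[X]) :
    aeval (shD F Z ^ 2) χ b ∈ lieElt F (Z × ℕ) :=
  aeval_mem (fun x hx => by rw [sq]; exact shD_mem_lie (shD_mem_lie hx)) χ hbl

lemma prim_pairing [IsAlgClosed F] {M : ℕ} {b z : FreeAlgebra F (Z × ℕ)} (hb : Prim M b)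
    (hbl : b ∈ lieElt F _) (hz : z ∈ lieElt F _) {χ : F[X]}
    (h : cm (aeval (shD F Z ^ 2) χ b) (shD F Z b) = shD F Z z) : χ = 0 := by
  refine prim_odd hb hbl (sub_mem (cm_mem_lie (sq_mem_lie hbl χ) hbl) hz) ?_
  have h1 := hD_cm (aeval (shD F Z ^ 2) χ b) b
  simp only [cmB_apply] at h1
  rw [map_sub, h1, h, aeval_sq_comm, add_sub_cancel_right]

lemma exists_prim [Infinite F] {q : FreeAlgebra F (Z × ℕ)} (hq : q ∈ lieElt F _) (hq0 : q ≠ 0) :
    ∃ M b, Lead one1 M (cm (shD F Z q) (cm q (shD F Z q))) b ∧ Prim M b ∧ b ∈ lieElt F _ := by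
  obtain ⟨m, g, h1, h2⟩ := exists_lead one1 hq0
  have h3 : g ∈ lieElt F _ := h1.2 ▸ pr_mem_lie m hq
  refine ⟨m + (m + m), _, h1.shD.cm (h1.cm h1.shD), prim_bb h1.hom ?_ h2,
    cm_mem_lie (shD_mem_lie h3) (cm_mem_lie h3 (shD_mem_lie h3))⟩
  rcases Nat.eq_zero_or_pos m with rfl | h
  · exact absurd (h1.2.symm.trans (pr0_lie hq)) h2
  · exact h

theorem inner_not_range [Infinite F] {q z : FreeAlgebra F (Z × ℕ)} (hq : q ∈ lieElt F _)
    (hq0 : q ≠ 0) : cm (shD F Z q) (cm q (shD F Z q)) ≠ shD F Z z := by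
  intro h
  obtain ⟨M, b, h1, h2, -⟩ := exists_prim hq hq0
  refine h2.not_range (z := pr one1 M z) ?_
  rw [← h1.2, h, pr_shD]

theorem inner_pairing [IsAlgClosed F] {q z : FreeAlgebra F (Z × ℕ)} (hq : q ∈ lieElt F _)
    (hq0 : q ≠ 0) (hz : z ∈ lieElt F _) {χ : F[X]}
    (h : cm (aeval (shD F Z ^ 2) χ (cm (shD F Z q) (cm q (shD F Z q))))
      (shD F Z (cm (shD F Z q) (cm q (shD F Z q)))) = shD F Z z) : χ = 0 := by
  obtain ⟨M, b, h1, h2, h3⟩ := exists_prim hq hq0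
  refine prim_pairing h2 h3 (pr_mem_lie (wt := one1) (M + M) hz) ?_
  rw [← expand_aeval] at h ⊢
  rw [← ((h1.aeval _).cm h1.shD).2, h, pr_shD]

theorem inner_even [IsAlgClosed F] {q u z z' : FreeAlgebra F (Z × ℕ)}
    (hq : q ∈ lieElt F _) (hq0 : q ≠ 0) (hu : u ∈ lieElt F _) (hz : z ∈ lieElt F _)
    (h : cm u (cm (shD F Z q) (cm q (shD F Z q))) = shD F Z z)
    (h' : cm (shD F Z (shD F Z u)) (cm (shD F Z q) (cm q (shD F Z q))) = shD F Z z') :
    ∃ χ : F[X], u = aeval (shD F Z ^ 2) χ (cm (shD F Z q) (cm q (shD F Z q))) := by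
  obtain ⟨M, b, h1, h2, hbl⟩ := exists_prim hq hq0
  have hb0 : cm (shD F Z q) (cm q (shD F Z q)) ∈ lieElt F _ :=
    cm_mem_lie (shD_mem_lie hq) (cm_mem_lie hq (shD_mem_lie hq))
  generalize cm (shD F Z q) (cm q (shD F Z q)) = b' at *
  have key : ∀ u z z' : FreeAlgebra F (Z × ℕ), pr one1 0 u = 0 → cm u b' = shD F Z z →
      cm (shD F Z (shD F Z u)) b' = shD F Z z' → u ≠ 0 → ∃ g, Lead one1 M u g ∧ g ≠ 0 := by
    intro u z z' hu h h' hu0
    obtain ⟨n, g, h3, h4⟩ := exists_lead one1 hu0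
    have hn : 1 ≤ n := by
      rcases Nat.eq_zero_or_pos n with rfl | h
      · exact absurd (h3.2.symm.trans hu) h4
      · exact h
    have h5 := len_eq (z := pr one1 (n + M) z) (z' := pr one1 (n + M) z') h3.hom h2.1 hn h2.2.1 h4
      h2.ne_zero (by rw [← (h3.cm h1).2, h, pr_shD])
      (by rw [← (h3.shD.shD.cm h1).2, h', pr_shD])
    exact ⟨g, h5 ▸ h3, h4⟩
  by_cases hu0 : u = 0
  · exact ⟨0, by simp [hu0]⟩
  obtain ⟨g, h3, -⟩ := key u z z' (pr0_lie hu) h h' hu0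
  obtain ⟨χ, hχ⟩ := prim_even h2 hbl (pr_mem_lie (wt := one1) (M + M) hz) h3.hom
    (by rw [← (h3.cm h1).2, h, pr_shD])
  refine ⟨χ, ?_⟩
  by_contra hne
  obtain ⟨w, -, hw⟩ := self_lie hb0 χ
  obtain ⟨w', -, hw'⟩ := self_lie hb0 (X * χ)
  obtain ⟨g', h4, h5⟩ := key (u - aeval (shD F Z ^ 2) χ b') (z - w) (z' - w')
    (pr0_lie (sub_mem hu (sq_mem_lie hb0 χ)))
    (by rw [cm_sub_left, h, hw, map_sub])
    (by rw [map_sub, map_sub, cm_sub_left, h', sq_aeval, hw', map_sub]) (sub_ne_zero.2 hne)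
  refine h5 ?_
  rw [← h4.2, map_sub, h3.2, hχ, ← expand_aeval, pr_aeval, h1.2, sub_self]

end Pool.Agent.P.MP_5be460_lc.G
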