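import Mathlib

namespace Pool.Agent.P.MP_5be460_lc.G

open Polynomial

variable {k : Type} [Field k]

/-- the Lucas sequence. -/
def luc {R : Type} [CommRing R] (w : R) : ℕ → R
  | 0 => 0
  | 1 => 1
  | n + 2 => w * luc w (n + 1) - luc w n

lemma luc_eq {R : Type} [CommRing R] (w : R) (n : ℕ) :
    luc w n * luc w n + luc w (n + 1) * luc w (n + 1) = 1 + w * luc w n * luc w (n + 1) := by
  induction n with
  | zero => simp [luc]
  | succ n ih => rw [luc]; linear_combination ih

lemma luc_dickson (w : k[X]) (n : ℕ) :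
    (dickson 1 (1 : k) n).comp w = 2 * luc w (n + 1) - w * luc w n := by
  induction n using Nat.twoStepInduction with
  | zero => simp [luc]; norm_num
  | one => simp [luc]; ring
  | more n h1 h2 =>
    rw [dickson_add_two, sub_comp, mul_comp, mul_comp, h1, h2, X_comp, C_comp, C_1]
    simp only [luc]
    ring

lemma luc_descent (w : k[X]) (N : ℕ) : ∀ x y : k[X], y.natDegree < N →
    (x = 0 ∨ x.natDegree < y.natDegree) → x * x + y * y = 1 + w * x * y →
    ∃ (n : ℕ) (ε : k[X]), (ε = 1 ∨ ε = -1) ∧ x = ε * luc w n ∧ y = ε * luc w (n + 1) := by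
  induction N with
  | zero => intro _ _ h; omega
  | succ N ih =>
    intro x y hN h1 h2
    by_cases hx : x = 0
    · subst hx
      refine ⟨0, y, mul_self_eq_one_iff.1 (by linear_combination h2), by simp [luc], by simp [luc]⟩
    have h3 := h1.resolve_left hx
    have h4 : y * (w * x - y) = x * x - 1 := by linear_combination -h2
    obtain ⟨n, ε, h5, h6, h7⟩ := ih (w * x - y) x (by omega) (by
      by_cases h5 : w * x - y = 0
      · exact Or.inl h5
      · have hy : y ≠ 0 := by rintro rfl; simp at h3
        have h6 := congrArg natDegree h4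
        rw [natDegree_mul hy h5] at h6
        have h7 : (x * x - 1).natDegree ≤ x.natDegree + x.natDegree :=
          (natDegree_sub_le _ _).trans (max_le natDegree_mul_le (by simp))
        right
        omega) (by linear_combination h2)
    refine ⟨n + 1, ε, h5, h7, ?_⟩
    rw [luc]
    linear_combination w * h7 - h6

/-- `v` is a trace of a unit of norm one. -/
def Dk {R : Type} [CommRing R] (w v : R) : Prop :=
  ∃ x y, x * x + y * y = 1 + w * x * y ∧ v + w * x = y + y

lemma dk_dickson (w : k[X]) (n : ℕ) : Dk w ((dickson 1 (1 : k) n).comp w) :=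
  ⟨_, _, luc_eq w n, by rw [luc_dickson]; ring⟩

lemma Dk.exists {w v : k[X]} (hw : 0 < w.natDegree) (h : Dk w v) :
    ∃ (n : ℕ) (ε : k), (ε = 1 ∨ ε = -1) ∧ v = C ε * (dickson 1 (1 : k) n).comp w := by
  obtain ⟨x, y, h1, h2⟩ := h
  have key : ∀ (n : ℕ) (ε : k[X]), (ε = 1 ∨ ε = -1) → v = ε * (dickson 1 (1 : k) n).comp w →
      ∃ (n : ℕ) (ε : k), (ε = 1 ∨ ε = -1) ∧ v = C ε * (dickson 1 (1 : k) n).comp w := by
    rintro n _ (rfl | rfl) h
    exacts [⟨n, 1, Or.inl rfl, by simpa using h⟩, ⟨n, -1, Or.inr rfl, by simpa using h⟩]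
  by_cases h3 : x = 0 ∨ x.natDegree < y.natDegree
  · obtain ⟨n, ε, h4, rfl, rfl⟩ := luc_descent w _ x y (Nat.lt_succ_self _) h3 h1
    exact key n ε h4 (by rw [luc_dickson]; linear_combination h2)
  by_cases h4 : y = 0 ∨ y.natDegree < x.natDegree
  · obtain ⟨n, ε, h5, rfl, rfl⟩ := luc_descent w _ y x (Nat.lt_succ_self _) h4
      (by linear_combination h1)
    refine key (n + 1) (-ε) (by rcases h5 with rfl | rfl <;> simp) ?_
    rw [luc_dickson, luc]
    linear_combination h2
  exfalso
  push Not at h3 h4
  have hw0 : w ≠ 0 := by rintro rfl; simp at hw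
  have h5 : (w * x * y).natDegree ≤ x.natDegree + y.natDegree := by
    have h6 : w * x * y = x * x + y * y - 1 := by linear_combination -h1
    rw [h6]
    refine (natDegree_sub_le _ _).trans (max_le ((natDegree_add_le _ _).trans (max_le
      (natDegree_mul_le.trans ?_) (natDegree_mul_le.trans ?_))) (by simp)) <;> omega
  rw [natDegree_mul (mul_ne_zero hw0 h3.1) h4.1, natDegree_mul hw0 h3.1] at h5
  omega

lemma dickson_tail (n : ℕ) : (dickson 1 (1 : k) (n + 2) - X ^ (n + 2)).natDegree ≤ n ∧
    (dickson 1 (1 : k) (n + 1)).natDegree ≤ n + 1 := by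
  induction n with
  | zero =>
    refine ⟨?_, by simp⟩
    have h : dickson 1 (1 : k) 2 - X ^ 2 = C (-2) := by
      rw [dickson_two, map_neg, map_ofNat]; simp; norm_num
    rw [h, natDegree_C]
  | succ n ih =>
    constructor
    · have h : dickson 1 (1 : k) (n + 1 + 2) - X ^ (n + 1 + 2) =
          X * (dickson 1 (1 : k) (n + 2) - X ^ (n + 2)) - dickson 1 (1 : k) (n + 1) := by
        rw [dickson_add_two, C_1]; ring
      rw [h]
      refine (natDegree_sub_le _ _).trans (max_le (natDegree_mul_le.trans ?_) ih.2)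
      have := ih.1
      rw [natDegree_X]
      omega
    · rw [← sub_add_cancel (dickson 1 (1 : k) (n + 1 + 1)) (X ^ (n + 2))]
      exact (natDegree_add_le _ _).trans (max_le (ih.1.trans (by omega)) (by simp))

lemma dickson_monic (n : ℕ) : IsMonicOfDegree (dickson 1 (1 : k) (n + 1)) (n + 1) := by
  cases n with
  | zero => simpa using isMonicOfDegree_X k
  | succ n =>
    rw [← add_sub_cancel (X ^ (n + 2)) (dickson 1 (1 : k) (n + 1 + 1))]
    exact (isMonicOfDegree_X_pow k (n + 2)).add_right ((dickson_tail n).1.trans_lt (by omega))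

lemma dickson_shift (p : ℕ) [hp : Fact p.Prime] [CharP k p] (n : ℕ) {ε : k} (hε : ε = 1 ∨ ε = -1)
    (h : C ε * dickson 1 (1 : k) n + 1 = C ε * (dickson 1 (1 : k) n).comp (X + 1)) :
    ∃ s, C ε * dickson 1 (1 : k) n = X ^ p ^ s := by
  have hε0 : ε ≠ 0 := by rcases hε with rfl | rfl <;> simp
  induction n using Nat.strong_induction_on with
  | _ n ih =>
    match n, ih, h with
    | 0, _, h => simp at h
    | 1, _, h =>
      refine ⟨0, ?_⟩
      have h1 := congrArg (eval 0) h
      simp at h1
      simp [← h1]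
    | m + 2, ih, h =>
      have h1 := (dickson_tail (k := k) m).1
      obtain ⟨E, hE⟩ : ∃ E, E = dickson 1 (1 : k) (m + 2) - X ^ (m + 2) := ⟨_, rfl⟩
      rw [← hE] at h1
      have h2 : dickson 1 (1 : k) (m + 2) = X ^ (m + 2) + E := by rw [hE]; ring
      have h3 : (E.comp (X + 1)).natDegree ≤ m := by
        refine natDegree_comp_le.trans ?_
        rw [← C_1, natDegree_X_add_C, mul_one]
        exact h1
      have h4 := congrArg (fun P => coeff P (m + 1)) h
      simp only [h2, add_comp, pow_comp, X_comp, coeff_add, coeff_C_mul, coeff_X_add_one_pow,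
        coeff_X_pow, coeff_one, coeff_eq_zero_of_natDegree_lt (h1.trans_lt (Nat.lt_succ_self m)),
        coeff_eq_zero_of_natDegree_lt (h3.trans_lt (Nat.lt_succ_self m)),
        Nat.choose_succ_self_right] at h4
      rw [if_neg (by omega), if_neg (by omega)] at h4
      have h5 : ((m + 2 : ℕ) : k) = 0 := by
        refine (mul_eq_zero.1 ?_).resolve_left hε0
        linear_combination -h4
      obtain ⟨j, hj⟩ := (CharP.cast_eq_zero_iff k p _).1 h5
      have h6 : C ε ^ p = C ε := by
        rcases hε with rfl | rfl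
        · simp
        · rw [map_neg, map_one, neg_one_pow_char]
      have h7 : dickson 1 (1 : k) (m + 2) = dickson 1 (1 : k) j ^ p := by
        rw [hj, dickson_one_one_mul, dickson_one_one_charP, pow_comp, X_comp]
      have hj0 : 0 < j := Nat.pos_of_ne_zero (by rintro rfl; omega)
      obtain ⟨s, hs⟩ := ih j (by have := hp.out.two_le; nlinarith) (by
        apply frobenius_inj k[X] p
        rw [frobenius_def, frobenius_def, add_pow_char, mul_pow, mul_pow, h6, one_pow, ← h7, h,
          h7, pow_comp])
      exact ⟨s + 1, by rw [pow_succ, pow_mul, ← hs, mul_pow, h6, h7]⟩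

/-- the existential definition of the Frobenius powers. -/
def Frob {R : Type} [CommRing R] (w v : R) : Prop :=
  Dk w v ∧ Dk (w + 1) (v + 1) ∧ ∃ c, v = w * c

lemma frob_iff (p : ℕ) [hp : Fact p.Prime] [CharP k p] {w v : k[X]} (hw : 0 < w.natDegree) :
    Frob w v ↔ ∃ s, v = w ^ p ^ s := by
  constructor
  · rintro ⟨h1, h2, c, h3⟩
    obtain ⟨n, ε, hε, rfl⟩ := h1.exists hw
    obtain ⟨l, δ, hδ, h4⟩ := h2.exists (by rwa [← C_1, natDegree_add_C])
    have hε0 : ε ≠ 0 := by rcases hε with rfl | rfl <;> simp
    have hδ0 : δ ≠ 0 := by rcases hδ with rfl | rfl <;> simp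
    have h5 : C ε * dickson 1 (1 : k) n + 1 = C δ * (dickson 1 (1 : k) l).comp (X + 1) := by
      rw [← sub_eq_zero]
      refine (comp_eq_zero_iff.1 (?_ : Polynomial.comp _ w = 0)).resolve_right fun h => ?_
      · simp only [sub_comp, add_comp, mul_comp, C_comp, one_comp, comp_assoc, X_comp, h4,
          sub_self]
      · rw [h.2, natDegree_C] at hw
        omega
    have hX : ∀ j, IsMonicOfDegree ((dickson 1 (1 : k) (j + 1)).comp (X + 1)) (j + 1) := fun j => by
      simpa using (dickson_monic (k := k) j).comp one_ne_zero (isMonicOfDegree_X_add_one 1)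
    have h0 : dickson 1 (1 : k) 0 = C 2 := by rw [map_ofNat]; simp; norm_num
    have hd := congrArg natDegree h5
    rw [← C_1, natDegree_add_C, natDegree_C_mul hε0, natDegree_C_mul hδ0, C_1] at hd
    suffices h : ∃ s, C ε * dickson 1 (1 : k) n = X ^ p ^ s by
      obtain ⟨s, hs⟩ := h
      exact ⟨s, by simpa using congrArg (comp · w) hs⟩
    match n, l with
    | 0, 0 =>
      exfalso
      rw [h0, C_comp, ← map_mul] at h3
      rw [h0, C_comp] at h5
      have h6 : c = 0 := by
        by_contra h6
        have h7 := congrArg natDegree h3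
        rw [natDegree_C, natDegree_mul (by rintro rfl; simp at hw) h6] at h7
        omega
      rw [h6, mul_zero, C_eq_zero, mul_eq_zero] at h3
      rw [h3.resolve_left hε0] at h5
      simp at h5
    | 0, l + 1 => rw [h0, natDegree_C, (hX l).natDegree_eq] at hd; omega
    | n + 1, 0 => rw [h0, C_comp, natDegree_C, (dickson_monic n).natDegree_eq] at hd; omega
    | n + 1, l + 1 =>
      rw [(dickson_monic n).natDegree_eq, (hX l).natDegree_eq] at hd
      obtain rfl : n = l := by omega
      have h6 := congrArg (fun P => coeff P (n + 1)) h5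
      have h7 := (dickson_monic (k := k) n).monic.coeff_natDegree
      have h8 := (hX n).monic.coeff_natDegree
      rw [(dickson_monic n).natDegree_eq] at h7
      rw [(hX n).natDegree_eq] at h8
      simp only [coeff_add, coeff_C_mul, h7, h8, coeff_one, mul_one] at h6
      rw [if_neg (by omega), add_zero] at h6
      subst h6
      exact dickson_shift p _ hε h5
  · rintro ⟨s, rfl⟩
    have h1 : dickson 1 (1 : k) (p ^ s) = X ^ p ^ s := by
      induction s with
      | zero => simp
      | succ s ih =>
        rw [pow_succ, dickson_one_one_mul, ih, dickson_one_one_charP, pow_comp, X_comp,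
          ← pow_mul, mul_comm]
    have h2 := dk_dickson w (p ^ s)
    have h3 := dk_dickson (w + 1) (p ^ s)
    rw [h1, pow_comp, X_comp] at h2 h3
    rw [add_pow_char_pow, one_pow] at h3
    exact ⟨h2, h3, dvd_pow_self w (pow_pos hp.out.pos s).ne'⟩

end Pool.Agent.P.MP_5be460_lc.G
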