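import Pool.Agent.P.MP_5be460_lc.Pell
import Pool.Agent.P.MP_5be460_lc.Defs
import Pool.Agent.Lib.MRDP.Basic
import Pool.Agent.Lib.PrimrecProp.Basic

namespace Pool.Agent.P.MP_5be460_lc

open Finset

set_option linter.unusedSectionVars false

section definable

variable {F L : Type} [Field F] [LieRing L] [LieAlgebra F L]

/-- functions given by terms of the field sort. -/
def TR (f : (ℕ → F) → F) : Prop := ∃ t : RTerm, ∀ ρ, t.value ρ = f ρ

/-- functions given by terms of the algebra sort. -/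
def TL (g : (ℕ → F) → (ℕ → L) → L) : Prop := ∃ t : LTerm, ∀ ρ η, t.value ρ η = g ρ η

/-- relations given by quantifier-free formulas. -/
def QF (P : (ℕ → F) → (ℕ → L) → Prop) : Prop := ∃ φ : LForm, ∀ ρ η, φ.Holds ρ η ↔ P ρ η

lemma TR.var (n : ℕ) : TR fun ρ : ℕ → F => ρ n := ⟨.var n, fun _ => rfl⟩
lemma TR.zero : TR fun _ : ℕ → F => 0 := ⟨.zero, fun _ => rfl⟩
lemma TR.one : TR fun _ : ℕ → F => 1 := ⟨.one, fun _ => rfl⟩
lemma TR.add {f g : (ℕ → F) → F} (hf : TR f) (hg : TR g) : TR fun ρ => f ρ + g ρ :=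
  let ⟨s, hs⟩ := hf; let ⟨t, ht⟩ := hg; ⟨.add s t, fun ρ => by beta_reduce; rw [← hs, ← ht]; rfl⟩
lemma TR.mul {f g : (ℕ → F) → F} (hf : TR f) (hg : TR g) : TR fun ρ => f ρ * g ρ :=
  let ⟨s, hs⟩ := hf; let ⟨t, ht⟩ := hg; ⟨.mul s t, fun ρ => by beta_reduce; rw [← hs, ← ht]; rfl⟩
lemma TR.nat (n : ℕ) : TR fun _ : ℕ → F => (n : F) := by
  induction n with
  | zero => simpa using TR.zero
  | succ n ih => simpa using ih.add TR.one

lemma TL.var (n : ℕ) : TL fun (_ : ℕ → F) (η : ℕ → L) => η n := ⟨.var n, fun _ _ => rfl⟩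
lemma TL.zero : TL fun (_ : ℕ → F) (_ : ℕ → L) => 0 := ⟨.zero, fun _ _ => rfl⟩
lemma TL.add {f g : (ℕ → F) → (ℕ → L) → L} (hf : TL f) (hg : TL g) :
    TL fun ρ η => f ρ η + g ρ η :=
  let ⟨s, hs⟩ := hf; let ⟨t, ht⟩ := hg; ⟨.add s t, fun ρ η => by beta_reduce; rw [← hs, ← ht]; rfl⟩
lemma TL.lie {f g : (ℕ → F) → (ℕ → L) → L} (hf : TL f) (hg : TL g) :
    TL fun ρ η => ⁅f ρ η, g ρ η⁆ :=
  let ⟨s, hs⟩ := hf; let ⟨t, ht⟩ := hg; ⟨.lie s t, fun ρ η => by beta_reduce; rw [← hs, ← ht]; rfl⟩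
lemma TL.smul {f : (ℕ → F) → F} {g : (ℕ → F) → (ℕ → L) → L} (hf : TR f) (hg : TL g) :
    TL fun ρ η => f ρ • g ρ η :=
  let ⟨s, hs⟩ := hf; let ⟨t, ht⟩ := hg; ⟨.smul s t, fun ρ η => by beta_reduce; rw [← hs, ← ht]; rfl⟩

lemma QF.eqR {f g : (ℕ → F) → F} (hf : TR f) (hg : TR g) :
    QF fun ρ (_ : ℕ → L) => f ρ = g ρ :=
  let ⟨s, hs⟩ := hf; let ⟨t, ht⟩ := hg; ⟨.eqR s t, fun ρ η => by beta_reduce; rw [← hs, ← ht]; rfl⟩
lemma QF.eqL {f g : (ℕ → F) → (ℕ → L) → L} (hf : TL f) (hg : TL g) :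
    QF fun ρ η => f ρ η = g ρ η :=
  let ⟨s, hs⟩ := hf; let ⟨t, ht⟩ := hg; ⟨.eqL s t, fun ρ η => by beta_reduce; rw [← hs, ← ht]; rfl⟩
lemma QF.not {P : (ℕ → F) → (ℕ → L) → Prop} (h : QF P) : QF fun ρ η => ¬P ρ η :=
  let ⟨s, hs⟩ := h; ⟨.not s, fun ρ η => by beta_reduce; rw [← hs]; rfl⟩
lemma QF.and {P Q : (ℕ → F) → (ℕ → L) → Prop} (h : QF P) (h' : QF Q) :
    QF fun ρ η => P ρ η ∧ Q ρ η :=
  let ⟨s, hs⟩ := h; let ⟨t, ht⟩ := h'; ⟨.and s t, fun ρ η => by beta_reduce; rw [← hs, ← ht]; rfl⟩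
lemma QF.congr {P Q : (ℕ → F) → (ℕ → L) → Prop} (h : QF P) (H : ∀ ρ η, P ρ η ↔ Q ρ η) : QF Q :=
  let ⟨s, hs⟩ := h; ⟨s, fun ρ η => (hs ρ η).trans (H ρ η)⟩
lemma QF.forall_lt {P : ℕ → (ℕ → F) → (ℕ → L) → Prop} (h : ∀ i, QF (P i)) (N : ℕ) :
    QF fun ρ η => ∀ i < N, P i ρ η := by
  induction N with
  | zero => exact (QF.eqR TR.zero TR.zero).congr (by simp)
  | succ N ih => exact (ih.and (h N)).congr fun ρ η => Nat.forall_lt_succ_right.symm

lemma QF.evenBody {a b u v z z' : (ℕ → F) → (ℕ → L) → L} {α : (ℕ → F) → F} (ha : TL a) (hb : TL b)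
    (hu : TL u) (hα : TR α) (hv : TL v) (hz : TL z) (hz' : TL z') :
    QF fun ρ η => EvenBody (a ρ η) (b ρ η) (u ρ η) (α ρ) (v ρ η) (z ρ η) (z' ρ η) :=
  (QF.eqL hu ((TL.smul hα hb).add (ha.lie hv))).and ((QF.eqL (hu.lie hb) (ha.lie hz)).and
    (QF.eqL ((ha.lie (ha.lie hu)).lie hb) (ha.lie hz')))

lemma QF.intBody {a b : (ℕ → F) → (ℕ → L) → L} {c : (ℕ → F) → F} {α : (ℕ → F) → ℕ → F}
    {v : (ℕ → F) → (ℕ → L) → ℕ → L} (ha : TL a) (hb : TL b) (hc : TR c)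
    (hα : ∀ i, TR fun ρ => α ρ i) (hv : ∀ i, TL fun ρ η => v ρ η i) :
    QF fun ρ η => IntBody (a ρ η) (b ρ η) (c ρ) (α ρ) (v ρ η) :=
  (QF.evenBody ha hb (hv 0) (hα 0) (hv 3) (hv 4) (hv 5)).and
    ((QF.evenBody ha hb (hv 1) (hα 1) (hv 6) (hv 7) (hv 8)).and
    ((QF.evenBody ha hb (hv 2) (hα 2) (hv 9) (hv 10) (hv 11)).and
    ((QF.eqL (((hv 0).lie (ha.lie (hv 0))).add ((hv 1).lie (ha.lie (hv 1))))
      ((((hv 1).lie (ha.lie (ha.lie (ha.lie (ha.lie (ha.lie (hv 1))))))).add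
        (hb.lie (ha.lie hb))).add (ha.lie (hv 12)))).and
      (QF.eqL ((hv 1).add (hv 2)) ((TL.smul hc hb).add (ha.lie (ha.lie (hv 2))))))))

lemma isPoly_terms (σ : ℕ → ℕ) {f : (ℕ → ℕ) → ℤ} (hf : IsPoly f) :
    ∃ (N : ℕ) (s t : (ℕ → F) → F), TR s ∧ TR t ∧ ∀ (x : ℕ → ℕ) (ρ : ℕ → F),
      (∀ i < N, ρ (σ i) = x i) → (f x : F) = s ρ - t ρ := by
  induction hf with
  | proj i => exact ⟨i + 1, _, _, TR.var (σ i), TR.zero, fun x ρ h => by simp [h i i.lt_succ_self]⟩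
  | const n =>
    exact ⟨0, _, _, TR.nat n.toNat, TR.nat (-n).toNat, fun x ρ _ => by
      rw [← Int.cast_natCast, ← Int.cast_natCast (-n).toNat, ← Int.cast_sub,
        Int.toNat_sub_toNat_neg]⟩
  | sub _ _ h1 h2 =>
    obtain ⟨N, s, t, hs, ht, h1⟩ := h1
    obtain ⟨N', s', t', hs', ht', h2⟩ := h2
    refine ⟨max N N', _, _, hs.add ht', ht.add hs', fun x ρ h => ?_⟩
    rw [Int.cast_sub, h1 x ρ fun i hi => h i (lt_max_of_lt_left hi),
      h2 x ρ fun i hi => h i (lt_max_of_lt_right hi)]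
    ring
  | mul _ _ h1 h2 =>
    obtain ⟨N, s, t, hs, ht, h1⟩ := h1
    obtain ⟨N', s', t', hs', ht', h2⟩ := h2
    refine ⟨max N N', _, _, (hs.mul hs').add (ht.mul ht'), (hs.mul ht').add (ht.mul hs'),
      fun x ρ h => ?_⟩
    rw [Int.cast_mul, h1 x ρ fun i hi => h i (lt_max_of_lt_left hi),
      h2 x ρ fun i hi => h i (lt_max_of_lt_right hi)]
    ring

end definable

/-- index of a variable. -/
def ix (k i j : ℕ) : ℕ := Nat.pair k (Nat.pair i j)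

/-- an assignment from a table. -/
def unix {A : Type} (W : ℕ → ℕ → ℕ → A) (m : ℕ) : A :=
  W m.unpair.1 m.unpair.2.unpair.1 m.unpair.2.unpair.2

lemma unix_ix {A : Type} (W : ℕ → ℕ → ℕ → A) (k i j : ℕ) : unix W (ix k i j) = W k i j := by
  simp [unix, ix]

theorem exists_formula (F : Type) [Field F] [CharZero F] [IsAlgClosed F] (Y : Type) [Nontrivial Y]
    {p : ℕ → Prop} (hp : REPred p) : ∃ φ : LForm, ∀ n : ℕ,
      p n ↔ ∃ (ρ : ℕ → F) (η : ℕ → FreeLieAlgebra F Y), ρ 0 = n ∧ φ.Holds ρ η := by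
  obtain ⟨P, hP⟩ := Pool.Agent.Lib.MRDP.re_poly hp
  obtain ⟨N, s, t, hs, ht, hst⟩ := isPoly_terms (F := F) (fun i => ix 0 i 0) P.isPoly
  have ha : TL fun (_ : ℕ → F) (η : ℕ → FreeLieAlgebra F Y) => η (ix 0 0 0) := TL.var _
  have hy : TL fun (_ : ℕ → F) (η : ℕ → FreeLieAlgebra F Y) => η (ix 1 0 0) := TL.var _
  obtain ⟨φ, hφ⟩ := (QF.eqL (ha.lie hy) TL.zero).not.and ((QF.eqR hs ht).and
    (QF.forall_lt (fun i => (QF.eqR (TR.var (ix 0 i 0))
      (((((TR.var (ix 1 i 0)).mul (TR.var (ix 1 i 0))).add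
        ((TR.var (ix 1 i 1)).mul (TR.var (ix 1 i 1)))).add
        ((TR.var (ix 1 i 2)).mul (TR.var (ix 1 i 2)))).add
        ((TR.var (ix 1 i 3)).mul (TR.var (ix 1 i 3))))).and
      (QF.forall_lt (fun j => QF.intBody (α := fun ρ k => ρ (ix (k + 2) i j))
        (v := fun _ η k => η (ix (k + 2) i j)) ha ((ha.lie hy).lie (ha.lie (ha.lie hy)))
        (TR.var (ix 1 i j)) (fun k => TR.var _) fun k => TL.var _) 4)) (N + 1)))
  refine ⟨φ, fun n => (hP n).trans ⟨?_, ?_⟩⟩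
  · rintro ⟨x, rfl, hx⟩
    obtain ⟨a, y, hay⟩ := exists_lie_ne (F := F) (Y := Y)
    choose c₀ c₁ c₂ c₃ hc using fun i => Nat.sum_four_squares (x i)
    let c : ℕ → ℕ → ℕ := fun i j => [c₀ i, c₁ i, c₂ i, c₃ i].getD j 0
    choose α v h using fun i j => intBody_exists (F := F) a ⁅⁅a, y⁆, ⁅a, ⁅a, y⁆⁆⁆ (c i j : ℤ)
    let W : ℕ → ℕ → ℕ → F := fun k i j => match k with
      | 0 => x i
      | 1 => c i j
      | k + 2 => α i j k
    let V : ℕ → ℕ → ℕ → FreeLieAlgebra F Y := fun k i j => match k with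
      | 0 => a
      | 1 => y
      | k + 2 => v i j k
    refine ⟨unix W, unix V, unix_ix W 0 0 0, (hφ _ _).2 ⟨?_, ?_, fun i _ => ⟨?_, fun j _ => ?_⟩⟩⟩
    · simpa only [unix_ix] using hay
    · have h1 := hst x (unix W) fun i _ => unix_ix W 0 i 0
      rw [hx, Int.cast_zero] at h1
      exact sub_eq_zero.1 h1.symm
    · simp only [unix_ix]
      change (x i : F) = c₀ i * c₀ i + c₁ i * c₁ i + c₂ i * c₂ i + c₃ i * c₃ i
      rw [← hc i]
      push_cast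
      ring
    · simp only [unix_ix]
      simpa using h i j
  · rintro ⟨ρ, η, h0, h⟩
    obtain ⟨h1, h2, h3⟩ := (hφ _ _).1 h
    have h4 : ∀ i, ∃ m : ℕ, i < N + 1 → ρ (ix 0 i 0) = m := by
      intro i
      by_cases hi : i < N + 1
      · obtain ⟨h5, h6⟩ := h3 i hi
        obtain ⟨k₀, e₀⟩ := intBody_sound h1 (h6 0 (by omega))
        obtain ⟨k₁, e₁⟩ := intBody_sound h1 (h6 1 (by omega))
        obtain ⟨k₂, e₂⟩ := intBody_sound h1 (h6 2 (by omega))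
        obtain ⟨k₃, e₃⟩ := intBody_sound h1 (h6 3 (by omega))
        obtain ⟨m, hm⟩ := Int.eq_ofNat_of_zero_le
          (by positivity : 0 ≤ k₀ ^ 2 + k₁ ^ 2 + k₂ ^ 2 + k₃ ^ 2)
        refine ⟨m, fun _ => ?_⟩
        rw [h5, e₀, e₁, e₂, e₃, ← Int.cast_natCast, ← hm]
        push_cast
        ring
      · exact ⟨0, fun h => absurd h hi⟩
    choose x hx using h4
    refine ⟨x, ?_, ?_⟩
    · have h5 := hx 0 N.succ_pos
      have h6 : ix 0 0 0 = 0 := rfl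
      rw [h6, h0] at h5
      exact_mod_cast h5.symm
    · have h5 := hst x ρ fun i hi => hx i (by omega)
      rw [h2, sub_self] at h5
      exact_mod_cast h5

/-- the numeral. -/
def numeral : ℕ → RTerm
  | 0 => .zero
  | n + 1 => .add .one (numeral n)

lemma numeral_value {F : Type} [Field F] (ρ : ℕ → F) (n : ℕ) : (numeral n).value ρ = n := by
  induction n with
  | zero => exact Nat.cast_zero.symm
  | succ n ih =>
    have h : (numeral (n + 1)).value ρ = 1 + (numeral n).value ρ := rfl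
    rw [h, ih, Nat.cast_succ, add_comm]

lemma numeral_string (n : ℕ) :
    (numeral n).string = (List.range n).foldr (fun _ l => 2 :: 1 :: l) [0] := by
  have h1 : ∀ l : List ℕ, (numeral l.length).string = l.foldr (fun _ l => 2 :: 1 :: l) [0] := by
    intro l
    induction l with
    | nil => rfl
    | cons a l ih => rw [List.foldr_cons, ← ih]; rfl
  simpa using h1 (List.range n)

open Pool.Agent.Lib.PrimrecProp in
theorem lie_undecidable (F : Type) [Field F] [CharZero F] [IsAlgClosed F] (Y : Type)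
    [Nontrivial Y] : ¬LieUnivDecidable F (FreeLieAlgebra F Y) := by
  rintro ⟨f, hf, h⟩
  have h1 : REPred fun n : ℕ => ((Denumerable.ofNat Nat.Partrec.Code n).eval 0).Dom :=
    (Nat.Partrec.Code.eval_part.comp (Computable.ofNat _) (Computable.const 0)).dom_re
  obtain ⟨φ, hφ⟩ := exists_formula F Y h1
  have h2 : Primrec fun n : ℕ => 10 :: 11 :: 8 :: 12 ::
      ((List.range n).foldr (fun _ l => 2 :: 1 :: l) [0] ++ φ.string) := by fun_prop
  refine ComputablePred.halting_problem 0 (ComputablePred.computable_iff.2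
    ⟨_, Primrec.not.to_comp.comp (hf.comp (h2.to_comp.comp Computable.encode)), ?_⟩)
  funext c
  have h3 := hφ (Encodable.encode c)
  rw [Denumerable.ofNat_encode] at h3
  have h4 := h (.not (.and (.eqR (.var 0) (numeral (Encodable.encode c))) φ))
  have h5 : (LForm.not (.and (.eqR (.var 0) (numeral (Encodable.encode c))) φ)).string =
      10 :: 11 :: 8 :: 12 :: ((numeral (Encodable.encode c)).string ++ φ.string) := rfl
  rw [h5, numeral_string] at h4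
  rw [h3, Bool.not_eq_true', ← Bool.not_eq_true, h4]
  have h6 : ∀ (ρ : ℕ → F) (η : ℕ → FreeLieAlgebra F Y),
      (LForm.not (.and (.eqR (.var 0) (numeral (Encodable.encode c))) φ)).Holds ρ η ↔
        ¬(ρ 0 = (numeral (Encodable.encode c)).value ρ ∧ φ.Holds ρ η) := fun _ _ => Iff.rfl
  simp only [h6, numeral_value, not_forall, not_not]

end Pool.Agent.P.MP_5be460_lc
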