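import Pool.Agent.P.MP_5be460_lc.GBase
import Pool.Agent.P.MP_5be460_lc.GDenef
import Pool.Agent.P.MP_5be460_lc.Undec

namespace Pool.Agent.P.MP_5be460_lc.G

open Polynomial

set_option linter.unusedSectionVars false

variable {F L : Type} [Field F] [LieRing L] [LieAlgebra F L]

lemma evenBody_aeval (a b : L) (χ : F[X]) :
    ∃ (α : F) (v z z' : L), EvenBody a b (aeval (LieAlgebra.ad F L a ^ 2) χ b) α v z z' := by
  obtain ⟨t, ht⟩ := lie_self_aeval a b χ
  obtain ⟨t', ht'⟩ := lie_self_aeval a b (X * χ)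
  rw [← sq_aeval] at ht'
  refine ⟨χ.coeff 0, ⁅a, aeval (LieAlgebra.ad F L a ^ 2) χ.divX b⁆, t, t', ?_, ht, ht'⟩
  have h20 := sq_aeval (LieAlgebra.ad F L a) χ.divX b
  simp only [LieAlgebra.ad_apply] at h20
  conv_lhs => rw [← X_mul_divX_add χ, map_add, LinearMap.add_apply, ← h20, aeval_C,
    Module.algebraMap_end_apply, add_comm]

lemma lie_mul_aeval (a b : L) (φ ψ : F[X]) :
    ∃ z, ⁅aeval (LieAlgebra.ad F L a ^ 2) φ b, ⁅a, aeval (LieAlgebra.ad F L a ^ 2) ψ b⁆⁆ =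
      ⁅aeval (LieAlgebra.ad F L a ^ 2) (φ * ψ) b, ⁅a, b⁆⁆ + ⁅a, z⁆ := by
  obtain ⟨z, hz⟩ := lie_move_aeval a (aeval (LieAlgebra.ad F L a ^ 2) φ b) ⁅a, b⁆ ψ
  have h := aeval_sq_comm (LieAlgebra.ad F L a) ψ b
  simp only [LieAlgebra.ad_apply] at h
  refine ⟨-z, ?_⟩
  rw [h, mul_comm φ, map_mul, Module.End.mul_apply, hz, lie_neg, add_neg_cancel_right]

/-- the constraints saying that `u t` represents the value of the term `t`. -/
def Cons (a b : L) (u : RTerm → L) (α : RTerm → F) (w : ℕ → RTerm → L) : RTerm → Prop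
  | .var n => EvenBody a b (u (.var n)) (α (.var n)) (w 0 (.var n)) (w 1 (.var n)) (w 2 (.var n))
  | .zero => u .zero = 0
  | .one => u .one = b
  | .add s t => Cons a b u α w s ∧ Cons a b u α w t ∧ u (.add s t) = u s + u t
  | .mul s t => Cons a b u α w s ∧ Cons a b u α w t ∧
      EvenBody a b (u (.mul s t)) (α (.mul s t)) (w 0 (.mul s t)) (w 1 (.mul s t))
        (w 2 (.mul s t)) ∧ ⁅u s, ⁅a, u t⁆⁆ = ⁅u (.mul s t), ⁅a, b⁆⁆ + ⁅a, w 3 (.mul s t)⁆

/-- the constraints for all terms of a formula. -/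
def ConsF (a b : L) (u : RTerm → L) (α : RTerm → F) (w : ℕ → RTerm → L) : RForm → Prop
  | .eq s t => Cons a b u α w s ∧ Cons a b u α w t
  | .not φ => ConsF a b u α w φ
  | .and φ ψ => ConsF a b u α w φ ∧ ConsF a b u α w ψ

/-- the translated formula. -/
def Tr (u : RTerm → L) : RForm → Prop
  | .eq s t => u s = u t
  | .not φ => ¬Tr u φ
  | .and φ ψ => Tr u φ ∧ Tr u ψ

section qf

variable {a b : (ℕ → F) → (ℕ → L) → L} {u : (ℕ → F) → (ℕ → L) → RTerm → L}
  {α : (ℕ → F) → RTerm → F} {w : (ℕ → F) → (ℕ → L) → ℕ → RTerm → L} (ha : TL a) (hb : TL b)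
  (hu : ∀ t, TL fun ρ η => u ρ η t) (hα : ∀ t, TR fun ρ => α ρ t)
  (hw : ∀ i t, TL fun ρ η => w ρ η i t)

include ha hb hu hα hw

lemma qf_cons (t : RTerm) : QF fun ρ η => Cons (a ρ η) (b ρ η) (u ρ η) (α ρ) (w ρ η) t := by
  induction t with
  | var n => exact QF.evenBody ha hb (hu _) (hα _) (hw _ _) (hw _ _) (hw _ _)
  | zero => exact QF.eqL (hu _) TL.zero
  | one => exact QF.eqL (hu _) hb
  | add s t h h' => exact h.and (h'.and (QF.eqL (hu _) ((hu _).add (hu _))))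
  | mul s t h h' =>
    exact h.and (h'.and ((QF.evenBody ha hb (hu _) (hα _) (hw _ _) (hw _ _) (hw _ _)).and
      (QF.eqL ((hu _).lie (ha.lie (hu _))) (((hu _).lie (ha.lie hb)).add (ha.lie (hw _ _))))))

lemma qf_consF (φ : RForm) : QF fun ρ η => ConsF (a ρ η) (b ρ η) (u ρ η) (α ρ) (w ρ η) φ := by
  induction φ with
  | eq s t => exact (qf_cons ha hb hu hα hw s).and (qf_cons ha hb hu hα hw t)
  | not φ h => exact h
  | and φ ψ h h' => exact h.and h'

omit ha hb hα hw in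
lemma qf_tr (φ : RForm) : QF fun ρ η => Tr (u ρ η) φ := by
  induction φ with
  | eq s t => exact QF.eqL (hu _) (hu _)
  | not φ h => exact h.not
  | and φ ψ h h' => exact h.and h'

end qf

lemma exists_cons (a b : L) (v : ℕ → F[X]) : ∃ (α : RTerm → F) (w : ℕ → RTerm → L),
    ∀ φ, ConsF a b (fun t => aeval (LieAlgebra.ad F L a ^ 2) (valC v t) b) α w φ := by
  choose α w₀ w₁ w₂ h using fun t => evenBody_aeval a b (valC v t)
  have h1 : ∀ t : RTerm, ∃ z : L, ∀ s s', t = .mul s s' →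
      ⁅aeval (LieAlgebra.ad F L a ^ 2) (valC v s) b,
        ⁅a, aeval (LieAlgebra.ad F L a ^ 2) (valC v s') b⁆⁆ =
      ⁅aeval (LieAlgebra.ad F L a ^ 2) (valC v s * valC v s') b, ⁅a, b⁆⁆ + ⁅a, z⁆ := by
    intro t
    cases t with
    | mul s s' =>
      obtain ⟨z, hz⟩ := lie_mul_aeval a b (valC v s) (valC v s')
      exact ⟨z, fun _ _ h => by cases h; exact hz⟩
    | _ => exact ⟨0, fun _ _ h => by cases h⟩
  choose w₃ h₃ using h1
  have h2 : ∀ t, Cons a b (fun t => aeval (LieAlgebra.ad F L a ^ 2) (valC v t) b) α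
      (cns w₀ (cns w₁ (cns w₂ fun _ => w₃))) t := by
    intro t
    induction t with
    | var n => exact h _
    | zero => simp [Cons, valC]
    | one => simp [Cons, valC]
    | add s t hs ht => exact ⟨hs, ht, by simp [valC]⟩
    | mul s t hs ht => exact ⟨hs, ht, h _, h₃ _ s t rfl⟩
  refine ⟨α, cns w₀ (cns w₁ (cns w₂ fun _ => w₃)), fun φ => ?_⟩
  induction φ with
  | eq s t => exact ⟨h2 s, h2 t⟩
  | not φ h => exact h
  | and φ ψ h h' => exact ⟨h, h'⟩

section free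

variable {Y : Type} {a y : FreeLieAlgebra F Y} (hq : ⁅a, y⁆ ≠ 0)

include hq

lemma rep_inj {φ ψ : F[X]} (h : aeval (LieAlgebra.ad F _ a ^ 2) φ (bb a y) =
    aeval (LieAlgebra.ad F _ a ^ 2) ψ (bb a y)) : φ = ψ :=
  sub_eq_zero.1 (free_pairing (z := 0) hq (by
    rw [map_sub, LinearMap.sub_apply, h, sub_self, zero_lie, lie_zero]))

variable {u : RTerm → FreeLieAlgebra F Y} {α : RTerm → F} {w : ℕ → RTerm → FreeLieAlgebra F Y}
  {v : ℕ → F[X]} (hv : ∀ n, (∃ χ : F[X], u (.var n) = aeval (LieAlgebra.ad F _ a ^ 2) χ (bb a y)) →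
    u (.var n) = aeval (LieAlgebra.ad F _ a ^ 2) (v n) (bb a y))

include hv

lemma cons_sound {t : RTerm} (h : Cons a (bb a y) u α w t) :
    u t = aeval (LieAlgebra.ad F _ a ^ 2) (valC v t) (bb a y) := by
  induction t with
  | var n => exact hv n (free_even hq h.1 h.2.1 h.2.2)
  | zero => rw [h, valC, map_zero, LinearMap.zero_apply]
  | one => rw [h, valC, map_one, Module.End.one_apply]
  | add s t hs ht => rw [h.2.2, hs h.1, ht h.2.1, valC, map_add, LinearMap.add_apply]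
  | mul s t hs ht =>
    obtain ⟨h1, h2, h3, h4⟩ := h
    obtain ⟨χ, hχ⟩ := free_even hq h3.1 h3.2.1 h3.2.2
    obtain ⟨z, hz⟩ := lie_mul_aeval a (bb a y) (valC v s) (valC v t)
    rw [hs h1, ht h2, hz, hχ] at h4
    have h5 : valC v s * valC v t - χ = 0 := free_pairing (z := w 3 (.mul s t) - z) hq (by
      rw [map_sub, LinearMap.sub_apply, sub_lie, lie_sub, sub_eq_sub_iff_add_eq_add, h4, add_comm])
    rw [hχ, valC, sub_eq_zero.1 h5]

lemma tr_iff {φ : RForm} (h : ConsF a (bb a y) u α w φ) : Tr u φ ↔ HoldsC v φ := by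
  induction φ with
  | eq s t =>
    rw [Tr, HoldsC, cons_sound hq hv h.1, cons_sound hq hv h.2]
    exact ⟨rep_inj hq, fun h => by rw [h]⟩
  | not φ ih => rw [Tr, HoldsC, ih h]
  | and φ ψ ih ih' => rw [Tr, HoldsC, ih h.1, ih' h.2]

end free

/-- a code for terms. -/
def cd : RTerm → ℕ
  | .var n => Nat.pair 0 n
  | .zero => Nat.pair 1 0
  | .one => Nat.pair 2 0
  | .add s t => Nat.pair 3 (Nat.pair (cd s) (cd t))
  | .mul s t => Nat.pair 4 (Nat.pair (cd s) (cd t))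

lemma cd_inj : Function.Injective cd := by
  intro s
  induction s with
  | var n => intro t h; cases t <;> simp_all [cd, Nat.pair_eq_pair]
  | zero => intro t h; cases t <;> simp_all [cd, Nat.pair_eq_pair]
  | one => intro t h; cases t <;> simp_all [cd, Nat.pair_eq_pair]
  | add s s' h1 h2 =>
    intro t h
    cases t <;> simp only [cd, Nat.pair_eq_pair] at h <;> try omega
    rw [h1 h.2.1, h2 h.2.2]
  | mul s s' h1 h2 =>
    intro t h
    cases t <;> simp only [cd, Nat.pair_eq_pair] at h <;> try omega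
    rw [h1 h.2.1, h2 h.2.2]

lemma iterate_ad (a b : L) (n : ℕ) :
    (fun z => ⁅a, ⁅a, z⁆⁆)^[n] b = aeval (LieAlgebra.ad F L a ^ 2) (X ^ n : F[X]) b := by
  induction n with
  | zero => simp
  | succ n ih => rw [Function.iterate_succ_apply', ih, pow_succ' X, ← sq_aeval]; rfl

theorem exists_formula (F : Type) [Field F] (Y : Type) [Nontrivial Y] {p : ℕ → Prop}
    (hp : REPred p) : ∃ (φ : LForm) (t : LTerm) (m : ℕ), ∀ n : ℕ, p n ↔
      ∃ (ρ : ℕ → F) (η : ℕ → FreeLieAlgebra F Y),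
        η m = (fun z => ⁅η 0, ⁅η 0, z⁆⁆)^[n] (t.value ρ η) ∧ φ.Holds ρ η := by
  obtain ⟨θ, hθ⟩ := denef F hp
  have ha : TL fun (_ : ℕ → F) (η : ℕ → FreeLieAlgebra F Y) => η (ix 0 0 0) := TL.var _
  have hy : TL fun (_ : ℕ → F) (η : ℕ → FreeLieAlgebra F Y) => η (ix 1 0 0) := TL.var _
  have hb : TL fun (_ : ℕ → F) (η : ℕ → FreeLieAlgebra F Y) => bb (η (ix 0 0 0)) (η (ix 1 0 0)) :=
    (ha.lie (ha.lie hy)).lie ((ha.lie hy).lie (ha.lie (ha.lie hy)))
  have hu : ∀ t, TL fun (_ : ℕ → F) (η : ℕ → FreeLieAlgebra F Y) => η (ix 2 (cd t) 0) :=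
    fun _ => TL.var _
  obtain ⟨φ, hφ⟩ := (QF.eqL (ha.lie hy) TL.zero).not.and
    ((QF.eqL (hu (.var 0)) (ha.lie (ha.lie hb))).and
      ((qf_consF (u := fun _ η t => η (ix 2 (cd t) 0)) (α := fun ρ t => ρ (ix 0 (cd t) 0))
        (w := fun _ η i t => η (ix (i + 3) (cd t) 0)) ha hb hu (fun _ => TR.var _)
        (fun _ _ => TL.var _) θ).and (qf_tr (u := fun _ η t => η (ix 2 (cd t) 0)) hu θ)))
  obtain ⟨t, ht⟩ := hb
  have h0 : ix 0 0 0 = 0 := rfl
  refine ⟨φ, t, ix 2 (cd (.var 1)) 0, fun n => (hθ n).trans ⟨?_, ?_⟩⟩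
  · rintro ⟨v, h1, h2, h3⟩
    obtain ⟨a, y, hay⟩ := exists_lie_ne (F := F) (Y := Y)
    obtain ⟨α, w, hc⟩ := exists_cons a (bb a y) v
    have : Nonempty RTerm := ⟨.zero⟩
    have hi := Function.leftInverse_invFun cd_inj
    let V : ℕ → ℕ → ℕ → FreeLieAlgebra F Y := fun k i _ => match k with
      | 0 => a
      | 1 => y
      | 2 => aeval (LieAlgebra.ad F _ a ^ 2) (valC v (Function.invFun cd i)) (bb a y)
      | k + 3 => w k (Function.invFun cd i)
    refine ⟨unix fun _ i _ => α (Function.invFun cd i), unix V, ?_, (hφ _ _).2 ?_⟩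
    · rw [ht, ← h0]
      simp only [unix_ix, V, hi _, valC, h2]
      exact (iterate_ad _ _ n).symm
    · simp only [unix_ix, V, hi _]
      refine ⟨hay, ?_, hc θ, (tr_iff hay (fun _ _ => rfl) (hc θ)).2 h3⟩
      rw [valC, h1, aeval_X]
      rfl
  · rintro ⟨ρ, η, h1, h⟩
    obtain ⟨h2, h3, h4, h5⟩ := (hφ _ _).1 h
    rw [ht, ← h0, iterate_ad (F := F)] at h1
    have h6 : ∀ n, ∃ χ : F[X], (∃ χ' : F[X], η (ix 2 (cd (.var n)) 0) =
        aeval (LieAlgebra.ad F _ (η (ix 0 0 0)) ^ 2) χ' (bb (η (ix 0 0 0)) (η (ix 1 0 0)))) →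
        η (ix 2 (cd (.var n)) 0) =
        aeval (LieAlgebra.ad F _ (η (ix 0 0 0)) ^ 2) χ (bb (η (ix 0 0 0)) (η (ix 1 0 0))) :=
      fun n => (Classical.em _).elim (fun ⟨χ, h⟩ => ⟨χ, fun _ => h⟩) fun h => ⟨0, fun h' => absurd h' h⟩
    choose v hv using h6
    have h7 : η (ix 2 (cd (.var 0)) 0) = aeval (LieAlgebra.ad F _ (η (ix 0 0 0)) ^ 2) (X : F[X])
        (bb (η (ix 0 0 0)) (η (ix 1 0 0))) := by
      rw [h3, aeval_X]
      rfl
    exact ⟨v, rep_inj h2 ((hv 0 ⟨_, h7⟩).symm.trans h7), rep_inj h2 ((hv 1 ⟨_, h1⟩).symm.trans h1),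
      (tr_iff (u := fun t => η (ix 2 (cd t) 0)) h2 hv h4).1 h5⟩

/-- the numeral. -/
def numL (t : LTerm) : ℕ → LTerm
  | 0 => t
  | n + 1 => .lie (.var 0) (.lie (.var 0) (numL t n))

lemma numL_value (ρ : ℕ → F) (η : ℕ → L) (t : LTerm) (n : ℕ) :
    (numL t n).value ρ η = (fun z => ⁅η 0, ⁅η 0, z⁆⁆)^[n] (t.value ρ η) := by
  induction n with
  | zero => rfl
  | succ n ih => rw [Function.iterate_succ_apply', ← ih]; rfl

lemma numL_string (t : LTerm) (n : ℕ) :
    (numL t n).string = (List.range n).foldr (fun _ l => 6 :: 13 :: 6 :: 13 :: l) t.string := by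
  have h1 : ∀ l : List ℕ, (numL t l.length).string =
      l.foldr (fun _ l => 6 :: 13 :: 6 :: 13 :: l) t.string := by
    intro l
    induction l with
    | nil => rfl
    | cons a l ih => rw [List.foldr_cons, ← ih]; rfl
  simpa using h1 (List.range n)

open Pool.Agent.Lib.PrimrecProp in
theorem lie_undecidable (F : Type) [Field F] (Y : Type) [Nontrivial Y] :
    ¬LieUnivDecidable F (FreeLieAlgebra F Y) := by
  rintro ⟨f, hf, h⟩
  have h1 : REPred fun n : ℕ => ((Denumerable.ofNat Nat.Partrec.Code n).eval 0).Dom :=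
    (Nat.Partrec.Code.eval_part.comp (Computable.ofNat _) (Computable.const 0)).dom_re
  obtain ⟨φ, t, m, hφ⟩ := exists_formula F Y h1
  have h2 : Primrec fun n : ℕ => 10 :: 11 :: 9 :: (2 * m + 13) ::
      ((List.range n).foldr (fun _ l => 6 :: 13 :: 6 :: 13 :: l) t.string ++ φ.string) := by
    fun_prop
  refine ComputablePred.halting_problem 0 (ComputablePred.computable_iff.2
    ⟨_, Primrec.not.to_comp.comp (hf.comp (h2.to_comp.comp Computable.encode)), ?_⟩)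
  funext c
  have h3 := hφ (Encodable.encode c)
  rw [Denumerable.ofNat_encode] at h3
  have h4 := h (.not (.and (.eqL (.var m) (numL t (Encodable.encode c))) φ))
  have h5 : (LForm.not (.and (.eqL (.var m) (numL t (Encodable.encode c))) φ)).string =
      10 :: 11 :: 9 :: (2 * m + 13) :: ((numL t (Encodable.encode c)).string ++ φ.string) := rfl
  rw [h5, numL_string] at h4
  rw [h3, Bool.not_eq_true', ← Bool.not_eq_true, h4]
  have h6 : ∀ (ρ : ℕ → F) (η : ℕ → FreeLieAlgebra F Y),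
      (LForm.not (.and (.eqL (.var m) (numL t (Encodable.encode c))) φ)).Holds ρ η ↔
        ¬(η m = (numL t (Encodable.encode c)).value ρ η ∧ φ.Holds ρ η) := fun _ _ => Iff.rfl
  simp only [h6, numL_value, not_forall, not_not]

end Pool.Agent.P.MP_5be460_lc.G
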