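import Pool.Agent.P.MP_5be460_lc.Eval

namespace Pool.Agent.P.MP_5be460_lc

open Finset Module Polynomial

universe u

set_option linter.unusedSectionVars false

section abstract

variable {F : Type} [Field F] {V W : Type*} [AddCommGroup V] [Module F V] [AddCommGroup W]
  [Module F W]

lemma map_aeval_end (j : V →ₗ[F] W) {D : Module.End F V} {D' : Module.End F W}
    (h : ∀ x, j (D x) = D' (j x)) (φ : F[X]) (x : V) : j (aeval D φ x) = aeval D' φ (j x) := by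
  induction φ using Polynomial.induction_on with
  | C c => rw [aeval_C, aeval_C, Module.algebraMap_end_apply, map_smul,
      Module.algebraMap_end_apply]
  | add φ ψ h h' => simp [h, h']
  | monomial n c h' =>
    rw [pow_succ', mul_left_comm, map_mul, map_mul (aeval D'), aeval_X, aeval_X,
      Module.End.mul_apply, Module.End.mul_apply, h, h']

lemma move_aeval (B : V →ₗ[F] V →ₗ[F] V) {D : Module.End F V}
    (hD : ∀ x y, D (B x y) = B (D x) y + B x (D y)) (χ : F[X]) (x y : V) :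
    ∃ z, B (aeval (D ^ 2) χ x) y = B x (aeval (D ^ 2) χ y) + D z := by
  induction χ using Polynomial.induction_on generalizing x y with
  | C c => exact ⟨0, by simp [Module.algebraMap_end_apply]⟩
  | add φ ψ h h' =>
    obtain ⟨z, hz⟩ := h x y
    obtain ⟨z', hz'⟩ := h' x y
    refine ⟨z + z', ?_⟩
    simp only [map_add, LinearMap.add_apply, hz, hz']
    abel
  | monomial n c h' =>
    obtain ⟨z, hz⟩ := h' (D (D x)) y
    refine ⟨z + B (D x) (aeval (D ^ 2) (C c * X ^ n) y) -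
      B x (D (aeval (D ^ 2) (C c * X ^ n) y)), ?_⟩
    have e1 : aeval (D ^ 2) (C c * X ^ (n + 1)) x = aeval (D ^ 2) (C c * X ^ n) (D (D x)) := by
      rw [pow_succ X, ← mul_assoc, map_mul, aeval_X, Module.End.mul_apply, sq D,
        Module.End.mul_apply]
    have e2 : aeval (D ^ 2) (C c * X ^ (n + 1)) y = D (D (aeval (D ^ 2) (C c * X ^ n) y)) := by
      rw [pow_succ' X, mul_left_comm, map_mul, aeval_X, Module.End.mul_apply, sq D,
        Module.End.mul_apply]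
    rw [e1, e2, hz, map_sub, map_add, hD, hD]
    abel

lemma self_aeval [CharZero F] (B : V →ₗ[F] V →ₗ[F] V) {D : Module.End F V}
    (hD : ∀ x y, D (B x y) = B (D x) y + B x (D y)) (hB : ∀ x y, B x y = -B y x)
    (χ : F[X]) (x : V) : ∃ z, B (aeval (D ^ 2) χ x) x = D z := by
  obtain ⟨z, hz⟩ := move_aeval B hD χ x x
  refine ⟨(2 : F)⁻¹ • z, ?_⟩
  rw [hB x, ← sub_eq_iff_eq_add', sub_neg_eq_add, ← two_smul F] at hz
  rw [map_smul, ← hz, smul_smul, inv_mul_cancel₀ two_ne_zero, one_smul]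

lemma sq_aeval (D : Module.End F V) (χ : F[X]) (x : V) :
    D (D (aeval (D ^ 2) χ x)) = aeval (D ^ 2) (X * χ) x := by
  rw [map_mul, aeval_X, Module.End.mul_apply, sq, Module.End.mul_apply]

end abstract

variable {F : Type} [Field F] {Z : Type u}

/-- the commutator as a bilinear map. -/
noncomputable def cmB (F : Type) [Field F] (A : Type*) [Ring A] [Algebra F A] :
    A →ₗ[F] A →ₗ[F] A := LinearMap.mul F A - (LinearMap.mul F A).flip

lemma cmB_apply {A : Type*} [Ring A] [Algebra F A] (x y : A) : cmB F A x y = cm x y := rfl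

lemma ev_cm {R : Type} [CommRing R] [Algebra F R] {n M : ℕ} {f g z : FreeAlgebra F (Z × ℕ)}
    (hf : Hom one1 n f) (hg : Hom one1 M g) (h : cm f g = shD F Z z)
    {ℓ₁ ℓ₂ ℓ₃ ℓ₄ : List (Z × R)} (hl : ℓ₁ ++ ℓ₂ = ℓ₃ ++ ℓ₄) (h1 : ℓ₁.length = n)
    (h3 : ℓ₃.length = M) (hs : sg ℓ₁ + sg ℓ₂ = 0) :
    ev F ℓ₁ f * ev F ℓ₂ g = ev F ℓ₃ g * ev F ℓ₄ f := by
  have h4 := ev_shD (ℓ₁ ++ ℓ₂) z
  rw [sg_append, hs, zero_mul, ← h, cm, map_sub, ev_mul hf _ h1, hl, ev_mul hg _ h3] at h4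
  exact sub_eq_zero.1 h4

lemma exists_three {A B E : List (Z × F)} (hA : 1 ≤ A.length) (hB : 1 ≤ B.length)
    (hE : 1 ≤ E.length) : ∃ (A' B' E' : List (Z × F[X])) (x : F),
      A'.length = A.length ∧ B'.length = B.length ∧ E'.length = E.length ∧
      sg A' + sg B' + sg E' = 0 ∧ sg A' - sg E' ≠ 0 ∧ sg B' ≠ 0 ∧
      pm (aeval (0 : F) : F[X] →ₐ[F] F) A' = A ∧ pm (aeval (0 : F) : F[X] →ₐ[F] F) B' = B ∧
      pm (aeval x : F[X] →ₐ[F] F) B' = B ∧ pm (aeval x : F[X] →ₐ[F] F) E' = E := by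
  obtain ⟨s, hs⟩ : ∃ s, s = sg A + sg B + sg E := ⟨_, rfl⟩
  refine ⟨sh X A, sh (X ^ 2 + C s * X) B, sh (-(X + (X ^ 2 + C s * X) + C s)) E, -s,
    sh_length _ _, sh_length _ _, sh_length _ _, ?_, ?_, ?_, pm_sh (by simp) _, pm_sh (by simp) _,
    pm_sh (by simp [sq]) _, pm_sh (by simp [sq]) _⟩
  · rw [sg_sh _ hA, sg_sh _ hB, sg_sh _ hE, hs]
    simp only [map_add]
    ring
  · rw [sg_sh _ hA, sg_sh _ hE]
    intro h
    simpa [coeff_X, coeff_C] using congrArg (fun P => coeff P 2) h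
  · rw [sg_sh _ hB]
    intro h
    simpa [coeff_X, coeff_C] using congrArg (fun P => coeff P 2) h

lemma len_eq [Infinite F] {n M : ℕ} {f g z z' : FreeAlgebra F (Z × ℕ)} (hf : Hom one1 n f)
    (hg : Hom one1 M g) (hn : 1 ≤ n) (hM : 1 ≤ M) (hf0 : f ≠ 0) (hg0 : g ≠ 0)
    (h : cm f g = shD F Z z) (h' : cm (shD F Z (shD F Z f)) g = shD F Z z') : n = M := by
  have key : ∀ ℓ₁ ℓ₂ ℓ₃ ℓ₄ : List (Z × F[X]), ℓ₁ ++ ℓ₂ = ℓ₃ ++ ℓ₄ → ℓ₁.length = n →
      ℓ₃.length = M → sg ℓ₁ + sg ℓ₂ = 0 → ev F ℓ₁ f ≠ 0 → ev F ℓ₂ g ≠ 0 →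
      (sg ℓ₁ - sg ℓ₄) * (sg ℓ₁ + sg ℓ₄) = 0 := by
    intro ℓ₁ ℓ₂ ℓ₃ ℓ₄ hl h1 h3 hs h4 h5
    have e1 := ev_cm hf hg h hl h1 h3 hs
    have e2 := ev_cm hf.shD.shD hg h' hl h1 h3 hs
    simp only [ev_shD] at e2
    refine (mul_eq_zero.1 (?_ : _ * (ev F ℓ₁ f * ev F ℓ₂ g) = 0)).resolve_right (mul_ne_zero h4 h5)
    linear_combination e2 - sg ℓ₄ ^ 2 * e1
  obtain ⟨ℓ₁, h1, h1'⟩ := exists_ev_ne hf hf0
  obtain ⟨ℓ₂, h2, h2'⟩ := exists_ev_ne hg hg0
  by_contra hne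
  rcases Nat.lt_or_gt_of_ne hne with hlt | hlt
  · obtain ⟨A', B', E', x, a1, a2, a3, a4, a5, a6, a7, -, a9, a10⟩ :=
      exists_three (A := ℓ₁) (B := ℓ₂.take (M - n)) (E := ℓ₂.drop (M - n)) (by omega)
        (by simp; omega) (by simp; omega)
    have e := key A' (B' ++ E') (A' ++ B') E' (by simp) (by omega) (by simp [a1, a2]; omega)
      (by rw [sg_append, ← add_assoc, a4])
      (ev_ne_of_pm (aeval (0 : F)) (by rw [a7]; exact h1'))
      (ev_ne_of_pm (aeval x) (by rw [pm_append, a9, a10, List.take_append_drop]; exact h2'))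
    refine mul_ne_zero a5 (fun h0 => a6 ?_) e
    linear_combination a4 - h0
  · obtain ⟨A', B', E', x, a1, a2, a3, a4, a5, a6, a7, a8, -, a10⟩ :=
      exists_three (A := ℓ₁.take M) (B := ℓ₁.drop M) (E := ℓ₂) (by simp; omega)
        (by simp; omega) (by omega)
    have e := key (A' ++ B') E' A' (B' ++ E') (by simp) (by simp [a1, a2]; omega)
      (by simp [a1]; omega) (by rw [sg_append, a4])
      (ev_ne_of_pm (aeval (0 : F)) (by rw [pm_append, a7, a8, List.take_append_drop]; exact h1'))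
      (ev_ne_of_pm (aeval x) (by rw [a10]; exact h2'))
    rw [sg_append, sg_append] at e
    refine mul_ne_zero (fun h0 => a5 ?_) (fun h0 => a6 ?_) e
    · linear_combination h0
    · linear_combination h0 - a4

/-- pointwise primitivity. -/
def Prim (M : ℕ) (b : FreeAlgebra F (Z × ℕ)) : Prop :=
  Hom one1 M b ∧ 1 ≤ M ∧ ∀ s : F, ∃ ℓ : List (Z × F), ℓ.length = M ∧ sg ℓ = s ∧ ev F ℓ b ≠ 0

lemma Prim.ne_zero {M : ℕ} {b : FreeAlgebra F (Z × ℕ)} (h : Prim M b) : b ≠ 0 := by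
  rintro rfl
  obtain ⟨ℓ, -, -, h⟩ := h.2.2 0
  exact h (map_zero _)

lemma prim_cm [CharZero F] {m : ℕ} {q : FreeAlgebra F (Z × ℕ)} (hq : Hom one1 m q) (hm : 1 ≤ m)
    (hq0 : q ≠ 0) : Prim (m + m) (cm q (shD F Z q)) := by
  refine ⟨hq.cm hq.shD, by omega, fun s => ?_⟩
  obtain ⟨ℓ, h1, h2⟩ := exists_ev_ne hq hq0
  obtain ⟨t, ht⟩ : ∃ t, t = s - 2 * sg ℓ := ⟨_, rfl⟩
  have h3 : ev F (sh X ℓ ++ sh (C t - X) ℓ) (cm q (shD F Z q)) ≠ 0 := by
    rw [cm, map_sub, ev_mul hq _ (by simpa using h1), ev_mul hq.shD _ (by simpa using h1),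
      ev_shD, ev_shD, sg_sh _ (by omega), sg_sh _ (by omega)]
    have h4 : ev F (sh X ℓ) q ≠ 0 :=
      ev_ne_of_pm (aeval (0 : F)) (by rw [pm_sh (by simp)]; exact h2)
    have h5 : ev F (sh (C t - X) ℓ) q ≠ 0 :=
      ev_ne_of_pm (aeval t) (by rw [pm_sh (by simp)]; exact h2)
    have h6 : (C t - C 2 * X : F[X]) ≠ 0 := by
      intro h
      simpa [coeff_X, coeff_C] using congrArg (fun P => coeff P 1) h
    intro h
    refine mul_ne_zero h6 (mul_ne_zero h4 h5) ?_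
    rw [map_ofNat]
    linear_combination h
  obtain ⟨x, hx⟩ : ∃ x, eval x (ev F (sh X ℓ ++ sh (C t - X) ℓ) (cm q (shD F Z q))) ≠ 0 := by
    by_contra h
    push Not at h
    exact h3 (Polynomial.funext fun x => by rw [h, eval_zero])
  refine ⟨pm (aeval x : F[X] →ₐ[F] F) (sh X ℓ ++ sh (C t - X) ℓ), by simp [h1], ?_, ?_⟩
  · rw [sg_pm, sg_append, sg_sh _ (by omega), sg_sh _ (by omega)]
    simp [ht]
    ring
  · rw [ev_pm]
    simpa using hx

lemma exists_even [CharZero F] {φ : F[X]} (h : ∀ s, φ.eval s = φ.eval (-s)) :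
    ∃ χ : F[X], φ = expand F 2 χ := by
  have h1 : ∀ ψ : F[X], ∃ χ : F[X], ψ + ψ.comp (-X) = expand F 2 χ := by
    intro ψ
    induction ψ using Polynomial.induction_on' with
    | add p q hp hq =>
      obtain ⟨χ, h⟩ := hp
      obtain ⟨χ', h'⟩ := hq
      exact ⟨χ + χ', by rw [map_add, ← h, ← h', add_comp]; ring⟩
    | monomial n c =>
      rcases Nat.even_or_odd' n with ⟨k, rfl | rfl⟩
      · refine ⟨monomial k (2 * c), ?_⟩
        rw [expand_monomial, monomial_comp, pow_mul, neg_sq, ← pow_mul, C_mul_X_pow_eq_monomial,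
          ← map_add, two_mul c, mul_comm k 2]
      · refine ⟨0, ?_⟩
        rw [monomial_comp, pow_succ, pow_mul, neg_sq, ← pow_mul, mul_neg, ← pow_succ, mul_neg,
          C_mul_X_pow_eq_monomial, add_neg_cancel, map_zero]
  obtain ⟨χ, hχ⟩ := h1 φ
  have h2 : φ.comp (-X) = φ := Polynomial.funext fun s => by simp [eval_comp, ← h]
  refine ⟨(2 : F)⁻¹ • χ, ?_⟩
  rw [map_smul, ← hχ, h2, ← two_smul F, smul_smul, inv_mul_cancel₀ two_ne_zero, one_smul]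

lemma Prim.even [CharZero F] [IsAlgClosed F] {M : ℕ} {b u z : FreeAlgebra F (Z × ℕ)}
    (hb : Prim M b) (hu : Hom one1 M u) (h : cm u b = shD F Z z) :
    ∃ χ : F[X], u = aeval (shD F Z ^ 2) χ b := by
  let J : Ideal F[X] :=
    { carrier := {r | ∃ φ : F[X], ∀ ℓ : List (Z × F), ℓ.length = M →
        r.eval (sg ℓ) * ev F ℓ u = φ.eval (sg ℓ) * ev F ℓ b}
      add_mem' := by
        rintro r r' ⟨φ, h⟩ ⟨φ', h'⟩
        exact ⟨φ + φ', fun ℓ hℓ => by rw [eval_add, eval_add, add_mul, h ℓ hℓ, h' ℓ hℓ, add_mul]⟩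
      zero_mem' := ⟨0, by simp⟩
      smul_mem' := by
        rintro c r ⟨φ, h⟩
        exact ⟨c * φ, fun ℓ hℓ => by
          rw [smul_eq_mul, eval_mul, eval_mul, mul_assoc, h ℓ hℓ, mul_assoc]⟩ }
  have hJ : ∀ s : F, ∃ r ∈ J, r.eval s ≠ 0 := by
    intro s
    obtain ⟨ℓ₀, h1, h2, h3⟩ := hb.2.2 (-s)
    refine ⟨ev F (sh (C s - X) ℓ₀) b, ⟨ev F (sh (C s - X) ℓ₀) u, fun ℓ hℓ => ?_⟩, ?_⟩
    · have h4 := ev_cm hu hb.1 h (ℓ₁ := ℓ)
        (ℓ₂ := pm (aeval (sg ℓ) : F[X] →ₐ[F] F) (sh (C s - X) ℓ₀)) rfl hℓ hℓ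
        (by rw [sg_pm, sg_sh _ (h1 ▸ hb.2.1), h2]; simp; ring)
      rw [ev_pm, ev_pm, coe_aeval_eq_eval] at h4
      linear_combination h4
    · have h4 := ev_pm (aeval s : F[X] →ₐ[F] F) (sh (C s - X) ℓ₀) b
      rw [pm_sh (by simp), coe_aeval_eq_eval] at h4
      exact h4 ▸ h3
  have hJ1 : (1 : F[X]) ∈ J := by
    obtain ⟨g, hg⟩ := (IsPrincipalIdealRing.principal J).principal
    have h1 : ∀ s, ¬g.IsRoot s := by
      intro s hs
      obtain ⟨r, hr, hr'⟩ := hJ s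
      rw [hg] at hr
      obtain ⟨c, rfl⟩ := Submodule.mem_span_singleton.1 hr
      exact hr' (by rw [smul_eq_mul, eval_mul, hs.eq_zero, mul_zero])
    have h2 : g.degree = 0 := by
      by_contra h2
      obtain ⟨s, hs⟩ := IsAlgClosed.exists_root g h2
      exact h1 s hs
    rw [← Ideal.eq_top_iff_one, hg]
    exact Ideal.span_singleton_eq_top.2 (isUnit_iff_degree_eq_zero.2 h2)
  obtain ⟨φ, hφ⟩ := hJ1
  have h1 : ∀ s, φ.eval s = φ.eval (-s) := by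
    intro s
    obtain ⟨ℓ₁, a1, a2, a3⟩ := hb.2.2 s
    obtain ⟨ℓ₂, b1, b2, b3⟩ := hb.2.2 (-s)
    have h4 := ev_cm hu hb.1 h (ℓ₁ := ℓ₁) (ℓ₂ := ℓ₂) rfl a1 a1 (by rw [a2, b2, add_neg_cancel])
    have h5 := hφ ℓ₁ a1
    have h6 := hφ ℓ₂ b1
    rw [eval_one, one_mul] at h5 h6
    rw [h5, h6, a2, b2] at h4
    refine mul_right_cancel₀ (mul_ne_zero a3 b3) ?_
    linear_combination h4
  obtain ⟨χ, rfl⟩ := exists_even h1
  refine ⟨χ, ?_⟩
  rw [← expand_aeval, ← sub_eq_zero]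
  refine ev_inj fun ℓ => ?_
  rw [map_sub, ev_aeval, coe_aeval_eq_eval]
  by_cases hℓ : ℓ.length = M
  · rw [← hφ ℓ hℓ, eval_one, one_mul, sub_self]
  · rw [← hu, ← hb.1, ev_pr, ev_pr, if_neg hℓ, if_neg hℓ, mul_zero, sub_zero]

lemma Prim.not_range {M : ℕ} {b z : FreeAlgebra F (Z × ℕ)} (hb : Prim M b) :
    b ≠ shD F Z z := by
  intro h
  obtain ⟨ℓ, -, h2, h3⟩ := hb.2.2 0
  rw [h, ev_shD, h2, zero_mul] at h3
  exact h3 rfl

lemma Prim.pairing [CharZero F] {M : ℕ} {b z : FreeAlgebra F (Z × ℕ)} (hb : Prim M b)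
    {χ : F[X]} (h : cm (aeval (shD F Z ^ 2) χ b) (shD F Z b) = shD F Z z) : χ = 0 := by
  rw [← expand_aeval] at h
  have h1 : X * expand F 2 χ = 0 := by
    refine Polynomial.funext fun s => ?_
    obtain ⟨ℓ₁, a1, a2, a3⟩ := hb.2.2 s
    obtain ⟨ℓ₂, b1, b2, b3⟩ := hb.2.2 (-s)
    have h4 := ev_cm (hb.1.lead.aeval _).hom hb.1.shD h (ℓ₁ := ℓ₁) (ℓ₂ := ℓ₂) rfl a1 a1
      (by rw [a2, b2, add_neg_cancel])
    rw [ev_aeval, ev_aeval, ev_shD, ev_shD, a2, b2, expand_aeval, expand_aeval, neg_sq] at h4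
    rw [eval_zero, eval_mul, eval_X, ← coe_aeval_eq_eval, expand_aeval]
    refine mul_right_cancel₀ (mul_ne_zero (two_ne_zero' F) (mul_ne_zero a3 b3)) ?_
    linear_combination -h4
  exact (expand_eq_zero two_pos).1 ((mul_eq_zero.1 h1).resolve_left X_ne_zero)

lemma exists_prim [CharZero F] {q : FreeAlgebra F (Z × ℕ)} (hq : pr one1 0 q = 0) (hq0 : q ≠ 0) :
    ∃ M b, Lead one1 M (cm q (shD F Z q)) b ∧ Prim M b := by
  obtain ⟨m, g, h1, h2⟩ := exists_lead one1 hq0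
  refine ⟨m + m, _, h1.cm h1.shD, prim_cm h1.hom ?_ h2⟩
  rcases Nat.eq_zero_or_pos m with rfl | h
  · exact absurd (h1.2.symm.trans hq) h2
  · exact h

theorem inner_not_range [CharZero F] {q z : FreeAlgebra F (Z × ℕ)} (hq : pr one1 0 q = 0)
    (hq0 : q ≠ 0) : cm q (shD F Z q) ≠ shD F Z z := by
  intro h
  obtain ⟨M, b, h1, h2⟩ := exists_prim hq hq0
  refine h2.not_range (z := pr one1 M z) ?_
  rw [← h1.2, h, pr_shD]

theorem inner_pairing [CharZero F] {q z : FreeAlgebra F (Z × ℕ)} (hq : pr one1 0 q = 0)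
    (hq0 : q ≠ 0) {χ : F[X]}
    (h : cm (aeval (shD F Z ^ 2) χ (cm q (shD F Z q))) (shD F Z (cm q (shD F Z q))) =
      shD F Z z) : χ = 0 := by
  obtain ⟨M, b, h1, h2⟩ := exists_prim hq hq0
  refine h2.pairing (z := pr one1 (M + M) z) ?_
  rw [← expand_aeval] at h ⊢
  rw [← ((h1.aeval _).cm h1.shD).2, h, pr_shD]

theorem inner_even [CharZero F] [IsAlgClosed F] {q u z z' : FreeAlgebra F (Z × ℕ)}
    (hq : pr one1 0 q = 0) (hq0 : q ≠ 0) (hu : pr one1 0 u = 0)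
    (h : cm u (cm q (shD F Z q)) = shD F Z z)
    (h' : cm (shD F Z (shD F Z u)) (cm q (shD F Z q)) = shD F Z z') :
    ∃ χ : F[X], u = aeval (shD F Z ^ 2) χ (cm q (shD F Z q)) := by
  obtain ⟨M, b, h1, h2⟩ := exists_prim hq hq0
  have hb0 : pr one1 0 (cm q (shD F Z q)) = 0 := by
    obtain ⟨n, h3, h4⟩ := exists_fil one1 q
    have h5 : ∀ g : FreeAlgebra F (Z × ℕ), pr one1 0 (q * g) = 0 ∧ pr one1 0 (g * q) = 0 := by
      intro g
      obtain ⟨k, -, h6⟩ := exists_fil one1 g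
      rw [← h4, ← h6, sum_mul_sum, sum_mul_sum, map_sum, map_sum]
      refine ⟨sum_eq_zero fun i _ => ?_, sum_eq_zero fun i _ => ?_⟩
      · rw [map_sum]
        refine sum_eq_zero fun j _ => ?_
        rcases Nat.eq_zero_or_pos i with rfl | hi
        · rw [hq, zero_mul, map_zero]
        · exact ((hom_pr i q).mul (hom_pr j g)).pr_ne (by omega)
      · rw [map_sum]
        refine sum_eq_zero fun j _ => ?_
        rcases Nat.eq_zero_or_pos j with rfl | hj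
        · rw [hq, mul_zero, map_zero]
        · exact ((hom_pr i g).mul (hom_pr j q)).pr_ne (by omega)
    rw [cm, map_sub, (h5 _).1, (h5 _).2, sub_zero]
  generalize cm q (shD F Z q) = b' at *
  have key : ∀ u z z' : FreeAlgebra F (Z × ℕ), pr one1 0 u = 0 → cm u b' = shD F Z z →
      cm (shD F Z (shD F Z u)) b' = shD F Z z' → u ≠ 0 → ∃ g, Lead one1 M u g ∧ g ≠ 0 := by
    intro u z z' hu h h' hu0
    obtain ⟨n, g, h3, h4⟩ := exists_lead one1 hu0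
    have hn : 1 ≤ n := by
      rcases Nat.eq_zero_or_pos n with rfl | h
      · exact absurd (h3.2.symm.trans hu) h4
      · exact h
    have h5 := len_eq (z := pr one1 (n + M) z) (z' := pr one1 (n + M) z') h3.hom h2.1 hn h2.2.1 h4
      h2.ne_zero (by rw [← (h3.cm h1).2, h, pr_shD])
      (by rw [← (h3.shD.shD.cm h1).2, h', pr_shD])
    exact ⟨g, h5 ▸ h3, h4⟩
  by_cases hu0 : u = 0
  · exact ⟨0, by simp [hu0]⟩
  obtain ⟨g, h3, -⟩ := key u z z' hu h h' hu0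
  obtain ⟨χ, hχ⟩ := h2.even (z := pr one1 (M + M) z) h3.hom (by rw [← (h3.cm h1).2, h, pr_shD])
  refine ⟨χ, ?_⟩
  by_contra hne
  have hD : ∀ x y, shD F Z (cmB F _ x y) = cmB F _ (shD F Z x) y + cmB F _ x (shD F Z y) :=
    fun x y => der_cm _ x y
  obtain ⟨w, hw⟩ := self_aeval (cmB F _) hD (fun x y => cm_swap x y) χ b'
  obtain ⟨w', hw'⟩ := self_aeval (cmB F _) hD (fun x y => cm_swap x y) (X * χ) b'
  rw [cmB_apply] at hw hw'
  obtain ⟨g', h4, h5⟩ := key (u - aeval (shD F Z ^ 2) χ b') (z - w) (z' - w')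
    (by rw [map_sub, hu, ← expand_aeval, pr_aeval, hb0, map_zero, sub_zero])
    (by rw [cm_sub_left, h, hw, map_sub])
    (by rw [map_sub, map_sub, cm_sub_left, h', sq_aeval, hw', map_sub]) (sub_ne_zero.2 hne)
  refine h5 ?_
  rw [← h4.2, map_sub, h3.2, hχ, ← expand_aeval, pr_aeval, h1.2, sub_self]

end Pool.Agent.P.MP_5be460_lc
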