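import Pool.Agent.P.MP_5be460_lc.Defs
import Pool.Agent.Lib.PrimrecProp.Basic

namespace Pool.Agent.P.MP_5be460_lc

open Finset Pool.Agent.Lib.PrimrecProp

/-- a set with ring-like operations. -/
structure Ops (α : Type) where
  zero : α
  one : α
  add : α → α → α
  mul : α → α → α
  sub : α → α → α

/-- maps preserving the operations. -/
structure OpsHom {α β : Type} (o : Ops α) (o' : Ops β) (φ : α → β) : Prop where
  zero : φ o.zero = o'.zero
  one : φ o.one = o'.one
  add : ∀ x y, φ (o.add x y) = o'.add (φ x) (φ y)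
  mul : ∀ x y, φ (o.mul x y) = o'.mul (φ x) (φ y)
  sub : ∀ x y, φ (o.sub x y) = o'.sub (φ x) (φ y)

variable {α β : Type}

/-- one step of the stack machine, acting on the stack. -/
def stepS (o : Ops α) (r y : α) (c : ℕ) (S : List α) : List α :=
  bif eqb c 0 then o.zero :: S else
  bif eqb c 1 then o.one :: S else
  bif eqb c 2 then o.add (S.getD 0 o.zero) (S.getD 1 o.zero) :: S.drop 2 else
  bif eqb c 3 || eqb c 11 then o.mul (S.getD 0 o.zero) (S.getD 1 o.zero) :: S.drop 2 else
  bif eqb c 8 then o.sub o.one (o.mul (o.sub (S.getD 0 o.zero) (S.getD 1 o.zero)) y) :: S.drop 2 else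
  bif eqb c 10 then o.sub o.one (S.getD 0 o.zero) :: S.drop 1 else r :: S

/-- one step of the stack machine, acting on the list of constraints. -/
def stepC (o : Ops α) (y : α) (c : ℕ) (S C : List α) : List α :=
  bif eqb c 8 then o.mul (o.sub o.one (o.mul (o.sub (S.getD 0 o.zero) (S.getD 1 o.zero)) y))
    (o.sub (S.getD 0 o.zero) (S.getD 1 o.zero)) :: C else C

/-- the stack machine. -/
def run (o : Ops α) (ρ τ : ℕ → α) (l : List ℕ) : ℕ × List α × List α :=
  l.foldr (fun c S => (S.1 + 1, stepS o (ρ c) (τ S.1) c S.2.1, stepC o (τ S.1) c S.2.1 S.2.2))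
    (0, [], [])

/-- the final stack. -/
def stk (o : Ops α) (ρ τ : ℕ → α) (l : List ℕ) : List α := (run o ρ τ l).2.1

/-- the final list of constraints. -/
def cns (o : Ops α) (ρ τ : ℕ → α) (l : List ℕ) : List α := (run o ρ τ l).2.2

lemma run_fst (o : Ops α) (ρ τ : ℕ → α) (l : List ℕ) : (run o ρ τ l).1 = l.length := by
  induction l with
  | nil => rfl
  | cons c l ih => exact congrArg (· + 1) ih

lemma stk_cons (o : Ops α) (ρ τ : ℕ → α) (c : ℕ) (l : List ℕ) :
    stk o ρ τ (c :: l) = stepS o (ρ c) (τ l.length) c (stk o ρ τ l) := by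
  rw [← run_fst o ρ τ l]; rfl

lemma cns_cons (o : Ops α) (ρ τ : ℕ → α) (c : ℕ) (l : List ℕ) :
    cns o ρ τ (c :: l) = stepC o (τ l.length) c (stk o ρ τ l) (cns o ρ τ l) := by
  rw [← run_fst o ρ τ l]; rfl

lemma run_congr (o : Ops α) {ρ τ ρ' τ' : ℕ → α} {l : List ℕ} (h : ∀ c ∈ l, ρ c = ρ' c)
    (h' : ∀ k < l.length, τ k = τ' k) :
    stk o ρ τ l = stk o ρ' τ' l ∧ cns o ρ τ l = cns o ρ' τ' l := by
  induction l with
  | nil => exact ⟨rfl, rfl⟩
  | cons c l ih =>
    obtain ⟨h1, h2⟩ := ih (fun c hc => h c (List.mem_cons_of_mem _ hc))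
      fun k hk => h' k (Nat.lt_succ_of_lt hk)
    rw [stk_cons, stk_cons, cns_cons, cns_cons, h1, h2, h c List.mem_cons_self,
      h' l.length (Nat.lt_succ_self _)]
    exact ⟨rfl, rfl⟩

lemma cns_length (o : Ops α) (ρ τ : ℕ → α) (l : List ℕ) : (cns o ρ τ l).length ≤ l.length := by
  induction l with
  | nil => exact le_rfl
  | cons c l ih =>
    rw [cns_cons, stepC]
    cases eqb c 8
    · exact Nat.le_succ_of_le ih
    · exact Nat.succ_le_succ ih

lemma OpsHom.getD {o : Ops α} {o' : Ops β} {φ : α → β} (h : OpsHom o o' φ) (S : List α) (i : ℕ) :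
    φ (S.getD i o.zero) = (S.map φ).getD i o'.zero := by
  rw [← h.zero, List.getD_map]

lemma run_map {o : Ops α} {o' : Ops β} {φ : α → β} (h : OpsHom o o' φ) (ρ τ : ℕ → α) (l : List ℕ) :
    (stk o ρ τ l).map φ = stk o' (fun n => φ (ρ n)) (fun n => φ (τ n)) l ∧
      (cns o ρ τ l).map φ = cns o' (fun n => φ (ρ n)) (fun n => φ (τ n)) l := by
  induction l with
  | nil => exact ⟨rfl, rfl⟩
  | cons c l ih =>
    rw [stk_cons, stk_cons, cns_cons, cns_cons, ← ih.1, ← ih.2]
    simp only [stepS, stepC, Bool.apply_cond (List.map φ), List.map_cons, List.map_drop, h.zero,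
      h.one, h.add, h.mul, h.sub, h.getD, and_self]

/-- the system of polynomials attached to a string. -/
def outs (o : Ops α) (pt : List α) (l : List ℕ) : List α :=
  (stk o (fun c => pt.getD (2 * c) o.zero) (fun k => pt.getD (2 * k + 1) o.zero) l).getD 0 o.zero ::
    cns o (fun c => pt.getD (2 * c) o.zero) (fun k => pt.getD (2 * k + 1) o.zero) l

/-- the values of the symbols in a certificate. -/
def sym (o : Ops α) (cst : ℕ → α) (pt : List α) (c : ℕ) : α :=
  bif eqb (c % 2) 0 then pt.getD (c / 2 - 6) o.zero else cst (c / 2 - 6)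

/-- the value of a certificate term. -/
def val (o : Ops α) (cst : ℕ → α) (pt : List α) (l : List ℕ) : α :=
  (stk o (sym o cst pt) (fun _ => o.zero) l).getD 0 o.zero

/-- the Nullstellensatz identity. -/
def exprA (o : Ops α) (cst : ℕ → α) (pt : List α) (l : List ℕ) (hs : List (List ℕ)) : α :=
  o.sub o.one ((List.range (l.length + 1)).foldr (fun j acc =>
    o.add (o.mul (val o cst pt (hs.getD j [])) ((outs o pt l).getD j o.zero)) acc) o.zero)

/-- the identities certifying an algebraic solution. -/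
def exprB (o : Ops α) (cst : ℕ → α) (pt : List α) (l f : List ℕ) (as cs : List (List ℕ)) (j : ℕ) :
    α :=
  o.sub ((outs o (as.map (val o cst pt)) l).getD j o.zero)
    (o.mul (val o cst pt f) (val o cst pt (cs.getD j [])))

lemma outs_length (o : Ops α) (pt : List α) (l : List ℕ) : (outs o pt l).length ≤ l.length + 1 :=
  Nat.succ_le_succ (cns_length _ _ _ _)

section natural

variable {o : Ops α} {o' : Ops β} {φ : α → β} (h : OpsHom o o' φ)

include h

lemma outs_map (pt : List α) (l : List ℕ) : (outs o pt l).map φ = outs o' (pt.map φ) l := by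
  simp only [outs, List.map_cons, h.getD, (run_map h _ _ l).1, (run_map h _ _ l).2]

lemma val_map (cst : ℕ → α) (pt : List α) (l : List ℕ) :
    φ (val o cst pt l) = val o' (fun n => φ (cst n)) (pt.map φ) l := by
  simp only [val, h.getD, (run_map h _ _ l).1, h.zero]
  congr 2
  funext c
  simp only [sym, Bool.apply_cond φ, h.getD]

lemma exprA_map (cst : ℕ → α) (pt : List α) (l : List ℕ) (hs : List (List ℕ)) :
    φ (exprA o cst pt l hs) = exprA o' (fun n => φ (cst n)) (pt.map φ) l hs := by
  rw [exprA, exprA, h.sub, h.one]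
  congr 1
  induction List.range (l.length + 1) with
  | nil => exact h.zero
  | cons j L ih => simp only [List.foldr_cons, h.add, h.mul, ih, val_map h, h.getD, outs_map h]

lemma exprB_map (cst : ℕ → α) (pt : List α) (l f : List ℕ) (as cs : List (List ℕ)) (j : ℕ) :
    φ (exprB o cst pt l f as cs j) = exprB o' (fun n => φ (cst n)) (pt.map φ) l f as cs j := by
  simp only [exprB, h.sub, h.mul, val_map h, h.getD, outs_map h, List.map_map, Function.comp_def]

end natural

section primrec

variable [Primcodable α] {γ : Type} [Primcodable γ]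

/-- the operations are primitive recursive. -/
structure Ops.PR (o : Ops α) : Prop where
  add : Primrec fun p : α × α => o.add p.1 p.2
  mul : Primrec fun p : α × α => o.mul p.1 p.2
  sub : Primrec fun p : α × α => o.sub p.1 p.2

@[fun_prop] lemma p_div {f g : γ → ℕ} (hf : Primrec f) (hg : Primrec g) :
    Primrec fun a => f a / g a := Primrec.nat_div.comp hf hg

@[fun_prop] lemma p_mod {f g : γ → ℕ} (hf : Primrec f) (hg : Primrec g) :
    Primrec fun a => f a % g a := Primrec.nat_mod.comp hf hg

variable {o : Ops α} (h : o.PR)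

include h

lemma Ops.PR.padd {f g : γ → α} (hf : Primrec f) (hg : Primrec g) :
    Primrec fun a => o.add (f a) (g a) := h.add.comp (hf.pair hg)

lemma Ops.PR.pmul {f g : γ → α} (hf : Primrec f) (hg : Primrec g) :
    Primrec fun a => o.mul (f a) (g a) := h.mul.comp (hf.pair hg)

lemma Ops.PR.psub {f g : γ → α} (hf : Primrec f) (hg : Primrec g) :
    Primrec fun a => o.sub (f a) (g a) := h.sub.comp (hf.pair hg)

lemma stepS_primrec {r y : γ → α} {c : γ → ℕ} {S : γ → List α} (hr : Primrec r) (hy : Primrec y)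
    (hc : Primrec c) (hS : Primrec S) : Primrec fun a => stepS o (r a) (y a) (c a) (S a) := by
  have h0 : Primrec fun a => (S a).getD 0 o.zero := by fun_prop
  have h1 : Primrec fun a => (S a).getD 1 o.zero := by fun_prop
  have h2 := h.padd h0 h1
  have h3 := h.pmul h0 h1
  have h4 := h.psub (Primrec.const o.one) (h.pmul (h.psub h0 h1) hy)
  have h5 := h.psub (Primrec.const o.one) h0
  exact p_cond (by fun_prop) (by fun_prop) <| p_cond (by fun_prop) (by fun_prop) <|
    p_cond (by fun_prop) (p_cons h2 (by fun_prop)) <|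
    p_cond (by fun_prop) (p_cons h3 (by fun_prop)) <|
    p_cond (by fun_prop) (p_cons h4 (by fun_prop)) <|
    p_cond (by fun_prop) (p_cons h5 (by fun_prop)) (by fun_prop)

lemma stepC_primrec {y : γ → α} {c : γ → ℕ} {S C : γ → List α} (hy : Primrec y)
    (hc : Primrec c) (hS : Primrec S) (hC : Primrec C) :
    Primrec fun a => stepC o (y a) (c a) (S a) (C a) := by
  have h0 : Primrec fun a => (S a).getD 0 o.zero := by fun_prop
  have h1 : Primrec fun a => (S a).getD 1 o.zero := by fun_prop
  have h4 := h.psub (Primrec.const o.one) (h.pmul (h.psub h0 h1) hy)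
  exact p_cond (by fun_prop) (p_cons (h.pmul h4 (h.psub h0 h1)) hC) hC

lemma run_primrec {ρ τ : γ → ℕ → α} {l : γ → List ℕ} (hρ : Primrec fun p : γ × ℕ => ρ p.1 p.2)
    (hτ : Primrec fun p : γ × ℕ => τ p.1 p.2) (hl : Primrec l) :
    Primrec fun a => run o (ρ a) (τ a) (l a) := by
  have h1 : Primrec fun x : γ × ℕ × ℕ × List α × List α => ρ x.1 x.2.1 :=
    hρ.comp (g := fun x : γ × ℕ × ℕ × List α × List α => (x.1, x.2.1)) (by fun_prop)
  have h2 : Primrec fun x : γ × ℕ × ℕ × List α × List α => τ x.1 x.2.2.1 :=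
    hτ.comp (g := fun x : γ × ℕ × ℕ × List α × List α => (x.1, x.2.2.1)) (by fun_prop)
  exact p_foldr (h := fun a c (S : ℕ × List α × List α) =>
    (S.1 + 1, stepS o (ρ a c) (τ a S.1) c S.2.1, stepC o (τ a S.1) c S.2.1 S.2.2)) hl
    (Primrec.const _) (p_pair (by fun_prop) (p_pair
      (stepS_primrec h h1 h2 (by fun_prop) (by fun_prop))
      (stepC_primrec h h2 (by fun_prop) (by fun_prop) (by fun_prop))))

lemma outs_primrec {pt : γ → List α} {l : γ → List ℕ} (hpt : Primrec pt) (hl : Primrec l) :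
    Primrec fun a => outs o (pt a) (l a) := by
  have h1 := run_primrec h (ρ := fun a c => (pt a).getD (2 * c) o.zero)
    (τ := fun a k => (pt a).getD (2 * k + 1) o.zero) (by fun_prop) (by fun_prop) hl
  exact p_cons (p_getD _ (p_fst (p_snd h1)) (Primrec.const 0)) (p_snd (p_snd h1))

lemma val_primrec {cst : ℕ → α} (hc : Primrec cst) {pt : γ → List α} {l : γ → List ℕ}
    (hpt : Primrec pt) (hl : Primrec l) : Primrec fun a => val o cst (pt a) (l a) := by
  have h1 := run_primrec h (ρ := fun a => sym o cst (pt a)) (τ := fun _ _ => o.zero)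
    (by unfold sym; fun_prop) (by fun_prop) hl
  exact p_getD _ (p_fst (p_snd h1)) (Primrec.const 0)

lemma exprA_primrec {cst : ℕ → α} (hc : Primrec cst) {pt : γ → List α} {l : γ → List ℕ}
    {hs : γ → List (List ℕ)} (hpt : Primrec pt) (hl : Primrec l) (hhs : Primrec hs) :
    Primrec fun a => exprA o cst (pt a) (l a) (hs a) := by
  refine h.psub (Primrec.const _) (p_foldr (h := fun a j acc =>
    o.add (o.mul (val o cst (pt a) ((hs a).getD j [])) ((outs o (pt a) (l a)).getD j o.zero)) acc)
    (by fun_prop) (Primrec.const _) ?_)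
  exact h.padd (h.pmul (val_primrec h hc (by fun_prop) (by fun_prop))
    (p_getD _ (outs_primrec h (by fun_prop) (by fun_prop)) (by fun_prop))) (by fun_prop)

lemma exprB_primrec {cst : ℕ → α} (hc : Primrec cst) {pt : γ → List α} {l f : γ → List ℕ}
    {as cs : γ → List (List ℕ)} {j : γ → ℕ} (hpt : Primrec pt) (hl : Primrec l) (hf : Primrec f)
    (has : Primrec as) (hcs : Primrec cs) (hj : Primrec j) :
    Primrec fun a => exprB o cst (pt a) (l a) (f a) (as a) (cs a) (j a) :=
  h.psub (p_getD _ (outs_primrec h (p_map (g := fun a => val o cst (pt a)) has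
    (val_primrec h hc (by fun_prop) (by fun_prop))) hl) hj)
    (h.pmul (val_primrec h hc hpt hf) (val_primrec h hc hpt (by fun_prop)))

end primrec

end Pool.Agent.P.MP_5be460_lc
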