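import Pool.Agent.P.MP_5be460_lc.Inner

namespace Pool.Agent.P.MP_5be460_lc

open Finset Module Polynomial

universe u

set_option linter.unusedSectionVars false

variable {F : Type} [Field F] [CharZero F] {Y : Type u} {wt : Y → ℕ}

lemma pr_one1_lie {Z : Type u} {e : FreeAlgebra F (Z × ℕ)} (he : e ∈ lieElt F (Z × ℕ)) :
    pr one1 0 e = 0 := pr_zero_of_lie (fun _ => le_rfl) he

lemma Elim.comm {d k : ℕ} {a z : FreeAlgebra F Y} (h : Elim wt d a) (hk : d ≤ k)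
    (hz : z ∈ lieElt F Y) (hzk : Hom wt k z) (h0 : cm a z = 0) :
    ∃ α : F, z = α • a ∧ (k ≠ d → α = 0) := by
  obtain ⟨Z, j, h1, h2, h3⟩ := h
  obtain ⟨α, e, he, rfl, h4⟩ := h3 k hk z hz hzk
  rw [cm_add_right, cm_smul_right, cm_self, smul_zero, zero_add, ← h2, map_eq_zero_iff j h1] at h0
  exact ⟨α, by rw [shD_inj (pr_one1_lie he) h0, map_zero, add_zero], h4⟩

/-- the standing hypotheses on the leading form of `a`. -/
structure Good (wt : Y → ℕ) (d : ℕ) (a : FreeAlgebra F Y) : Prop where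
  pos : ∀ y, 1 ≤ wt y
  fin : {y | wt y < d}.Finite
  lie : a ∈ lieElt F Y
  hom : Hom wt d a
  ne : a ≠ 0

lemma Good.elim {d : ℕ} {a : FreeAlgebra F Y} (h : Good wt d a) : Elim wt d a :=
  Pool.Agent.P.MP_5be460_lc.elim h.pos h.fin h.lie h.hom h.ne

lemma hom_pos (hwt : ∀ y, 1 ≤ wt y) {k : ℕ} {z : FreeAlgebra F Y} (hz : z ∈ lieElt F Y)
    (hzk : Hom wt k z) (h0 : z ≠ 0) : 1 ≤ k := by
  rcases Nat.eq_zero_or_pos k with rfl | h
  · exact absurd (hzk.symm.trans (pr_zero_of_lie hwt hz)) h0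
  · exact h

lemma Good.one_le {d : ℕ} {a : FreeAlgebra F Y} (h : Good wt d a) : 1 ≤ d :=
  hom_pos h.pos h.lie h.hom h.ne

lemma Good.comm {d k : ℕ} {a z : FreeAlgebra F Y} (h : Good wt d a)
    (hz : z ∈ lieElt F Y) (hzk : Hom wt k z) (h0 : cm a z = 0) :
    ∃ α : F, z = α • a ∧ (k ≠ d → α = 0) := by
  rcases le_or_gt d k with hk | hk
  · exact h.elim.comm hk hz hzk h0
  · by_cases hz0 : z = 0
    · exact ⟨0, by simp [hz0], fun _ => rfl⟩
    · have h1 : Good wt k z := ⟨h.pos, h.fin.subset fun y (hy : wt y < k) => hy.trans hk, hz, hzk, hz0⟩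
      obtain ⟨α, h2, h3⟩ := h1.elim.comm hk.le h.lie h.hom (by rw [cm_swap, h0, neg_zero])
      rw [h3 hk.ne', zero_smul] at h2
      exact absurd h2 h.ne

lemma Lead.lie {n : ℕ} {f g : FreeAlgebra F Y} (h : Lead wt n f g) (hf : f ∈ lieElt F Y) :
    g ∈ lieElt F Y := h.2 ▸ pr_mem_lie n hf

lemma Fil.lead {n : ℕ} {f : FreeAlgebra F Y} (h : Fil wt n f) : Lead wt n f 0 :=
  ⟨h.mono (Nat.le_succ n), h n le_rfl⟩

lemma Good.lead_cm {d n : ℕ} {a a' z g : FreeAlgebra F Y} (h : Good wt d a') (ha : a ∈ lieElt F Y)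
    (haa : Lead wt d a a') (hz : z ∈ lieElt F Y) (hg : Lead wt n (cm a z) g) :
    ∃ z' ∈ lieElt F Y, Hom wt (n - d) z' ∧ g = cm a' z' ∧ (g ≠ 0 → d < n) := by
  by_cases hg0 : g = 0
  · exact ⟨0, zero_mem _, hom_zero _, by simp [hg0], fun h => absurd hg0 h⟩
  have key : ∀ z ∈ lieElt F Y, Lead wt n (cm a z) g → ∀ k z', Lead wt k z z' → cm a' z' ≠ 0 →
      ∃ z' ∈ lieElt F Y, Hom wt (n - d) z' ∧ g = cm a' z' ∧ (g ≠ 0 → d < n) := by
    intro z hz hg k z' h1 h2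
    have h3 := haa.cm h1
    have h4 : n = d + k := by
      by_contra h4
      rcases Nat.lt_or_gt_of_ne h4 with h5 | h5
      · exact h2 (h3.2.symm.trans (hg.1 _ h5))
      · exact hg0 (hg.2.symm.trans (h3.1 _ h5))
    have h5 := hom_pos h.pos (h1.lie hz) h1.hom (by rintro rfl; exact h2 (cm_zero_right _))
    subst h4
    exact ⟨z', h1.lie hz, by simpa using h1.hom, hg.2.symm.trans h3.2, fun _ => by omega⟩
  have hne : ∀ z, Lead wt n (cm a z) g → z ≠ 0 := by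
    rintro _ hg rfl
    exact hg0 (by rw [← hg.2, cm_zero_right, map_zero])
  obtain ⟨k, z', h1, h2⟩ := exists_lead wt (hne z hg)
  by_cases h3 : cm a' z' = 0
  · obtain ⟨α, h4, h5⟩ := h.comm (h1.lie hz) h1.hom h3
    obtain rfl : k = d := by
      by_contra h6
      rw [h5 h6, zero_smul] at h4
      exact h2 h4
    have h6 : cm a (z - α • a) = cm a z := by
      rw [cm_sub_right, cm_smul_right, cm_self, smul_zero, sub_zero]
    rw [← h6] at hg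
    have hz1 : z - α • a ∈ lieElt F Y := sub_mem hz (Submodule.smul_mem _ _ ha)
    obtain ⟨k', z'', h7, h8⟩ := exists_lead wt (hne _ hg)
    refine key _ hz1 hg k' z'' h7 fun h9 => ?_
    obtain ⟨β, h10, h11⟩ := h.comm (h7.lie hz1) h7.hom h9
    by_cases h12 : k' = k
    · subst h12
      refine h8 ?_
      rw [← h7.2, (h1.sub (haa.smul α)).2, h4, sub_self]
    · rw [h11 h12, zero_smul] at h10
      exact h8 h10
  · exact key z hz hg k z' h1 h3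

lemma Elim.exists_maps {d m : ℕ} {a q : FreeAlgebra F Y} (h : Elim wt d a) (hm : d < m)
    (hq : q ∈ lieElt F Y) (hqm : Hom wt m q) (hq0 : q ≠ 0) :
    ∃ (Z : Type u) (j : FreeAlgebra F (Z × ℕ) →ₐ[F] FreeAlgebra F Y) (q' : FreeAlgebra F (Z × ℕ)),
      Function.Injective j ∧ (∀ e, j (shD F Z e) = cm a (j e)) ∧
      (∀ (χ : F[X]) e, j (aeval (shD F Z ^ 2) χ e) = aeval (cmB F _ a ^ 2) χ (j e)) ∧
      pr one1 0 q' = 0 ∧ q' ≠ 0 ∧ j q' = q ∧
      (∀ n, d < n → ∀ f ∈ lieElt F Y, Hom wt n f → ∃ e, pr one1 0 e = 0 ∧ f = j e) ∧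
      (∀ n, d ≤ n → ∀ f ∈ lieElt F Y, Hom wt n f → ∃ e, cm a f = j (shD F Z e)) := by
  obtain ⟨Z, j, h1, h2, h3⟩ := h
  have h4 : ∀ n, d < n → ∀ f ∈ lieElt F Y, Hom wt n f → ∃ e, pr one1 0 e = 0 ∧ f = j e := by
    intro n hn f hf hfn
    obtain ⟨α, e, he, h5, h6⟩ := h3 n hn.le f hf hfn
    exact ⟨e, pr_one1_lie he, by rw [h5, h6 hn.ne', zero_smul, zero_add]⟩
  obtain ⟨q', h5, rfl⟩ := h4 m hm q hq hqm
  refine ⟨Z, j, q', h1, h2, fun χ e => ?_, h5, by rintro rfl; exact hq0 (map_zero _), rfl, h4,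
    fun n hn f hf hfn => ?_⟩
  · exact map_aeval_end j.toLinearMap (D := shD F Z ^ 2) (D' := cmB F _ a ^ 2)
      (fun x => by simp [sq, h2, cmB_apply]) χ e
  · obtain ⟨α, e, -, rfl, -⟩ := h3 n hn f hf hfn
    exact ⟨e, by rw [cm_add_right, cm_smul_right, cm_self, smul_zero, zero_add, h2]⟩

section hom

variable {d m : ℕ} {a q : FreeAlgebra F Y} (h : Elim wt d a) (hm : d < m)
    (hq : q ∈ lieElt F Y) (hqm : Hom wt m q) (hq0 : q ≠ 0)

include h hm hq hqm hq0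

lemma hom_not_range {k : ℕ} {z : FreeAlgebra F Y} (hk : d ≤ k) (hz : z ∈ lieElt F Y)
    (hzk : Hom wt k z) : cm q (cm a q) ≠ cm a z := by
  obtain ⟨Z, j, q', h1, h2, -, h4, h5, rfl, -, h7⟩ := h.exists_maps hm hq hqm hq0
  obtain ⟨e, he⟩ := h7 k hk z hz hzk
  rw [he, ← h2, ← map_cm]
  exact fun h8 => inner_not_range h4 h5 (h1 h8)

lemma hom_pairing {k : ℕ} {z : FreeAlgebra F Y} (hk : d ≤ k) (hz : z ∈ lieElt F Y)
    (hzk : Hom wt k z) {χ : F[X]}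
    (h0 : cm (aeval (cmB F _ a ^ 2) χ (cm q (cm a q))) (cm a (cm q (cm a q))) = cm a z) :
    χ = 0 := by
  obtain ⟨Z, j, q', h1, h2, h3, h4, h5, rfl, -, h7⟩ := h.exists_maps hm hq hqm hq0
  obtain ⟨e, he⟩ := h7 k hk z hz hzk
  rw [he, ← h2, ← map_cm, ← h2, ← h3, ← map_cm] at h0
  exact inner_pairing h4 h5 (h1 h0)

lemma hom_even [IsAlgClosed F] {n k k' : ℕ} {u z z' : FreeAlgebra F Y} (hn : d < n)
    (hu : u ∈ lieElt F Y) (hun : Hom wt n u) (hk : d ≤ k) (hz : z ∈ lieElt F Y)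
    (hzk : Hom wt k z) (hk' : d ≤ k') (hz' : z' ∈ lieElt F Y) (hzk' : Hom wt k' z')
    (h0 : cm u (cm q (cm a q)) = cm a z) (h0' : cm (cm a (cm a u)) (cm q (cm a q)) = cm a z') :
    ∃ χ : F[X], u = aeval (cmB F _ a ^ 2) χ (cm q (cm a q)) := by
  obtain ⟨Z, j, q', h1, h2, h3, h4, h5, rfl, h6, h7⟩ := h.exists_maps hm hq hqm hq0
  obtain ⟨e, he⟩ := h7 k hk z hz hzk
  obtain ⟨e', he'⟩ := h7 k' hk' z' hz' hzk'
  obtain ⟨u', hu', rfl⟩ := h6 n hn u hu hun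
  rw [he, ← h2, ← map_cm, ← map_cm] at h0
  rw [he', ← h2, ← h2, ← h2, ← map_cm, ← map_cm] at h0'
  obtain ⟨χ, hχ⟩ := inner_even h4 h5 hu' (h1 h0) (h1 h0')
  exact ⟨χ, by rw [← h2, ← map_cm, ← h3, ← hχ]⟩

end hom

lemma lead_pow {d M : ℕ} {a a' b b' : FreeAlgebra F Y} (ha : Lead wt d a a') (hb : Lead wt M b b')
    (k : ℕ) : Lead wt (M + 2 * k * d) (((cmB F _ a ^ 2) ^ k) b) (((cmB F _ a' ^ 2) ^ k) b') := by
  induction k with
  | zero => simpa using hb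
  | succ k ih =>
    have h1 : M + 2 * (k + 1) * d = d + (d + (M + 2 * k * d)) := by ring
    rw [h1, pow_succ' _ k, pow_succ' _ k, sq, sq]
    rw [sq, sq] at ih
    exact ha.cm (ha.cm ih)

lemma exists_lead_aeval {d M : ℕ} {a a' b b' : FreeAlgebra F Y} (ha : Lead wt d a a')
    (hb : Lead wt M b b') (n : ℕ) (χ : F[X]) :
    ∃ χ' : F[X], Lead wt n (aeval (cmB F _ a ^ 2) χ' b) (pr wt n (aeval (cmB F _ a' ^ 2) χ b')) := by
  induction χ using Polynomial.induction_on' with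
  | add p q hp hq =>
    obtain ⟨χ, h⟩ := hp
    obtain ⟨χ', h'⟩ := hq
    refine ⟨χ + χ', ?_⟩
    simp only [map_add, LinearMap.add_apply]
    exact h.add h'
  | monomial k c =>
    have h1 := (lead_pow ha hb k).smul c
    have h2 : ∀ a b : FreeAlgebra F Y,
        aeval (cmB F _ a ^ 2) (monomial k c) b = c • ((cmB F _ a ^ 2) ^ k) b := by
      intro a b
      rw [aeval_monomial, Module.End.mul_apply, Module.algebraMap_end_apply]
    rw [h2]
    by_cases hn : n = M + 2 * k * d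
    · refine ⟨monomial k c, ?_⟩
      rw [h2, hn, h1.hom]
      exact h1
    · refine ⟨0, ?_⟩
      rw [h1.hom.pr_ne hn, map_zero, LinearMap.zero_apply]
      exact (hom_zero n).lead

lemma lead_aeval {d M : ℕ} {a a' b b' : FreeAlgebra F Y} (hd : 1 ≤ d) (ha : Lead wt d a a')
    (hb : Lead wt M b b') (χ : F[X]) :
    Lead wt (M + 2 * χ.natDegree * d) (aeval (cmB F _ a ^ 2) χ b)
      (aeval (cmB F _ a' ^ 2) (monomial χ.natDegree χ.leadingCoeff) b') := by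
  rw [aeval_monomial, Module.End.mul_apply, Module.algebraMap_end_apply, aeval_eq_sum_range,
    sum_range_succ, LinearMap.add_apply, LinearMap.smul_apply, ← zero_add (χ.leadingCoeff • _)]
  refine Lead.add (Fil.lead ?_) ((lead_pow ha hb _).smul _)
  rw [LinearMap.sum_apply]
  intro n hn
  rw [map_sum]
  refine sum_eq_zero fun i hi => ?_
  rw [mem_range] at hi
  rw [LinearMap.smul_apply, map_smul, (lead_pow ha hb i).1 n (by nlinarith), smul_zero]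

lemma exists_wt (f : FreeAlgebra F Y) : ∃ (wt : Y → ℕ) (N : ℕ), (∀ y, 1 ≤ wt y) ∧
    {y | wt y < N}.Finite ∧ Fil wt N f := by
  classical
  have key : ∃ (S : Finset Y) (N : ℕ), ∀ S' : Finset Y, S ⊆ S' → ∀ K,
      Fil (fun y => if y ∈ S' then 1 else K) N f := by
    induction f using word_induction with
    | h0 => exact ⟨∅, 0, fun _ _ _ => fil_zero _⟩
    | hw l =>
      refine ⟨l.toFinset, l.length + 1, fun S' hS K => ?_⟩
      have h1 : wtw (fun y => if y ∈ S' then 1 else K) l = l.length := by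
        induction l with
        | nil => rfl
        | cons y l ih =>
          rw [List.toFinset_cons, insert_subset_iff] at hS
          rw [wtw_cons, ih hS.2, if_pos hS.1, List.length_cons, add_comm]
      rw [← h1]
      exact (hom_word l).fil
    | hadd f g hf hg =>
      obtain ⟨S, N, h⟩ := hf
      obtain ⟨S', N', h'⟩ := hg
      exact ⟨S ∪ S', max N N', fun S'' hS K =>
        ((h S'' (union_subset_left hS) K).mono (le_max_left _ _)).add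
          ((h' S'' (union_subset_right hS) K).mono (le_max_right _ _))⟩
    | hsmul c f hf =>
      obtain ⟨S, N, h⟩ := hf
      exact ⟨S, N, fun S' hS K => (h S' hS K).smul c⟩
  obtain ⟨S, N, h⟩ := key
  refine ⟨_, N, fun y => ?_, S.finite_toSet.subset fun y hy => ?_, h S Subset.rfl (N + 1)⟩
  · split_ifs <;> omega
  · by_contra h1
    have h2 : y ∉ S := h1
    simp only [Set.mem_ofPred_eq, if_neg h2] at hy
    omega

lemma exists_good {a : FreeAlgebra F Y} (ha : a ∈ lieElt F Y) (h0 : a ≠ 0) :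
    ∃ (wt : Y → ℕ) (d : ℕ) (a' : FreeAlgebra F Y), Good wt d a' ∧ Lead wt d a a' := by
  obtain ⟨wt, N, h1, h2, h3⟩ := exists_wt a
  obtain ⟨d, a', h4, h5⟩ := exists_lead wt h0
  have h6 : d < N := by
    by_contra h6
    exact h5 (h4.2.symm.trans (h3 d (not_lt.1 h6)))
  exact ⟨wt, d, a', ⟨h1, h2.subset fun y (hy : wt y < d) => hy.trans h6, h4.lie ha, h4.hom, h5⟩, h4⟩

section lie

variable {L : Type*} [LieRing L] [LieAlgebra F L] (ι : L →ₗ[F] FreeAlgebra F Y)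
  (hι : ∀ x y, ι ⁅x, y⁆ = cm (ι x) (ι y)) (hl : ∀ x, ι x ∈ lieElt F Y)
  (hi : Function.Injective ι)

/-- the bracket as a bilinear map. -/
def brB (F : Type) [Field F] (L : Type*) [LieRing L] [LieAlgebra F L] : L →ₗ[F] L →ₗ[F] L :=
  LinearMap.mk₂ F (fun x y => ⁅x, y⁆) add_lie (fun c x y => smul_lie c x y) lie_add
    (fun c x y => lie_smul c x y)

lemma lie_self_aeval (a b : L) (χ : F[X]) :
    ∃ z, ⁅aeval (LieAlgebra.ad F L a ^ 2) χ b, b⁆ = ⁅a, z⁆ :=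
  self_aeval (brB F L) (D := LieAlgebra.ad F L a) (fun x y => leibniz_lie a x y)
    (fun x y => (lie_skew x y).symm) χ b

lemma lie_move_aeval (a x y : L) (χ : F[X]) :
    ∃ z, ⁅aeval (LieAlgebra.ad F L a ^ 2) χ x, y⁆ =
      ⁅x, aeval (LieAlgebra.ad F L a ^ 2) χ y⁆ + ⁅a, z⁆ :=
  move_aeval (brB F L) (D := LieAlgebra.ad F L a) (fun x y => leibniz_lie a x y) χ x y

include hι in
lemma ι_aeval (a b : L) (χ : F[X]) :
    ι (aeval (LieAlgebra.ad F L a ^ 2) χ b) = aeval (cmB F _ (ι a) ^ 2) χ (ι b) :=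
  map_aeval_end ι (fun x => by simp [sq, hι, cmB_apply]) χ b

include hι hl hi

lemma exists_setup {a y : L} (hq : ⁅a, y⁆ ≠ 0) :
    ∃ (wt : Y → ℕ) (d m : ℕ) (a' q' : FreeAlgebra F Y), Good wt d a' ∧ Lead wt d (ι a) a' ∧
      d < m ∧ q' ∈ lieElt F Y ∧ Hom wt m q' ∧ q' ≠ 0 ∧
      Lead wt (m + (d + m)) (ι ⁅⁅a, y⁆, ⁅a, ⁅a, y⁆⁆⁆) (cm q' (cm a' q')) := by
  have ha : ι a ≠ 0 := by
    rw [map_ne_zero_iff ι hi]
    rintro rfl
    exact hq (zero_lie y)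
  obtain ⟨wt, d, a', h1, h2⟩ := exists_good (hl a) ha
  obtain ⟨m, q', h3, h4⟩ := exists_lead wt ((map_ne_zero_iff ι hi).2 hq)
  obtain ⟨-, -, -, -, h5⟩ := h1.lead_cm (hl a) h2 (hl y) (hι a y ▸ h3)
  refine ⟨wt, d, m, a', q', h1, h2, h5 h4, h3.lie (hl _), h3.hom, h4, ?_⟩
  rw [hι, hι a ⁅a, y⁆]
  exact h3.cm (h2.cm h3)

theorem lie_pairing {a y z : L} (hq : ⁅a, y⁆ ≠ 0) {χ : F[X]}
    (h : ⁅aeval (LieAlgebra.ad F L a ^ 2) χ ⁅⁅a, y⁆, ⁅a, ⁅a, y⁆⁆⁆, ⁅a, ⁅⁅a, y⁆, ⁅a, ⁅a, y⁆⁆⁆⁆⁆ =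
      ⁅a, z⁆) : χ = 0 := by
  obtain ⟨wt, d, m, a', q', h1, h2, h3, h4, h5, h6, h7⟩ := exists_setup ι hι hl hi hq
  have h8 := (lead_aeval h1.one_le h2 h7 χ).cm (h2.cm h7)
  rw [← ι_aeval ι hι, ← hι, ← hι, h, hι] at h8
  obtain ⟨z', h9, h10, h11, -⟩ := h1.lead_cm (hl a) h2 (hl z) h8
  have h12 := hom_pairing h1.elim h3 h4 h5 h6 (by omega) h9 h10 h11
  rwa [monomial_eq_zero_iff, leadingCoeff_eq_zero] at h12

theorem lie_even [IsAlgClosed F] {a y u v z z' : L} {α : F} (hq : ⁅a, y⁆ ≠ 0)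
    (hu : u = α • ⁅⁅a, y⁆, ⁅a, ⁅a, y⁆⁆⁆ + ⁅a, v⁆) (h : ⁅u, ⁅⁅a, y⁆, ⁅a, ⁅a, y⁆⁆⁆⁆ = ⁅a, z⁆)
    (h' : ⁅⁅a, ⁅a, u⁆⁆, ⁅⁅a, y⁆, ⁅a, ⁅a, y⁆⁆⁆⁆ = ⁅a, z'⁆) :
    ∃ χ : F[X], u = aeval (LieAlgebra.ad F L a ^ 2) χ ⁅⁅a, y⁆, ⁅a, ⁅a, y⁆⁆⁆ := by
  obtain ⟨wt, d, m, a', q', h1, h2, h3, h4, h5, h6, h7⟩ := exists_setup ι hι hl hi hq
  generalize ⁅⁅a, y⁆, ⁅a, ⁅a, y⁆⁆⁆ = b at *
  obtain ⟨n, hn, -⟩ := exists_fil wt (ι u)
  induction n generalizing u v z z' α with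
  | zero => exact ⟨0, by simpa using (map_eq_zero_iff ι hi).1 hn.eq_zero⟩
  | succ n ih =>
    by_cases h8 : pr wt n (ι u) = 0
    · exact ih hu h h' (hn.of_pr h8)
    have h9 : Lead wt n (ι u) (pr wt n (ι u)) := ⟨hn, rfl⟩
    generalize pr wt n (ι u) = u' at h8 h9
    have hdn : d < n := by
      by_contra hdn
      have h10 := (Fil.lead (h9.1.mono (by omega : n + 1 ≤ m + (d + m)))).sub (h7.smul α)
      rw [← map_smul, ← map_sub, hu, add_sub_cancel_left, hι] at h10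
      obtain ⟨w, h11, h12, h13, -⟩ := h1.lead_cm (hl a) h2 (hl v) h10
      by_cases hα : α = 0
      · rw [hu, hα, zero_smul, zero_add, hι] at h9
        obtain ⟨-, -, -, -, h14⟩ := h1.lead_cm (hl a) h2 (hl v) h9
        exact hdn (h14 h8)
      · refine hom_not_range h1.elim h3 h4 h5 h6 (by omega)
          (Submodule.smul_mem _ (-α⁻¹) h11) (h12.smul _) ?_
        rw [cm_smul_right, ← h13, zero_sub, smul_neg, neg_smul, neg_neg, smul_smul,
          inv_mul_cancel₀ hα, one_smul]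
    have h10 := h9.cm h7
    rw [← hι, h, hι] at h10
    obtain ⟨w, h11, h12, h13, -⟩ := h1.lead_cm (hl a) h2 (hl z) h10
    have h14 := (h2.cm (h2.cm h9)).cm h7
    rw [← hι, ← hι, ← hι, h', hι] at h14
    obtain ⟨w', h15, h16, h17, -⟩ := h1.lead_cm (hl a) h2 (hl z') h14
    obtain ⟨χ, hχ⟩ := hom_even h1.elim h3 h4 h5 h6 hdn (h9.lie (hl u)) h9.hom (by omega) h11 h12
      (by omega) h15 h16 h13 h17
    obtain ⟨χ', hχ'⟩ := exists_lead_aeval h2 h7 n χ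
    rw [← hχ, h9.hom, ← ι_aeval ι hι] at hχ'
    have h18 := h9.sub hχ'
    rw [← map_sub, sub_self] at h18
    obtain ⟨t, ht⟩ := lie_self_aeval a b χ'
    obtain ⟨t', ht'⟩ := lie_self_aeval a b (X * χ')
    rw [← sq_aeval] at ht'
    simp only [LieAlgebra.ad_apply] at ht'
    have h21 : u - aeval (LieAlgebra.ad F L a ^ 2) χ' b = (α - χ'.coeff 0) • b +
        ⁅a, v - ⁅a, aeval (LieAlgebra.ad F L a ^ 2) χ'.divX b⁆⁆ := by
      have h20 := sq_aeval (LieAlgebra.ad F L a) χ'.divX b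
      simp only [LieAlgebra.ad_apply] at h20
      conv_lhs => rw [← X_mul_divX_add χ', map_add, LinearMap.add_apply, ← h20, aeval_C,
        Module.algebraMap_end_apply, hu]
      rw [sub_smul, lie_sub]
      abel
    obtain ⟨χ'', h19⟩ := ih (z := z - t) (z' := z' - t') h21
      (by rw [sub_lie, h, ht, lie_sub]) (by rw [lie_sub, lie_sub, sub_lie, h', ht', lie_sub])
      (h18.1.of_pr h18.2)
    exact ⟨χ'' + χ', by rw [map_add, LinearMap.add_apply, ← h19, sub_add_cancel]⟩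

end lie

end Pool.Agent.P.MP_5be460_lc
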