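import Pool.Agent.P.MP_5be460_lc.Machine

namespace Pool.Agent.P.MP_5be460_lc

open Finset Pool.Agent.Lib.PrimrecProp

/-- the operations of a commutative ring. -/
def ringOps (R : Type) [CommRing R] : Ops R := ⟨0, 1, (· + ·), (· * ·), (· - ·)⟩

/-- degree bounds. -/
def degOps : Ops ℕ := ⟨0, 0, (· + ·), (· + ·), (· + ·)⟩

/-- rational numbers as triples of natural numbers. -/
def triOps : Ops (ℕ × ℕ × ℕ) where
  zero := (0, 0, 0)
  one := (1, 0, 0)
  add x y := (x.1 * (y.2.2 + 1) + y.1 * (x.2.2 + 1), x.2.1 * (y.2.2 + 1) + y.2.1 * (x.2.2 + 1),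
    x.2.2 * y.2.2 + x.2.2 + y.2.2)
  mul x y := (x.1 * y.1 + x.2.1 * y.2.1, x.1 * y.2.1 + x.2.1 * y.1, x.2.2 * y.2.2 + x.2.2 + y.2.2)
  sub x y := (x.1 * (y.2.2 + 1) + y.2.1 * (x.2.2 + 1), x.2.1 * (y.2.2 + 1) + y.1 * (x.2.2 + 1),
    x.2.2 * y.2.2 + x.2.2 + y.2.2)

lemma degOps_pr : degOps.PR := by constructor <;> (simp only [degOps]; fun_prop)

lemma triOps_pr : triOps.PR := by constructor <;> (simp only [triOps]; fun_prop)

/-- the rational number attached to a triple. -/
def toQ (x : ℕ × ℕ × ℕ) : ℚ := ((x.1 : ℚ) - x.2.1) / (x.2.2 + 1)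

lemma toQ_hom : OpsHom triOps (ringOps ℚ) toQ := by
  refine ⟨by simp [toQ, triOps, ringOps], by simp [toQ, triOps, ringOps], fun x y => ?_,
    fun x y => ?_, fun x y => ?_⟩ <;>
  · simp only [toQ, triOps, ringOps]
    have h1 : (x.2.2 : ℚ) * y.2.2 + x.2.2 + y.2.2 + 1 = (x.2.2 + 1) * (y.2.2 + 1) := by ring
    push_cast
    rw [h1]
    field_simp
    ring

lemma toQ_eq_zero (x : ℕ × ℕ × ℕ) : toQ x = 0 ↔ x.1 = x.2.1 := by
  have h : (x.2.2 : ℚ) + 1 ≠ 0 := by positivity
  simp [toQ, h, sub_eq_zero]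

lemma ring_hom {R S : Type} [CommRing R] [CommRing S] {G : Type*} [FunLike G R S]
    [RingHomClass G R S] (φ : G) : OpsHom (ringOps R) (ringOps S) φ :=
  ⟨map_zero φ, map_one φ, map_add φ, map_mul φ, map_sub φ⟩

/-- the constants in a rational algebra. -/
noncomputable def cstR (R : Type) [CommRing R] [Algebra ℚ R] (n : ℕ) : R :=
  algebraMap ℚ R (1 / ((n : ℚ) + 1))

/-- the constants as triples. -/
def cstT (n : ℕ) : ℕ × ℕ × ℕ := (1, 0, n)

lemma cstT_primrec : Primrec cstT := by unfold cstT; fun_prop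

lemma toQ_cstT : (fun n => toQ (cstT n)) = cstR ℚ := by
  funext n; simp [toQ, cstT, cstR]

lemma alg_cstR {R S : Type} [CommRing R] [CommRing S] [Algebra ℚ R] [Algebra ℚ S]
    (φ : R →ₐ[ℚ] S) : (fun n => φ (cstR R n)) = cstR S := by
  funext n; simp only [cstR, AlgHom.commutes]

/-- all lists of length `m` with entries at most `D`. -/
def grid (m D : ℕ) : List (List ℕ) :=
  (List.range m).foldr (fun _ L => L.flatMap fun p => (List.range (D + 1)).map fun x => x :: p) [[]]

lemma mem_grid (m D : ℕ) (p : List ℕ) : p ∈ grid m D ↔ p.length = m ∧ ∀ x ∈ p, x ≤ D := by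
  have h : ∀ l : List ℕ, ∀ p : List ℕ, p ∈ l.foldr (fun _ L => L.flatMap fun p =>
      (List.range (D + 1)).map fun x => x :: p) [[]] ↔ p.length = l.length ∧ ∀ x ∈ p, x ≤ D := by
    intro l
    induction l with
    | nil =>
      intro p
      rcases p with _ | ⟨x, p⟩ <;> simp
    | cons a l ih =>
      intro p
      simp only [List.foldr_cons, List.mem_flatMap, List.mem_map, List.mem_range, ih]
      rcases p with _ | ⟨x, p⟩
      · simp
      · simp only [List.cons.injEq, List.length_cons, Nat.add_right_cancel_iff, List.mem_cons,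
          forall_eq_or_imp]
        constructor
        · rintro ⟨q, ⟨h1, h2⟩, y, h3, rfl, rfl⟩
          exact ⟨h1, by omega, h2⟩
        · rintro ⟨h1, h2, h3⟩
          exact ⟨p, ⟨h1, h3⟩, x, by omega, rfl, rfl⟩
  simpa [grid] using h (List.range m) p

/-- the identity test. -/
def pit (m D : ℕ) (e : List (ℕ × ℕ × ℕ) → ℕ × ℕ × ℕ) : Bool :=
  (grid m D).all fun p =>
    eqb (e (p.map fun x => (x, 0, 0))).1 (e (p.map fun x => (x, 0, 0))).2.1

lemma pit_primrec {γ : Type} [Primcodable γ] {m D : γ → ℕ}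
    {e : γ → List (ℕ × ℕ × ℕ) → ℕ × ℕ × ℕ} (hm : Primrec m) (hD : Primrec D)
    (he : Primrec fun p : γ × List (ℕ × ℕ × ℕ) => e p.1 p.2) :
    Primrec fun a => pit (m a) (D a) (e a) := by
  have h1 : Primrec fun p : γ × List ℕ => e p.1 (p.2.map fun x => (x, 0, 0)) :=
    he.comp (g := fun p : γ × List ℕ => (p.1, p.2.map fun x => (x, 0, 0))) (by fun_prop)
  have h2 : Primrec fun a => grid (m a) (D a) := by unfold grid; fun_prop
  exact p_all (g := fun a (p : List ℕ) => eqb (e a (p.map fun x => (x, 0, 0))).1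
    (e a (p.map fun x => (x, 0, 0))).2.1) h2
    (p_eqb (p_fst h1) (p_fst (p_snd h1)))

/-- natural expressions. -/
def Natural (E : ∀ {α : Type}, Ops α → (ℕ → α) → List α → α) : Prop :=
  ∀ {α β : Type} {o : Ops α} {o' : Ops β} {φ : α → β}, OpsHom o o' φ →
    ∀ (cst : ℕ → α) (pt : List α), φ (E o cst pt) = E o' (fun n => φ (cst n)) (pt.map φ)

/-- the vector of ones. -/
def ones (m : ℕ) : List ℕ := (List.range m).map fun _ => 1

lemma toQ_nat (p : List ℕ) : (p.map fun x => ((x, 0, 0) : ℕ × ℕ × ℕ)).map toQ =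
    p.map fun x : ℕ => (x : ℚ) := by
  simp [toQ]

lemma pit_complete {E : ∀ {α : Type}, Ops α → (ℕ → α) → List α → α} (hE : Natural E) {m : ℕ}
    (h : ∀ pt : List ℚ, pt.length = m → E (ringOps ℚ) (cstR ℚ) pt = 0) (D : ℕ) :
    pit m D (E triOps cstT) = true := by
  simp only [pit, List.all_eq_true, eqb_iff, ← toQ_eq_zero]
  intro p hp
  rw [hE toQ_hom, toQ_cstT]
  exact h _ (by simpa using ((mem_grid m D p).1 hp).1)

open MvPolynomial in
lemma pit_sound {E : ∀ {α : Type}, Ops α → (ℕ → α) → List α → α} (hE : Natural E) {m : ℕ}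
    (h : pit m (E degOps (fun _ => 0) (ones m)) (E triOps cstT) = true) (R : Type) [CommRing R]
    [Algebra ℚ R] (pt : List R) (hpt : pt.length = m) : E (ringOps R) (cstR R) pt = 0 := by
  let A := MvPolynomial (Fin m) ℚ
  have hev : ∀ (R : Type) [CommRing R] [Algebra ℚ R] (x : Fin m → R),
      aeval x (E (ringOps A) (cstR A) (List.ofFn X)) = E (ringOps R) (cstR R) (List.ofFn x) := by
    intro R _ _ x
    rw [hE (ring_hom (aeval x : A →ₐ[ℚ] R)), alg_cstR, List.map_ofFn]
    congr 2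
    funext i
    simp
  have hdeg : (E (ringOps A) (cstR A) (List.ofFn X)).totalDegree ≤
      E degOps (fun _ => 0) (ones m) := by
    let o : Ops {p : A × ℕ // p.1.totalDegree ≤ p.2} :=
      { zero := ⟨(0, 0), by simp⟩
        one := ⟨(1, 0), by simp⟩
        add := fun x y => ⟨(x.1.1 + y.1.1, x.1.2 + y.1.2), (totalDegree_add _ _).trans
          (max_le (x.2.trans (Nat.le_add_right _ _)) (y.2.trans (Nat.le_add_left _ _)))⟩
        mul := fun x y => ⟨(x.1.1 * y.1.1, x.1.2 + y.1.2), (totalDegree_mul _ _).trans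
          (add_le_add x.2 y.2)⟩
        sub := fun x y => ⟨(x.1.1 - y.1.1, x.1.2 + y.1.2), (totalDegree_sub _ _).trans
          (max_le (x.2.trans (Nat.le_add_right _ _)) (y.2.trans (Nat.le_add_left _ _)))⟩ }
    have h1 : OpsHom o (ringOps A) fun x => x.1.1 :=
      ⟨rfl, rfl, fun _ _ => rfl, fun _ _ => rfl, fun _ _ => rfl⟩
    have h2 : OpsHom o degOps fun x => x.1.2 :=
      ⟨rfl, rfl, fun _ _ => rfl, fun _ _ => rfl, fun _ _ => rfl⟩
    let c : ℕ → {p : A × ℕ // p.1.totalDegree ≤ p.2} := fun n =>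
      ⟨(cstR A n, 0), (totalDegree_C _).le⟩
    let q : List {p : A × ℕ // p.1.totalDegree ≤ p.2} :=
      List.ofFn fun i : Fin m => ⟨(X i, 1), (totalDegree_X i).le⟩
    have h3 := (E o c q).2
    rw [hE h1, hE h2, List.map_ofFn, List.map_ofFn] at h3
    have h4 : ones m = List.ofFn fun _ : Fin m => 1 := by simp [ones]
    rw [h4]
    exact h3
  have h0 : E (ringOps A) (cstR A) (List.ofFn X) = 0 := by
    refine eq_zero_of_eval_zero_at_prod_finset _
      (fun _ => (range (E degOps (fun _ => 0) (ones m) + 1)).image Nat.cast) (fun i => ?_) ?_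
    · rw [card_image_of_injective _ Nat.cast_injective, card_range]
      exact Nat.lt_succ_of_le ((degreeOf_le_totalDegree _ i).trans hdeg)
    · intro x hx
      simp only [mem_image, mem_range] at hx
      choose y hy hy' using hx
      simp only [pit, List.all_eq_true, eqb_iff, ← toQ_eq_zero] at h
      have h1 := h (List.ofFn y) ((mem_grid _ _ _).2 ⟨by simp, by
        simpa [List.mem_ofFn'] using fun i => Nat.le_of_lt_succ (hy i)⟩)
      rw [hE toQ_hom, toQ_cstT, toQ_nat, List.map_ofFn] at h1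
      rw [← coe_aeval_eq_eval]
      refine (hev ℚ x).trans ?_
      rw [← h1]
      congr 2
      exact funext fun i => (hy' i).symm
  subst hpt
  have h1 := hev R pt.get
  rw [h0, map_zero, List.ofFn_get] at h1
  exact h1.symm

section express

variable {R : Type} [CommRing R] [Algebra ℚ R]

/-- elements given by certificate terms. -/
def Ex (pt : List R) (r : R) : Prop := ∃ l : List ℕ, ∀ rest,
  stk (ringOps R) (sym (ringOps R) (cstR R) pt) (fun _ => (ringOps R).zero) (l ++ rest) =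
    r :: stk (ringOps R) (sym (ringOps R) (cstR R) pt) (fun _ => (ringOps R).zero) rest

lemma Ex.exists_val {pt : List R} {r : R} (h : Ex pt r) :
    ∃ l, val (ringOps R) (cstR R) pt l = r := by
  obtain ⟨l, h⟩ := h
  refine ⟨l, ?_⟩
  have h1 := h []
  rw [List.append_nil] at h1
  rw [val, h1]
  rfl

lemma stepS_sym {α : Type} (o : Ops α) (r y : α) {c : ℕ} (hc : 12 ≤ c) (S : List α) :
    stepS o r y c S = r :: S := by
  have h : ∀ k < 12, eqb c k = false := fun k hk => by simp [eqb]; omega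
  simp [stepS, h]

lemma ex_all (pt : List R) {r : R} (hr : r ∈ Algebra.adjoin ℚ {x | x ∈ pt}) : Ex pt r := by
  have h0 : Ex pt 0 := ⟨[0], fun rest => by rw [List.cons_append, stk_cons]; rfl⟩
  have h1 : Ex pt 1 := ⟨[1], fun rest => by rw [List.cons_append, stk_cons]; rfl⟩
  have hadd : ∀ x y, Ex pt x → Ex pt y → Ex pt (x + y) := by
    rintro x y ⟨l, hl⟩ ⟨l', hl'⟩
    exact ⟨2 :: (l ++ l'), fun rest => by
      rw [List.cons_append, stk_cons, List.append_assoc, hl, hl']; rfl⟩
  have hmul : ∀ x y, Ex pt x → Ex pt y → Ex pt (x * y) := by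
    rintro x y ⟨l, hl⟩ ⟨l', hl'⟩
    exact ⟨3 :: (l ++ l'), fun rest => by
      rw [List.cons_append, stk_cons, List.append_assoc, hl, hl']; rfl⟩
  have hnot : ∀ x, Ex pt x → Ex pt (1 - x) := by
    rintro x ⟨l, hl⟩
    exact ⟨10 :: l, fun rest => by rw [List.cons_append, stk_cons, hl]; rfl⟩
  let S : Subring R :=
    { carrier := {r | Ex pt r}
      zero_mem' := h0
      one_mem' := h1
      add_mem' := fun {x y} => hadd x y
      mul_mem' := fun {x y} => hmul x y
      neg_mem' := fun {x} hx => by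
        have h := hnot _ (hadd _ _ h1 hx)
        rwa [sub_add_cancel_left] at h }
  induction hr using Algebra.adjoin_induction with
  | mem x hx =>
    obtain ⟨i, hi, rfl⟩ := List.getElem_of_mem hx
    refine ⟨[2 * i + 12], fun rest => ?_⟩
    rw [List.cons_append, stk_cons, stepS_sym _ _ _ (by omega)]
    have e1 : (2 * i + 12) % 2 = 0 := by omega
    have e2 : (2 * i + 12) / 2 - 6 = i := by omega
    simp [sym, e1, e2, eqb, hi]
  | algebraMap q =>
    have h2 : Ex pt (cstR R (q.den - 1)) := by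
      refine ⟨[2 * (q.den - 1) + 13], fun rest => ?_⟩
      rw [List.cons_append, stk_cons, stepS_sym _ _ _ (by omega)]
      have e1 : (2 * (q.den - 1) + 13) % 2 = 1 := by omega
      have e2 : (2 * (q.den - 1) + 13) / 2 - 6 = q.den - 1 := by omega
      simp [sym, e1, e2, eqb]
    have h3 : algebraMap ℚ R q = (q.num : R) * cstR R (q.den - 1) := by
      rw [cstR, ← map_intCast (algebraMap ℚ R), ← map_mul, Nat.cast_sub q.den_pos, Nat.cast_one,
        sub_add_cancel, mul_one_div, Rat.num_div_den]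
    rw [h3]
    exact hmul _ _ (intCast_mem S q.num) h2
  | add x y _ _ hx hy => exact hadd x y hx hy
  | mul x y _ _ hx hy => exact hmul x y hx hy

end express

end Pool.Agent.P.MP_5be460_lc
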