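import Pool.Agent.P.MP_5be460_lc.Undec
import Pool.Agent.P.MP_5be460_lc.Decide

namespace Pool.Agent.P.MP_5be460_lc.VariantUniversalUndecidable

open Pool.Agent.P.MP_5be460_lc

/-- Over an algebraically closed field of characteristic zero (for instance `ℂ`), the universal
theory of the field is decidable, while the universal theory of every free Lie algebra of rank at
least two over it is undecidable. -/
theorem result (F : Type) [Field F] [CharZero F] [IsAlgClosed F] (X : Type) [Nontrivial X] :
    FieldUnivDecidable F ∧ ¬LieUnivDecidable F (FreeLieAlgebra F X) :=
  ⟨field_decidable F, lie_undecidable F X⟩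

end Pool.Agent.P.MP_5be460_lc.VariantUniversalUndecidable
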