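import Mathlib

namespace Pool.Agent.P.MP_5be460_lc

open Finset Module

universe u

variable {F : Type} [Field F] {Y : Type u}

/-- the monomial attached to a word. -/
noncomputable def word (F : Type) [Field F] (l : List Y) : FreeAlgebra F Y :=
  (l.map (FreeAlgebra.ι F)).prod

@[simp] lemma word_nil : word F ([] : List Y) = 1 := rfl

lemma word_cons (y : Y) (l : List Y) : word F (y :: l) = FreeAlgebra.ι F y * word F l := by
  simp [word]

lemma word_single (y : Y) : word F [y] = FreeAlgebra.ι F y := by simp [word]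

lemma word_append (l l' : List Y) : word F (l ++ l') = word F l * word F l' := by
  simp [word]

/-- the basis of words. -/
noncomputable def wb (F : Type) [Field F] (Y : Type u) : Basis (List Y) F (FreeAlgebra F Y) :=
  (FreeAlgebra.basisFreeMonoid F Y).reindex FreeMonoid.toList

lemma wb_apply (l : List Y) : wb F Y l = word F l := by
  simp only [wb, Basis.reindex_apply, FreeAlgebra.basisFreeMonoid, Basis.map_apply,
    Finsupp.coe_basisSingleOne]
  rw [LinearEquiv.symm_apply_eq]
  induction l with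
  | nil => simp [MonoidAlgebra.one_def]
  | cons y l ih =>
    simp only [LinearEquiv.trans_apply, AlgEquiv.toLinearEquiv_apply] at ih ⊢
    rw [word_cons, map_mul]
    have h1 : (FreeAlgebra.equivMonoidAlgebraFreeMonoid (word F l) :
        MonoidAlgebra F (FreeMonoid Y)) = MonoidAlgebra.single (FreeMonoid.ofList l) 1 := by
      apply MonoidAlgebra.coeff_injective
      exact ih.symm
    have h2 : (FreeAlgebra.equivMonoidAlgebraFreeMonoid (FreeAlgebra.ι F y) :
        MonoidAlgebra F (FreeMonoid Y)) = MonoidAlgebra.single (FreeMonoid.of y) 1 := by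
      simp [FreeAlgebra.equivMonoidAlgebraFreeMonoid]
    rw [h1, h2, MonoidAlgebra.single_mul_single, mul_one]
    rfl

/-- the linear map with prescribed values on words. -/
noncomputable def onWords {V : Type*} [AddCommGroup V] [Module F V] (g : List Y → V) :
    FreeAlgebra F Y →ₗ[F] V := (wb F Y).constr F g

@[simp] lemma onWords_word {V : Type*} [AddCommGroup V] [Module F V] (g : List Y → V)
    (l : List Y) : onWords g (word F l) = g l := by
  rw [← wb_apply, onWords, Basis.constr_basis]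

lemma word_ext {V : Type*} [AddCommGroup V] [Module F V] {f g : FreeAlgebra F Y →ₗ[F] V}
    (h : ∀ l, f (word F l) = g (word F l)) : f = g :=
  (wb F Y).ext fun l => by rw [wb_apply, h]

lemma word_induction {P : FreeAlgebra F Y → Prop} (h0 : P 0) (hw : ∀ l, P (word F l))
    (hadd : ∀ f g, P f → P g → P (f + g)) (hsmul : ∀ (c : F) f, P f → P (c • f))
    (f : FreeAlgebra F Y) : P f := by
  have hf : f ∈ Submodule.span F (Set.range (wb F Y)) := by rw [(wb F Y).span_eq]; trivial
  induction hf using Submodule.span_induction with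
  | mem x hx => obtain ⟨l, rfl⟩ := hx; rw [wb_apply]; exact hw l
  | zero => exact h0
  | add x y _ _ hx hy => exact hadd x y hx hy
  | smul c x _ hx => exact hsmul c x hx

/-- weight of a word. -/
def wtw (wt : Y → ℕ) (l : List Y) : ℕ := (l.map wt).sum

@[simp] lemma wtw_nil (wt : Y → ℕ) : wtw wt [] = 0 := rfl

@[simp] lemma wtw_cons (wt : Y → ℕ) (y : Y) (l : List Y) : wtw wt (y :: l) = wt y + wtw wt l := by
  simp [wtw]

@[simp] lemma wtw_append (wt : Y → ℕ) (l l' : List Y) :
    wtw wt (l ++ l') = wtw wt l + wtw wt l' := by simp [wtw]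

@[simp] lemma wtw_one (l : List Y) : wtw (fun _ => 1) l = l.length := by
  induction l with
  | nil => rfl
  | cons y l ih => simp [ih, add_comm]

/-- projection to the component of weight `n`. -/
noncomputable def pr (wt : Y → ℕ) (n : ℕ) : FreeAlgebra F Y →ₗ[F] FreeAlgebra F Y :=
  onWords fun l => if wtw wt l = n then word F l else 0

lemma pr_word (wt : Y → ℕ) (n : ℕ) (l : List Y) :
    pr wt n (word F l) = if wtw wt l = n then word F l else 0 := onWords_word _ _

/-- homogeneous of weight `n`. -/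
def Hom (wt : Y → ℕ) (n : ℕ) (f : FreeAlgebra F Y) : Prop := pr wt n f = f

/-- all components have weight `< n`. -/
def Fil (wt : Y → ℕ) (n : ℕ) (f : FreeAlgebra F Y) : Prop := ∀ i, n ≤ i → pr wt i f = 0

variable {wt : Y → ℕ}

lemma pr_pr (m n : ℕ) (f : FreeAlgebra F Y) :
    pr wt n (pr wt m f) = if n = m then pr wt m f else 0 := by
  have : (pr wt n).comp (pr wt m) = if n = m then pr (F := F) wt m else 0 := by
    refine word_ext fun l => ?_
    simp only [LinearMap.comp_apply, pr_word]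
    by_cases h1 : wtw wt l = m <;> by_cases h2 : n = m <;> simp_all [pr_word, eq_comm]
  have h := LinearMap.congr_fun this f
  rw [LinearMap.comp_apply] at h
  rw [h]
  split_ifs <;> rfl

lemma hom_pr (n : ℕ) (f : FreeAlgebra F Y) : Hom wt n (pr wt n f) := by
  unfold Hom; rw [pr_pr, if_pos rfl]

lemma Hom.pr_ne {n i : ℕ} {f : FreeAlgebra F Y} (hf : Hom wt n f) (h : i ≠ n) : pr wt i f = 0 := by
  rw [← hf, pr_pr, if_neg h]

lemma Hom.eq_zero {m n : ℕ} {f : FreeAlgebra F Y} (hf : Hom wt n f) (hf' : Hom wt m f)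
    (h : m ≠ n) : f = 0 := by rw [← hf', hf.pr_ne h]

lemma hom_zero (n : ℕ) : Hom wt n (0 : FreeAlgebra F Y) := map_zero _

lemma Hom.add {n : ℕ} {f g : FreeAlgebra F Y} (hf : Hom wt n f) (hg : Hom wt n g) :
    Hom wt n (f + g) := by unfold Hom at *; rw [map_add, hf, hg]

lemma Hom.sub {n : ℕ} {f g : FreeAlgebra F Y} (hf : Hom wt n f) (hg : Hom wt n g) :
    Hom wt n (f - g) := by unfold Hom at *; rw [map_sub, hf, hg]

lemma Hom.smul {n : ℕ} {f : FreeAlgebra F Y} (c : F) (hf : Hom wt n f) :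
    Hom wt n (c • f) := by unfold Hom at *; rw [map_smul, hf]

lemma hom_word (l : List Y) : Hom wt (wtw wt l) (word F l) := by
  unfold Hom; rw [pr_word, if_pos rfl]

lemma hom_ι (y : Y) : Hom wt (wt y) (FreeAlgebra.ι F y) := by
  simpa [word_single] using hom_word (F := F) (wt := wt) [y]

lemma hom_one : Hom wt 0 (1 : FreeAlgebra F Y) := hom_word []

lemma Hom.induction {n : ℕ} {P : FreeAlgebra F Y → Prop} (h0 : P 0)
    (hw : ∀ l, wtw wt l = n → P (word F l))
    (hadd : ∀ f g, P f → P g → P (f + g)) (hsmul : ∀ (c : F) f, P f → P (c • f))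
    {f : FreeAlgebra F Y} (hf : Hom wt n f) : P f := by
  rw [← hf]
  clear hf
  induction f using word_induction with
  | h0 => rw [map_zero]; exact h0
  | hw l => rw [pr_word]; split_ifs with h; exacts [hw l h, h0]
  | hadd f g hf hg => rw [map_add]; exact hadd _ _ hf hg
  | hsmul c f hf => rw [map_smul]; exact hsmul _ _ hf

lemma Hom.mul {m n : ℕ} {f g : FreeAlgebra F Y} (hf : Hom wt m f) (hg : Hom wt n g) :
    Hom wt (m + n) (f * g) := by
  refine hf.induction (P := fun f => Hom wt (m + n) (f * g)) (by simpa using hom_zero _)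
    (fun l hl => ?_) (fun _ _ h1 h2 => by rw [add_mul]; exact h1.add h2)
    (fun c _ h => by rw [smul_mul_assoc]; exact h.smul c)
  refine hg.induction (P := fun g => Hom wt (m + n) (word F l * g)) (by simpa using hom_zero _)
    (fun l' hl' => ?_) (fun _ _ h1 h2 => by rw [mul_add]; exact h1.add h2)
    (fun c _ h => by rw [mul_smul_comm]; exact h.smul c)
  rw [← word_append, ← hl, ← hl', ← wtw_append]
  exact hom_word _

lemma Fil.mono {m n : ℕ} {f : FreeAlgebra F Y} (hf : Fil wt m f) (h : m ≤ n) : Fil wt n f :=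
  fun i hi => hf i (h.trans hi)

lemma fil_zero (n : ℕ) : Fil wt n (0 : FreeAlgebra F Y) := fun _ _ => map_zero _

lemma Fil.add {n : ℕ} {f g : FreeAlgebra F Y} (hf : Fil wt n f) (hg : Fil wt n g) :
    Fil wt n (f + g) := fun i hi => by rw [map_add, hf i hi, hg i hi, add_zero]

lemma Fil.sub {n : ℕ} {f g : FreeAlgebra F Y} (hf : Fil wt n f) (hg : Fil wt n g) :
    Fil wt n (f - g) := fun i hi => by rw [map_sub, hf i hi, hg i hi, sub_zero]

lemma Fil.smul {n : ℕ} {f : FreeAlgebra F Y} (c : F) (hf : Fil wt n f) :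
    Fil wt n (c • f) := fun i hi => by rw [map_smul, hf i hi, smul_zero]

lemma Hom.fil {n : ℕ} {f : FreeAlgebra F Y} (hf : Hom wt n f) : Fil wt (n + 1) f :=
  fun _ hi => hf.pr_ne (by omega)

lemma Fil.of_pr {n : ℕ} {f : FreeAlgebra F Y} (hf : Fil wt (n + 1) f) (h : pr wt n f = 0) :
    Fil wt n f := fun i hi => by
  rcases hi.eq_or_lt with rfl | hlt
  exacts [h, hf i hlt]

lemma exists_fil (wt : Y → ℕ) (f : FreeAlgebra F Y) :
    ∃ n, Fil wt n f ∧ ∑ i ∈ range n, pr wt i f = f := by
  have key : ∃ n, Fil wt n f ∧ ∀ n', n ≤ n' → ∑ i ∈ range n', pr wt i f = f := by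
    induction f using word_induction with
    | h0 => exact ⟨0, fil_zero _, by simp⟩
    | hw l =>
      refine ⟨_, (hom_word l).fil, fun n' hn' => ?_⟩
      simp only [pr_word]
      rw [sum_ite_eq, if_pos (mem_range.2 hn')]
    | hadd f g hf hg =>
      obtain ⟨m, h1, h2⟩ := hf
      obtain ⟨n, h3, h4⟩ := hg
      refine ⟨max m n, (h1.mono (le_max_left _ _)).add (h3.mono (le_max_right _ _)),
        fun n' hn' => ?_⟩
      simp only [map_add, sum_add_distrib]
      rw [h2 n' (le_of_max_le_left hn'), h4 n' (le_of_max_le_right hn')]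
    | hsmul c f hf =>
      obtain ⟨m, h1, h2⟩ := hf
      refine ⟨m, h1.smul c, fun n' hn' => ?_⟩
      simp only [map_smul, ← smul_sum]
      rw [h2 n' hn']
  obtain ⟨n, h1, h2⟩ := key
  exact ⟨n, h1, h2 n le_rfl⟩

lemma Fil.eq_zero {f : FreeAlgebra F Y} (hf : Fil wt 0 f) : f = 0 := by
  obtain ⟨n, -, h⟩ := exists_fil wt f
  rw [← h]
  exact sum_eq_zero fun i _ => hf i (Nat.zero_le i)

lemma Fil.sum_eq {n : ℕ} {f : FreeAlgebra F Y} (hf : Fil wt n f) :
    ∑ i ∈ range n, pr wt i f = f := by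
  rw [← sub_eq_zero]
  apply Fil.eq_zero (wt := wt)
  intro i _
  rw [map_sub, map_sum]
  simp only [pr_pr]
  rw [sum_ite_eq]
  split_ifs with h
  · rw [sub_self]
  · rw [hf i (not_lt.1 (mt mem_range.2 h)), sub_zero]

/-- `g` is the component of weight `n` of `f`, and `f` has no higher component. -/
def Lead (wt : Y → ℕ) (n : ℕ) (f g : FreeAlgebra F Y) : Prop :=
  Fil wt (n + 1) f ∧ pr wt n f = g

lemma Lead.hom {n : ℕ} {f g : FreeAlgebra F Y} (h : Lead wt n f g) : Hom wt n g :=
  h.2 ▸ hom_pr n f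

lemma Hom.lead {n : ℕ} {f : FreeAlgebra F Y} (h : Hom wt n f) : Lead wt n f f := ⟨h.fil, h⟩

lemma exists_lead (wt : Y → ℕ) {f : FreeAlgebra F Y} (hf : f ≠ 0) :
    ∃ n g, Lead wt n f g ∧ g ≠ 0 := by
  obtain ⟨n, h, -⟩ := exists_fil wt f
  induction n with
  | zero => exact absurd h.eq_zero hf
  | succ n ih =>
    by_cases h0 : pr wt n f = 0
    · exact ih (h.of_pr h0)
    · exact ⟨n, _, ⟨h, rfl⟩, h0⟩

lemma Lead.add {n : ℕ} {f g f' g' : FreeAlgebra F Y} (h : Lead wt n f g) (h' : Lead wt n f' g') :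
    Lead wt n (f + f') (g + g') := ⟨h.1.add h'.1, by rw [map_add, h.2, h'.2]⟩

lemma Lead.sub {n : ℕ} {f g f' g' : FreeAlgebra F Y} (h : Lead wt n f g) (h' : Lead wt n f' g') :
    Lead wt n (f - f') (g - g') := ⟨h.1.sub h'.1, by rw [map_sub, h.2, h'.2]⟩

lemma Lead.smul {n : ℕ} {f g : FreeAlgebra F Y} (c : F) (h : Lead wt n f g) :
    Lead wt n (c • f) (c • g) := ⟨h.1.smul c, by rw [map_smul, h.2]⟩

lemma Lead.mul {m n : ℕ} {f g f' g' : FreeAlgebra F Y} (h : Lead wt m f g)
    (h' : Lead wt n f' g') : Lead wt (m + n) (f * f') (g * g') := by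
  have key : ∀ k, pr wt k (f * f') = ∑ i ∈ range (m + 1), ∑ j ∈ range (n + 1),
      if k = i + j then pr wt i f * pr wt j f' else 0 := by
    intro k
    conv_lhs => rw [← h.1.sum_eq, ← h'.1.sum_eq, sum_mul_sum]
    rw [map_sum]
    refine sum_congr rfl fun i _ => ?_
    rw [map_sum]
    refine sum_congr rfl fun j _ => ?_
    have h1 := (hom_pr (wt := wt) i f).mul (hom_pr j f')
    split_ifs with hk
    · rw [hk]; exact h1
    · exact h1.pr_ne hk
  constructor
  · intro k hk
    rw [key]
    refine sum_eq_zero fun i hi => sum_eq_zero fun j hj => if_neg ?_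
    rw [mem_range] at hi hj
    omega
  · rw [key, sum_eq_single m, sum_eq_single n, if_pos rfl, h.2, h'.2]
    · intro j _ hj
      exact if_neg (by omega)
    · simp
    · intro i hi him
      refine sum_eq_zero fun j hj => if_neg ?_
      rw [mem_range] at hi hj
      omega
    · simp

/-- the commutator. -/
def cm {A : Type*} [Ring A] (f g : A) : A := f * g - g * f

lemma Lead.cm {m n : ℕ} {f g f' g' : FreeAlgebra F Y} (h : Lead wt m f g)
    (h' : Lead wt n f' g') : Lead wt (m + n) (cm f f') (cm g g') :=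
  (h.mul h').sub (add_comm m n ▸ h'.mul h)

lemma Hom.cm {m n : ℕ} {f g : FreeAlgebra F Y} (hf : Hom wt m f) (hg : Hom wt n g) :
    Hom wt (m + n) (cm f g) := (hf.lead.cm hg.lead).hom

/-- Lie monomials. -/
inductive Mon (F : Type) [Field F] {Y : Type u} : FreeAlgebra F Y → Prop
  | gen (y : Y) : Mon F (FreeAlgebra.ι F y)
  | br {f g : FreeAlgebra F Y} : Mon F f → Mon F g → Mon F (cm f g)

/-- Lie elements of the free associative algebra. -/
def lieElt (F : Type) [Field F] (Y : Type u) : Submodule F (FreeAlgebra F Y) :=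
  Submodule.span F {f | Mon F f}

lemma lie_induction {P : FreeAlgebra F Y → Prop} (h0 : P 0) (hw : ∀ f, Mon F f → P f)
    (hadd : ∀ f g, P f → P g → P (f + g)) (hsmul : ∀ (c : F) f, P f → P (c • f))
    {f : FreeAlgebra F Y} (hf : f ∈ lieElt F Y) : P f := by
  induction hf using Submodule.span_induction with
  | mem x hx => exact hw x hx
  | zero => exact h0
  | add x y _ _ hx hy => exact hadd x y hx hy
  | smul c x _ hx => exact hsmul c x hx

lemma Mon.mem {f : FreeAlgebra F Y} (hf : Mon F f) : f ∈ lieElt F Y := Submodule.subset_span hf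

lemma ι_mem_lie (y : Y) : FreeAlgebra.ι F y ∈ lieElt F Y := (Mon.gen y).mem

section cm
variable {A : Type*} [Ring A]

lemma cm_add_left (f g h : A) : cm (f + g) h = cm f h + cm g h := by unfold cm; noncomm_ring
lemma cm_add_right (f g h : A) : cm f (g + h) = cm f g + cm f h := by unfold cm; noncomm_ring
lemma cm_sub_left (f g h : A) : cm (f - g) h = cm f h - cm g h := by unfold cm; noncomm_ring
lemma cm_sub_right (f g h : A) : cm f (g - h) = cm f g - cm f h := by unfold cm; noncomm_ring
@[simp] lemma cm_zero_left (f : A) : cm 0 f = 0 := by simp [cm]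
@[simp] lemma cm_zero_right (f : A) : cm f 0 = 0 := by simp [cm]
@[simp] lemma cm_self (f : A) : cm f f = 0 := by simp [cm]
lemma cm_swap (f g : A) : cm f g = -cm g f := by simp [cm]
lemma cm_smul_left [Algebra F A] (c : F) (f g : A) : cm (c • f) g = c • cm f g := by
  simp [cm, smul_sub]
lemma cm_smul_right [Algebra F A] (c : F) (f g : A) : cm f (c • g) = c • cm f g := by
  simp [cm, smul_sub]
lemma map_cm {B : Type*} [Ring B] [Algebra F A] [Algebra F B] (j : A →ₐ[F] B) (f g : A) :
    j (cm f g) = cm (j f) (j g) := by simp [cm]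

end cm

lemma cm_mem_lie {f g : FreeAlgebra F Y} (hf : f ∈ lieElt F Y) (hg : g ∈ lieElt F Y) :
    cm f g ∈ lieElt F Y := by
  refine lie_induction (P := fun f => cm f g ∈ lieElt F Y) (by simp) (fun f hf => ?_)
    (fun _ _ h1 h2 => by rw [cm_add_left]; exact add_mem h1 h2)
    (fun c _ h => by rw [cm_smul_left]; exact Submodule.smul_mem _ c h) hf
  exact lie_induction (P := fun g => cm f g ∈ lieElt F Y) (by simp)
    (fun g hg => (hf.br hg).mem)
    (fun _ _ h1 h2 => by rw [cm_add_right]; exact add_mem h1 h2)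
    (fun c _ h => by rw [cm_smul_right]; exact Submodule.smul_mem _ c h) hg

lemma Mon.exists_hom {f : FreeAlgebra F Y} (hf : Mon F f) {m : ℕ} (hm : ∀ y, m ≤ wt y) :
    ∃ n, m ≤ n ∧ Hom wt n f := by
  induction hf with
  | gen y => exact ⟨_, hm y, hom_ι y⟩
  | br _ _ h1 h2 =>
    obtain ⟨a, ha, h1⟩ := h1
    obtain ⟨b, -, h2⟩ := h2
    exact ⟨a + b, by omega, h1.cm h2⟩

lemma pr_mem_lie (n : ℕ) {f : FreeAlgebra F Y} (hf : f ∈ lieElt F Y) : pr wt n f ∈ lieElt F Y := by
  refine lie_induction (P := fun f => pr wt n f ∈ lieElt F Y) (by simp) (fun f hf => ?_)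
    (fun _ _ h1 h2 => by rw [map_add]; exact add_mem h1 h2)
    (fun c _ h => by rw [map_smul]; exact Submodule.smul_mem _ c h) hf
  obtain ⟨k, -, hk⟩ := hf.exists_hom (wt := wt) (m := 0) (fun _ => Nat.zero_le _)
  by_cases h : n = k
  · rw [h, hk]; exact hf.mem
  · rw [hk.pr_ne h]; exact zero_mem _

lemma pr_zero_of_lie (hwt : ∀ y, 1 ≤ wt y) {f : FreeAlgebra F Y} (hf : f ∈ lieElt F Y) :
    pr wt 0 f = 0 := by
  refine lie_induction (P := fun f => pr wt 0 f = 0) (by simp) (fun f hf => ?_)
    (fun _ _ h1 h2 => by rw [map_add, h1, h2, add_zero])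
    (fun c _ h => by rw [map_smul, h, smul_zero]) hf
  obtain ⟨k, hk1, hk⟩ := hf.exists_hom hwt
  exact hk.pr_ne (by omega)

lemma map_mem_lie {Y' : Type*} (j : FreeAlgebra F Y →ₐ[F] FreeAlgebra F Y')
    (hj : ∀ y, j (FreeAlgebra.ι F y) ∈ lieElt F Y') {f : FreeAlgebra F Y} (hf : f ∈ lieElt F Y) :
    j f ∈ lieElt F Y' := by
  refine lie_induction (P := fun f => j f ∈ lieElt F Y') (by simp) (fun f hf => ?_)
    (fun _ _ h1 h2 => by rw [map_add]; exact add_mem h1 h2)
    (fun c _ h => by rw [map_smul]; exact Submodule.smul_mem _ c h) hf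
  induction hf with
  | gen y => exact hj y
  | br _ _ h1 h2 => rw [map_cm]; exact cm_mem_lie h1 h2

lemma pr_map {Y' : Type*} {wt' : Y' → ℕ} (j : FreeAlgebra F Y →ₐ[F] FreeAlgebra F Y')
    (hj : ∀ y, Hom wt' (wt y) (j (FreeAlgebra.ι F y))) (n : ℕ) (f : FreeAlgebra F Y) :
    pr wt' n (j f) = j (pr wt n f) := by
  have h1 : ∀ l : List Y, Hom wt' (wtw wt l) (j (word F l)) := by
    intro l
    induction l with
    | nil => simpa using hom_one
    | cons y l ih => rw [word_cons, map_mul, wtw_cons]; exact (hj y).mul ih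
  have : (pr wt' n).comp j.toLinearMap = j.toLinearMap.comp (pr wt n) := by
    refine word_ext fun l => ?_
    simp only [LinearMap.comp_apply, AlgHom.toLinearMap_apply, pr_word]
    split_ifs with h
    · rw [← h]; exact h1 l
    · rw [map_zero]; exact (h1 l).pr_ne (Ne.symm h)
  exact LinearMap.congr_fun this f

end Pool.Agent.P.MP_5be460_lc
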